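import Mathlib

set_option autoImplicit false

open MvPolynomial

namespace Pool.Agent.Helper947.Crv

/-- polynomials in the four homogeneous coordinates `z, w, x, y` of projective space -/
abbrev Pl (K : Type*) [CommRing K] : Type _ := MvPolynomial (Fin 4) K

/-- polynomials in the two variables `z, w` -/
abbrev P2 (K : Type*) [CommRing K] : Type _ := MvPolynomial (Fin 2) K

/-- forms of degree `m` in four variables -/
abbrev Fm (K : Type*) [CommRing K] (m : ℕ) : Submodule K (Pl K) := homogeneousSubmodule (Fin 4) K m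

/-- homogeneous ideals -/
def Hom {K : Type*} [CommRing K] (I : Ideal (Pl K)) : Prop :=
  ∀ p ∈ I, ∀ m, homogeneousComponent m p ∈ I

/-- degree `m` part of the quotient by an ideal -/
abbrev Qm {K : Type*} [CommRing K] (I : Ideal (Pl K)) (m : ℕ) : Type _ :=
  Fm K m ⧸ (I.restrictScalars K).comap (Fm K m).subtype

/-- Hilbert function -/
noncomputable def hf {K : Type*} [Field K] (I : Ideal (Pl K)) (m : ℕ) : ℕ :=
  Module.finrank K (Qm I m)

/-- inclusion of the polynomials in `z, w` -/
noncomputable def ι2 (K : Type*) [CommRing K] : P2 K →ₐ[K] Pl K :=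
  rename (Fin.castLE (by norm_num : 2 ≤ 4))

section line

variable {K : Type*} [CommRing K]

/-- linear form given by a row of a matrix -/
noncomputable def row (C : Matrix (Fin 2) (Fin 2) K) (a : Fin 2) : P2 K :=
  MvPolynomial.C (C a 0) * X 0 + MvPolynomial.C (C a 1) * X 1

/-- restriction to the line `(x, y) = C (z, w)` -/
noncomputable def res (C : Matrix (Fin 2) (Fin 2) K) : Pl K →ₐ[K] P2 K :=
  aeval ![X 0, X 1, row C 0, row C 1]

/-- ideal of the line `(x, y) = C (z, w)` -/
noncomputable def Lam (C : Matrix (Fin 2) (Fin 2) K) : Ideal (Pl K) := RingHom.ker (res C)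

/-- derivative of a polynomial in the direction `G` along the line `(x, y) = C (z, w)` -/
noncomputable def dG (C : Matrix (Fin 2) (Fin 2) K) (G : Fin 2 → P2 K) (p : Pl K) : P2 K :=
  res C (pderiv 2 p) * G 0 + res C (pderiv 3 p) * G 1

theorem dG_add (C : Matrix (Fin 2) (Fin 2) K) (G : Fin 2 → P2 K) (p q : Pl K) :
    dG C G (p + q) = dG C G p + dG C G q := by
  simp only [dG, map_add]; ring

theorem dG_mul (C : Matrix (Fin 2) (Fin 2) K) (G : Fin 2 → P2 K) (p q : Pl K) :
    dG C G (p * q) = res C p * dG C G q + dG C G p * res C q := by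
  simp only [dG, Derivation.leibniz, smul_eq_mul, map_add, map_mul]; ring

/-- ideal of the double line with support `(x, y) = C (z, w)` and direction `G` -/
noncomputable def Qd (C : Matrix (Fin 2) (Fin 2) K) (G : Fin 2 → P2 K) : Ideal (Pl K) where
  carrier := {p | res C p = 0 ∧ dG C G p = 0}
  add_mem' := fun {a b} ha hb => ⟨by rw [map_add, ha.1, hb.1, add_zero],
    by rw [dG_add, ha.2, hb.2, add_zero]⟩
  zero_mem' := ⟨map_zero _, by simp [dG]⟩
  smul_mem' := fun c x hx => ⟨by rw [smul_eq_mul, map_mul, hx.1, mul_zero],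
    by rw [smul_eq_mul, dG_mul, hx.1, hx.2]; simp⟩

end line

/-- a configuration of double lines and lines -/
structure Cfg (K : Type*) [CommRing K] (J M : Type) where
  A : J → Matrix (Fin 2) (Fin 2) K
  G : J → Fin 2 → P2 K
  B : M → Matrix (Fin 2) (Fin 2) K

namespace Cfg

variable {K : Type*} [CommRing K] {J M : Type} (c : Cfg K J M)

/-- ideal of the union of the supports of the double lines -/
noncomputable def GA : Ideal (Pl K) := ⨅ j, Lam (c.A j)

/-- ideal of the union of the double lines -/
noncomputable def GD : Ideal (Pl K) := ⨅ j, Qd (c.A j) (c.G j)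

/-- ideal of the union of the simple lines -/
noncomputable def GB : Ideal (Pl K) := ⨅ i, Lam (c.B i)

/-- ideal of the curve -/
noncomputable def J0 : Ideal (Pl K) := c.GD ⊓ c.GB

end Cfg

section defs2

variable {K : Type*} [Field K]

/-- no torsion over `K[z, w]` -/
def Tf (I : Ideal (Pl K)) : Prop := ∀ g : P2 K, g ≠ 0 → ∀ f, ι2 K g * f ∈ I → f ∈ I

/-- finiteness over `K[z, w]` -/
def Fin2 (I : Ideal (Pl K)) : Prop := ∃ N, ∀ f ∈ Fm K N, f ∈ I ⊔ Ideal.span {X 0, X 1}

/-- colon ideal -/
def col (I : Ideal (Pl K)) (n : Pl K) : Ideal (Pl K) where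
  carrier := {f | f * n ∈ I}
  add_mem' := fun {a b} ha hb => by
    simp only [Set.mem_ofPred_eq, add_mul] at *; exact I.add_mem ha hb
  zero_mem' := by simp
  smul_mem' := fun c x hx => by
    simp only [Set.mem_ofPred_eq, smul_eq_mul, mul_assoc] at *; exact I.mul_mem_left c hx

/-- reduction of an ideal modulo the maximal ideal of a valuation ring -/
noncomputable def red (V : ValuationSubring K) (I : Ideal (Pl K)) :
    Ideal (Pl (IsLocalRing.ResidueField V)) :=
  (I.comap (MvPolynomial.map V.subtype)).map (MvPolynomial.map (IsLocalRing.residue V))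

/-- good configurations: the double lines are pairwise skew, the simple lines are pairwise skew,
the double and simple lines have
different supports, `E` is the set of meeting pairs and all crossings are planar -/
structure Cfg.Good {J M : Type} (c : Cfg K J M) (e : ℕ) (E : Finset (J × M)) : Prop where
  G_hom : ∀ j a, c.G j a ∈ homogeneousSubmodule (Fin 2) K e
  G_cop : ∀ j, ∃ N, ∀ f ∈ homogeneousSubmodule (Fin 2) K N, f ∈ Ideal.span {c.G j 0, c.G j 1}
  skewA : ∀ j j', j ≠ j' → (c.A j - c.A j').det ≠ 0
  skewB : ∀ i i', i ≠ i' → (c.B i - c.B i').det ≠ 0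
  ne : ∀ j i, c.A j ≠ c.B i
  inc : ∀ j i, (c.A j - c.B i).det = 0 ↔ (j, i) ∈ E
  pl : ∀ j i, (j, i) ∈ E → ∀ t : Fin 2 → K, (c.A j - c.B i).mulVec t = 0 → ∀ s : Fin 2 → K,
    eval t (c.G j 0) * (c.A j - c.B i).mulVec s 1 = eval t (c.G j 1) * (c.A j - c.B i).mulVec s 0

end defs2

end Pool.Agent.Helper947.Crv
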