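import Mathlib
import Pool.Agent.Helper947.Crv.Defs

open MvPolynomial Filter

namespace Pool.Agent.Helper947.Crv.LA1

section line

variable {K : Type*} [CommRing K]

end line

namespace Cfg

variable {K : Type*} [CommRing K] {J M : Type} (c : Cfg K J M)

end Cfg

section defs2

variable {K : Type*} [Field K]

end defs2

section hilb

variable {K : Type*} [Field K] {I J N : Ideal (Pl K)}

theorem a1_comp_mul {n : Pl K} {d : ℕ} (hn : n ∈ Fm K d) (b : Pl K) (m : ℕ) :
    homogeneousComponent (m + d) (b * n) = homogeneousComponent m b * n := by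
  have h1 : b * n = ∑ i ∈ Finset.range (b.totalDegree + 1), homogeneousComponent i b * n := by
    rw [← Finset.sum_mul, sum_homogeneousComponent]
  have h2 : ∀ i, homogeneousComponent (m + d) (homogeneousComponent i b * n) =
      if m = i then homogeneousComponent i b * n else 0 := by
    intro i
    have h3 : homogeneousComponent i b * n ∈ homogeneousSubmodule (Fin 4) K (i + d) :=
      (homogeneousComponent_isHomogeneous i b).mul hn
    rw [homogeneousComponent_of_mem h3]
    by_cases h : m = i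
    · rw [if_pos h, if_pos (by omega)]
    · rw [if_neg h, if_neg (by omega)]
  rw [h1, map_sum]
  simp only [h2]
  rw [Finset.sum_ite_eq]
  split_ifs with h
  · rfl
  · rw [homogeneousComponent_eq_zero, zero_mul]
    rw [Finset.mem_range] at h
    omega

instance a1_fm_fin (m : ℕ) : FiniteDimensional K (Fm K m) := by
  have hle : Fm K m ≤ restrictTotalDegree (Fin 4) K m := by
    intro p hp
    rw [mem_restrictTotalDegree]
    exact IsHomogeneous.totalDegree_le hp
  exact Submodule.finiteDimensional_of_le hle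

/-- degree `m` part of an ideal -/
noncomputable abbrev A1Pp (I : Ideal (Pl K)) (m : ℕ) : Submodule K (Fm K m) :=
  (I.restrictScalars K).comap (Fm K m).subtype

theorem a1_mem_Pp (I : Ideal (Pl K)) (m : ℕ) (x : Fm K m) : x ∈ A1Pp I m ↔ (x : Pl K) ∈ I := Iff.rfl

theorem a1_hf_add (I : Ideal (Pl K)) (m : ℕ) :
    hf I m + Module.finrank K (A1Pp I m) = Module.finrank K (Fm K m) :=
  Submodule.finrank_quotient_add_finrank (A1Pp I m)

theorem a1_Pp_mono (h : I ≤ J) (m : ℕ) : A1Pp I m ≤ A1Pp J m := fun _ hx => h hx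

theorem a1_comp_self {m : ℕ} (x : Fm K m) : homogeneousComponent m (x : Pl K) = x :=
  homogeneousComponent_eq_self x.2

theorem _root_.Pool.Agent.Helper947.Crv.hf_anti (h : I ≤ J) (m : ℕ) : hf J m ≤ hf I m := by
  have h1 := a1_hf_add I m
  have h2 := a1_hf_add J m
  have h3 := Submodule.finrank_mono (a1_Pp_mono h m)
  omega

theorem _root_.Pool.Agent.Helper947.Crv.hf_inf_sup (hI : Hom I) (hJ : Hom J) (m : ℕ) :
    hf (I ⊓ J) m + hf (I ⊔ J) m = hf I m + hf J m := by
  have h1 := a1_hf_add I m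
  have h2 := a1_hf_add J m
  have h3 := a1_hf_add (I ⊓ J) m
  have h4 := a1_hf_add (I ⊔ J) m
  have h5 : A1Pp (I ⊓ J) m = A1Pp I m ⊓ A1Pp J m := by
    ext x
    exact Iff.rfl
  have h6 : A1Pp (I ⊔ J) m = A1Pp I m ⊔ A1Pp J m := by
    apply le_antisymm
    · intro x hx
      have hx' : (x : Pl K) ∈ I ⊔ J := hx
      obtain ⟨a, ha, b, hb, hab⟩ := Submodule.mem_sup.mp hx'
      refine Submodule.mem_sup.mpr ⟨⟨homogeneousComponent m a, homogeneousComponent_mem m a⟩,
        hI a ha m, ⟨homogeneousComponent m b, homogeneousComponent_mem m b⟩, hJ b hb m, ?_⟩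
      apply Subtype.ext
      show homogeneousComponent m a + homogeneousComponent m b = x
      rw [← map_add, hab, a1_comp_self]
    · exact sup_le (a1_Pp_mono le_sup_left m) (a1_Pp_mono le_sup_right m)
  have h7 := Submodule.finrank_sup_add_finrank_inf_eq (A1Pp I m) (A1Pp J m)
  rw [← h5, ← h6] at h7
  omega

theorem _root_.Pool.Agent.Helper947.Crv.mem_of_hf_le {m : ℕ} (h : I ≤ J) (h' : hf I m ≤ hf J m) {f : Pl K} (hf' : f ∈ Fm K m)
    (hJ : f ∈ J) : f ∈ I := by
  have h1 := a1_hf_add I m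
  have h2 := a1_hf_add J m
  have h3 : A1Pp I m = A1Pp J m := by
    refine Submodule.eq_of_le_of_finrank_le (a1_Pp_mono h m) ?_
    omega
  have h4 : (⟨f, hf'⟩ : Fm K m) ∈ A1Pp J m := hJ
  rw [← h3] at h4
  exact h4

/-- multiplication by a form, into the quotient -/
noncomputable def a1psi (I : Ideal (Pl K)) {n : Pl K} {d : ℕ} (hn : n ∈ Fm K d) (m : ℕ) :
    Fm K m →ₗ[K] Qm I (m + d) where
  toFun f := (A1Pp I (m + d)).mkQ ⟨(f : Pl K) * n, IsHomogeneous.mul f.2 hn⟩
  map_add' f g := by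
    rw [← map_add]
    congr 1
    apply Subtype.ext
    show ((f + g : Fm K m) : Pl K) * n = (f : Pl K) * n + g * n
    rw [Submodule.coe_add, add_mul]
  map_smul' c f := by
    rw [RingHom.id_apply, ← map_smul]
    congr 1
    apply Subtype.ext
    show ((c • f : Fm K m) : Pl K) * n = c • ((f : Pl K) * n)
    rw [Submodule.coe_smul, smul_mul_assoc]

theorem a1_psi_apply (I : Ideal (Pl K)) {n : Pl K} {d : ℕ} (hn : n ∈ Fm K d) (m : ℕ) (f : Fm K m) :
    a1psi I hn m f = (A1Pp I (m + d)).mkQ ⟨(f : Pl K) * n, IsHomogeneous.mul f.2 hn⟩ := rfl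

theorem a1_psi_ker (I : Ideal (Pl K)) {n : Pl K} {d : ℕ} (hn : n ∈ Fm K d) (m : ℕ) :
    LinearMap.ker (a1psi I hn m) = A1Pp (col I n) m := by
  ext f
  rw [LinearMap.mem_ker, a1_psi_apply, Submodule.mkQ_apply, Submodule.Quotient.mk_eq_zero]
  exact Iff.rfl

theorem a1_psi_range (hI : Hom I) {n : Pl K} {d : ℕ} (hn : n ∈ Fm K d) (m : ℕ) :
    LinearMap.range (a1psi I hn m) = (A1Pp (I ⊔ Ideal.span {n}) (m + d)).map (A1Pp I (m + d)).mkQ := by
  ext y
  constructor
  · rintro ⟨f, rfl⟩
    refine ⟨⟨(f : Pl K) * n, IsHomogeneous.mul f.2 hn⟩, ?_, rfl⟩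
    show (f : Pl K) * n ∈ I ⊔ Ideal.span {n}
    exact Ideal.mul_mem_left _ _ (Ideal.mem_sup_right (Ideal.mem_span_singleton_self n))
  · rintro ⟨x, hx, rfl⟩
    have hx' : (x : Pl K) ∈ I ⊔ Ideal.span {n} := hx
    obtain ⟨a, ha, b', hb', hab⟩ := Submodule.mem_sup.mp hx'
    obtain ⟨b, rfl⟩ := Ideal.mem_span_singleton'.mp hb'
    refine ⟨⟨homogeneousComponent m b, homogeneousComponent_mem m b⟩, ?_⟩
    rw [a1_psi_apply, Submodule.mkQ_apply, Submodule.mkQ_apply, Submodule.Quotient.eq]
    show homogeneousComponent m b * n - (x : Pl K) ∈ I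
    have h1 : (x : Pl K) = homogeneousComponent (m + d) a + homogeneousComponent m b * n := by
      rw [← a1_comp_mul hn, ← map_add, hab, a1_comp_self]
    have h2 : homogeneousComponent m b * n - (x : Pl K) = - homogeneousComponent (m + d) a := by
      rw [h1]; ring
    rw [h2]
    exact I.neg_mem (hI a ha _)

theorem _root_.Pool.Agent.Helper947.Crv.hf_col (hI : Hom I) {n : Pl K} {d : ℕ} (hn : n ∈ Fm K d) (m : ℕ) :
    hf (col I n) m + hf (I ⊔ Ideal.span {n}) (m + d) = hf I (m + d) := by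
  have e1 : hf (col I n) m = Module.finrank K (LinearMap.range (a1psi I hn m)) := by
    rw [← LinearEquiv.finrank_eq (LinearMap.quotKerEquivRange (a1psi I hn m)), a1_psi_ker]
    rfl
  have e2 : hf (I ⊔ Ideal.span {n}) (m + d) =
      Module.finrank K (Qm I (m + d) ⧸ LinearMap.range (a1psi I hn m)) := by
    rw [a1_psi_range hI hn m, LinearEquiv.finrank_eq (Submodule.quotientQuotientEquivQuotient
      (A1Pp I (m + d)) (A1Pp (I ⊔ Ideal.span {n}) (m + d)) (a1_Pp_mono le_sup_left _))]
    rfl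
  have e3 := Submodule.finrank_quotient_add_finrank (LinearMap.range (a1psi I hn m))
  have e4 : hf I (m + d) = Module.finrank K (Qm I (m + d)) := rfl
  omega

end hilb

end Pool.Agent.Helper947.Crv.LA1

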