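import Mathlib
import Pool.Agent.Helper947.Crv.Defs

open MvPolynomial Filter

namespace Pool.Agent.Helper947.Crv.LA2

section line

variable {K : Type*} [CommRing K]

end line

namespace Cfg

variable {K : Type*} [CommRing K] {J M : Type} (c : Cfg K J M)

end Cfg

section defs2

variable {K : Type*} [Field K]

end defs2

section hilb

variable {K : Type*} [Field K] {I J N : Ideal (Pl K)}

attribute [local instance] MvPolynomial.gradedAlgebra

lemma hom_iff (I : Ideal (Pl K)) : Hom I ↔ I.IsHomogeneous (homogeneousSubmodule (Fin 4) K) := by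
  constructor
  · intro h m p hp
    have e := decomposition.decompose'_apply (σ := Fin 4) (R := K) p m
    have h1 := h p hp m
    rw [← e] at h1
    exact h1
  · intro h p hp m
    exact homogeneousComponent_mem_of_mem h hp m

theorem _root_.Pool.Agent.Helper947.Crv.Hom.inf (hI : Hom I) (hJ : Hom J) : Hom (I ⊓ J) :=
  (hom_iff _).2 (((hom_iff _).1 hI).inf ((hom_iff _).1 hJ))

theorem _root_.Pool.Agent.Helper947.Crv.Hom.sup (hI : Hom I) (hJ : Hom J) : Hom (I ⊔ J) :=
  (hom_iff _).2 (((hom_iff _).1 hI).sup ((hom_iff _).1 hJ))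

theorem _root_.Pool.Agent.Helper947.Crv.Hom.mul (hI : Hom I) (hJ : Hom J) : Hom (I * J) :=
  (hom_iff _).2 (((hom_iff _).1 hI).mul ((hom_iff _).1 hJ))

theorem _root_.Pool.Agent.Helper947.Crv.Hom.span {n : Pl K} {d : ℕ} (hn : n ∈ Fm K d) : Hom (Ideal.span {n}) :=
  (hom_iff _).2 (Ideal.homogeneous_span _ _ fun x hx => ⟨d, by
    rw [Set.mem_singleton_iff] at hx
    rw [hx]
    exact hn⟩)

theorem _root_.Pool.Agent.Helper947.Crv.Hom.iInf {ι : Type} {F : ι → Ideal (Pl K)} (h : ∀ i, Hom (F i)) : Hom (⨅ i, F i) :=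
  (hom_iff _).2 (Ideal.IsHomogeneous.iInf fun i => (hom_iff _).1 (h i))

lemma comp_mul (f n : Pl K) (m d : ℕ) (hn : n ∈ Fm K d) :
    homogeneousComponent (m + d) (f * n) = homogeneousComponent m f * n := by
  have h1 : f * n = ∑ i ∈ Finset.range (f.totalDegree + 1), homogeneousComponent i f * n := by
    rw [← Finset.sum_mul, sum_homogeneousComponent]
  rw [h1, map_sum]
  have h2 : ∀ i ∈ Finset.range (f.totalDegree + 1),
      homogeneousComponent (m + d) (homogeneousComponent i f * n) =
        if m = i then homogeneousComponent i f * n else 0 := by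
    intro i _
    have h3 : homogeneousComponent i f * n ∈ homogeneousSubmodule (Fin 4) K (i + d) :=
      (homogeneousComponent_isHomogeneous i f).mul hn
    rw [homogeneousComponent_of_mem h3]
    by_cases h : m = i
    · rw [if_pos h, if_pos (by rw [h])]
    · rw [if_neg h, if_neg (by omega)]
  rw [Finset.sum_congr rfl h2, Finset.sum_ite_eq]
  split_ifs with h
  · rfl
  · rw [homogeneousComponent_eq_zero, zero_mul]
    rw [Finset.mem_range] at h
    omega

theorem _root_.Pool.Agent.Helper947.Crv.Hom.col (hI : Hom I) {n : Pl K} {d : ℕ} (hn : n ∈ Fm K d) : Hom (col I n) := by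
  intro p hp m
  have h1 : p * n ∈ I := hp
  show homogeneousComponent m p * n ∈ I
  rw [← comp_mul p n m d hn]
  exact hI _ h1 _

theorem _root_.Pool.Agent.Helper947.Crv.Hom.radical (hI : Hom I) : Hom I.radical :=
  (hom_iff _).2 ((hom_iff _).1 hI).radical

end hilb

end Pool.Agent.Helper947.Crv.LA2

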