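import Mathlib
import Pool.Agent.Helper947.Crv.Defs

open MvPolynomial Filter

namespace Pool.Agent.Helper947.Crv.LA3

section line

variable {K : Type*} [CommRing K]

end line

namespace Cfg

variable {K : Type*} [CommRing K] {J M : Type} (c : Cfg K J M)

end Cfg

section defs2

variable {K : Type*} [Field K]

end defs2

section hilb

variable {K : Type*} [Field K] {I J N : Ideal (Pl K)}

theorem _root_.Pool.Agent.Helper947.Crv.Tf.col (hI : Tf I) (n : Pl K) : Tf (col I n) := by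
  intro g hg f hf
  have h1 : ι2 K g * f * n ∈ I := hf
  show f * n ∈ I
  rw [mul_assoc] at h1
  exact hI g hg _ h1

theorem _root_.Pool.Agent.Helper947.Crv.Tf.radical (hI : Tf I) : Tf I.radical := by
  intro g hg f hf
  obtain ⟨k, hk⟩ := hf
  refine ⟨k, hI (g ^ k) (pow_ne_zero k hg) _ ?_⟩
  rw [map_pow, ← mul_pow]
  exact hk

theorem _root_.Pool.Agent.Helper947.Crv.Tf.inf (hI : Tf I) (hJ : Tf J) : Tf (I ⊓ J) := by
  intro g hg f hf
  exact ⟨hI g hg f hf.1, hJ g hg f hf.2⟩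

theorem _root_.Pool.Agent.Helper947.Crv.Fin2.mono (hI : Fin2 I) (h : I ≤ J) : Fin2 J := by
  obtain ⟨N, hN⟩ := hI
  exact ⟨N, fun f hf => sup_le_sup_right h _ (hN f hf)⟩

theorem sup_mul_sup_le' {R : Type*} [CommRing R] (I J m : Ideal R) :
    (I ⊔ m) * (J ⊔ m) ≤ I * J ⊔ m := by
  rw [Ideal.mul_le]
  intro r hr t ht
  obtain ⟨i, hi, a, ha, rfl⟩ := Submodule.mem_sup.1 hr
  obtain ⟨j, hj, b, hb, rfl⟩ := Submodule.mem_sup.1 ht
  have e1 : (i + a) * (j + b) = i * j + (i * b + a * (j + b)) := by ring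
  rw [e1]
  refine Submodule.add_mem_sup (Ideal.mul_mem_mul hi hj) ?_
  exact m.add_mem (m.mul_mem_left _ hb) (m.mul_mem_right _ ha)

theorem sup_mul_sup_le (m : Ideal (Pl K)) : (I ⊔ m) * (J ⊔ m) ≤ I * J ⊔ m :=
  sup_mul_sup_le' I J m

theorem mono_split (d : Fin 4 →₀ ℕ) (N N' : ℕ) (hd : d.degree = N + N') :
    ∃ g g' : Fin 4 →₀ ℕ, d = g + g' ∧ g.degree = N ∧ g'.degree = N' := by
  obtain ⟨g, hgd, hg⟩ := Finsupp.exists_le_degree_eq d N (hd ▸ Nat.le_add_right N N')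
  obtain ⟨g', rfl⟩ := exists_add_of_le hgd
  refine ⟨g, g', rfl, hg, ?_⟩
  have h1 : (g + g').degree = g.degree + g'.degree := map_add _ _ _
  rw [h1, hg] at hd
  exact Nat.add_left_cancel hd

theorem mono_mem (N N' : ℕ) (m : Ideal (Pl K)) (hI : ∀ f ∈ Fm K N, f ∈ I ⊔ m)
    (hJ : ∀ f ∈ Fm K N', f ∈ J ⊔ m) (d : Fin 4 →₀ ℕ) (hd : d.degree = N + N') (c : K) :
    (monomial d c : Pl K) ∈ I * J ⊔ m := by
  obtain ⟨g, g', rfl, hg, hg'⟩ := mono_split d N N' hd
  have e1 : (monomial (g + g') c : Pl K) = monomial g c * monomial g' (1 : K) := by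
    rw [monomial_mul, mul_one]
  rw [e1]
  apply sup_mul_sup_le
  apply Ideal.mul_mem_mul
  · exact hI _ (isHomogeneous_monomial _ hg)
  · exact hJ _ (isHomogeneous_monomial _ hg')

theorem _root_.Pool.Agent.Helper947.Crv.Fin2.mul (hI : Fin2 I) (hJ : Fin2 J) : Fin2 (I * J) := by
  obtain ⟨N, hN⟩ := hI
  obtain ⟨N', hN'⟩ := hJ
  refine ⟨N + N', fun f hf => ?_⟩
  have hf' : f.IsHomogeneous (N + N') := hf
  have hall : ∀ d ∈ f.support, (monomial d (coeff d f) : Pl K) ∈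
      I * J ⊔ Ideal.span {X 0, X 1} := by
    intro d hd
    refine mono_mem N N' _ hN hN' d ?_ _
    rw [Finsupp.degree_eq_weight_one]
    exact hf' (mem_support_iff.1 hd)
  have h2 := Ideal.sum_mem _ hall
  have h3 := f.as_sum
  rw [h3]
  exact h2

theorem _root_.Pool.Agent.Helper947.Crv.Fin2.iInf {ι : Type} [Fintype ι] {F : ι → Ideal (Pl K)} (h : ∀ i, Fin2 (F i)) :
    Fin2 (⨅ i, F i) := by
  classical
  have key : ∀ s : Finset ι, Fin2 (∏ i ∈ s, F i) := by
    intro s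
    induction s using Finset.induction_on with
    | empty =>
      rw [Finset.prod_empty, Ideal.one_eq_top]
      exact ⟨0, fun f _ => by simp⟩
    | insert a s ha ih =>
      rw [Finset.prod_insert ha]
      exact (h a).mul ih
  refine (key Finset.univ).mono ?_
  rw [← Finset.inf_univ_eq_iInf]
  exact Ideal.prod_le_inf

theorem _root_.Pool.Agent.Helper947.Crv.Tf.iInf {ι : Type} {F : ι → Ideal (Pl K)} (h : ∀ i, Tf (F i)) : Tf (⨅ i, F i) := by
  intro g hg f hf
  rw [Submodule.mem_iInf] at hf ⊢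
  exact fun i => h i g hg f (hf i)

end hilb

end Pool.Agent.Helper947.Crv.LA3

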