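import Mathlib
import Pool.Agent.Helper947.Crv.Defs

open MvPolynomial Filter

namespace Pool.Agent.Helper947.Crv.LC1

section line

variable {K : Type*} [CommRing K]

end line

namespace Cfg

variable {K : Type*} [CommRing K] {J M : Type} (c : Cfg K J M)

end Cfg

section defs2

variable {K : Type*} [Field K]

end defs2

section lines

variable {K : Type*} [Field K]

theorem _root_.Pool.Agent.Helper947.Crv.res_ι2 (C : Matrix (Fin 2) (Fin 2) K) (g : P2 K) : res C (ι2 K g) = g := by
  have h : (res C).comp (ι2 K) = AlgHom.id K (P2 K) := by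
    apply MvPolynomial.algHom_ext
    intro i
    rw [AlgHom.comp_apply, ι2, rename_X, res, aeval_X]
    fin_cases i <;> rfl
  exact DFunLike.congr_fun h g

theorem _root_.Pool.Agent.Helper947.Crv.Lam_prime (C : Matrix (Fin 2) (Fin 2) K) : (Lam C).IsPrime := RingHom.ker_isPrime _

theorem mem_Lam {C : Matrix (Fin 2) (Fin 2) K} {p : Pl K} : p ∈ Lam C ↔ res C p = 0 := RingHom.mem_ker

theorem row_hom (C : Matrix (Fin 2) (Fin 2) K) (a : Fin 2) : (row C a).IsHomogeneous 1 := by
  unfold row
  refine IsHomogeneous.add ?_ ?_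
  · have := (isHomogeneous_C (Fin 2) (C a 0)).mul (isHomogeneous_X K (0 : Fin 2))
    simpa using this
  · have := (isHomogeneous_C (Fin 2) (C a 1)).mul (isHomogeneous_X K (1 : Fin 2))
    simpa using this

theorem res_hom (C : Matrix (Fin 2) (Fin 2) K) {p : Pl K} {m : ℕ} (hp : p.IsHomogeneous m) :
    (res C p).IsHomogeneous m := by
  have h : ∀ i : Fin 4, ((![X 0, X 1, row C 0, row C 1] : Fin 4 → P2 K) i).IsHomogeneous 1 := by
    intro i
    fin_cases i
    · exact isHomogeneous_X K (0 : Fin 2)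
    · exact isHomogeneous_X K (1 : Fin 2)
    · exact row_hom C 0
    · exact row_hom C 1
  have := hp.aeval _ h
  rw [one_mul] at this
  exact this

theorem res_comp (C : Matrix (Fin 2) (Fin 2) K) (p : Pl K) (m : ℕ) :
    res C (homogeneousComponent m p) = homogeneousComponent m (res C p) := by
  conv_rhs => rw [← sum_homogeneousComponent (φ := p)]
  rw [map_sum, map_sum]
  have h : ∀ i ∈ Finset.range (p.totalDegree + 1),
      homogeneousComponent m (res C (homogeneousComponent i p)) =
        if m = i then res C (homogeneousComponent i p) else 0 := fun i _ =>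
    homogeneousComponent_of_mem (res_hom C (homogeneousComponent_isHomogeneous i p))
  rw [Finset.sum_congr rfl h, Finset.sum_ite_eq]
  split_ifs with hm
  · rfl
  · rw [homogeneousComponent_eq_zero m p (by
      rw [Finset.mem_range] at hm; omega), map_zero]

theorem _root_.Pool.Agent.Helper947.Crv.Lam_hom (C : Matrix (Fin 2) (Fin 2) K) : Hom (Lam C) := by
  intro p hp m
  rw [mem_Lam] at *
  rw [res_comp, hp, map_zero]

theorem _root_.Pool.Agent.Helper947.Crv.Lam_tf (C : Matrix (Fin 2) (Fin 2) K) : Tf (Lam C) := by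
  intro g hg f hf
  rw [mem_Lam] at *
  rw [map_mul, res_ι2] at hf
  exact (mul_eq_zero.1 hf).resolve_left hg

theorem ι2_X0 : ι2 K (X 0) = X 0 := by
  rw [ι2, rename_X]; rfl

theorem ι2_X1 : ι2 K (X 1) = X 1 := by
  rw [ι2, rename_X]; rfl

theorem ι2_C (a : K) : ι2 K (MvPolynomial.C a) = MvPolynomial.C a := by
  rw [ι2, rename_C]

theorem ι2_row_mem (C : Matrix (Fin 2) (Fin 2) K) (a : Fin 2) :
    ι2 K (row C a) ∈ (Ideal.span {X 0, X 1} : Ideal (Pl K)) := by
  rw [row, map_add, map_mul, map_mul, ι2_C, ι2_C, ι2_X0, ι2_X1]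
  refine Ideal.add_mem _ (Ideal.mul_mem_left _ _ ?_) (Ideal.mul_mem_left _ _ ?_)
  · exact Ideal.subset_span (by simp)
  · exact Ideal.subset_span (by simp)

theorem X2_sub_mem (C : Matrix (Fin 2) (Fin 2) K) : X 2 - ι2 K (row C 0) ∈ Lam C := by
  rw [mem_Lam, map_sub, res_ι2, res, aeval_X]
  simp

theorem X3_sub_mem (C : Matrix (Fin 2) (Fin 2) K) : X 3 - ι2 K (row C 1) ∈ Lam C := by
  rw [mem_Lam, map_sub, res_ι2, res, aeval_X]
  simp

theorem _root_.Pool.Agent.Helper947.Crv.Lam_fin2 (C : Matrix (Fin 2) (Fin 2) K) : Fin2 (Lam C) := by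
  refine ⟨1, ?_⟩
  have hX : ∀ i : Fin 4, (X i : Pl K) ∈ Lam C ⊔ Ideal.span {X 0, X 1} := by
    intro i
    fin_cases i
    · exact Ideal.mem_sup_right (Ideal.subset_span (by simp))
    · exact Ideal.mem_sup_right (Ideal.subset_span (by simp))
    · have : (X 2 : Pl K) = (X 2 - ι2 K (row C 0)) + ι2 K (row C 0) := by ring
      show (X 2 : Pl K) ∈ _
      rw [this]
      exact Ideal.add_mem _ (Ideal.mem_sup_left (X2_sub_mem C))
        (Ideal.mem_sup_right (ι2_row_mem C 0))
    · have : (X 3 : Pl K) = (X 3 - ι2 K (row C 1)) + ι2 K (row C 1) := by ring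
      show (X 3 : Pl K) ∈ _
      rw [this]
      exact Ideal.add_mem _ (Ideal.mem_sup_left (X3_sub_mem C))
        (Ideal.mem_sup_right (ι2_row_mem C 1))
  intro f hf
  have h1 : Fm K 1 ≤ (Lam C ⊔ Ideal.span {X 0, X 1}).restrictScalars K := by
    rw [show Fm K 1 = homogeneousSubmodule (Fin 4) K 1 from rfl,
      homogeneousSubmodule_one_eq_span_X, Submodule.span_le]
    rintro _ ⟨i, rfl⟩
    exact hX i
  exact h1 hf

/-- exponent -/
noncomputable def dd (m : ℕ) (i : Fin (m + 1)) : Fin 2 →₀ ℕ :=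
  Finsupp.equivFunOnFinite.symm ![(i : ℕ), m - i]

theorem dd_degree (m : ℕ) (i : Fin (m + 1)) : (dd m i).degree = m := by
  rw [Finsupp.degree_eq_sum, Fin.sum_univ_two]
  simp only [dd, Finsupp.coe_equivFunOnFinite_symm, Matrix.cons_val_zero, Matrix.cons_val_one]
  omega

theorem dd_inj (m : ℕ) {i j : Fin (m + 1)} (h : dd m i = dd m j) : i = j := by
  have := DFunLike.congr_fun h 0
  simp only [dd, Finsupp.coe_equivFunOnFinite_symm, Matrix.cons_val_zero] at this
  exact Fin.ext this

theorem dd_surj (m : ℕ) (s : Fin 2 →₀ ℕ) (hs : s.degree = m) : ∃ i, s = dd m i := by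
  rw [Finsupp.degree_eq_sum, Fin.sum_univ_two] at hs
  refine ⟨⟨s 0, by omega⟩, ?_⟩
  ext a
  fin_cases a
  · simp [dd]
  · simp [dd]; omega

theorem finrank_hom2 (m : ℕ) : Module.finrank K (homogeneousSubmodule (Fin 2) K m) = m + 1 := by
  classical
  let f : homogeneousSubmodule (Fin 2) K m →ₗ[K] (Fin (m + 1) → K) :=
    { toFun := fun p i => coeff (dd m i) (p : P2 K)
      map_add' := fun p q => by ext i; simp
      map_smul' := fun c p => by ext i; simp }
  have hinj : Function.Injective f := by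
    rw [← LinearMap.ker_eq_bot, LinearMap.ker_eq_bot']
    intro p hp
    apply Subtype.ext
    ext s
    rw [ZeroMemClass.coe_zero, coeff_zero]
    by_contra hne
    have hdeg : s.degree = m := by
      by_contra hd
      exact hne (IsHomogeneous.coeff_eq_zero p.2 hd)
    obtain ⟨i, rfl⟩ := dd_surj m s hdeg
    exact hne (congr_fun hp i)
  have hsurj : Function.Surjective f := by
    intro v
    refine ⟨⟨∑ i, monomial (dd m i) (v i), ?_⟩, ?_⟩
    · exact Submodule.sum_mem _ fun i _ => isHomogeneous_monomial _ (dd_degree m i)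
    · ext j
      show coeff (dd m j) (∑ i, monomial (dd m i) (v i)) = v j
      rw [coeff_sum, Finset.sum_eq_single j]
      · simp
      · intro i _ hij
        rw [coeff_monomial, if_neg]
        exact fun h => hij (dd_inj m h)
      · simp
  rw [(LinearEquiv.ofBijective f ⟨hinj, hsurj⟩).finrank_eq, Module.finrank_fin_fun]

theorem _root_.Pool.Agent.Helper947.Crv.hf_Lam (C : Matrix (Fin 2) (Fin 2) K) (m : ℕ) : hf (Lam C) m = m + 1 := by
  let φ : Fm K m →ₗ[K] P2 K := (res C).toLinearMap.comp (Fm K m).subtype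
  have hker : LinearMap.ker φ = ((Lam C).restrictScalars K).comap (Fm K m).subtype := by
    ext p
    simp only [LinearMap.mem_ker, Submodule.mem_comap, Submodule.restrictScalars_mem]
    exact mem_Lam.symm
  have hrange : LinearMap.range φ = homogeneousSubmodule (Fin 2) K m := by
    apply le_antisymm
    · rintro _ ⟨p, rfl⟩
      exact res_hom C p.2
    · intro g hg
      refine ⟨⟨ι2 K g, ?_⟩, ?_⟩
      · exact IsHomogeneous.rename_isHomogeneous hg
      · exact res_ι2 C g
  rw [hf]
  have e : Qm (Lam C) m ≃ₗ[K] homogeneousSubmodule (Fin 2) K m :=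
    (Submodule.quotEquivOfEq _ _ hker.symm).trans
      (φ.quotKerEquivRange.trans (LinearEquiv.ofEq _ _ hrange))
  rw [e.finrank_eq, finrank_hom2]

theorem row_inj {C C' : Matrix (Fin 2) (Fin 2) K} {a : Fin 2} (h : row C a = row C' a) :
    ∀ b, C a b = C' a b := by
  intro b
  have h0 := congrArg (eval ![1, 0]) h
  have h1 := congrArg (eval ![0, 1]) h
  simp [row] at h0 h1
  fin_cases b
  · exact h0
  · exact h1

theorem _root_.Pool.Agent.Helper947.Crv.Lam_inj {C C' : Matrix (Fin 2) (Fin 2) K} (h : Lam C ≤ Lam C') : C = C' := by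
  have h2 := h (X2_sub_mem C)
  have h3 := h (X3_sub_mem C)
  rw [mem_Lam, map_sub, res_ι2, res, aeval_X, sub_eq_zero] at h2 h3
  ext a b
  fin_cases a
  · exact (row_inj (a := 0) (C := C') (C' := C) h2 b).symm
  · exact (row_inj (a := 1) (C := C') (C' := C) h3 b).symm

end lines

end Pool.Agent.Helper947.Crv.LC1

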