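import Mathlib
import Pool.Agent.Helper947.Crv.Defs
import Pool.Agent.Helper947.Crv.A1
import Pool.Agent.Helper947.Crv.C1

set_option autoImplicit false

open MvPolynomial Filter

namespace Pool.Agent.Helper947.Crv.LA4

variable {K : Type*} [Field K] {I J : Ideal (Pl K)}

theorem ι2_mem {m : ℕ} {g : P2 K} (hg : g ∈ homogeneousSubmodule (Fin 2) K m) :
    ι2 K g ∈ Fm K m := IsHomogeneous.rename_isHomogeneous hg

/-- multiplication map -/
noncomputable def mulMap (k d : ℕ) {f : Pl K} (hf : f ∈ Fm K d) :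
    homogeneousSubmodule (Fin 2) K k →ₗ[K] Fm K (k + d) where
  toFun g := ⟨ι2 K g * f, (ι2_mem g.2).mul hf⟩
  map_add' a b := by ext1; simp [add_mul]
  map_smul' c a := by ext1; simp

theorem _root_.Pool.Agent.Helper947.Crv.torsion_of_hf (h : I ≤ J) {C : ℕ}
    (hC : ∀ᶠ m in atTop, hf I m ≤ hf J m + C) {f : Pl K}
    {d : ℕ} (hf' : f ∈ Fm K d) (hJ : f ∈ J) : ∃ g : P2 K, g ≠ 0 ∧ ι2 K g * f ∈ I := by
  obtain ⟨m0, hm0⟩ := eventually_atTop.1 hC
  set k := m0 + C with hk
  have : FiniteDimensional K (Fm K (k + d)) := LA1.a1_fm_fin (k + d)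
  have : FiniteDimensional K (homogeneousSubmodule (Fin 2) K k) :=
    FiniteDimensional.of_finrank_pos (by rw [LC1.finrank_hom2]; omega)
  let φ : homogeneousSubmodule (Fin 2) K k →ₗ[K] Qm I (k + d) :=
    (Submodule.mkQ _).comp (mulMap k d hf')
  let ψ : Qm I (k + d) →ₗ[K] Qm J (k + d) := Submodule.factor (fun x hx => h hx)
  have hψ : Function.Surjective ψ := Submodule.factor_surjective _
  have h1 : Module.finrank K (LinearMap.ker ψ) + hf J (k + d) = hf I (k + d) := by
    have := LinearMap.finrank_range_add_finrank_ker ψ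
    rw [LinearMap.range_eq_top.2 hψ, finrank_top] at this
    unfold hf
    omega
  have h2 := hm0 (k + d) (by omega)
  have h3 : LinearMap.range φ ≤ LinearMap.ker ψ := by
    rintro _ ⟨g, rfl⟩
    rw [LinearMap.mem_ker]
    exact (Submodule.Quotient.mk_eq_zero _).2 (J.mul_mem_left _ hJ)
  have h4 := Submodule.finrank_mono h3
  have h5 := LinearMap.finrank_range_add_finrank_ker φ
  rw [LC1.finrank_hom2] at h5
  have h6 : LinearMap.ker φ ≠ ⊥ := by
    intro h0
    rw [h0, finrank_bot] at h5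
    omega
  obtain ⟨g, hg, hg0⟩ := Submodule.exists_mem_ne_zero_of_ne_bot h6
  refine ⟨g, fun h0 => hg0 (Subtype.ext h0), ?_⟩
  · have h7 := LinearMap.mem_ker.1 hg
    have h8 : Submodule.Quotient.mk (mulMap k d hf' g) = (0 : Qm I (k + d)) := h7
    rw [Submodule.Quotient.mk_eq_zero] at h8
    exact h8

theorem _root_.Pool.Agent.Helper947.Crv.le_of_hf (h : I ≤ J) (hJ : Hom J) (tf : Tf I) {C : ℕ}
    (hC : ∀ᶠ m in atTop, hf I m ≤ hf J m + C) : J ≤ I := by
  intro p hp
  rw [← sum_homogeneousComponent p]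
  refine Submodule.sum_mem _ fun i _ => ?_
  obtain ⟨g, hg, hgi⟩ := torsion_of_hf h hC (homogeneousComponent_isHomogeneous i p) (hJ p hp i)
  exact tf g hg _ hgi

end Pool.Agent.Helper947.Crv.LA4
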