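import Mathlib
import Pool.Agent.Helper947.Crv.Defs
import Pool.Agent.Helper947.Crv.A2

open MvPolynomial Filter

namespace Pool.Agent.Helper947.Crv.LA5

section line

variable {K : Type*} [CommRing K]

end line

namespace Cfg

variable {K : Type*} [CommRing K] {J M : Type} (c : Cfg K J M)

end Cfg

section defs2

variable {K : Type*} [Field K]

end defs2

section hilb

variable {K : Type*} [Field K] {I J N : Ideal (Pl K)}

theorem h7_comp_X_mul (i : Fin 4) (n : ℕ) (p : Pl K) :
    homogeneousComponent (n + 1) (X i * p) = X i * homogeneousComponent n p := by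
  classical
  ext d
  rw [coeff_homogeneousComponent, coeff_X_mul', coeff_X_mul', coeff_homogeneousComponent]
  by_cases hi : i ∈ d.support
  · rw [if_pos hi, if_pos hi]
    have hd : d = (d - Finsupp.single i 1) + Finsupp.single i 1 := by
      have hi' : d i ≠ 0 := Finsupp.mem_support_iff.1 hi
      ext j
      by_cases hj : j = i
      · subst hj
        simp only [Finsupp.coe_add, Finsupp.coe_tsub, Pi.add_apply, Pi.sub_apply,
          Finsupp.single_eq_same]
        omega
      · simp [Finsupp.single_eq_of_ne hj]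
    have hdeg : d.degree = (d - Finsupp.single i 1).degree + 1 := by
      conv_lhs => rw [hd]
      rw [map_add, Finsupp.degree_single]
    have : (d.degree = n + 1) ↔ ((d - Finsupp.single i 1).degree = n) := by omega
    simp only [this]
  · rw [if_neg hi, if_neg hi]; simp

theorem h7_comp_X_mul_zero (i : Fin 4) (p : Pl K) :
    homogeneousComponent 0 (X i * p) = 0 := by
  classical
  rw [homogeneousComponent_zero, coeff_X_mul']
  simp

theorem h7_deg {σ : Type*} {k : ℕ} {u : MvPolynomial σ K} (hu : u.IsHomogeneous k) {d : σ →₀ ℕ}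
    (hd : d ∈ u.support) : d.degree = k := by
  rw [Finsupp.degree_eq_weight_one]
  exact hu (mem_support_iff.1 hd)

theorem h7_up (J : Ideal (Pl K)) (N : ℕ) (h : ∀ f ∈ Fm K N, f ∈ J) :
    ∀ m, N ≤ m → ∀ f ∈ Fm K m, f ∈ J := by
  intro m hm
  induction m, hm using Nat.le_induction with
  | base => exact h
  | succ m hm ih =>
    intro f hf
    rw [f.as_sum]
    refine J.sum_mem (fun d hd => ?_)
    have hdeg : d.degree = m + 1 := h7_deg hf hd
    have hex : ∃ i, d i ≠ 0 := by
      by_contra hcon
      push Not at hcon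
      have : d = 0 := Finsupp.ext hcon
      rw [this] at hdeg
      simp at hdeg
    obtain ⟨i, hi⟩ := hex
    have hd' : d = Finsupp.single i 1 + (d - Finsupp.single i 1) := by
      ext j
      by_cases hj : j = i
      · subst hj
        simp only [Finsupp.coe_add, Finsupp.coe_tsub, Pi.add_apply, Pi.sub_apply,
          Finsupp.single_eq_same]
        omega
      · simp [Finsupp.single_eq_of_ne hj]
    have hdeg2 : (d - Finsupp.single i 1).degree = m := by
      have : d.degree = 1 + (d - Finsupp.single i 1).degree := by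
        conv_lhs => rw [hd']
        rw [map_add, Finsupp.degree_single]
      omega
    have e : monomial d (coeff d f) = X i * monomial (d - Finsupp.single i 1) (coeff d f) := by
      rw [X, monomial_mul, one_mul, ← hd']
    rw [e]
    exact J.mul_mem_left _ (ih _ (isHomogeneous_monomial _ hdeg2))

/-- products of forms in `z, w` and forms of small degree -/
noncomputable def h7Z (K : Type*) [Field K] (N m : ℕ) : Submodule K (Pl K) :=
  Submodule.span K {x | ∃ b, b < N ∧ b ≤ m ∧ ∃ u ∈ homogeneousSubmodule (Fin 2) K (m - b),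
    ∃ v ∈ Fm K b, x = ι2 K u * v}

theorem h7_X_mul_Z (i : Fin 2) (N m : ℕ) (x : Pl K) (hx : x ∈ h7Z K N m) :
    ι2 K (X i) * x ∈ h7Z K N (m + 1) := by
  induction hx using Submodule.span_induction with
  | mem x hx =>
    obtain ⟨b, hb, hbm, u, hu, v, hv, rfl⟩ := hx
    refine Submodule.subset_span ⟨b, hb, by omega, X i * u, ?_, v, hv, ?_⟩
    · have h1 : (X i : P2 K).IsHomogeneous 1 := isHomogeneous_X _ _
      have h2 := h1.mul hu
      have e : m + 1 - b = 1 + (m - b) := by omega
      rw [e]
      exact h2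
    · rw [map_mul, mul_assoc]
  | zero => rw [mul_zero]; exact Submodule.zero_mem _
  | add x y _ _ hx hy => rw [mul_add]; exact Submodule.add_mem _ hx hy
  | smul c x _ hx => rw [mul_smul_comm]; exact Submodule.smul_mem _ _ hx

theorem h7_gen (hI : Hom I) (N : ℕ) (hN : ∀ f ∈ Fm K N, f ∈ I ⊔ Ideal.span {X 0, X 1}) :
    ∀ m, ∀ f ∈ Fm K m, f ∈ I.restrictScalars K ⊔ h7Z K N m := by
  have hsm : ∀ n, ∀ i : Fin 2, ∀ x ∈ I.restrictScalars K ⊔ h7Z K N n,
      ι2 K (X i) * x ∈ I.restrictScalars K ⊔ h7Z K N (n + 1) := by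
    intro n i x hx
    obtain ⟨y, hy, z, hz, rfl⟩ := Submodule.mem_sup.1 hx
    rw [mul_add]
    exact Submodule.add_mem_sup (I.mul_mem_left _ hy) (h7_X_mul_Z i N n z hz)
  intro m
  induction m with
  | zero =>
    intro f hf
    rcases Nat.eq_zero_or_pos N with h0 | h0
    · subst h0
      obtain ⟨y, hy, z, hz, hyz⟩ := Submodule.mem_sup.1 (hN f hf)
      obtain ⟨a, b, hab⟩ := Ideal.mem_span_pair.1 hz
      have e := homogeneousComponent_eq_self (p := f) (n := 0) hf
      rw [← hyz, ← hab] at e
      rw [map_add, map_add, mul_comm a, mul_comm b, h7_comp_X_mul_zero, h7_comp_X_mul_zero, add_zero,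
        add_zero] at e
      rw [← hyz, ← hab, mul_comm a, mul_comm b, ← e]
      exact Submodule.mem_sup_left (hI y hy 0)
    · refine Submodule.mem_sup_right (Submodule.subset_span ⟨0, h0, le_refl _, 1, ?_, f, hf, ?_⟩)
      · exact isHomogeneous_one _ _
      · rw [map_one, one_mul]
  | succ n ih =>
    intro f hf
    by_cases hn : n + 1 < N
    · refine Submodule.mem_sup_right (Submodule.subset_span ⟨n + 1, hn, le_refl _, 1, ?_, f, hf, ?_⟩)
      · rw [Nat.sub_self]; exact isHomogeneous_one _ _
      · rw [map_one, one_mul]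
    · obtain ⟨y, hy, z, hz, hyz⟩ := Submodule.mem_sup.1 (h7_up _ N hN (n + 1) (by omega) f hf)
      obtain ⟨a, b, hab⟩ := Ideal.mem_span_pair.1 hz
      have e := homogeneousComponent_eq_self (p := f) (n := n + 1) hf
      have e2 : homogeneousComponent (n + 1) f = homogeneousComponent (n + 1) y +
          (X 0 * homogeneousComponent n a + X 1 * homogeneousComponent n b) := by
        rw [← hyz, ← hab, map_add, map_add, mul_comm a, mul_comm b, h7_comp_X_mul, h7_comp_X_mul]
      rw [← e, e2]
      have x0 : (X 0 : Pl K) = ι2 K (X 0) := by simp [ι2]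
      have x1 : (X 1 : Pl K) = ι2 K (X 1) := by simp [ι2]
      refine Submodule.add_mem _ (Submodule.mem_sup_left (hI y hy _)) (Submodule.add_mem _ ?_ ?_)
      · rw [x0]
        exact hsm n 0 _ (ih _ (homogeneousComponent_mem _ _))
      · rw [x1]
        exact hsm n 1 _ (ih _ (homogeneousComponent_mem _ _))

theorem h7_redU {g : P2 K} {a : ℕ} (hg : g ≠ 0) (hga : g ∈ homogeneousSubmodule (Fin 2) K a) (k : ℕ) :
    ∃ T : Finset (P2 K), T.card ≤ a ∧ (∀ u ∈ T, u ∈ homogeneousSubmodule (Fin 2) K k) ∧
      ∀ u ∈ homogeneousSubmodule (Fin 2) K k, ∃ t ∈ Submodule.span K (T : Set (P2 K)),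
        ∃ q, u = t + g * q := by
  classical
  obtain ⟨e, he, hmax⟩ := Finset.exists_max_image g.support (fun d => d 0) (support_nonempty.2 hg)
  have hdeg : ∀ (k : ℕ) (u : P2 K), u ∈ homogeneousSubmodule (Fin 2) K k → ∀ d ∈ u.support,
      d 0 + d 1 = k := by
    intro k u hu d hd
    have := h7_deg hu hd
    rw [Finsupp.degree_eq_sum, Fin.sum_univ_two] at this
    exact this
  let M : ℕ → ℕ → P2 K := fun i j => X 0 ^ i * X 1 ^ j
  have hM : ∀ (d : Fin 2 →₀ ℕ) (c : K), monomial d c = C c * M (d 0) (d 1) := by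
    intro d c
    rw [monomial_eq, Finsupp.prod_fintype _ _ (fun i => pow_zero _), Fin.prod_univ_two]
  have hMmul : ∀ i j i' j', M i j * M i' j' = M (i + i') (j + j') := by
    intro i j i' j'
    simp only [M, pow_add]; ring
  have hMh : ∀ i j, i + j = k → M i j ∈ homogeneousSubmodule (Fin 2) K k := by
    intro i j hij
    have h1 : (X 0 ^ i : P2 K).IsHomogeneous (1 * i) := (isHomogeneous_X K (0 : Fin 2)).pow i
    have h2 : (X 1 ^ j : P2 K).IsHomogeneous (1 * j) := (isHomogeneous_X K (1 : Fin 2)).pow j
    have h3 := h1.mul h2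
    have e : 1 * i + 1 * j = k := by omega
    rw [e] at h3
    exact h3
  let T : Finset (P2 K) := ((Finset.range (e 0)).image (fun s => M s (k - s)) ∪
    (Finset.range (e 1)).image (fun j => M (k - j) j)).filter
      (fun u => u ∈ homogeneousSubmodule (Fin 2) K k)
  have hcard : T.card ≤ a := by
    calc T.card ≤ _ := Finset.card_filter_le _ _
      _ ≤ _ := Finset.card_union_le _ _
      _ ≤ e 0 + e 1 := by
          refine Nat.add_le_add ?_ ?_
          · exact Finset.card_image_le.trans (by simp)
          · exact Finset.card_image_le.trans (by simp)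
      _ = a := hdeg a g hga e he
  have hTh : ∀ u ∈ T, u ∈ homogeneousSubmodule (Fin 2) K k := fun u hu => (Finset.mem_filter.1 hu).2
  set R : Submodule K (P2 K) := Submodule.span K (T : Set (P2 K)) ⊔
    (Ideal.span {g}).restrictScalars K with hR
  have hc : coeff e g ≠ 0 := mem_support_iff.1 he
  have hred : ∀ n i j, i < n → i + j = k → M i j ∈ R := by
    intro n
    induction n with
    | zero => intro i j h; omega
    | succ n ih =>
      intro i j hin hij
      by_cases h0 : i < e 0
      · refine Submodule.mem_sup_left (Submodule.subset_span ?_)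
        simp only [T, Finset.coe_filter, Set.mem_ofPred_eq, Finset.mem_union, Finset.mem_image,
          Finset.mem_range]
        exact ⟨Or.inl ⟨i, h0, by rw [show k - i = j by omega]⟩, hMh i j hij⟩
      by_cases h1 : j < e 1
      · refine Submodule.mem_sup_left (Submodule.subset_span ?_)
        simp only [T, Finset.coe_filter, Set.mem_ofPred_eq, Finset.mem_union, Finset.mem_image,
          Finset.mem_range]
        exact ⟨Or.inr ⟨j, h1, by rw [show k - j = i by omega]⟩, hMh i j hij⟩
      push Not at h0 h1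
      have e1 : M i j = M (i - e 0) (j - e 1) * M (e 0) (e 1) := by
        rw [hMmul]; congr 1 <;> omega
      have e2 : g = C (coeff e g) * M (e 0) (e 1) +
          ∑ d ∈ g.support.erase e, C (coeff d g) * M (d 0) (d 1) := by
        conv_lhs => rw [g.as_sum]
        rw [← Finset.add_sum_erase _ _ he]
        simp only [hM]
      have e3 : (coeff e g) • M i j = M (i - e 0) (j - e 1) * g -
          ∑ d ∈ g.support.erase e, (coeff d g) • M (i - e 0 + d 0) (j - e 1 + d 1) := by
        have e5 : M (i - e 0) (j - e 1) * g = M (i - e 0) (j - e 1) * (C (coeff e g) * M (e 0) (e 1)) +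
            ∑ d ∈ g.support.erase e, M (i - e 0) (j - e 1) * (C (coeff d g) * M (d 0) (d 1)) := by
          conv_lhs => rw [e2]
          rw [mul_add, Finset.mul_sum]
        rw [e5, e1]
        have : ∑ d ∈ g.support.erase e, M (i - e 0) (j - e 1) * (C (coeff d g) * M (d 0) (d 1))
            = ∑ d ∈ g.support.erase e, (coeff d g) • M (i - e 0 + d 0) (j - e 1 + d 1) := by
          refine Finset.sum_congr rfl (fun d _ => ?_)
          rw [← hMmul, smul_eq_C_mul]; ring
        rw [this, add_sub_cancel_right, smul_eq_C_mul]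
        ring
      have e4 : (coeff e g) • M i j ∈ R := by
        rw [e3]
        refine R.sub_mem ?_ (R.sum_mem (fun d hd => R.smul_mem _ ?_))
        · refine Submodule.mem_sup_right ?_
          exact Ideal.mul_mem_left _ _ (Ideal.mem_span_singleton_self g)
        · have hd1 := Finset.mem_erase.1 hd
          have hs := hdeg a g hga d hd1.2
          have hs' := hdeg a g hga e he
          have hm := hmax d hd1.2
          have hne : d 0 ≠ e 0 := by
            intro h
            apply hd1.1
            ext t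
            fin_cases t
            · exact h
            · show d 1 = e 1
              omega
          refine ih _ _ ?_ ?_
          · have hm' : d 0 ≤ e 0 := hm
            omega
          · omega
      have := R.smul_mem (coeff e g)⁻¹ e4
      rwa [smul_smul, inv_mul_cancel₀ hc, one_smul] at this
  refine ⟨T, hcard, hTh, ?_⟩
  intro u hu
  have huR : u ∈ R := by
    rw [u.as_sum]
    refine R.sum_mem (fun d hd => ?_)
    rw [hM, ← smul_eq_C_mul]
    exact R.smul_mem _ (hred (d 0 + 1) _ _ (by omega) (hdeg k u hu d hd))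
  obtain ⟨t, ht, y, hy, hty⟩ := Submodule.mem_sup.1 huR
  obtain ⟨q, hq⟩ := Ideal.mem_span_singleton'.1 hy
  exact ⟨t, ht, q, by rw [← hty, ← hq, mul_comm]⟩

theorem h7_fg (b : ℕ) : ∃ B : Finset (Pl K), Submodule.span K (B : Set (Pl K)) = Fm K b := by
  have hfin : {d : Fin 4 →₀ ℕ | d.degree = b}.Finite :=
    (Finsupp.finite_of_degree_le b).subset (fun d hd => le_of_eq hd)
  have h1 : Fm K b = restrictSupport K {d : Fin 4 →₀ ℕ | d.degree = b} := by
    show homogeneousSubmodule (Fin 4) K b = _
    rw [homogeneousSubmodule_eq_finsupp_supported]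
    rfl
  refine ⟨(hfin.image (fun d => monomial d (1 : K))).toFinset, ?_⟩
  rw [Set.Finite.coe_toFinset, h1, restrictSupport_eq_span]

theorem h7_main (hI : Hom I) (N : ℕ) (hN : ∀ f ∈ Fm K N, f ∈ I ⊔ Ideal.span {X 0, X 1})
    {g : P2 K} {a : ℕ} (hg : g ≠ 0) (hga : g ∈ homogeneousSubmodule (Fin 2) K a) (h : ι2 K g ∈ I) :
    ∃ C, ∀ m, ∃ S : Finset (Pl K), S.card ≤ C ∧ (∀ x ∈ S, x ∈ Fm K m) ∧
      ∀ f ∈ Fm K m, ∃ p ∈ Submodule.span K (S : Set (Pl K)), f - p ∈ I := by
  classical
  choose T hT1 hT2 hT3 using fun k => h7_redU hg hga k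
  choose B hB using fun b => h7_fg (K := K) b
  refine ⟨∑ b ∈ Finset.range N, a * (B b).card, fun m => ?_⟩
  let S : Finset (Pl K) := (Finset.range N).biUnion (fun b => if b ≤ m then
    ((T (m - b)) ×ˢ (B b)).image (fun x => ι2 K x.1 * x.2) else ∅)
  refine ⟨S, ?_, ?_, ?_⟩
  · refine Finset.card_biUnion_le.trans (Finset.sum_le_sum (fun b _ => ?_))
    split_ifs
    · refine Finset.card_image_le.trans ?_
      rw [Finset.card_product]
      exact Nat.mul_le_mul_right _ (hT1 _)
    · simp
  · intro x hx
    obtain ⟨b, hb, hx⟩ := Finset.mem_biUnion.1 hx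
    split_ifs at hx with hbm
    · obtain ⟨⟨t, v⟩, htv, rfl⟩ := Finset.mem_image.1 hx
      obtain ⟨ht, hv⟩ := Finset.mem_product.1 htv
      have h1 : (ι2 K t).IsHomogeneous (m - b) := IsHomogeneous.rename_isHomogeneous (hT2 _ t ht)
      have h2 : v ∈ Fm K b := by
        rw [← hB b]; exact Submodule.subset_span hv
      have h3 := h1.mul h2
      rw [Nat.sub_add_cancel hbm] at h3
      exact h3
    · simp at hx
  · intro f hf
    have hf2 := h7_gen hI N hN m f hf
    have hle : h7Z K N m ≤ Submodule.span K (S : Set (Pl K)) ⊔ I.restrictScalars K := by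
      refine Submodule.span_le.2 ?_
      rintro x ⟨b, hb, hbm, u, hu, v, hv, rfl⟩
      obtain ⟨t, ht, q, rfl⟩ := hT3 (m - b) u hu
      rw [map_add, add_mul]
      refine Submodule.add_mem_sup ?_ ?_
      · have ht' : ι2 K t ∈ Submodule.span K ((ι2 K) '' (T (m - b) : Set (P2 K))) := by
          have := Submodule.mem_map_of_mem (f := (ι2 K).toLinearMap) ht
          rw [Submodule.map_span] at this
          exact this
        have hv' : v ∈ Submodule.span K (B b : Set (Pl K)) := by rw [hB b]; exact hv
        have hm := Submodule.mul_mem_mul ht' hv'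
        rw [Submodule.span_mul_span] at hm
        refine Submodule.span_mono ?_ hm
        rintro y hy
        obtain ⟨t', ht', v', hv', rfl⟩ := Set.mem_mul.1 hy
        obtain ⟨t'', ht'', rfl⟩ := ht'
        refine Finset.mem_coe.2 (Finset.mem_biUnion.2 ⟨b, Finset.mem_range.2 hb, ?_⟩)
        rw [if_pos hbm]
        exact Finset.mem_image.2 ⟨(t'', v'), Finset.mem_product.2 ⟨ht'', hv'⟩, rfl⟩
      · show ι2 K (g * q) * v ∈ I
        rw [map_mul, mul_assoc]
        exact I.mul_mem_right _ h
    have hf3 : f ∈ Submodule.span K (S : Set (Pl K)) ⊔ I.restrictScalars K :=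
      (sup_le le_sup_right hle : I.restrictScalars K ⊔ h7Z K N m ≤ _) hf2
    obtain ⟨p, hp, y, hy, rfl⟩ := Submodule.mem_sup.1 hf3
    exact ⟨p, hp, by rw [add_sub_cancel_left]; exact hy⟩

theorem h7_finrank (m : ℕ) (S : Finset (Pl K)) (hS : ∀ x ∈ S, x ∈ Fm K m)
    (hf : ∀ f ∈ Fm K m, ∃ p ∈ Submodule.span K (S : Set (Pl K)), f - p ∈ I) :
    Crv.hf I m ≤ S.card := by
  have hle : Submodule.span K (S : Set (Pl K)) ≤ Fm K m := Submodule.span_le.2 hS
  let φ : Submodule.span K (S : Set (Pl K)) →ₗ[K] Qm I m :=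
    (Submodule.mkQ _).comp (Submodule.inclusion hle)
  have hφ : Function.Surjective φ := by
    intro y
    obtain ⟨f, rfl⟩ := Submodule.mkQ_surjective _ y
    obtain ⟨p, hp, hfp⟩ := hf f.1 f.2
    refine ⟨⟨p, hp⟩, ?_⟩
    show Submodule.mkQ _ (Submodule.inclusion hle ⟨p, hp⟩) = Submodule.mkQ _ f
    refine Eq.symm ((Submodule.Quotient.eq _).2 ?_)
    exact hfp
  have h1 : Module.finrank K (Qm I m) ≤ Module.finrank K (Submodule.span K (S : Set (Pl K))) :=
    LinearMap.finrank_le_finrank_of_surjective hφ
  exact h1.trans (finrank_span_finset_le_card S)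

theorem _root_.Pool.Agent.Helper947.Crv.bdd_of_mem (hI : Hom I) (h2 : Fin2 I) {g : P2 K} (hg : g ≠ 0) (h : ι2 K g ∈ I) :
    ∃ C, ∀ m, hf I m ≤ C := by
  obtain ⟨N, hN⟩ := h2
  have hex : ∃ a, homogeneousComponent a g ≠ 0 := by
    by_contra hcon
    push Not at hcon
    apply hg
    rw [← sum_homogeneousComponent g]
    exact Finset.sum_eq_zero (fun i _ => hcon i)
  obtain ⟨a, ha⟩ := hex
  have hga : ι2 K (homogeneousComponent a g) ∈ I := by
    unfold ι2
    rw [rename_homogeneousComponent]
    exact hI _ h a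
  obtain ⟨C, hC⟩ := h7_main hI N hN ha (homogeneousComponent_mem a g) hga
  refine ⟨C, fun m => ?_⟩
  obtain ⟨S, hS1, hS2, hS3⟩ := hC m
  exact (h7_finrank m S hS2 hS3).trans hS1

end hilb

end Pool.Agent.Helper947.Crv.LA5

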