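import Mathlib
import Pool.Agent.Helper947.Crv.Defs
import Pool.Agent.Helper947.Crv.A2

open MvPolynomial Filter

namespace Pool.Agent.Helper947.Crv.LB1

section line

variable {K : Type*} [CommRing K]

end line

namespace Cfg

variable {K : Type*} [CommRing K] {J M : Type} (c : Cfg K J M)

end Cfg

section defs2

variable {K : Type*} [Field K]

end defs2

section hilb

variable {K : Type*} [Field K] {I J N : Ideal (Pl K)}

end hilb

section redsec

variable {K : Type*} [Field K] (V : ValuationSubring K) {I J : Ideal (Pl K)}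

theorem _root_.Pool.Agent.Helper947.Crv.mem_red {p : Pl (IsLocalRing.ResidueField V)} : p ∈ red V I ↔
    ∃ q : Pl V, MvPolynomial.map V.subtype q ∈ I ∧
      MvPolynomial.map (IsLocalRing.residue V) q = p := by
  unfold red
  rw [Ideal.mem_map_iff_of_surjective _
    (MvPolynomial.map_surjective _ IsLocalRing.residue_surjective)]
  rfl

theorem map_homComp {R S : Type*} [CommRing R] [CommRing S] (f : R →+* S) (m : ℕ) (q : Pl R) :
    MvPolynomial.map f (homogeneousComponent m q) =
      homogeneousComponent m (MvPolynomial.map f q) := by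
  ext d
  rw [coeff_map, coeff_homogeneousComponent, coeff_homogeneousComponent, coeff_map]
  split_ifs
  · rfl
  · exact map_zero f

theorem _root_.Pool.Agent.Helper947.Crv.exists_hom_lift (hI : Hom I) {p : Pl (IsLocalRing.ResidueField V)} (hp : p ∈ red V I)
    {m : ℕ} (hm : p ∈ Fm _ m) : ∃ q ∈ Fm V m, MvPolynomial.map V.subtype q ∈ I ∧
      MvPolynomial.map (IsLocalRing.residue V) q = p := by
  obtain ⟨q, hq, hqp⟩ := (mem_red V).1 hp
  refine ⟨homogeneousComponent m q, homogeneousComponent_mem m q, ?_, ?_⟩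
  · rw [map_homComp]
    exact hI _ hq m
  · rw [map_homComp, hqp, homogeneousComponent_of_mem hm, if_pos rfl]

theorem _root_.Pool.Agent.Helper947.Crv.Hom.red (hI : Hom I) : Hom (red V I) := by
  intro p hp m
  obtain ⟨q, hq, rfl⟩ := (mem_red V).1 hp
  refine (mem_red V).2 ⟨homogeneousComponent m q, ?_, map_homComp _ _ _⟩
  rw [map_homComp]
  exact hI _ hq m

theorem _root_.Pool.Agent.Helper947.Crv.red_mono (h : I ≤ J) : red V I ≤ red V J := by
  intro p hp
  obtain ⟨q, hq, rfl⟩ := (mem_red V).1 hp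
  exact (mem_red V).2 ⟨q, h hq, rfl⟩

/-- primitive multiples -/
theorem _root_.Pool.Agent.Helper947.Crv.exists_primitive {g : P2 K} (hg : g ≠ 0) : ∃ (a : K) (q : P2 V), a ≠ 0 ∧
    MvPolynomial.map V.subtype q = MvPolynomial.C a * g ∧
    MvPolynomial.map (IsLocalRing.residue V) q ≠ 0 := by
  obtain ⟨s0, hs0, hmax⟩ := Finset.exists_max_image g.support
    (fun s => V.valuation (coeff s g)) (MvPolynomial.support_nonempty.2 hg)
  have hc : coeff s0 g ≠ 0 := MvPolynomial.mem_support_iff.1 hs0
  have hv0 : V.valuation (coeff s0 g) ≠ 0 := (Valuation.ne_zero_iff _).2 hc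
  have hmem : ∀ s, (coeff s0 g)⁻¹ * coeff s g ∈ V := by
    intro s
    by_cases hs : s ∈ g.support
    · rw [← V.valuation_le_one_iff, map_mul, map_inv₀]
      have h1 : V.valuation (coeff s g) ≤ V.valuation (coeff s0 g) := hmax s hs
      calc (V.valuation (coeff s0 g))⁻¹ * V.valuation (coeff s g)
          ≤ (V.valuation (coeff s0 g))⁻¹ * V.valuation (coeff s0 g) := mul_le_mul_right h1 _
        _ = 1 := inv_mul_cancel₀ hv0
    · rw [MvPolynomial.notMem_support_iff.1 hs, mul_zero]
      exact V.zero_mem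
  obtain ⟨q, hq⟩ : ∃ q : P2 V, q = ∑ s ∈ g.support,
      monomial s (⟨(coeff s0 g)⁻¹ * coeff s g, hmem s⟩ : V) := ⟨_, rfl⟩
  have hmap : MvPolynomial.map V.subtype q = MvPolynomial.C (coeff s0 g)⁻¹ * g := by
    have hsum : MvPolynomial.C (coeff s0 g)⁻¹ * g =
        MvPolynomial.C (coeff s0 g)⁻¹ * ∑ s ∈ g.support, monomial s (coeff s g) := by
      rw [MvPolynomial.support_sum_monomial_coeff]
    rw [hq, map_sum, hsum, Finset.mul_sum]
    refine Finset.sum_congr rfl fun s _ => ?_
    rw [map_monomial, C_mul_monomial]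
    rfl
  refine ⟨(coeff s0 g)⁻¹, q, inv_ne_zero hc, hmap, ?_⟩
  intro h0
  have h1 : (coeff s0 q : V) = 1 := by
    apply Subtype.ext
    have h2 : coeff s0 (MvPolynomial.map V.subtype q) = ((coeff s0 q : V) : K) := by
      rw [coeff_map]
      rfl
    rw [← h2, hmap, coeff_C_mul, inv_mul_cancel₀ hc]
    rfl
  have h3 : coeff s0 (MvPolynomial.map (IsLocalRing.residue V) q) = 1 := by
    rw [coeff_map, h1, map_one]
  rw [h0, coeff_zero] at h3
  exact zero_ne_one h3

/-- primes containing the reduction -/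
theorem _root_.Pool.Agent.Helper947.Crv.red_radical_le {P : Ideal (Pl (IsLocalRing.ResidueField V))} (hP : P.IsPrime)
    (h : red V I ≤ P) : red V I.radical ≤ P := by
  intro p hp
  obtain ⟨q, hq, rfl⟩ := (mem_red V).1 hp
  obtain ⟨k, hk⟩ := hq
  apply hP.mem_of_pow_mem k
  apply h
  rw [← map_pow]
  refine (mem_red V).2 ⟨q ^ k, ?_, rfl⟩
  rw [map_pow]
  exact hk

end redsec

end Pool.Agent.Helper947.Crv.LB1

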