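import Mathlib
import Pool.Agent.Helper947.Crv.Defs
import Pool.Agent.Helper947.Crv.B1

open MvPolynomial Filter

namespace Pool.Agent.Helper947.Crv.LB2

section line

variable {K : Type*} [CommRing K]

end line

namespace Cfg

variable {K : Type*} [CommRing K] {J M : Type} (c : Cfg K J M)

end Cfg

section defs2

variable {K : Type*} [Field K]

end defs2

section hilb

variable {K : Type*} [Field K] {I J N : Ideal (Pl K)}

end hilb

section redsec

variable {K : Type*} [Field K] (V : ValuationSubring K) {I J : Ideal (Pl K)}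

section b2

open IsLocalRing

theorem b2_scale {ι : Type*} [Fintype ι] (c : ι → K)
    (hc : ∃ i, c i ≠ 0) : ∃ a : K, a ≠ 0 ∧ ∃ d : ι → V, (∀ i, (d i : K) = a * c i) ∧
      ∃ i, IsLocalRing.residue V (d i) ≠ 0 := by
  obtain ⟨j, hj⟩ := hc
  have hne : Nonempty ι := ⟨j⟩
  obtain ⟨i0, hi0⟩ := Finite.exists_max (fun i => V.valuation (c i))
  have h0 : c i0 ≠ 0 := by
    intro h
    have h1 := hi0 j
    rw [h, map_zero, le_zero_iff, map_eq_zero] at h1
    exact hj h1
  have hmem : ∀ i, (c i0)⁻¹ * c i ∈ V := by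
    intro i
    rw [← V.valuation_le_one_iff, map_mul, map_inv₀]
    have h2 : V.valuation (c i0) ≠ 0 := by
      rw [Ne, map_eq_zero]; exact h0
    rw [inv_mul_le_iff₀ (zero_lt_iff.2 h2), mul_one]
    exact hi0 i
  refine ⟨(c i0)⁻¹, inv_ne_zero h0, fun i => ⟨_, hmem i⟩, fun i => rfl, i0, ?_⟩
  have h1 : (⟨(c i0)⁻¹ * c i0, hmem i0⟩ : V) = 1 := by
    ext
    exact inv_mul_cancel₀ h0
  change residue V (⟨(c i0)⁻¹ * c i0, hmem i0⟩ : V) ≠ 0
  rw [h1, map_one]
  exact one_ne_zero

theorem b2_fin_set (m : ℕ) : {d : Fin 4 →₀ ℕ | d.degree = m}.Finite :=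
  (Finsupp.finite_of_degree_le m).subset (fun d hd => le_of_eq hd)

theorem b2_equiv (R : Type*) [Field R] (m : ℕ) :
    Nonempty (Fm R m ≃ₗ[R] ({d : Fin 4 →₀ ℕ | d.degree = m} →₀ R)) := by
  have h : Fm R m = AddMonoidAlgebra.supported R R {d : Fin 4 →₀ ℕ | d.degree = m} :=
    homogeneousSubmodule_eq_finsupp_supported (Fin 4) R m
  exact ⟨(LinearEquiv.ofEq _ _ h).trans (AddMonoidAlgebra.supportedEquivFinsupp _)⟩

theorem b2_finite (R : Type*) [Field R] (m : ℕ) : Module.Finite R (Fm R m) := by
  obtain ⟨e⟩ := b2_equiv R m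
  have : Finite {d : Fin 4 →₀ ℕ | d.degree = m} := (b2_fin_set m).to_subtype
  exact Module.Finite.equiv e.symm

theorem b2_finrank (R : Type*) [Field R] (m : ℕ) :
    Module.finrank R (Fm R m) = Nat.card {d : Fin 4 →₀ ℕ | d.degree = m} := by
  obtain ⟨e⟩ := b2_equiv R m
  have : Finite {d : Fin 4 →₀ ℕ | d.degree = m} := (b2_fin_set m).to_subtype
  have : Fintype {d : Fin 4 →₀ ℕ | d.degree = m} := Fintype.ofFinite _
  rw [e.finrank_eq, Module.finrank_finsupp_self, Nat.card_eq_fintype_card]

theorem b2_basis {R M : Type*} [Field R] [AddCommGroup M] [Module R M] [Module.Finite R M]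
    (W : Submodule R M) :
    ∃ b : Fin (Module.finrank R W) → M, (∀ i, b i ∈ W) ∧
      ∀ g : Fin (Module.finrank R W) → R, ∑ i, g i • b i = 0 → ∀ i, g i = 0 := by
  have bb := Module.finBasis R W
  refine ⟨fun i => (bb i : M), fun i => (bb i).2, fun g hg => ?_⟩
  apply Fintype.linearIndependent_iff.1 bb.linearIndependent g
  apply Subtype.ext
  simpa using hg

theorem b2_card {R M : Type*} [Field R] [AddCommGroup M] [Module R M] [Module.Finite R M]
    (W : Submodule R M) {s : ℕ}
    (v : Fin s → M) (hv : ∀ i, v i ∈ W)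
    (h : ∀ g : Fin s → R, ∑ i, g i • v i = 0 → ∀ i, g i = 0) : s ≤ Module.finrank R W := by
  have hli : LinearIndependent R (fun i : Fin s => (⟨v i, hv i⟩ : W)) := by
    rw [Fintype.linearIndependent_iff]
    intro g hg
    apply h g
    have := congrArg (fun z : W => (z : M)) hg
    simpa using this
  have h := hli.fintype_card_le_finrank
  rwa [Fintype.card_fin] at h

theorem b2_sub {ι : Type*} [Fintype ι] (f : ι → Pl V) (d : ι → V) (a : K) (g : ι → K)
    (hd : ∀ i, (d i : K) = a * g i) :
    MvPolynomial.map V.subtype (∑ i, C (d i) * f i) =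
      C a * ∑ i, C (g i) * MvPolynomial.map V.subtype (f i) := by
  rw [map_sum, Finset.mul_sum]
  refine Finset.sum_congr rfl fun i _ => ?_
  have h1 : V.subtype (d i) = a * g i := hd i
  rw [map_mul, map_C, h1, C_mul]
  ring

theorem b2_residue {ι : Type*} [Fintype ι] (f : ι → Pl V) (d : ι → V) :
    MvPolynomial.map (residue V) (∑ i, C (d i) * f i) =
      ∑ i, C (residue V (d i)) * MvPolynomial.map (residue V) (f i) := by
  rw [map_sum]
  refine Finset.sum_congr rfl fun i _ => ?_
  rw [map_mul, map_C]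

theorem b2_lift {m : ℕ} {p : Pl (ResidueField V)} (hp : p ∈ Fm _ m) :
    ∃ q ∈ Fm V m, MvPolynomial.map (residue V) q = p := by
  have hT : Hom (⊤ : Ideal (Pl K)) := fun _ _ _ => trivial
  have hpr : p ∈ red V (⊤ : Ideal (Pl K)) := by
    rw [mem_red]
    obtain ⟨q, hq⟩ := MvPolynomial.map_surjective (residue V) residue_surjective p
    exact ⟨q, trivial, hq⟩
  obtain ⟨q, hq, _, hq2⟩ := exists_hom_lift V hT hpr hp
  exact ⟨q, hq, hq2⟩

theorem b2_coe {R : Type*} [Field R] {m : ℕ} {ι : Type*} [Fintype ι] (g : ι → R) (v : ι → Fm R m) :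
    ((∑ i, g i • v i : Fm R m) : Pl R) = ∑ i, C (g i) * (v i : Pl R) := by
  rw [Submodule.coe_sum]
  refine Finset.sum_congr rfl fun i _ => ?_
  rw [Submodule.coe_smul, smul_eq_C_mul]

/-- independence modulo `I` lifts -/
theorem b2_ge (m : ℕ) : hf (red V I) m ≤ hf I m := by
  classical
  have hfin := b2_finite K m
  have hfin2 := b2_finite (ResidueField V) m
  obtain ⟨s, hs⟩ : ∃ s, s = hf (red V I) m := ⟨_, rfl⟩
  have hs' : Module.finrank (ResidueField V) (Qm (red V I) m) = s := hs.symm
  obtain ⟨bb⟩ : Nonempty (Module.Basis (Fin s) (ResidueField V) (Qm (red V I) m)) :=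
    ⟨Module.finBasisOfFinrankEq _ _ hs'⟩
  have hp : ∀ i, ∃ p : Fm (ResidueField V) m, Submodule.Quotient.mk p = bb i := fun i =>
    Submodule.Quotient.mk_surjective _ _
  choose p hp using hp
  have hf1 : ∀ i, ∃ q ∈ Fm V m, MvPolynomial.map (residue V) q = (p i : Pl (ResidueField V)) :=
    fun i => b2_lift V (p i).2
  choose f hfm hfr using hf1
  have hv : ∀ i, MvPolynomial.map V.subtype (f i) ∈ Fm K m := fun i =>
    MvPolynomial.IsHomogeneous.map (hfm i) _
  have hli : LinearIndependent K (fun i : Fin s =>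
      (Submodule.Quotient.mk (⟨MvPolynomial.map V.subtype (f i), hv i⟩ : Fm K m) : Qm I m)) := by
    rw [Fintype.linearIndependent_iff]
    intro g hg
    by_contra hcon
    push Not at hcon
    obtain ⟨a, ha, d, hd, i0, hi0⟩ := b2_scale V g hcon
    have hg1 : (∑ i, g i • (⟨MvPolynomial.map V.subtype (f i), hv i⟩ : Fm K m)) ∈
        (I.restrictScalars K).comap (Fm K m).subtype := by
      rw [← Submodule.Quotient.mk_eq_zero, ← Submodule.mkQ_apply, map_sum]
      simpa only [map_smul, Submodule.mkQ_apply] using hg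
    have hg2 : (∑ i, C (g i) * MvPolynomial.map V.subtype (f i)) ∈ I := by
      have h3 : ((∑ i, g i • (⟨MvPolynomial.map V.subtype (f i), hv i⟩ : Fm K m) : Fm K m) :
        Pl K) ∈ I := hg1
      rw [b2_coe] at h3
      exact h3
    have hg3 : MvPolynomial.map V.subtype (∑ i, C (d i) * f i) ∈ I := by
      rw [b2_sub V f d a g hd]
      exact I.mul_mem_left _ hg2
    have hg4 : (∑ i, C (residue V (d i)) * (p i : Pl (ResidueField V))) ∈ red V I := by
      rw [mem_red]
      refine ⟨_, hg3, ?_⟩
      rw [b2_residue]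
      exact Finset.sum_congr rfl fun i _ => by rw [hfr]
    have hg5 : ∑ i, residue V (d i) • bb i = 0 := by
      have h3 : (∑ i, residue V (d i) • p i) ∈
          ((red V I).restrictScalars (ResidueField V)).comap (Fm (ResidueField V) m).subtype := by
        have h4 : ((∑ i, residue V (d i) • p i : Fm (ResidueField V) m) :
          Pl (ResidueField V)) ∈ red V I := by
          rw [b2_coe]; exact hg4
        exact h4
      rw [← Submodule.Quotient.mk_eq_zero, ← Submodule.mkQ_apply, map_sum] at h3
      simp only [map_smul, Submodule.mkQ_apply, hp] at h3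
      exact h3
    exact hi0 (Fintype.linearIndependent_iff.1 bb.linearIndependent _ hg5 i0)
  have h := hli.fintype_card_le_finrank
  rw [Fintype.card_fin] at h
  rw [← hs]
  exact h

theorem b2_sub_ge (hI : Hom I) (m : ℕ) :
    Module.finrank (ResidueField V)
      (((red V I).restrictScalars (ResidueField V)).comap (Fm (ResidueField V) m).subtype) ≤
    Module.finrank K ((I.restrictScalars K).comap (Fm K m).subtype) := by
  classical
  have hfin := b2_finite K m
  have hfin2 := b2_finite (ResidueField V) m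
  obtain ⟨b, hb, hbi⟩ := b2_basis
    (((red V I).restrictScalars (ResidueField V)).comap (Fm (ResidueField V) m).subtype)
  generalize Module.finrank (ResidueField V)
      (((red V I).restrictScalars (ResidueField V)).comap (Fm (ResidueField V) m).subtype) = s
    at b hb hbi ⊢
  have hf1 : ∀ i, ∃ q ∈ Fm V m, MvPolynomial.map V.subtype q ∈ I ∧
      MvPolynomial.map (residue V) q = (b i : Pl (ResidueField V)) :=
    fun i => exists_hom_lift V hI (hb i) (b i).2
  choose f hfm hfI hfr using hf1
  have hv : ∀ i, MvPolynomial.map V.subtype (f i) ∈ Fm K m := fun i =>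
    MvPolynomial.IsHomogeneous.map (hfm i) _
  refine b2_card _ (fun i => ⟨MvPolynomial.map V.subtype (f i), hv i⟩) (fun i => hfI i) ?_
  intro g hg
  by_contra hcon
  push Not at hcon
  obtain ⟨a, ha, d, hd, i0, hi0⟩ := b2_scale V g hcon
  have hg2 : (∑ i, C (g i) * MvPolynomial.map V.subtype (f i)) = 0 := by
    have h3 := congrArg (fun z : Fm K m => (z : Pl K)) hg
    beta_reduce at h3
    rw [b2_coe] at h3
    exact h3
  have hg3 : (∑ i, C (d i) * f i) = 0 := by
    have h4 : MvPolynomial.map V.subtype (∑ i, C (d i) * f i) = 0 := by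
      rw [b2_sub V f d a g hd, hg2, mul_zero]
    exact (map_eq_zero_iff _ (MvPolynomial.map_injective _ Subtype.val_injective)).1 h4
  have hg4 : (∑ i, C (residue V (d i)) * (b i : Pl (ResidueField V))) = 0 := by
    have h5 := b2_residue V f d
    rw [hg3, map_zero] at h5
    rw [h5]
    exact Finset.sum_congr rfl fun i _ => by rw [hfr]
  have hg5 : ∑ i, residue V (d i) • b i = 0 := by
    apply Subtype.ext
    rw [b2_coe]
    exact hg4
  exact hi0 (hbi _ hg5 i0)

end b2

/-- reduction preserves the Hilbert function -/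
theorem _root_.Pool.Agent.Helper947.Crv.hf_red (hI : Hom I) (m : ℕ) : hf (red V I) m = hf I m := by
  have hfin := b2_finite K m
  have hfin2 := b2_finite (IsLocalRing.ResidueField V) m
  have h1 := b2_ge (I := I) V m
  have h2 := b2_sub_ge V hI m
  have h3 := Submodule.finrank_quotient_add_finrank ((I.restrictScalars K).comap (Fm K m).subtype)
  have h4 := Submodule.finrank_quotient_add_finrank
    (((red V I).restrictScalars (IsLocalRing.ResidueField V)).comap
      (Fm (IsLocalRing.ResidueField V) m).subtype)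
  have h5 := b2_finrank K m
  have h6 := b2_finrank (IsLocalRing.ResidueField V) m
  have e1 : hf I m = Module.finrank K
    (Fm K m ⧸ (I.restrictScalars K).comap (Fm K m).subtype) := rfl
  have e2 : hf (red V I) m = Module.finrank (IsLocalRing.ResidueField V)
    (Fm (IsLocalRing.ResidueField V) m ⧸
      ((red V I).restrictScalars (IsLocalRing.ResidueField V)).comap
        (Fm (IsLocalRing.ResidueField V) m).subtype) := rfl
  omega

end redsec

end Pool.Agent.Helper947.Crv.LB2

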