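import Mathlib
import Pool.Agent.Helper947.Crv.Defs
import Pool.Agent.Helper947.Crv.A1
import Pool.Agent.Helper947.Crv.A2
import Pool.Agent.Helper947.Crv.B1
import Pool.Agent.Helper947.Crv.B2

open MvPolynomial Filter

namespace Pool.Agent.Helper947.Crv.LB3

section line

variable {K : Type*} [CommRing K]

end line

namespace Cfg

variable {K : Type*} [CommRing K] {J M : Type} (c : Cfg K J M)

end Cfg

section defs2

variable {K : Type*} [Field K]

end defs2

section hilb

variable {K : Type*} [Field K] {I J N : Ideal (Pl K)}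

end hilb

section redsec

variable {K : Type*} [Field K] (V : ValuationSubring K) {I J : Ideal (Pl K)}

theorem _root_.Pool.Agent.Helper947.Crv.residue_algClosed [IsAlgClosed K] : IsAlgClosed (IsLocalRing.ResidueField V) := by
  refine IsAlgClosed.of_exists_root _ ?_
  intro p hp hirr
  have hl : p ∈ Polynomial.lifts (IsLocalRing.residue V) := by
    rw [Polynomial.lifts_iff_coeff_lifts]
    intro n
    exact IsLocalRing.residue_surjective (p.coeff n)
  obtain ⟨q, hq, hdeg, hmon⟩ := Polynomial.lifts_and_degree_eq_and_monic hl hp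
  have hd : (q.map (algebraMap V K)).degree ≠ 0 := by
    rw [hmon.degree_map, hdeg]
    exact hirr.degree_pos.ne'
  obtain ⟨x, hx⟩ := IsAlgClosed.exists_root (q.map (algebraMap V K)) hd
  have hint : IsIntegral V x := by
    refine ⟨q, hmon, ?_⟩
    rw [← Polynomial.eval_map]
    exact hx
  obtain ⟨y, hy⟩ := IsIntegrallyClosed.isIntegral_iff.mp hint
  refine ⟨IsLocalRing.residue V y, ?_⟩
  have h0 : Polynomial.eval y q = 0 := by
    apply IsFractionRing.injective V K
    rw [map_zero, ← hx, ← hy, Polynomial.eval_map, Polynomial.eval₂_hom]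
  rw [← hq, Polynomial.eval_map, Polynomial.eval₂_hom, h0, map_zero]

private theorem forms_succ {L : Type*} [Field L] {T : Ideal (Pl L)} {n : ℕ}
    (h : ∀ f ∈ Fm L n, f ∈ T) : ∀ f ∈ Fm L (n + 1), f ∈ T := by
  intro f hf
  rw [f.as_sum]
  refine T.sum_mem fun d hd => ?_
  have hdeg : d.degree = n + 1 := by
    have := hf (mem_support_iff.mp hd)
    rw [Finsupp.degree_eq_weight_one]
    exact this
  have hne : ∃ i, d i ≠ 0 := by
    by_contra hcon
    push Not at hcon
    have : d = 0 := by ext i; simpa using hcon i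
    rw [this] at hdeg
    simp at hdeg
  obtain ⟨i, hi⟩ := hne
  have hle : Finsupp.single i 1 ≤ d := by
    rw [Finsupp.single_le_iff]
    omega
  have hsum : d - Finsupp.single i 1 + Finsupp.single i 1 = d := tsub_add_cancel_of_le hle
  have hdeg' : (d - Finsupp.single i 1).degree = n := by
    have h1 : (d - Finsupp.single i 1 + Finsupp.single i 1).degree = n + 1 := by rw [hsum, hdeg]
    rw [map_add, Finsupp.degree_single] at h1
    omega
  have hmon : monomial d (coeff d f) = monomial (d - Finsupp.single i 1) (coeff d f) * X i := by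
    rw [X, monomial_mul, hsum, mul_one]
  rw [hmon]
  refine T.mul_mem_right _ (h _ ?_)
  rw [mem_homogeneousSubmodule]
  exact isHomogeneous_monomial _ hdeg'

private theorem X_mem {L : Type*} [Field L] (i : Fin 4) : (X i : Pl L) ∈ Fm L 1 := by
  rw [mem_homogeneousSubmodule]
  exact isHomogeneous_X _ _

private theorem Hom_span2 {L : Type*} [Field L] : Hom (Ideal.span {(X 0 : Pl L), X 1}) := by
  rw [Ideal.span_insert]
  exact Hom.sup (Hom.span (X_mem 0)) (Hom.span (X_mem 1))

theorem _root_.Pool.Agent.Helper947.Crv.fin2_of_red (hI : Hom I) {J0 : Ideal (Pl (IsLocalRing.ResidueField V))} (hom : Hom J0)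
    (h2 : Fin2 J0) (h : ∀ᶠ m in atTop, ∀ p ∈ Fm _ m, p ∈ J0 → p ∈ red V I) : Fin2 I := by
  obtain ⟨N0, hN0⟩ := h2
  obtain ⟨N1, hN1⟩ := eventually_atTop.mp h
  have hall : ∀ k, ∀ f ∈ Fm (IsLocalRing.ResidueField V) (N0 + k),
      f ∈ J0 ⊔ Ideal.span {X 0, X 1} := by
    intro k
    induction k with
    | zero => exact hN0
    | succ k ih => exact forms_succ ih
  set N := N0 + N1 with hN
  set T : Ideal (Pl K) := I ⊔ Ideal.span {X 0, X 1} with hT
  have homT : Hom T := Hom.sup hI Hom_span2
  have hIT : red V I ≤ red V T := red_mono V le_sup_left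
  have hX : ∀ i : Fin 4, (X i : Pl K) ∈ T → (X i : Pl (IsLocalRing.ResidueField V)) ∈ red V T := by
    intro i hi
    rw [mem_red]
    exact ⟨X i, by simpa using hi, by simp⟩
  have hspan : Ideal.span {(X 0 : Pl (IsLocalRing.ResidueField V)), X 1} ≤ red V T := by
    rw [Ideal.span_le]
    rintro x (rfl | rfl)
    · exact hX 0 (Ideal.mem_sup_right (Ideal.subset_span (by simp)))
    · exact hX 1 (Ideal.mem_sup_right (Ideal.subset_span (by simp)))
  have hfull : ∀ f ∈ Fm (IsLocalRing.ResidueField V) N, f ∈ red V T := by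
    intro f hf
    obtain ⟨a, ha, b, hb, hab⟩ := Submodule.mem_sup.mp (hall N1 f hf)
    have hc : homogeneousComponent N f = f := by
      rw [homogeneousComponent_of_mem hf, if_pos rfl]
    rw [← hc, ← hab, map_add]
    refine (red V T).add_mem ?_ ?_
    · apply hIT
      apply hN1 N (by omega)
      · rw [mem_homogeneousSubmodule]
        exact homogeneousComponent_isHomogeneous N a
      · exact hom a ha N
    · exact hspan (Hom_span2 b hb N)
  have hz : hf (red V T) N = 0 := by
    unfold hf
    have htop : ((red V T).restrictScalars (IsLocalRing.ResidueField V)).comap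
        (Fm (IsLocalRing.ResidueField V) N).subtype = ⊤ := by
      rw [eq_top_iff]
      intro x _
      exact hfull x x.2
    have : Subsingleton (Qm (red V T) N) := by
      rw [Submodule.Quotient.subsingleton_iff]
      exact htop
    exact Module.finrank_zero_of_subsingleton
  rw [hf_red V homT] at hz
  refine ⟨N, fun f hf' => ?_⟩
  exact mem_of_hf_le (le_top : T ≤ ⊤) (by rw [hz]; exact Nat.zero_le _) hf' Submodule.mem_top

end redsec

end Pool.Agent.Helper947.Crv.LB3

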