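import Mathlib
import Pool.Agent.Helper947.Crv.Defs
import Pool.Agent.Helper947.Crv.C1

open MvPolynomial Filter

namespace Pool.Agent.Helper947.Crv.LC2

section line

variable {K : Type*} [CommRing K]

end line

namespace Cfg

variable {K : Type*} [CommRing K] {J M : Type} (c : Cfg K J M)

end Cfg

section defs2

variable {K : Type*} [Field K]

end defs2

section lines

variable {K : Type*} [Field K]

theorem q7_row_hom (C : Matrix (Fin 2) (Fin 2) K) (a : Fin 2) : (row C a).IsHomogeneous 1 := by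
  unfold row
  exact ((isHomogeneous_X K (0 : Fin 2)).C_mul _).add ((isHomogeneous_X K (1 : Fin 2)).C_mul _)

theorem q7_res_hom (C : Matrix (Fin 2) (Fin 2) K) {p : Pl K} {m : ℕ} (hp : p.IsHomogeneous m) :
    (res C p).IsHomogeneous m := by
  have h := hp.aeval ![X 0, X 1, row C 0, row C 1] (n := 1) (S := K) (τ := Fin 2) (by
    intro i
    fin_cases i
    · exact isHomogeneous_X K (0 : Fin 2)
    · exact isHomogeneous_X K (1 : Fin 2)
    · exact q7_row_hom C 0
    · exact q7_row_hom C 1)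
  rw [one_mul] at h
  exact h

theorem q7_dG_hom (C : Matrix (Fin 2) (Fin 2) K) {G : Fin 2 → P2 K} {e : ℕ}
    (hG : ∀ a, G a ∈ homogeneousSubmodule (Fin 2) K e) {p : Pl K} {m : ℕ}
    (hp : p.IsHomogeneous m) : (dG C G p).IsHomogeneous (m - 1 + e) := by
  unfold dG
  exact ((q7_res_hom C hp.pderiv).mul (hG 0)).add ((q7_res_hom C hp.pderiv).mul (hG 1))

theorem q7_dG_zero (C : Matrix (Fin 2) (Fin 2) K) (G : Fin 2 → P2 K) (p : Pl K) :
    dG C G (homogeneousComponent 0 p) = 0 := by
  rw [homogeneousComponent_zero]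
  simp [dG]

theorem q7_dG_sum (C : Matrix (Fin 2) (Fin 2) K) (G : Fin 2 → P2 K) {ι : Type*} (s : Finset ι)
    (f : ι → Pl K) : dG C G (∑ i ∈ s, f i) = ∑ i ∈ s, dG C G (f i) := by
  simp only [dG, map_sum, Finset.sum_mul, Finset.sum_add_distrib]

theorem q7_res_comp (C : Matrix (Fin 2) (Fin 2) K) (p : Pl K) (m : ℕ) :
    res C (homogeneousComponent m p) = homogeneousComponent m (res C p) := by
  conv_rhs => rw [← sum_homogeneousComponent p]
  rw [map_sum, map_sum]
  have h1 : ∀ i ∈ Finset.range (p.totalDegree + 1),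
      homogeneousComponent m (res C (homogeneousComponent i p)) =
        if m = i then res C (homogeneousComponent i p) else 0 := fun i _ =>
    homogeneousComponent_of_mem (q7_res_hom C (homogeneousComponent_isHomogeneous i p))
  rw [Finset.sum_congr rfl h1, Finset.sum_ite_eq]
  split_ifs with h
  · rfl
  · rw [Finset.mem_range, not_lt] at h
    rw [homogeneousComponent_eq_zero _ _ (by omega), map_zero]

theorem q7_dG_comp (C : Matrix (Fin 2) (Fin 2) K) {G : Fin 2 → P2 K} {e : ℕ}
    (hG : ∀ a, G a ∈ homogeneousSubmodule (Fin 2) K e) (p : Pl K) (m : ℕ) :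
    dG C G (homogeneousComponent (m + 1) p) = homogeneousComponent (m + e) (dG C G p) := by
  conv_rhs => rw [← sum_homogeneousComponent p]
  rw [q7_dG_sum, map_sum]
  have h1 : ∀ i ∈ Finset.range (p.totalDegree + 1),
      homogeneousComponent (m + e) (dG C G (homogeneousComponent i p)) =
        if m + 1 = i then dG C G (homogeneousComponent i p) else 0 := by
    intro i _
    rcases i with _ | i
    · rw [q7_dG_zero, map_zero, if_neg (by omega)]
    · rw [homogeneousComponent_of_mem (q7_dG_hom C hG (homogeneousComponent_isHomogeneous (i + 1) p))]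
      by_cases h : m = i
      · rw [if_pos (by omega), if_pos (by omega)]
      · rw [if_neg (by omega), if_neg (by omega)]
  rw [Finset.sum_congr rfl h1, Finset.sum_ite_eq]
  split_ifs with h
  · rfl
  · rw [Finset.mem_range, not_lt] at h
    rw [homogeneousComponent_eq_zero _ _ (by omega)]
    simp [dG]

theorem _root_.Pool.Agent.Helper947.Crv.Qd_hom (C : Matrix (Fin 2) (Fin 2) K) {G : Fin 2 → P2 K} {e : ℕ}
    (hG : ∀ a, G a ∈ homogeneousSubmodule (Fin 2) K e) : Hom (Qd C G) := by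
  rintro p ⟨hp1, hp2⟩ m
  refine ⟨?_, ?_⟩
  · rw [q7_res_comp, hp1, map_zero]
  · rcases m with _ | m
    · exact q7_dG_zero C G p
    · rw [q7_dG_comp C hG, hp2, map_zero]

theorem q7_pderiv_ι2 (g : P2 K) (i : Fin 4) (hi : 2 ≤ i) : pderiv i (ι2 K g) = 0 := by
  unfold ι2
  apply pderiv_eq_zero_of_notMem_vars
  intro h
  have := vars_rename _ _ h
  rw [Finset.mem_image] at this
  obtain ⟨j, _, hj⟩ := this
  rw [← hj] at hi
  have h1 : (2 : ℕ) ≤ (j : ℕ) := hi
  have := j.2
  omega

theorem q7_dG_ι2 (C : Matrix (Fin 2) (Fin 2) K) (G : Fin 2 → P2 K) (g : P2 K) :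
    dG C G (ι2 K g) = 0 := by
  unfold dG
  rw [q7_pderiv_ι2 g 2 (by decide), q7_pderiv_ι2 g 3 (by decide)]
  simp

theorem _root_.Pool.Agent.Helper947.Crv.Qd_tf (C : Matrix (Fin 2) (Fin 2) K) (G : Fin 2 → P2 K) : Tf (Qd C G) := by
  rintro g hg f ⟨h1, h2⟩
  rw [map_mul, res_ι2] at h1
  rw [dG_mul, q7_dG_ι2, zero_mul, add_zero, res_ι2] at h2
  exact ⟨(mul_eq_zero.1 h1).resolve_left hg, (mul_eq_zero.1 h2).resolve_left hg⟩

theorem _root_.Pool.Agent.Helper947.Crv.Qd_le (C : Matrix (Fin 2) (Fin 2) K) (G : Fin 2 → P2 K) : Qd C G ≤ Lam C := by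
  rintro p ⟨h1, _⟩
  exact h1

theorem _root_.Pool.Agent.Helper947.Crv.Lam_sq_le (C : Matrix (Fin 2) (Fin 2) K) (G : Fin 2 → P2 K) :
    Lam C * Lam C ≤ Qd C G := by
  rw [Ideal.mul_le]
  intro p hp q hq
  have hp' : res C p = 0 := hp
  have hq' : res C q = 0 := hq
  refine ⟨?_, ?_⟩
  · rw [map_mul, hp', zero_mul]
  · rw [dG_mul, hp', hq', zero_mul, mul_zero, add_zero]

end lines

end Pool.Agent.Helper947.Crv.LC2

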