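import Mathlib
import Pool.Agent.Helper947.Crv.Defs
import Pool.Agent.Helper947.Crv.A1
import Pool.Agent.Helper947.Crv.A2
import Pool.Agent.Helper947.Crv.A3
import Pool.Agent.Helper947.Crv.C1
import Pool.Agent.Helper947.Crv.C2

open MvPolynomial Filter

namespace Pool.Agent.Helper947.Crv.LC3

section line

variable {K : Type*} [CommRing K]

end line

namespace Cfg

variable {K : Type*} [CommRing K] {J M : Type} (c : Cfg K J M)

end Cfg

section defs2

variable {K : Type*} [Field K]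

end defs2

section hilb

variable {K : Type*} [Field K] {I J N : Ideal (Pl K)}

end hilb

section lines

variable {K : Type*} [Field K]

/-- all monomials of degree at least `N` are in `I` -/
def Bg {σ : Type} (I : Ideal (MvPolynomial σ K)) (N : ℕ) : Prop :=
  ∀ d : σ →₀ ℕ, N ≤ d.degree → monomial d (1 : K) ∈ I

theorem bg_form {σ : Type} {I : Ideal (MvPolynomial σ K)} {N m : ℕ} (h : Bg I N) (hm : N ≤ m)
    {f : MvPolynomial σ K} (hf : f ∈ homogeneousSubmodule σ K m) : f ∈ I := by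
  rw [← MvPolynomial.support_sum_monomial_coeff f]
  apply Ideal.sum_mem
  intro d hd
  have hdeg : d.degree = m := by
    have h1 : f.IsHomogeneous m := hf
    have h2 := h1 (mem_support_iff.1 hd)
    rw [← h2, Finsupp.degree_eq_weight_one]
    rfl
  have h3 : monomial d (coeff d f) = C (coeff d f) * monomial d 1 := by
    rw [C_mul_monomial, mul_one]
  rw [h3]
  exact I.mul_mem_left _ (h d (by omega))

theorem bg_of_form {σ : Type} {I : Ideal (MvPolynomial σ K)} {N : ℕ}
    (h : ∀ f ∈ homogeneousSubmodule σ K N, f ∈ I) : Bg I N := by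
  intro d hd
  obtain ⟨g, hg, hgd⟩ := Finsupp.exists_le_degree_eq d N hd
  obtain ⟨r, rfl⟩ := le_iff_exists_add.1 hg
  have h1 : monomial (g + r) (1 : K) = monomial r 1 * monomial g 1 := by
    rw [monomial_mul, add_comm, mul_one]
  rw [h1]
  apply I.mul_mem_left
  apply h
  exact isHomogeneous_monomial 1 hgd

theorem bg_mul {σ : Type} {I J : Ideal (MvPolynomial σ K)} {N M : ℕ} (hI : Bg I N) (hJ : Bg J M) :
    Bg (I * J) (N + M) := by
  intro d hd
  obtain ⟨g, hg, hgd⟩ := Finsupp.exists_le_degree_eq d N (by omega)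
  obtain ⟨r, rfl⟩ := le_iff_exists_add.1 hg
  have h1 : monomial (g + r) (1 : K) = monomial g 1 * monomial r 1 := by
    rw [monomial_mul, mul_one]
  rw [map_add] at hd
  rw [h1]
  exact Ideal.mul_mem_mul (hI g (by omega)) (hJ r (by omega))

theorem bg_mono {σ : Type} {I J : Ideal (MvPolynomial σ K)} {N : ℕ} (hI : Bg I N) (h : I ≤ J) :
    Bg J N := fun d hd => h (hI d hd)

theorem bg_X {σ : Type} {I : Ideal (MvPolynomial σ K)} (h : ∀ i, X i ∈ I) : Bg I 1 := by
  intro d hd
  have hd0 : d ≠ 0 := by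
    rintro rfl
    simp at hd
  obtain ⟨i, hi⟩ := Finsupp.ne_iff.1 hd0
  have h1 : X i ∣ monomial d (1 : K) := X_dvd_monomial.2 (Or.inr hi)
  exact I.mem_of_dvd h1 (h i)

theorem bg_pow {σ : Type} {I : Ideal (MvPolynomial σ K)} (h : Bg I 1) (k : ℕ) : Bg (I ^ k) k := by
  induction k with
  | zero =>
    intro d _
    rw [pow_zero, Ideal.one_eq_top]
    trivial
  | succ k ih =>
    rw [pow_succ]
    exact bg_mul ih h

theorem hf_zero {I : Ideal (Pl K)} {N m : ℕ} (h : Bg I N) (hm : N ≤ m) : hf I m = 0 := by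
  unfold hf
  have h1 : (I.restrictScalars K).comap (Fm K m).subtype = ⊤ := by
    rw [eq_top_iff]
    rintro ⟨p, hp⟩ _
    exact bg_form h hm hp
  have h2 : Subsingleton (Qm I m) := by
    unfold Qm
    rw [h1]
    exact Submodule.Quotient.subsingleton_iff.2 rfl
  exact Module.finrank_zero_of_subsingleton

theorem sup_mul_le (A B C : Ideal (Pl K)) : (A ⊔ C) * (B ⊔ C) ≤ (A ⊓ B) ⊔ C := by
  rw [Ideal.sup_mul, Ideal.mul_sup, Ideal.mul_sup]
  refine sup_le (sup_le ?_ ?_) (sup_le ?_ ?_)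
  · exact Ideal.mul_le_inf.trans le_sup_left
  · exact (Ideal.mul_le_inf.trans inf_le_right).trans le_sup_right
  · exact (Ideal.mul_le_inf.trans inf_le_left).trans le_sup_right
  · exact (Ideal.mul_le_inf.trans inf_le_left).trans le_sup_right

theorem hf_fin {ι : Type} [DecidableEq ι] (P : ι → Ideal (Pl K)) (hH : ∀ s, Hom (P s))
    (hB : ∀ s t, s ≠ t → ∃ N, Bg (P s ⊔ P t) N) (T : Finset ι) :
    (Hom (T.inf P)) ∧ (∀ t ∉ T, ∃ N, Bg (T.inf P ⊔ P t) N) ∧
      ∀ᶠ m in atTop, hf (T.inf P) m = ∑ s ∈ T, hf (P s) m := by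
  induction T using Finset.induction_on with
  | empty =>
    refine ⟨fun p _ m => ?_, fun t _ => ⟨0, ?_⟩, ?_⟩
    · rw [Finset.inf_empty]; trivial
    · rw [Finset.inf_empty, top_sup_eq]
      intro d _; trivial
    · apply Filter.Eventually.of_forall
      intro m
      rw [Finset.inf_empty, Finset.sum_empty]
      exact hf_zero (N := 0) (fun d _ => trivial) (Nat.zero_le _)
  | insert a T ha ih =>
    obtain ⟨ih1, ih2, ih3⟩ := ih
    rw [Finset.inf_insert]
    refine ⟨Hom.inf (hH a) ih1, ?_, ?_⟩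
    · intro t ht
      rw [Finset.mem_insert, not_or] at ht
      obtain ⟨N1, h1⟩ := hB a t (Ne.symm ht.1)
      obtain ⟨N2, h2⟩ := ih2 t ht.2
      exact ⟨N1 + N2, bg_mono (bg_mul h1 h2) (sup_mul_le _ _ _)⟩
    · obtain ⟨N, hN⟩ := ih2 a ha
      filter_upwards [ih3, eventually_ge_atTop N] with m hm hmN
      have h1 := hf_inf_sup (hH a) ih1 m
      rw [sup_comm] at h1
      rw [hf_zero hN hmN, add_zero] at h1
      rw [h1, Finset.sum_insert ha, hm]

theorem hf_all {ι : Type} [Fintype ι] (P : ι → Ideal (Pl K)) (hH : ∀ s, Hom (P s))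
    (hB : ∀ s t, s ≠ t → ∃ N, Bg (P s ⊔ P t) N) :
    ∀ᶠ m in atTop, hf (⨅ s, P s) m = ∑ s, hf (P s) m := by
  classical
  have := (hf_fin P hH hB Finset.univ).2.2
  rwa [Finset.inf_univ_eq_iInf] at this

theorem res_X2 (C : Matrix (Fin 2) (Fin 2) K) : res C (X 2) = row C 0 := by
  simp [res]

theorem res_X3 (C : Matrix (Fin 2) (Fin 2) K) : res C (X 3) = row C 1 := by
  simp [res]

theorem ι2_row (C : Matrix (Fin 2) (Fin 2) K) (a : Fin 2) : ι2 K (row C a) =
    MvPolynomial.C (C a 0) * X 0 + MvPolynomial.C (C a 1) * X 1 := by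
  simp only [ι2, row, map_add, map_mul, rename_X, rename_C]
  rfl

theorem lam_x2 (C : Matrix (Fin 2) (Fin 2) K) : X 2 - ι2 K (row C 0) ∈ Lam C := by
  unfold Lam
  rw [RingHom.mem_ker, map_sub]
  change res C (X 2) - res C (ι2 K (row C 0)) = 0
  rw [res_X2, res_ι2, sub_self]

theorem lam_x3 (C : Matrix (Fin 2) (Fin 2) K) : X 3 - ι2 K (row C 1) ∈ Lam C := by
  unfold Lam
  rw [RingHom.mem_ker, map_sub]
  change res C (X 3) - res C (ι2 K (row C 1)) = 0
  rw [res_X3, res_ι2, sub_self]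

theorem lam_sup (C C' : Matrix (Fin 2) (Fin 2) K) (hdet : (C - C').det ≠ 0) :
    Bg (Lam C ⊔ Lam C') 1 := by
  obtain ⟨I, hI⟩ : ∃ I, I = Lam C ⊔ Lam C' := ⟨_, rfl⟩
  rw [← hI]
  have hC : ∀ p ∈ Lam C, p ∈ I := fun p hp => by rw [hI]; exact Ideal.mem_sup_left hp
  have hC' : ∀ p ∈ Lam C', p ∈ I := fun p hp => by rw [hI]; exact Ideal.mem_sup_right hp
  obtain ⟨D, hD⟩ : ∃ D, D = C - C' := ⟨_, rfl⟩
  rw [← hD] at hdet
  have hDab : ∀ a b, D a b = C a b - C' a b := fun a b => by rw [hD]; rfl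
  have l0 : MvPolynomial.C (D 0 0) * X 0 + MvPolynomial.C (D 0 1) * X 1 ∈ I := by
    have h1 := I.sub_mem (hC' _ (lam_x2 C')) (hC _ (lam_x2 C))
    rw [ι2_row, ι2_row] at h1
    convert h1 using 1
    rw [hDab, hDab, map_sub, map_sub]
    ring
  have l1 : MvPolynomial.C (D 1 0) * X 0 + MvPolynomial.C (D 1 1) * X 1 ∈ I := by
    have h1 := I.sub_mem (hC' _ (lam_x3 C')) (hC _ (lam_x3 C))
    rw [ι2_row, ι2_row] at h1
    convert h1 using 1
    rw [hDab, hDab, map_sub, map_sub]
    ring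
  have hdet2 : D.det = D 0 0 * D 1 1 - D 0 1 * D 1 0 := Matrix.det_fin_two D
  have hinv : ∀ q : Pl K, q = MvPolynomial.C (D.det)⁻¹ * (MvPolynomial.C D.det * q) := by
    intro q
    rw [← mul_assoc, ← C_mul, inv_mul_cancel₀ hdet, C_1, one_mul]
  have x0 : X 0 ∈ I := by
    rw [hinv (X 0)]
    apply I.mul_mem_left
    have h1 := I.sub_mem (I.mul_mem_left (MvPolynomial.C (D 1 1)) l0)
      (I.mul_mem_left (MvPolynomial.C (D 0 1)) l1)
    convert h1 using 1
    rw [hdet2]
    simp only [map_sub, map_mul]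
    ring
  have x1 : X 1 ∈ I := by
    rw [hinv (X 1)]
    apply I.mul_mem_left
    have h1 := I.sub_mem (I.mul_mem_left (MvPolynomial.C (D 0 0)) l1)
      (I.mul_mem_left (MvPolynomial.C (D 1 0)) l0)
    convert h1 using 1
    rw [hdet2]
    simp only [map_sub, map_mul]
    ring
  have x2 : X 2 ∈ I := by
    have h1 := I.add_mem (hC _ (lam_x2 C)) (I.add_mem (I.mul_mem_left (MvPolynomial.C (C 0 0)) x0)
      (I.mul_mem_left (MvPolynomial.C (C 0 1)) x1))
    rw [ι2_row] at h1
    convert h1 using 1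
    ring
  have x3 : X 3 ∈ I := by
    have h1 := I.add_mem (hC _ (lam_x3 C)) (I.add_mem (I.mul_mem_left (MvPolynomial.C (C 1 0)) x0)
      (I.mul_mem_left (MvPolynomial.C (C 1 1)) x1))
    rw [ι2_row] at h1
    convert h1 using 1
    ring
  apply bg_X
  intro i
  fin_cases i
  · exact x0
  · exact x1
  · exact x2
  · exact x3

/-- pairwise skew lines -/
theorem _root_.Pool.Agent.Helper947.Crv.hf_skew {ι : Type} [Fintype ι] (C : ι → Matrix (Fin 2) (Fin 2) K)
    (hC : ∀ s t, s ≠ t → (C s - C t).det ≠ 0) :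
    ∀ᶠ m in atTop, hf (⨅ s, Lam (C s)) m = Fintype.card ι * (m + 1) := by
  filter_upwards [hf_all (fun s => Lam (C s)) (fun s => Lam_hom (C s))
    (fun s t hst => ⟨1, lam_sup _ _ (hC s t hst)⟩)] with m hm
  rw [hm]
  simp only [hf_Lam, Finset.sum_const, Finset.card_univ, smul_eq_mul]

theorem hc_mul {σ : Type} (a g : MvPolynomial σ K) {e : ℕ} (hg : g.IsHomogeneous e) (k : ℕ) :
    homogeneousComponent (k + e) (a * g) = homogeneousComponent k a * g := by
  have h1 : ∀ i, homogeneousComponent (k + e) (homogeneousComponent i a * g) =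
      if i = k then homogeneousComponent k a * g else 0 := by
    intro i
    rw [homogeneousComponent_of_mem ((homogeneousComponent_isHomogeneous i a).mul hg)]
    by_cases h : i = k
    · rw [if_pos (by rw [h]), if_pos h, h]
    · rw [if_neg (by omega), if_neg h]
  conv_lhs => rw [← sum_homogeneousComponent a, Finset.sum_mul, map_sum]
  rw [Finset.sum_congr rfl (fun i _ => h1 i), Finset.sum_ite_eq']
  split_ifs with h
  · rfl
  · rw [Finset.mem_range, not_lt] at h
    rw [homogeneousComponent_eq_zero k a (by omega), zero_mul]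

theorem cop_form {G : Fin 2 → P2 K} {e N : ℕ} (hG : ∀ a, G a ∈ homogeneousSubmodule (Fin 2) K e)
    (hN : ∀ f ∈ homogeneousSubmodule (Fin 2) K N, f ∈ Ideal.span {G 0, G 1}) (k : ℕ)
    (hk : N ≤ k + e) (f : P2 K) (hf : f ∈ homogeneousSubmodule (Fin 2) K (k + e)) :
    ∃ u v : P2 K, u ∈ homogeneousSubmodule (Fin 2) K k ∧ v ∈ homogeneousSubmodule (Fin 2) K k ∧
      f = u * G 0 + v * G 1 := by
  have h1 := bg_form (bg_of_form hN) hk hf
  obtain ⟨a, b, hab⟩ := Ideal.mem_span_pair.1 h1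
  refine ⟨homogeneousComponent k a, homogeneousComponent k b,
    homogeneousComponent_isHomogeneous k a, homogeneousComponent_isHomogeneous k b, ?_⟩
  rw [← hc_mul a (G 0) (hG 0) k, ← hc_mul b (G 1) (hG 1) k, ← map_add, hab]
  exact (homogeneousComponent_eq_self hf).symm

theorem res_hom (C : Matrix (Fin 2) (Fin 2) K) {m : ℕ} {p : Pl K} (hp : p ∈ Fm K m) :
    res C p ∈ homogeneousSubmodule (Fin 2) K m := by
  have h1 : p.IsHomogeneous m := hp
  have h2 := h1.aeval (S := K) ![X 0, X 1, row C 0, row C 1] (n := 1) (by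
    intro i
    have hrow : ∀ a, (row C a).IsHomogeneous 1 := by
      intro a
      unfold row
      have e1 : (MvPolynomial.C (C a 0) * X 0 : P2 K).IsHomogeneous (0 + 1) :=
        (isHomogeneous_C _ _).mul (isHomogeneous_X _ _)
      have e2 : (MvPolynomial.C (C a 1) * X 1 : P2 K).IsHomogeneous (0 + 1) :=
        (isHomogeneous_C _ _).mul (isHomogeneous_X _ _)
      exact e1.add e2
    fin_cases i
    · exact isHomogeneous_X _ _
    · exact isHomogeneous_X _ _
    · exact hrow 0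
    · exact hrow 1)
  rw [one_mul] at h2
  exact h2

theorem ι2_hom {m : ℕ} {g : P2 K} (hg : g ∈ homogeneousSubmodule (Fin 2) K m) :
    ι2 K g ∈ Fm K m := by
  have h1 : g.IsHomogeneous m := hg
  exact h1.rename_isHomogeneous

theorem dG_hom (C : Matrix (Fin 2) (Fin 2) K) {G : Fin 2 → P2 K} {e m : ℕ}
    (hG : ∀ a, G a ∈ homogeneousSubmodule (Fin 2) K e) {p : Pl K} (hp : p ∈ Fm K m) :
    dG C G p ∈ homogeneousSubmodule (Fin 2) K (m - 1 + e) := by
  have h1 : p.IsHomogeneous m := hp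
  have h2 : ∀ i, (res C (pderiv i p)).IsHomogeneous (m - 1) := fun i =>
    res_hom C (m := m - 1) (h1.pderiv (i := i))
  unfold dG
  exact ((h2 2).mul (hG 0)).add ((h2 3).mul (hG 1))

theorem hf_of_surj {V : Type*} [AddCommGroup V] [Module K V] (I : Ideal (Pl K)) (m : ℕ)
    (φ : Fm K m →ₗ[K] V) (hker : ∀ p : Fm K m, φ p = 0 ↔ (p : Pl K) ∈ I)
    (hs : Function.Surjective φ) : hf I m = Module.finrank K V := by
  have h1 : (I.restrictScalars K).comap (Fm K m).subtype = LinearMap.ker φ := by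
    ext p
    rw [LinearMap.mem_ker, hker]
    rfl
  unfold hf
  have h2 := (φ.quotKerEquivOfSurjective hs).finrank_eq
  rw [← h2]
  unfold Qm
  rw [h1]

/-- restriction to a line on forms of degree `m` -/
noncomputable def resm (C : Matrix (Fin 2) (Fin 2) K) (m : ℕ) :
    Fm K m →ₗ[K] homogeneousSubmodule (Fin 2) K m :=
  (res C).toLinearMap.restrict (fun _ hp => res_hom C hp)

theorem resm_apply (C : Matrix (Fin 2) (Fin 2) K) (m : ℕ) (p : Fm K m) :
    (resm C m p : P2 K) = res C (p : Pl K) := rfl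

theorem finrank_hs (m : ℕ) : Module.finrank K (homogeneousSubmodule (Fin 2) K m) = m + 1 := by
  rw [← hf_Lam (0 : Matrix (Fin 2) (Fin 2) K) m]
  symm
  apply hf_of_surj _ _ (resm 0 m)
  · intro p
    rw [← Subtype.coe_inj, resm_apply]
    rfl
  · rintro ⟨f, hf⟩
    refine ⟨⟨ι2 K f, ι2_hom hf⟩, ?_⟩
    apply Subtype.ext
    rw [resm_apply]
    exact res_ι2 _ _

/-- `dG` as a linear map -/
noncomputable def dGL (C : Matrix (Fin 2) (Fin 2) K) (G : Fin 2 → P2 K) : Pl K →ₗ[K] P2 K where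
  toFun := dG C G
  map_add' := dG_add C G
  map_smul' := by
    intro a p
    simp only [dG, RingHom.id_apply]
    rw [(pderiv 2).map_smul, (pderiv 3).map_smul]
    rw [map_smul, map_smul]
    simp only [smul_mul_assoc, smul_add]

/-- derivative on forms of degree `m` -/
noncomputable def dGm (C : Matrix (Fin 2) (Fin 2) K) {G : Fin 2 → P2 K} {e : ℕ}
    (hG : ∀ a, G a ∈ homogeneousSubmodule (Fin 2) K e) (m : ℕ) :
    Fm K m →ₗ[K] homogeneousSubmodule (Fin 2) K (m - 1 + e) :=
  (dGL C G).restrict (fun _ hp => dG_hom C hG hp)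

theorem dGm_apply (C : Matrix (Fin 2) (Fin 2) K) {G : Fin 2 → P2 K} {e : ℕ}
    (hG : ∀ a, G a ∈ homogeneousSubmodule (Fin 2) K e) (m : ℕ) (p : Fm K m) :
    (dGm C hG m p : P2 K) = dG C G (p : Pl K) := rfl

theorem dG_x2 (C : Matrix (Fin 2) (Fin 2) K) (G : Fin 2 → P2 K) :
    dG C G (X 2 - ι2 K (row C 0)) = G 0 := by
  unfold dG
  rw [ι2_row]
  simp [pderiv_X, Derivation.leibniz]

theorem dG_x3 (C : Matrix (Fin 2) (Fin 2) K) (G : Fin 2 → P2 K) :
    dG C G (X 3 - ι2 K (row C 1)) = G 1 := by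
  unfold dG
  rw [ι2_row]
  simp [pderiv_X, Derivation.leibniz]

theorem hf_Qd (C : Matrix (Fin 2) (Fin 2) K) {G : Fin 2 → P2 K} {e : ℕ}
    (hG : ∀ a, G a ∈ homogeneousSubmodule (Fin 2) K e) {N : ℕ}
    (hN : ∀ f ∈ homogeneousSubmodule (Fin 2) K N, f ∈ Ideal.span {G 0, G 1}) (m : ℕ)
    (hm : N + 1 ≤ m) : hf (Qd C G) m = 2 * m + 1 + e := by
  have hfin : ∀ k, Module.Finite K (homogeneousSubmodule (Fin 2) K k) := by
    intro k
    apply Module.finite_of_finrank_pos
    rw [finrank_hs]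
    omega
  have h1 : hf (Qd C G) m = Module.finrank K (homogeneousSubmodule (Fin 2) K m ×
      homogeneousSubmodule (Fin 2) K (m - 1 + e)) := by
    apply hf_of_surj _ _ ((resm C m).prod (dGm C hG m))
    · intro p
      change (resm C m p, dGm C hG m p) = 0 ↔ _
      rw [Prod.mk_eq_zero, ← Subtype.coe_inj, ← Subtype.coe_inj,
        resm_apply, dGm_apply]
      rfl
    · rintro ⟨⟨f, hf⟩, ⟨h, hh⟩⟩
      have hmem : h - dG C G (ι2 K f) ∈ homogeneousSubmodule (Fin 2) K (m - 1 + e) :=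
        Submodule.sub_mem _ hh (dG_hom C hG (ι2_hom hf))
      obtain ⟨u, v, hu, hv, huv⟩ := cop_form hG hN (m - 1) (by omega) _ hmem
      have hx2 : (X 2 - ι2 K (row C 0) : Pl K).IsHomogeneous 1 := by
        have e1 : (ι2 K (row C 0)).IsHomogeneous 1 := by
          rw [ι2_row]
          have e1 : (MvPolynomial.C (C 0 0) * X 0 : Pl K).IsHomogeneous (0 + 1) :=
            (isHomogeneous_C _ _).mul (isHomogeneous_X _ _)
          have e2 : (MvPolynomial.C (C 0 1) * X 1 : Pl K).IsHomogeneous (0 + 1) :=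
            (isHomogeneous_C _ _).mul (isHomogeneous_X _ _)
          exact e1.add e2
        exact (isHomogeneous_X _ _).sub e1
      have hx3 : (X 3 - ι2 K (row C 1) : Pl K).IsHomogeneous 1 := by
        have e1 : (ι2 K (row C 1)).IsHomogeneous 1 := by
          rw [ι2_row]
          have e1 : (MvPolynomial.C (C 1 0) * X 0 : Pl K).IsHomogeneous (0 + 1) :=
            (isHomogeneous_C _ _).mul (isHomogeneous_X _ _)
          have e2 : (MvPolynomial.C (C 1 1) * X 1 : Pl K).IsHomogeneous (0 + 1) :=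
            (isHomogeneous_C _ _).mul (isHomogeneous_X _ _)
          exact e1.add e2
        exact (isHomogeneous_X _ _).sub e1
      have hp2 : ι2 K u * (X 2 - ι2 K (row C 0)) + ι2 K v * (X 3 - ι2 K (row C 1)) ∈ Fm K m := by
        have e1 : (ι2 K u).IsHomogeneous (m - 1) := ι2_hom hu
        have e2 : (ι2 K v).IsHomogeneous (m - 1) := ι2_hom hv
        have e3 := (e1.mul hx2).add (e2.mul hx3)
        rw [show m - 1 + 1 = m by omega] at e3
        exact e3
      refine ⟨⟨ι2 K f + (ι2 K u * (X 2 - ι2 K (row C 0)) + ι2 K v * (X 3 - ι2 K (row C 1))),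
        Submodule.add_mem _ (ι2_hom hf) hp2⟩, ?_⟩
      apply Prod.ext
      · apply Subtype.ext
        refine (resm_apply C m _).trans ?_
        simp only [map_add, map_mul, map_sub, res_ι2, res_X2, res_X3, sub_self, mul_zero, add_zero]
      · apply Subtype.ext
        refine (dGm_apply C hG m _).trans ?_
        simp only [dG_add, dG_mul, res_ι2, dG_x2, dG_x3, map_sub, res_X2, res_X3, sub_self,
          mul_zero, add_zero]
        rw [← huv]
        ring
  rw [h1, Module.finrank_prod, finrank_hs, finrank_hs]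
  omega

/-- pairwise skew double lines -/
theorem _root_.Pool.Agent.Helper947.Crv.hf_skew_double {ι : Type} [Fintype ι] (C : ι → Matrix (Fin 2) (Fin 2) K)
    (G : ι → Fin 2 → P2 K) {e : ℕ} (hG : ∀ s a, G s a ∈ homogeneousSubmodule (Fin 2) K e)
    (hcop : ∀ s, ∃ N, ∀ f ∈ homogeneousSubmodule (Fin 2) K N, f ∈ Ideal.span {G s 0, G s 1})
    (hC : ∀ s t, s ≠ t → (C s - C t).det ≠ 0) :
    ∀ᶠ m in atTop, hf (⨅ s, Qd (C s) (G s)) m = Fintype.card ι * (2 * m + 1 + e) := by
  have h1 : ∀ s, ∀ᶠ m in atTop, hf (Qd (C s) (G s)) m = 2 * m + 1 + e := by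
    intro s
    obtain ⟨N, hN⟩ := hcop s
    filter_upwards [eventually_ge_atTop (N + 1)] with m hm
    exact hf_Qd (C s) (hG s) hN m hm
  filter_upwards [hf_all (fun s => Qd (C s) (G s)) (fun s => Qd_hom (C s) (hG s))
    (fun s t hst => ⟨2 + 2, by
      refine bg_mono (bg_pow (lam_sup _ _ (hC s t hst)) (2 + 2)) ?_
      refine Ideal.sup_pow_add_le_pow_sup_pow.trans (sup_le_sup ?_ ?_)
      · rw [pow_two]; exact Lam_sq_le _ _
      · rw [pow_two]; exact Lam_sq_le _ _⟩), eventually_all.2 h1] with m hm hm2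
  rw [hm]
  simp only [hm2, Finset.sum_const, Finset.card_univ, smul_eq_mul]

end lines

end Pool.Agent.Helper947.Crv.LC3

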