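import Mathlib
import Pool.Agent.Helper947.Crv.Defs
import Pool.Agent.Helper947.Crv.A2
import Pool.Agent.Helper947.Crv.C1

open MvPolynomial Filter

namespace Pool.Agent.Helper947.Crv.LC4

section line

variable {K : Type*} [CommRing K]

end line

namespace Cfg

variable {K : Type*} [CommRing K] {J M : Type} (c : Cfg K J M)

end Cfg

section defs2

variable {K : Type*} [Field K]

end defs2

section hilb

variable {K : Type*} [Field K] {I J N : Ideal (Pl K)}

end hilb

section lines

variable {K : Type*} [Field K]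

theorem h441_row_hom (C : Matrix (Fin 2) (Fin 2) K) (a : Fin 2) : (row C a).IsHomogeneous 1 := by
  unfold row
  exact (isHomogeneous_C_mul_X _ _).add (isHomogeneous_C_mul_X _ _)

theorem h441_res_hom (C : Matrix (Fin 2) (Fin 2) K) {m : ℕ} {p : Pl K} (hp : p ∈ Fm K m) :
    res C p ∈ homogeneousSubmodule (Fin 2) K m := by
  rw [mem_homogeneousSubmodule] at hp ⊢
  have h := hp.aeval (n := 1) ![X 0, X 1, row C 0, row C 1] (by
    intro i
    fin_cases i
    · exact isHomogeneous_X K 0
    · exact isHomogeneous_X K 1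
    · exact h441_row_hom C 0
    · exact h441_row_hom C 1)
  rwa [one_mul] at h

theorem h441_P2 (m : ℕ) : Module.finrank K (homogeneousSubmodule (Fin 2) K m) = m + 1 := by
  have h := hf_Lam (0 : Matrix (Fin 2) (Fin 2) K) m
  let ρ : Fm K m →ₗ[K] homogeneousSubmodule (Fin 2) K m :=
    (res (0 : Matrix (Fin 2) (Fin 2) K)).toLinearMap.restrict (fun p hp => h441_res_hom 0 hp)
  have hsurj : Function.Surjective ρ := by
    rintro ⟨g, hg⟩
    refine ⟨⟨ι2 K g, ?_⟩, ?_⟩
    · rw [mem_homogeneousSubmodule] at hg ⊢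
      exact hg.rename_isHomogeneous
    · apply Subtype.ext
      exact res_ι2 0 g
  have hker : LinearMap.ker ρ =
      ((Lam (0 : Matrix (Fin 2) (Fin 2) K)).restrictScalars K).comap (Fm K m).subtype := by
    ext ⟨p, hp⟩
    rw [LinearMap.mem_ker, Submodule.mem_comap, Submodule.restrictScalars_mem]
    constructor
    · intro h1
      exact congrArg Subtype.val h1
    · intro h1
      apply Subtype.ext
      exact h1
  rw [← h]
  unfold hf Qm
  rw [← hker]
  exact (LinearEquiv.finrank_eq (ρ.quotKerEquivOfSurjective hsurj)).symm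

theorem h441_res_surj (C : Matrix (Fin 2) (Fin 2) K) : Function.Surjective (res C) :=
  fun g => ⟨ι2 K g, res_ι2 C g⟩

theorem h441_rowmem (A B : Matrix (Fin 2) (Fin 2) K) (a : Fin 2) :
    MvPolynomial.C ((A - B) a 0) * X 0 + MvPolynomial.C ((A - B) a 1) * X 1 ∈
      (Lam A).map (res B) := by
  have key : ∀ b : Fin 4, res A (X b) = row A a → res B (X b) = row B a →
      MvPolynomial.C ((A - B) a 0) * X 0 + MvPolynomial.C ((A - B) a 1) * X 1 ∈
      (Lam A).map (res B) := by
    intro b h1 h2
    have h3 : ι2 K (row A a) - X b ∈ Lam A := by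
      show res A (ι2 K (row A a) - X b) = 0
      rw [map_sub, res_ι2, h1, sub_self]
    have h4 := Ideal.mem_map_of_mem (res B) h3
    rw [map_sub, res_ι2, h2] at h4
    have h5 : MvPolynomial.C ((A - B) a 0) * X 0 + MvPolynomial.C ((A - B) a 1) * X 1 =
        row A a - row B a := by
      unfold row
      simp only [Matrix.sub_apply, map_sub]
      ring
    rw [h5]
    exact h4
  fin_cases a
  · apply key 2 <;> simp [res]
  · apply key 3 <;> simp [res]

theorem h441_lin {A B : Matrix (Fin 2) (Fin 2) K} (h : A ≠ B) :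
    ∃ l : P2 K, l ≠ 0 ∧ l.IsHomogeneous 1 ∧ l ∈ (Lam A).map (res B) ∧
      ((A - B).det ≠ 0 → idealOfVars (Fin 2) K ≤ (Lam A).map (res B)) := by
  have hne : A - B ≠ 0 := sub_ne_zero.mpr h
  have hex : ∃ a b, (A - B) a b ≠ 0 := by
    by_contra hcon
    push Not at hcon
    exact hne (by ext a b; exact hcon a b)
  obtain ⟨a, b, hab⟩ := hex
  have r0 := h441_rowmem A B 0
  have r1 := h441_rowmem A B 1
  have ra := h441_rowmem A B a
  refine ⟨_, ?_, ?_, ra, ?_⟩
  · intro h0
    have hc := congrArg (coeff (Finsupp.single b 1)) h0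
    rw [coeff_add, coeff_C_mul, coeff_C_mul, coeff_zero] at hc
    fin_cases b
    · simp [coeff_X, Finsupp.single_left_inj (one_ne_zero : (1 : ℕ) ≠ 0)] at hc
      exact hab (by simpa using hc)
    · simp [coeff_X, Finsupp.single_left_inj (one_ne_zero : (1 : ℕ) ≠ 0)] at hc
      exact hab (by simpa using hc)
  · exact (isHomogeneous_C_mul_X _ _).add (isHomogeneous_C_mul_X _ _)
  · intro hdet
    generalize (Lam A).map (res B) = I at r0 r1
    have hd : (A - B).det = (A - B) 0 0 * (A - B) 1 1 - (A - B) 0 1 * (A - B) 1 0 :=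
      Matrix.det_fin_two _
    rw [hd] at hdet
    generalize (A - B) 0 0 = d00 at *
    generalize (A - B) 0 1 = d01 at *
    generalize (A - B) 1 0 = d10 at *
    generalize (A - B) 1 1 = d11 at *
    have hunit : (MvPolynomial.C (d00 * d11 - d01 * d10)⁻¹ : P2 K) *
        MvPolynomial.C (d00 * d11 - d01 * d10) = 1 := by
      rw [← map_mul, inv_mul_cancel₀ hdet, map_one]
    have x0 : (X 0 : P2 K) ∈ I := by
      have h1 : (X 0 : P2 K) = MvPolynomial.C (d00 * d11 - d01 * d10)⁻¹ *
          (MvPolynomial.C d11 * (MvPolynomial.C d00 * X 0 + MvPolynomial.C d01 * X 1) -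
            MvPolynomial.C d01 * (MvPolynomial.C d10 * X 0 + MvPolynomial.C d11 * X 1)) := by
        calc (X 0 : P2 K) = 1 * X 0 := (one_mul _).symm
          _ = (MvPolynomial.C (d00 * d11 - d01 * d10)⁻¹ *
              MvPolynomial.C (d00 * d11 - d01 * d10)) * X 0 := by rw [hunit]
          _ = _ := by
            rw [map_sub MvPolynomial.C (d00 * d11), map_mul MvPolynomial.C d00, map_mul MvPolynomial.C d01]
            ring
      rw [h1]
      exact I.mul_mem_left _ (I.sub_mem (I.mul_mem_left _ r0) (I.mul_mem_left _ r1))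
    have x1 : (X 1 : P2 K) ∈ I := by
      have h1 : (X 1 : P2 K) = MvPolynomial.C (d00 * d11 - d01 * d10)⁻¹ *
          (MvPolynomial.C d00 * (MvPolynomial.C d10 * X 0 + MvPolynomial.C d11 * X 1) -
            MvPolynomial.C d10 * (MvPolynomial.C d00 * X 0 + MvPolynomial.C d01 * X 1)) := by
        calc (X 1 : P2 K) = 1 * X 1 := (one_mul _).symm
          _ = (MvPolynomial.C (d00 * d11 - d01 * d10)⁻¹ *
              MvPolynomial.C (d00 * d11 - d01 * d10)) * X 1 := by rw [hunit]
          _ = _ := by
            rw [map_sub MvPolynomial.C (d00 * d11), map_mul MvPolynomial.C d00, map_mul MvPolynomial.C d01]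
            ring
      rw [h1]
      exact I.mul_mem_left _ (I.sub_mem (I.mul_mem_left _ r1) (I.mul_mem_left _ r0))
    unfold idealOfVars
    rw [Ideal.span_le]
    rintro _ ⟨i, rfl⟩
    fin_cases i
    · exact x0
    · exact x1

theorem h441_prod {J : Type} (A : J → Matrix (Fin 2) (Fin 2) K) (B : Matrix (Fin 2) (Fin 2) K)
    (S : J → Prop) [DecidablePred S] (l : J → P2 K) (s : Finset J)
    (h1 : ∀ j ∈ s, l j ∈ (Lam (A j)).map (res B))
    (h2 : ∀ j ∈ s, ¬ S j → idealOfVars (Fin 2) K ≤ (Lam (A j)).map (res B)) :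
    Ideal.span {∏ j ∈ s.filter S, l j} * (idealOfVars (Fin 2) K) ^ s.card ≤
      (∏ j ∈ s, Lam (A j)).map (res B) := by
  classical
  induction s using Finset.induction_on with
  | empty =>
    rw [Finset.prod_empty, Ideal.one_eq_top, Ideal.map_top]
    exact le_top
  | insert j s hj ih =>
    have ih' := ih (fun i hi => h1 i (Finset.mem_insert_of_mem hi))
      (fun i hi => h2 i (Finset.mem_insert_of_mem hi))
    have h1j := h1 j (Finset.mem_insert_self j s)
    have h2j := h2 j (Finset.mem_insert_self j s)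
    rw [Finset.prod_insert hj, Ideal.map_mul, Finset.card_insert_of_notMem hj, Finset.filter_insert]
    by_cases hS : S j
    · rw [if_pos hS, Finset.prod_insert (by simp [hj]), ← Ideal.span_singleton_mul_span_singleton]
      have e1 : Ideal.span {l j} * Ideal.span {∏ j ∈ s.filter S, l j} *
          (idealOfVars (Fin 2) K) ^ (s.card + 1) =
          (Ideal.span {l j} * (Ideal.span {∏ j ∈ s.filter S, l j} *
            (idealOfVars (Fin 2) K) ^ s.card)) * idealOfVars (Fin 2) K := by ring
      rw [e1]
      refine Ideal.mul_le_left.trans (Ideal.mul_mono ?_ ih')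
      rw [Ideal.span_singleton_le_iff_mem]
      exact h1j
    · rw [if_neg hS]
      have e1 : Ideal.span {∏ j ∈ s.filter S, l j} *
          (idealOfVars (Fin 2) K) ^ (s.card + 1) =
          idealOfVars (Fin 2) K * (Ideal.span {∏ j ∈ s.filter S, l j} *
            (idealOfVars (Fin 2) K) ^ s.card) := by ring
      rw [e1]
      exact Ideal.mul_mono (h2j hS) ih'

theorem h441_deg {h : P2 K} {n N : ℕ} (hh : h ∈ homogeneousSubmodule (Fin 2) K n) (hN : N ≤ n) :
    h ∈ (idealOfVars (Fin 2) K) ^ N := by
  rw [mem_pow_idealOfVars_iff']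
  intro x hx
  rw [mem_homogeneousSubmodule] at hh
  exact hh.coeff_eq_zero (by omega)

theorem h441_card {J M : Type} [Fintype J] [Fintype M] (P : J → M → Prop) [∀ i, DecidablePred (fun j => P j i)] :
    Nat.card {p : J × M // P p.1 p.2} = ∑ i : M, (Finset.univ.filter (fun j => P j i)).card := by
  classical
  rw [Nat.card_eq_fintype_card, Fintype.card_subtype, Finset.card_filter, Fintype.sum_prod_type_right]
  apply Finset.sum_congr rfl
  intro i _
  rw [Finset.card_filter]

theorem h441_bound {V : Type*} [AddCommGroup V] [Module K V] {M : Type} [Fintype M]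
    (W : M → Type*) [∀ i, AddCommGroup (W i)] [∀ i, Module K (W i)] [∀ i, Module.Finite K (W i)]
    (Ψ : V →ₗ[K] (∀ i, W i)) (T : Submodule K V) (hker : LinearMap.ker Ψ ≤ T) :
    Module.finrank K (V ⧸ T) ≤ ∑ i, Module.finrank K (W i) := by
  have hfr : Module.Finite K (LinearMap.range Ψ) :=
    Module.Finite.of_injective (LinearMap.range Ψ).subtype (Submodule.injective_subtype _)
  have hfk : Module.Finite K (V ⧸ LinearMap.ker Ψ) :=
    Module.Finite.equiv Ψ.quotKerEquivRange.symm
  calc Module.finrank K (V ⧸ T) ≤ Module.finrank K (V ⧸ LinearMap.ker Ψ) :=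
        LinearMap.finrank_le_finrank_of_surjective (Submodule.factor_surjective hker)
    _ = Module.finrank K (LinearMap.range Ψ) := LinearEquiv.finrank_eq Ψ.quotKerEquivRange
    _ ≤ Module.finrank K (∀ i, W i) := Submodule.finrank_le _
    _ = ∑ i, Module.finrank K (W i) := Module.finrank_pi_fintype K

/-- intersection of the first order neighbourhoods of skew lines with skew lines -/
theorem _root_.Pool.Agent.Helper947.Crv.hf_meet_le {J M : Type} [Fintype J] [Fintype M] (A : J → Matrix (Fin 2) (Fin 2) K)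
    (B : M → Matrix (Fin 2) (Fin 2) K) (hA : ∀ s t, s ≠ t → (A s - A t).det ≠ 0)
    (hB : ∀ s t, s ≠ t → (B s - B t).det ≠ 0) (hne : ∀ j i, A j ≠ B i) : ∀ᶠ m in atTop,
    hf ((⨅ j, Lam (A j)) * (⨅ j, Lam (A j)) ⊔ ⨅ i, Lam (B i)) m ≤
      2 * Nat.card {p : J × M // (A p.1 - B p.2).det = 0} := 
by
  classical
  choose l hl0 hl1 hl2 hl3 using fun (j : J) (i : M) => h441_lin (hne j i)
  set k : M → ℕ := fun i => (Finset.univ.filter (fun j => (A j - B i).det = 0)).card with hk
  have hkJ : ∀ i, k i ≤ Fintype.card J := fun i => Finset.card_le_univ _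
  set f : M → P2 K := fun i => ∏ j ∈ Finset.univ.filter (fun j => (A j - B i).det = 0), l j i with hf'
  have hf0 : ∀ i, f i ≠ 0 := fun i => Finset.prod_ne_zero_iff.mpr fun j _ => hl0 j i
  have hfh : ∀ i, (f i).IsHomogeneous (k i) := by
    intro i
    have h1 := IsHomogeneous.prod (Finset.univ.filter (fun j => (A j - B i).det = 0))
      (fun j => l j i) (fun _ => 1) (fun j _ => hl1 j i)
    rw [Finset.sum_const, smul_eq_mul, mul_one] at h1
    exact h1
  set N : ℕ := Fintype.card J + Fintype.card J + Fintype.card M with hN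
  set IA : Ideal (Pl K) := ⨅ j, Lam (A j) with hIA
  set IB : Ideal (Pl K) := ⨅ i, Lam (B i) with hIB
  set PA : Ideal (Pl K) := ∏ j : J, Lam (A j) with hPA
  have hPAI : PA ≤ IA := by
    rw [hPA, hIA]
    refine Ideal.prod_le_inf.trans ?_
    rw [Finset.inf_univ_eq_iInf]
  -- lifting
  have hlift : ∀ (i : M) (h : P2 K), h ∈ (idealOfVars (Fin 2) K) ^ N →
      ∃ q : Pl K, q ∈ IA * IA ∧ (∀ i', i' ≠ i → q ∈ Lam (B i')) ∧ res (B i) q = f i * f i * h := by
    intro i h hh
    set PB : Ideal (Pl K) := ∏ i' ∈ Finset.univ.erase i, Lam (B i') with hPB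
    have b1 := h441_prod A (B i) (fun j => (A j - B i).det = 0) (fun j => l j i) Finset.univ
      (fun j _ => hl2 j i) (fun j _ hj => hl3 j i hj)
    have b2 := h441_prod B (B i) (fun _ => False) (fun _ => 0) (Finset.univ.erase i)
      (fun _ _ => Ideal.zero_mem _) (fun i' hi' _ => by
        obtain ⟨_, _, _, _, h5⟩ := h441_lin (A := B i') (B := B i) (by
          intro hc
          have := hB i' i (Finset.ne_of_mem_erase hi')
          rw [hc, sub_self] at this
          exact this Matrix.det_zero)
        exact h5 (hB i' i (Finset.ne_of_mem_erase hi')))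
    rw [Finset.filter_false, Finset.prod_empty, Ideal.span_singleton_one, Ideal.top_mul] at b2
    have hmem : f i * f i * h ∈ (PA * PA * PB).map (res (B i)) := by
      rw [Ideal.map_mul, Ideal.map_mul]
      refine Ideal.mul_mono (Ideal.mul_mono b1 b1) b2 ?_
      have e1 : Ideal.span {f i} * (idealOfVars (Fin 2) K) ^ (Finset.univ : Finset J).card *
          (Ideal.span {f i} * (idealOfVars (Fin 2) K) ^ (Finset.univ : Finset J).card) *
          (idealOfVars (Fin 2) K) ^ (Finset.univ.erase i).card =
          Ideal.span {f i * f i} * (idealOfVars (Fin 2) K) ^ ((Finset.univ : Finset J).card +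
            (Finset.univ : Finset J).card + (Finset.univ.erase i).card) := by
        rw [← Ideal.span_singleton_mul_span_singleton]
        ring
      show f i * f i * h ∈ Ideal.span {f i} * (idealOfVars (Fin 2) K) ^ (Finset.univ : Finset J).card *
          (Ideal.span {f i} * (idealOfVars (Fin 2) K) ^ (Finset.univ : Finset J).card) *
          (idealOfVars (Fin 2) K) ^ (Finset.univ.erase i).card
      rw [e1]
      refine Ideal.mul_mem_mul (Ideal.mem_span_singleton_self _) ?_
      refine Ideal.pow_le_pow_right ?_ hh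
      have : (Finset.univ.erase i).card ≤ Fintype.card M := Finset.card_le_univ _
      rw [Finset.card_univ]
      omega
    obtain ⟨q, hq, hqr⟩ := (Ideal.mem_map_iff_of_surjective (res (B i)) (h441_res_surj (B i))).mp hmem
    have hle1 : PA * PA * PB ≤ PA * PA := Ideal.mul_le_left
    have hle2 : PA * PA * PB ≤ PB := Ideal.mul_le_right
    have hle3 : PA * PA ≤ IA * IA := Ideal.mul_mono hPAI hPAI
    refine ⟨q, hle3 (hle1 hq), ?_, hqr⟩
    intro i' hi'
    have h6 : q ∈ PB := hle2 hq
    have h7 : PB ≤ Lam (B i') := by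
      rw [hPB]
      exact Ideal.prod_le_inf.trans (Finset.inf_le (Finset.mem_erase.mpr ⟨hi', Finset.mem_univ _⟩))
    exact h7 h6
  filter_upwards [eventually_ge_atTop (2 * Fintype.card J + N)] with m hm
  have hkm : ∀ i, 2 * k i + N ≤ m := fun i => by
    have := hkJ i
    omega
  have hfin : ∀ n : ℕ, Module.Finite K (homogeneousSubmodule (Fin 2) K n) := by
    intro n
    apply Module.finite_of_finrank_pos
    rw [h441_P2]
    omega
  let μ : ∀ i : M, homogeneousSubmodule (Fin 2) K (m - 2 * k i) →ₗ[K]
      homogeneousSubmodule (Fin 2) K m := fun i =>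
    (LinearMap.mulLeft K (f i * f i)).restrict (by
      intro h hh
      rw [mem_homogeneousSubmodule] at hh ⊢
      have h1 := ((hfh i).mul (hfh i)).mul hh
      have h2 : k i + k i + (m - 2 * k i) = m := by
        have := hkm i
        omega
      rw [h2] at h1
      exact h1)
  have hμinj : ∀ i, Function.Injective (μ i) := by
    intro i x y hxy
    have h1 : f i * f i * (x : P2 K) = f i * f i * (y : P2 K) := congrArg Subtype.val hxy
    exact Subtype.ext (mul_left_cancel₀ (mul_ne_zero (hf0 i) (hf0 i)) h1)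
  let D : ∀ i : M, Submodule K (homogeneousSubmodule (Fin 2) K m) := fun i => LinearMap.range (μ i)
  have hDq : ∀ i, Module.finrank K (homogeneousSubmodule (Fin 2) K m ⧸ D i) = 2 * k i := by
    intro i
    have := hfin m
    have h1 := Submodule.finrank_quotient_add_finrank (D i)
    have h2 : Module.finrank K (D i) = m - 2 * k i + 1 := by
      rw [← h441_P2 (K := K) (m - 2 * k i)]
      exact LinearMap.finrank_range_of_inj (hμinj i)
    rw [h2, h441_P2] at h1
    have := hkm i
    omega
  let Ψ : Fm K m →ₗ[K] (∀ i : M, homogeneousSubmodule (Fin 2) K m ⧸ D i) :=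
    LinearMap.pi fun i => (D i).mkQ ∘ₗ
      ((res (B i)).toLinearMap.restrict (fun p hp => h441_res_hom (B i) hp))
  have hker : LinearMap.ker Ψ ≤ ((IA * IA ⊔ IB).restrictScalars K).comap (Fm K m).subtype := by
    rintro ⟨p, hp⟩ hpk
    rw [LinearMap.mem_ker] at hpk
    rw [Submodule.mem_comap, Submodule.restrictScalars_mem]
    show p ∈ IA * IA ⊔ IB
    have h1 : ∀ i, ∃ h : P2 K, h ∈ homogeneousSubmodule (Fin 2) K (m - 2 * k i) ∧
        f i * f i * h = res (B i) p := by
      intro i
      have h2 := congrFun hpk i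
      have h3 : (⟨res (B i) p, h441_res_hom (B i) hp⟩ : homogeneousSubmodule (Fin 2) K m) ∈ D i := by
        rw [← Submodule.Quotient.mk_eq_zero]
        exact h2
      obtain ⟨⟨h, hh⟩, hh'⟩ := h3
      exact ⟨h, hh, congrArg Subtype.val hh'⟩
    choose h hh1 hh2 using h1
    choose q hq1 hq2 hq3 using fun i => hlift i (h i) (h441_deg (hh1 i) (by
      have := hkm i
      omega))
    have h4 : p = ∑ i, q i + (p - ∑ i, q i) := by ring
    rw [h4]
    apply Ideal.add_mem
    · exact Ideal.mem_sup_left (Ideal.sum_mem _ fun i _ => hq1 i)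
    · apply Ideal.mem_sup_right
      rw [hIB, Ideal.mem_iInf]
      intro i0
      show res (B i0) (p - ∑ i, q i) = 0
      rw [map_sub, map_sum, Finset.sum_eq_single i0]
      · rw [hq3 i0, hh2 i0, sub_self]
      · intro i _ hi
        exact hq2 i i0 hi.symm
      · intro hc
        exact absurd (Finset.mem_univ _) hc
  have hfinq : ∀ i, Module.Finite K (homogeneousSubmodule (Fin 2) K m ⧸ D i) := by
    intro i
    have := hfin m
    infer_instance
  have step1 := h441_bound (fun i : M => homogeneousSubmodule (Fin 2) K m ⧸ D i) Ψ _ hker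
  have step3 : ∑ i, Module.finrank K (homogeneousSubmodule (Fin 2) K m ⧸ D i) =
      ∑ i, 2 * k i := Finset.sum_congr rfl fun i _ => hDq i
  have step4 : Nat.card {p : J × M // (A p.1 - B p.2).det = 0} = ∑ i, k i :=
    h441_card (fun j i => (A j - B i).det = 0)
  rw [step4, Finset.mul_sum, ← step3]
  exact step1

end lines

end Pool.Agent.Helper947.Crv.LC4

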