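import Mathlib
import Pool.Agent.Helper947.Crv.Defs
import Pool.Agent.Helper947.Crv.A2

open MvPolynomial Filter

namespace Pool.Agent.Helper947.Crv.LC5

section line

variable {K : Type*} [CommRing K]

end line

namespace Cfg

variable {K : Type*} [CommRing K] {J M : Type} (c : Cfg K J M)

end Cfg

section defs2

variable {K : Type*} [Field K]

end defs2

section hilb

variable {K : Type*} [Field K] {I J N : Ideal (Pl K)}

end hilb

section lines

variable {K : Type*} [Field K]

/-! helper lemmas -/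

/-- the dual number point `t + ε u` -/
noncomputable def dpt (t u : Fin 2 → K) (a : Fin 2) : DualNumber K :=
  TrivSqZeroExt.inl (t a) + TrivSqZeroExt.inr (u a)

noncomputable def ev2 (t u : Fin 2 → K) : P2 K →ₐ[K] DualNumber K := aeval (dpt t u)

noncomputable def Psi (B : Matrix (Fin 2) (Fin 2) K) (t u : Fin 2 → K) :
    Pl K →ₐ[K] DualNumber K := (ev2 t u).comp (res B)

lemma algMap_eq (a : K) : (algebraMap K (DualNumber K)) a = TrivSqZeroExt.inl a := rfl

lemma ev2_row (C : Matrix (Fin 2) (Fin 2) K) (t u : Fin 2 → K) (a : Fin 2) :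
    ev2 t u (row C a) = TrivSqZeroExt.inl (C.mulVec t a) + TrivSqZeroExt.inr (C.mulVec u a) := by
  have h1 : C.mulVec t a = C a 0 * t 0 + C a 1 * t 1 := by
    simp [Matrix.mulVec, dotProduct, Fin.sum_univ_two]
  have h2 : C.mulVec u a = C a 0 * u 0 + C a 1 * u 1 := by
    simp [Matrix.mulVec, dotProduct, Fin.sum_univ_two]
  simp only [ev2, row, map_add, map_mul, aeval_C, aeval_X, dpt, algMap_eq]
  apply TrivSqZeroExt.ext
  · simp [h1]
  · simp [h2]

lemma fst_ev2 (t u : Fin 2 → K) (q : P2 K) : (ev2 t u q).fst = eval t q := by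
  induction q using MvPolynomial.induction_on with
  | C a => simp [ev2, algMap_eq]
  | add p q hp hq => rw [map_add, TrivSqZeroExt.fst_add, hp, hq, map_add]
  | mul_X p k hp =>
    rw [map_mul, TrivSqZeroExt.fst_mul, hp, map_mul, eval_X]
    congr 1
    simp [ev2, dpt]

lemma Psi_C (B : Matrix (Fin 2) (Fin 2) K) (t u : Fin 2 → K) (a : K) :
    Psi B t u (MvPolynomial.C a) = TrivSqZeroExt.inl a := by
  rw [← algMap_eq]
  exact (Psi B t u).commutes a

lemma Psi_X0 (B : Matrix (Fin 2) (Fin 2) K) (t u : Fin 2 → K) :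
    Psi B t u (X 0) = TrivSqZeroExt.inl (t 0) + TrivSqZeroExt.inr (u 0) := by
  simp [Psi, res, ev2, dpt]

lemma Psi_X1 (B : Matrix (Fin 2) (Fin 2) K) (t u : Fin 2 → K) :
    Psi B t u (X 1) = TrivSqZeroExt.inl (t 1) + TrivSqZeroExt.inr (u 1) := by
  simp [Psi, res, ev2, dpt]

lemma Psi_X2 (B : Matrix (Fin 2) (Fin 2) K) (t u : Fin 2 → K) :
    Psi B t u (X 2) = TrivSqZeroExt.inl (B.mulVec t 0) + TrivSqZeroExt.inr (B.mulVec u 0) := by
  rw [← ev2_row]
  simp [Psi, res]

lemma Psi_X3 (B : Matrix (Fin 2) (Fin 2) K) (t u : Fin 2 → K) :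
    Psi B t u (X 3) = TrivSqZeroExt.inl (B.mulVec t 1) + TrivSqZeroExt.inr (B.mulVec u 1) := by
  rw [← ev2_row]
  simp [Psi, res]

lemma dG_C (A : Matrix (Fin 2) (Fin 2) K) (G : Fin 2 → P2 K) (a : K) :
    dG A G (MvPolynomial.C a) = 0 := by simp [dG]

lemma dG_X (A : Matrix (Fin 2) (Fin 2) K) (G : Fin 2 → P2 K) (k : Fin 4) :
    dG A G (X k) = ![0, 0, G 0, G 1] k := by
  fin_cases k <;> simp [dG, pderiv_X]

lemma Psi_taylor (A B : Matrix (Fin 2) (Fin 2) K) (G : Fin 2 → P2 K) (t u : Fin 2 → K) (l : K)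
    (hAB : ∀ a, A.mulVec t a = B.mulVec t a)
    (hl : ∀ a, B.mulVec u a = A.mulVec u a - l * eval t (G a)) (p : Pl K) :
    Psi B t u p = Psi A t u p - TrivSqZeroExt.inr (l * eval t (dG A G p)) := by
  induction p using MvPolynomial.induction_on with
  | C a => rw [Psi_C, Psi_C, dG_C]; simp
  | add p q hp hq =>
    rw [map_add, map_add, hp, hq, dG_add, map_add, mul_add, TrivSqZeroExt.inr_add]
    ring
  | mul_X p k hp =>
    have hX : Psi B t u (X k) = Psi A t u (X k) - TrivSqZeroExt.inr (l * eval t (dG A G (X k))) := by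
      rw [dG_X]
      fin_cases k
      · simp [Psi_X0]
      · simp [Psi_X1]
      · change Psi B t u (X 2) = Psi A t u (X 2) - TrivSqZeroExt.inr (l * eval t (G 0))
        rw [Psi_X2, Psi_X2, hAB 0, hl 0, TrivSqZeroExt.inr_sub]; ring
      · change Psi B t u (X 3) = Psi A t u (X 3) - TrivSqZeroExt.inr (l * eval t (G 1))
        rw [Psi_X3, Psi_X3, hAB 1, hl 1, TrivSqZeroExt.inr_sub]; ring
    rw [map_mul, map_mul, hp, hX, dG_mul]
    have e1 : eval t (res A p) = (Psi A t u p).fst := (fst_ev2 t u _).symm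
    have e2 : eval t (res A (X k)) = (Psi A t u (X k)).fst := (fst_ev2 t u _).symm
    rw [map_add, map_mul, map_mul, e1, e2]
    apply TrivSqZeroExt.ext
    · simp
    · simp
      ring

lemma Psi_Qd (A B : Matrix (Fin 2) (Fin 2) K) (G : Fin 2 → P2 K) (t u : Fin 2 → K)
    (hAB : (A - B).mulVec t = 0) (hG : eval t (G 0) ≠ 0 ∨ eval t (G 1) ≠ 0)
    (hpl : eval t (G 0) * (A - B).mulVec u 1 = eval t (G 1) * (A - B).mulVec u 0)
    (p : Pl K) (hp : p ∈ Qd A G) : Psi B t u p = 0 := by
  obtain ⟨l, hl⟩ : ∃ l : K, ∀ a, (A - B).mulVec u a = l * eval t (G a) := by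
    rcases hG with h | h
    · refine ⟨(A - B).mulVec u 0 / eval t (G 0), fun a => ?_⟩
      fin_cases a
      · change (A - B).mulVec u 0 = _ * eval t (G 0)
        rw [div_mul_cancel₀ _ h]
      · change (A - B).mulVec u 1 = _ * eval t (G 1)
        rw [div_mul_eq_mul_div, eq_div_iff h]
        linear_combination hpl
    · refine ⟨(A - B).mulVec u 1 / eval t (G 1), fun a => ?_⟩
      fin_cases a
      · change (A - B).mulVec u 0 = _ * eval t (G 0)
        rw [div_mul_eq_mul_div, eq_div_iff h]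
        linear_combination -hpl
      · change (A - B).mulVec u 1 = _ * eval t (G 1)
        rw [div_mul_cancel₀ _ h]
  have h1 : ∀ a, A.mulVec t a = B.mulVec t a := by
    intro a
    have := congrFun hAB a
    rw [Matrix.sub_mulVec] at this
    simpa [sub_eq_zero] using this
  have h2 : ∀ a, B.mulVec u a = A.mulVec u a - l * eval t (G a) := by
    intro a
    have := hl a
    rw [Matrix.sub_mulVec] at this
    simp only [Pi.sub_apply] at this
    linear_combination -this
  rw [Psi_taylor A B G t u l h1 h2 p]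
  have h3 : Psi A t u p = 0 := by
    change ev2 t u (res A p) = 0
    rw [hp.1, map_zero]
  have h4 : dG A G p = 0 := hp.2
  rw [h3, h4]; simp

/-- an auxiliary quadratic form for a pair of crossings. -/
lemma exists_sep (B B' : Matrix (Fin 2) (Fin 2) K) (t u t' u' : Fin 2 → K)
    (ht : t ≠ 0) (h : (B' = B ∧ t' 1 * t 0 - t' 0 * t 1 ≠ 0) ∨ (B - B').det ≠ 0) :
    ∃ κ ∈ Fm K 2, Psi B' t' u' κ = 0 ∧ (Psi B t u κ).fst ≠ 0 := by
  rcases h with ⟨rfl, h⟩ | h
  · refine ⟨(MvPolynomial.C (t' 1) * X 0 - MvPolynomial.C (t' 0) * X 1) ^ 2, ?_, ?_, ?_⟩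
    · have h1 : (MvPolynomial.C (t' 1) * X 0 - MvPolynomial.C (t' 0) * X 1 : Pl K).IsHomogeneous 1 := by
        apply IsHomogeneous.sub
        · simpa using (isHomogeneous_C (Fin 4) (t' 1)).mul (isHomogeneous_X K (0 : Fin 4))
        · simpa using (isHomogeneous_C (Fin 4) (t' 0)).mul (isHomogeneous_X K (1 : Fin 4))
      simpa using h1.pow 2
    · rw [map_pow, map_sub, map_mul, map_mul, Psi_C, Psi_C, Psi_X0, Psi_X1, sq]
      apply TrivSqZeroExt.ext
      · simp; ring
      · simp
        have : t' 1 * t' 0 - t' 0 * t' 1 = 0 := by ring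
        rw [this]; simp
    · rw [map_pow, map_sub, map_mul, map_mul, Psi_C, Psi_C, Psi_X0, Psi_X1, sq]
      simp
      exact h
  · -- a linear form vanishing on the line B' and not at the point of B
    have hne : (B - B').mulVec t ≠ 0 := by
      intro h0
      exact ht (Matrix.eq_zero_of_mulVec_eq_zero h h0)
    have ha : ∃ a, (B - B').mulVec t a ≠ 0 := by
      by_contra hcon
      push Not at hcon
      exact hne (funext hcon)
    have hb : ∃ b, t b ≠ 0 := by
      by_contra hcon
      push Not at hcon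
      exact ht (funext hcon)
    have key : ∃ lam ∈ Fm K 1, Psi B' t' u' lam = 0 ∧ (Psi B t u lam).fst ≠ 0 := by
      obtain ⟨a, ha⟩ := ha
      rw [Matrix.sub_mulVec] at ha
      have hrow : ∀ a : Fin 2, (MvPolynomial.C (B' a 0) * X 0 + MvPolynomial.C (B' a 1) * X 1 : Pl K).IsHomogeneous 1 := by
        intro a
        apply IsHomogeneous.add
        · simpa using (isHomogeneous_C (Fin 4) (B' a 0)).mul (isHomogeneous_X K (0 : Fin 4))
        · simpa using (isHomogeneous_C (Fin 4) (B' a 1)).mul (isHomogeneous_X K (1 : Fin 4))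
      have hval : ∀ (C : Matrix (Fin 2) (Fin 2) K) (s v : Fin 2 → K) (a : Fin 2),
          Psi C s v (MvPolynomial.C (B' a 0) * X 0 + MvPolynomial.C (B' a 1) * X 1 : Pl K) =
          TrivSqZeroExt.inl (B'.mulVec s a) + TrivSqZeroExt.inr (B'.mulVec v a) := by
        intro C s v a
        rw [← ev2_row]
        simp [Psi, res, row]
      fin_cases a
      · refine ⟨X 2 - (MvPolynomial.C (B' 0 0) * X 0 + MvPolynomial.C (B' 0 1) * X 1),
          IsHomogeneous.sub (isHomogeneous_X K _) (hrow 0), ?_, ?_⟩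
        · rw [map_sub, hval, Psi_X2, sub_self]
        · rw [map_sub, hval, Psi_X2]
          simpa using ha
      · refine ⟨X 3 - (MvPolynomial.C (B' 1 0) * X 0 + MvPolynomial.C (B' 1 1) * X 1),
          IsHomogeneous.sub (isHomogeneous_X K _) (hrow 1), ?_, ?_⟩
        · rw [map_sub, hval, Psi_X3, sub_self]
        · rw [map_sub, hval, Psi_X3]
          simpa using ha
    obtain ⟨lam, hlam, hlam0, hlam1⟩ := key
    refine ⟨lam * lam, ?_, ?_, ?_⟩
    · exact IsHomogeneous.mul hlam hlam
    · rw [map_mul, hlam0, zero_mul]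
    · rw [map_mul, TrivSqZeroExt.fst_mul]
      exact mul_ne_zero hlam1 hlam1

lemma exists_lin (B : Matrix (Fin 2) (Fin 2) K) (t u : Fin 2 → K)
    (htu : t 0 * u 1 - t 1 * u 0 ≠ 0) (v : DualNumber K) :
    ∃ h ∈ Fm K 1, Psi B t u h = v := by
  set δ := t 0 * u 1 - t 1 * u 0 with hδ
  refine ⟨MvPolynomial.C ((v.fst * u 1 - v.snd * t 1) / δ) * X 0 +
    MvPolynomial.C ((v.snd * t 0 - v.fst * u 0) / δ) * X 1, ?_, ?_⟩
  · apply IsHomogeneous.add
    · simpa using (isHomogeneous_C (Fin 4) ((v.fst * u 1 - v.snd * t 1) / δ)).mul (isHomogeneous_X K (0 : Fin 4))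
    · simpa using (isHomogeneous_C (Fin 4) ((v.snd * t 0 - v.fst * u 0) / δ)).mul (isHomogeneous_X K (1 : Fin 4))
  · rw [map_add, map_mul, map_mul, Psi_C, Psi_C, Psi_X0, Psi_X1]
    apply TrivSqZeroExt.ext
    · simp
      field_simp
      rw [hδ]; ring
    · simp
      field_simp
      rw [hδ]; ring

theorem _root_.Pool.Agent.Helper947.Crv.le_hf_meet {J M : Type} [Fintype J] [Fintype M] {c : Cfg K J M} {e : ℕ}
    {E : Finset (J × M)} (hc : c.Good e E) :
    ∀ᶠ m in atTop, 2 * E.card ≤ hf (c.GD ⊔ c.GB) m := by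
  classical
  -- the crossing points
  have ht : ∀ x : ↥E, ∃ t : Fin 2 → K, t ≠ 0 ∧ (c.A x.1.1 - c.B x.1.2).mulVec t = 0 := by
    intro x
    have h := (hc.inc x.1.1 x.1.2).mpr x.2
    exact Matrix.exists_mulVec_eq_zero_iff.mpr h
  choose t ht0 htAB using ht
  have hu : ∀ x : ↥E, ∃ u : Fin 2 → K, t x 0 * u 1 - t x 1 * u 0 ≠ 0 := by
    intro x
    by_cases h0 : t x 0 = 0
    · have h1 : t x 1 ≠ 0 := by
        intro h1
        apply ht0 x
        funext a
        fin_cases a
        · exact h0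
        · exact h1
      exact ⟨![1, 0], by simpa using h1⟩
    · exact ⟨![0, 1], by simpa using h0⟩
  choose u hu using hu
  -- values of G at the crossing points
  have hG : ∀ x : ↥E, eval (t x) (c.G x.1.1 0) ≠ 0 ∨ eval (t x) (c.G x.1.1 1) ≠ 0 := by
    intro x
    by_contra hcon
    push Not at hcon
    obtain ⟨N, hN⟩ := hc.G_cop x.1.1
    have hb : ∃ b, t x b ≠ 0 := by
      by_contra hcon
      push Not at hcon
      exact ht0 x (funext hcon)
    obtain ⟨b, hb⟩ := hb
    have h1 : (X b ^ N : P2 K) ∈ homogeneousSubmodule (Fin 2) K N := by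
      have := (isHomogeneous_X K b).pow N
      simpa using this
    have h2 := hN _ h1
    rw [Ideal.mem_span_pair] at h2
    obtain ⟨a, a', haa⟩ := h2
    have h3 := congrArg (eval (t x)) haa
    rw [map_add, map_mul, map_mul, hcon.1, hcon.2] at h3
    simp only [mul_zero, add_zero, map_pow, eval_X] at h3
    exact pow_ne_zero N hb h3.symm
  -- the functionals vanish on the ideals
  let P : ↥E → (Pl K →ₐ[K] DualNumber K) := fun x => Psi (c.B x.1.2) (t x) (u x)
  have hGD : ∀ x : ↥E, ∀ p ∈ c.GD, P x p = 0 := by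
    intro x p hp
    have hp' : p ∈ Qd (c.A x.1.1) (c.G x.1.1) := by
      have := (Ideal.mem_iInf.mp hp) x.1.1
      exact this
    exact Psi_Qd _ _ _ _ _ (htAB x) (hG x) (hc.pl _ _ x.2 (t x) (htAB x) (u x)) p hp'
  have hGB : ∀ x : ↥E, ∀ p ∈ c.GB, P x p = 0 := by
    intro x p hp
    have hp' : p ∈ Lam (c.B x.1.2) := (Ideal.mem_iInf.mp hp) x.1.2
    have : res (c.B x.1.2) p = 0 := hp'
    change ev2 _ _ (res (c.B x.1.2) p) = 0
    rw [this, map_zero]
  have hsup : ∀ x : ↥E, ∀ p ∈ c.GD ⊔ c.GB, P x p = 0 := by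
    intro x p hp
    obtain ⟨a, ha, b, hb, rfl⟩ := Submodule.mem_sup.mp hp
    rw [map_add, hGD x a ha, hGB x b hb, add_zero]
  -- separating quadrics
  have hsep : ∀ x y : ↥E, y ≠ x → ∃ κ ∈ Fm K 2, P y κ = 0 ∧ (P x κ).fst ≠ 0 := by
    intro x y hxy
    apply exists_sep _ _ _ _ _ _ (ht0 x)
    by_cases hi : y.1.2 = x.1.2
    · left
      refine ⟨by rw [hi], ?_⟩
      intro hdet
      have hj : x.1.1 ≠ y.1.1 := by
        intro hj
        apply hxy
        apply Subtype.ext
        exact Prod.ext hj.symm hi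
      -- t y proportional to t x
      apply hc.skewA _ _ hj
      have hprop : ∃ s : K, t y = s • t x := by
        have hb : t x 0 ≠ 0 ∨ t x 1 ≠ 0 := by
          by_contra hcon
          push Not at hcon
          apply ht0 x
          funext a
          fin_cases a
          · exact hcon.1
          · exact hcon.2
        rcases hb with hb | hb
        · refine ⟨t y 0 / t x 0, ?_⟩
          funext a
          fin_cases a
          · simp [hb]
          · simp only [Fin.mk_one, Pi.smul_apply, smul_eq_mul]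
            rw [div_mul_eq_mul_div, eq_div_iff hb]
            linear_combination hdet
        · refine ⟨t y 1 / t x 1, ?_⟩
          funext a
          fin_cases a
          · simp only [Fin.zero_eta, Pi.smul_apply, smul_eq_mul]
            rw [div_mul_eq_mul_div, eq_div_iff hb]
            linear_combination -hdet
          · simp [hb]
      obtain ⟨s, hs⟩ := hprop
      apply Matrix.exists_mulVec_eq_zero_iff.mp
      refine ⟨t y, ht0 y, ?_⟩
      have h1 : (c.A x.1.1 - c.B x.1.2).mulVec (t y) = 0 := by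
        rw [hs, Matrix.mulVec_smul, htAB x, smul_zero]
      have h2 : (c.A y.1.1 - c.B x.1.2).mulVec (t y) = 0 := by
        rw [← hi]; exact htAB y
      have h3 : c.A x.1.1 - c.A y.1.1 = (c.A x.1.1 - c.B x.1.2) - (c.A y.1.1 - c.B x.1.2) := by
        abel
      rw [h3, Matrix.sub_mulVec, h1, h2, sub_zero]
    · right
      exact hc.skewB _ _ (fun h => hi h.symm)
  choose! κ hκ2 hκ0 hκ1 using hsep
  -- dual basis
  have hdual : ∀ (m : ℕ), 2 * E.card ≤ m → ∀ (x : ↥E) (v : DualNumber K),
      ∃ p ∈ Fm K m, P x p = v ∧ ∀ y, y ≠ x → P y p = 0 := by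
    intro m hm x v
    have hb : ∃ b : Fin 2, t x b ≠ 0 := by
      by_contra hcon
      push Not at hcon
      exact ht0 x (funext hcon)
    have hs : ∃ s ∈ Fm K 1, (P x s).fst ≠ 0 := by
      obtain ⟨b, hb⟩ := hb
      fin_cases b
      · refine ⟨X 0, isHomogeneous_X K _, ?_⟩
        simp only [P, Psi_X0]; simpa using hb
      · refine ⟨X 1, isHomogeneous_X K _, ?_⟩
        simp only [P, Psi_X1]; simpa using hb
    obtain ⟨s, hs1, hs0⟩ := hs
    let N := m - (2 * (E.card - 1) + 1)
    have hEpos : 0 < E.card := Finset.card_pos.mpr ⟨x.1, x.2⟩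
    have hmN : 2 * (E.card - 1) + N + 1 = m := by simp only [N]; omega
    let R : Pl K := (∏ y ∈ Finset.univ.erase x, κ x y) * s ^ N
    have hR : R.IsHomogeneous (2 * (E.card - 1) + N) := by
      apply IsHomogeneous.mul
      · have h1 : (∏ y ∈ Finset.univ.erase x, κ x y : Pl K).IsHomogeneous
            (∑ y ∈ Finset.univ.erase x, 2) :=
          IsHomogeneous.prod _ _ _ (fun y hy => hκ2 x y (Finset.ne_of_mem_erase hy))
        have h2 : (∑ y ∈ Finset.univ.erase x, 2) = 2 * (E.card - 1) := by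
          rw [Finset.sum_const, Finset.card_erase_of_mem (Finset.mem_univ x), Finset.card_univ,
            Fintype.card_coe, smul_eq_mul, mul_comm]
        rw [h2] at h1
        exact h1
      · have := IsHomogeneous.pow hs1 N
        simpa using this
    have hRu : IsUnit (P x R) := by
      rw [TrivSqZeroExt.isUnit_iff_isUnit_fst]
      apply IsUnit.mk0
      have h1 : (P x R).fst = (∏ y ∈ Finset.univ.erase x, (P x (κ x y)).fst) * (P x s).fst ^ N := by
        have h2 : ∀ z : DualNumber K, z.fst = TrivSqZeroExt.fstHom K K K z := fun z => rfl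
        simp only [R]
        rw [map_mul, map_prod, map_pow, h2, map_mul, map_prod, map_pow]
        rfl
      rw [h1]
      refine mul_ne_zero (Finset.prod_ne_zero_iff.mpr fun y hy => hκ1 x y (Finset.ne_of_mem_erase hy))
        (pow_ne_zero _ hs0)
    obtain ⟨r, hr⟩ := hRu
    obtain ⟨h, hh1, hhv⟩ := exists_lin (c.B x.1.2) (t x) (u x) (hu x) ((↑r⁻¹ : DualNumber K) * v)
    refine ⟨R * h, ?_, ?_, ?_⟩
    · have := IsHomogeneous.mul hR hh1
      rw [hmN] at this
      exact this
    · rw [map_mul, ← hr]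
      change (r : DualNumber K) * Psi (c.B x.1.2) (t x) (u x) h = v
      rw [hhv, Units.mul_inv_cancel_left]
    · intro y hy
      rw [map_mul]
      have : P y R = 0 := by
        simp only [R]
        rw [map_mul, map_prod, Finset.prod_eq_zero (Finset.mem_erase.mpr ⟨hy, Finset.mem_univ y⟩)
          (hκ0 x y hy), zero_mul]
      rw [this, zero_mul]
  refine eventually_atTop.mpr ⟨2 * E.card, fun m hm => ?_⟩
  -- the linear map
  let L : Fm K m →ₗ[K] (↥E → K × K) := LinearMap.pi fun x =>
    (LinearMap.prod ((TrivSqZeroExt.fstHom K K K).toLinearMap) (TrivSqZeroExt.sndHom K K)) ∘ₗ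
      (P x).toLinearMap ∘ₗ (Fm K m).subtype
  have hL : ∀ (p : Fm K m) (x : ↥E), L p x = ((P x p.1).fst, (P x p.1).snd) := fun p x => rfl
  have hker : ((c.GD ⊔ c.GB).restrictScalars K).comap (Fm K m).subtype ≤ LinearMap.ker L := by
    intro p hp
    have hp' : p.1 ∈ c.GD ⊔ c.GB := hp
    rw [LinearMap.mem_ker]
    funext x
    rw [hL, hsup x p.1 hp']
    rfl
  have hsurj : Function.Surjective L := by
    intro w
    have h1 : ∀ x : ↥E, ∃ p : Fm K m, L p = Pi.single x (w x) := by
      intro x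
      obtain ⟨p, hp, hpx, hpy⟩ := hdual m hm x (TrivSqZeroExt.inl (w x).1 + TrivSqZeroExt.inr (w x).2)
      refine ⟨⟨p, hp⟩, ?_⟩
      funext y
      rw [hL]
      by_cases hy : y = x
      · subst hy
        rw [Pi.single_eq_same]
        change ((P y p).fst, (P y p).snd) = _
        rw [hpx]
        simp
      · rw [Pi.single_eq_of_ne hy]
        change ((P y p).fst, (P y p).snd) = _
        rw [hpy y hy]
        rfl
    choose q hq using h1
    refine ⟨∑ x, q x, ?_⟩
    rw [map_sum]
    simp only [hq]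
    exact Finset.univ_sum_single w
  have : Module.Finite K (Fm K m) := Module.Finite.iff_fg.mpr (homogeneousSubmodule_fg _ _ m)
  let L' := (((c.GD ⊔ c.GB).restrictScalars K).comap (Fm K m).subtype).liftQ L hker
  have hsurj' : Function.Surjective L' := by
    intro w
    obtain ⟨p, hp⟩ := hsurj w
    exact ⟨Submodule.Quotient.mk p, by simpa [L'] using hp⟩
  have hfin := LinearMap.finrank_le_finrank_of_surjective hsurj'
  have hcard : Module.finrank K (↥E → K × K) = 2 * E.card := by
    rw [Module.finrank_pi_fintype]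
    simp [mul_comm]
  rw [hcard] at hfin
  exact hfin

end lines

end Pool.Agent.Helper947.Crv.LC5

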