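import Mathlib
import Pool.Agent.Helper947.Crv.Defs

set_option autoImplicit false

open MvPolynomial

namespace Pool.Agent.Helper947.Crv

section confdefs

/-- base change of a configuration -/
noncomputable def Cfg.map {K K' : Type*} [CommRing K] [CommRing K'] {J M : Type} (c : Cfg K J M)
    (φ : K →+* K') : Cfg K' J M where
  A := fun j => (c.A j).map φ
  G := fun j a => MvPolynomial.map φ (c.G j a)
  B := fun i => (c.B i).map φ

/-- homogenization in degree `e` of a polynomial in one variable -/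
noncomputable def homog {K : Type*} [CommRing K] (e : ℕ) (F : Polynomial K) : P2 K :=
  ∑ k ∈ Finset.range (e + 1), MvPolynomial.C (F.coeff k) * X 0 ^ k * X 1 ^ (e - k)

/-- the polynomial of degree `e` (with leading coefficient one if `#S < e`) which takes the value
`y i` at the point `s i` for `i ∈ S` -/
noncomputable def interp {K : Type*} [Field K] {M : Type} [DecidableEq M] (e : ℕ) (S : Finset M)
    (s y : M → K) : Polynomial K :=
  Lagrange.interpolate S s y +
    Polynomial.X ^ (e - S.card) * ∏ i ∈ S, (Polynomial.X - Polynomial.C (s i))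

/-- the configuration given by matrices `A`, `B` and the set `E` of meeting pairs; the direction of
the double structure on the line `A j` is the form `(w^e, Φ_j(z,w))` where `Φ_j` takes at
the points where the lines `B i` meet the line `A j` the values for which the crossing is
planar -/
noncomputable def mkCfg {K : Type*} [Field K] {J M : Type} [Fintype M] [DecidableEq J]
    [DecidableEq M] (A : J → Matrix (Fin 2) (Fin 2) K) (B : M → Matrix (Fin 2) (Fin 2) K)
    (E : Finset (J × M)) (e : ℕ) : Cfg K J M where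
  A := A
  G := fun j => ![X 1 ^ e, homog e (interp e (Finset.univ.filter fun i => (j, i) ∈ E)
    (fun i => - (A j - B i) 0 1 / (A j - B i) 0 0) (fun i => (A j - B i) 1 0 / (A j - B i) 0 0))]
  B := B

/-- the vector of the entries of `B - A` -/
def bv {K : Type*} [CommRing K] (A B : Matrix (Fin 2) (Fin 2) K) : Fin 4 → K :=
  ![(B - A) 0 0, (B - A) 0 1, (B - A) 1 0, (B - A) 1 1]

/-- brackets -/
def br {K : Type*} [CommRing K] {n : ℕ} (v : Fin (n + 1) → Fin 4 → K) (a b c : Fin (n + 1)) : K :=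
  Matrix.det ![v 0, v a, v b, v c]

/-- the collinear triples of the eight points of the MacLane configuration -/
def macT : Finset (Fin 9 × Fin 9 × Fin 9) :=
  {(1, 3, 5), (1, 4, 8), (1, 6, 7), (2, 3, 7), (2, 4, 6), (2, 5, 8), (3, 6, 8), (4, 5, 7)}

/-- the collinear triples of the seven points of the Fano configuration -/
def fanoT : Finset (Fin 8 × Fin 8 × Fin 8) :=
  {(1, 2, 5), (1, 3, 6), (2, 3, 7), (1, 4, 7), (2, 4, 6), (3, 4, 5), (5, 6, 7)}

/-- pairs of a double line and a simple line which meet (first configuration) -/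
def macE : Finset (Fin 10 × Fin 12) :=
  {(0, 0), (0, 1), (0, 2), (0, 3), (0, 4), (0, 5), (0, 6), (0, 7), (0, 8), (0, 9), (1, 0), (1, 1),
    (1, 2), (1, 3), (1, 4), (1, 5), (1, 6), (1, 7), (1, 8), (2, 0), (2, 1), (2, 3), (2, 5), (2, 9),
    (2, 10), (3, 0), (3, 2), (3, 5), (3, 8), (3, 10), (3, 11), (4, 0), (4, 4), (4, 5), (4, 7),
    (5, 0), (5, 2), (5, 4), (5, 6), (6, 0), (6, 1), (6, 6), (6, 7), (7, 0), (7, 3), (7, 6), (7, 8),
    (7, 10), (8, 0), (8, 2), (8, 3), (8, 7), (8, 11), (9, 0), (9, 1), (9, 4), (9, 8)}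

/-- coefficients of the matrices of the double lines (first configuration) -/
def macA : Fin 10 → Fin 2 → Fin 2 → ℤ × ℤ :=
  ![![![(0, 0), (0, 0)], ![(0, 0), (0, 0)]],
    ![![(-3, 1), (-1, 0)], ![(2, 0), (0, 0)]],
    ![![(-3, -1), (-3, 0)], ![(2, 0), (2, 0)]],
    ![![(3, 4), (0, 1)], ![(-1, -2), (0, -1)]],
    ![![(-6, 8), (-4, -2)], ![(6, -1), (1, 1)]],
    ![![(6, -6), (4, 2)], ![(-1, 4), (-2, -1)]],
    ![![(-2, 6), (-6, 4)], ![(2, -2), (2, 0)]],
    ![![(-1, 6), (0, 3)], ![(1, -2), (0, -1)]],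
    ![![(-2, -6), (0, -2)], ![(-1, 1), (-1, 0)]],
    ![![(0, 6), (-4, -2)], ![(1, -4), (2, 1)]]]

/-- coefficients of the matrices of the simple lines (first configuration) -/
def macB : Fin 12 → Fin 2 → Fin 2 → ℤ × ℤ :=
  ![![![(-1, 2), (0, 1)], ![(1, -2), (0, -1)]],
    ![![(-3, 3), (-3, 0)], ![(2, -2), (2, 0)]],
    ![![(0, 2), (0, 0)], ![(2, 0), (0, 0)]],
    ![![(-1, -1), (-1, 0)], ![(0, 0), (0, 0)]],
    ![![(12, 6), (-2, 2)], ![(-3, 0), (0, -1)]],
    ![![(0, 2), (-2, 2)], ![(0, -1), (1, -1)]],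
    ![![(-9, 4), (2, -3)], ![(4, -1), (-1, 1)]],
    ![![(6, 4), (0, -2)], ![(-1, -3), (-1, 0)]],
    ![![(1, 3), (-3, -2)], ![(0, -1), (1, 1)]],
    ![![(-1, 0), (-1, 0)], ![(2, 0), (2, 0)]],
    ![![(-1, 2), (-2, 1)], ![(1, 2), (2, 1)]],
    ![![(1, 0), (0, -1)], ![(-1, 1), (-1, 0)]]]

/-- the matrix with entries `a + b ω` -/
def eis {K : Type*} [CommRing K] (ω : K) (T : Fin 2 → Fin 2 → ℤ × ℤ) : Matrix (Fin 2) (Fin 2) K :=
  Matrix.of fun a b => ((T a b).1 : K) + ((T a b).2 : K) * ω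

/-- the first configuration: 10 double lines and 12 simple lines, 57 meeting pairs -/
noncomputable def macCfg {K : Type*} [Field K] (ω : K) : Cfg K (Fin 10) (Fin 12) :=
  mkCfg (fun j => eis ω (macA j)) (fun i => eis ω (macB i)) macE 116

/-- pairs of a double line and a simple line which meet (second configuration) -/
def fanoE : Finset (Fin 9 × Fin 8) :=
  {(0, 0), (0, 1), (0, 2), (0, 3), (0, 4), (0, 5), (0, 6), (0, 7), (1, 0), (1, 1), (1, 2), (1, 3),
    (1, 4), (1, 5), (1, 6), (1, 7), (2, 0), (2, 1), (2, 2), (2, 5), (3, 0), (3, 1), (3, 3), (3, 6),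
    (4, 0), (4, 2), (4, 3), (4, 7), (5, 0), (5, 1), (5, 4), (5, 7), (6, 0), (6, 2), (6, 4), (6, 6),
    (7, 0), (7, 3), (7, 4), (7, 5), (8, 0), (8, 5), (8, 6), (8, 7)}

/-- binary codes of the entries of the matrices of the double lines (second configuration) -/
def fanoA : Fin 9 → Fin 2 → Fin 2 → ℕ :=
  ![![![0, 0], ![0, 0]], ![![0, 13], ![4, 1]], ![![3, 6], ![12, 9]], ![![10, 5], ![6, 14]],
    ![![2, 10], ![8, 9]], ![![13, 14], ![2, 6]], ![![7, 5], ![2, 1]], ![![1, 5], ![13, 6]],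
    ![![6, 13], ![8, 8]]]

/-- binary codes of the entries of the matrices of the simple lines (second configuration) -/
def fanoB : Fin 8 → Fin 2 → Fin 2 → ℕ :=
  ![![![9, 2], ![0, 0]], ![![12, 4], ![13, 10]], ![![14, 1], ![10, 13]], ![![15, 15], ![15, 15]],
    ![![8, 12], ![5, 14]], ![![9, 14], ![7, 11]], ![![15, 8], ![6, 14]], ![![10, 2], ![12, 13]]]

/-- the element `∑ b_k α^k` for the binary digits `b_k` of `n` (`k = 0, 1, 2, 3`) -/
def gfe {K : Type*} [CommRing K] (α : K) (n : ℕ) : K :=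
  ∑ k : Fin 4, if n.testBit k then α ^ (k : ℕ) else 0

/-- the matrix with entries of given binary codes -/
def gfm {K : Type*} [CommRing K] (α : K) (T : Fin 2 → Fin 2 → ℕ) : Matrix (Fin 2) (Fin 2) K :=
  Matrix.of fun a b => gfe α (T a b)

/-- the second configuration: 9 double lines and 8 simple lines, 44 meeting pairs -/
noncomputable def fanoCfg {K : Type*} [Field K] (α : K) : Cfg K (Fin 9) (Fin 8) :=
  mkCfg (fun j => gfm α (fanoA j)) (fun i => gfm α (fanoB i)) fanoE 90

/-- adjacency in the graph of the first configuration -/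
def macAdj : Fin 10 ⊕ Fin 12 → Fin 10 ⊕ Fin 12 → Prop
  | Sum.inl j, Sum.inr i => (j, i) ∈ macE
  | Sum.inr i, Sum.inl j => (j, i) ∈ macE
  | _, _ => False

end confdefs

end Pool.Agent.Helper947.Crv
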