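import Mathlib
import Pool.Agent.Helper947.Crv.Defs
import Pool.Agent.Helper947.Crv.A2

open MvPolynomial Filter

namespace Pool.Agent.Helper947.Crv.LD1

section line

variable {K : Type*} [CommRing K]

end line

namespace Cfg

variable {K : Type*} [CommRing K] {J M : Type} (c : Cfg K J M)

end Cfg

section defs2

variable {K : Type*} [Field K]

end defs2

section hilb

variable {K : Type*} [Field K] {I J N : Ideal (Pl K)}

end hilb

section growth

variable {K : Type*} [Field K]

theorem pb_hc_mul {σ : Type*} {A : Type*} [CommRing A] (p : MvPolynomial σ A)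
    {q : MvPolynomial σ A} (a : ℕ) {b : ℕ} (hq : q ∈ homogeneousSubmodule σ A b) :
    homogeneousComponent (a + b) (p * q) = homogeneousComponent a p * q := by
  have h1 : ∀ i, homogeneousComponent (a + b) (homogeneousComponent i p * q) =
      if i = a then homogeneousComponent i p * q else 0 := by
    intro i
    have hm : homogeneousComponent i p * q ∈ homogeneousSubmodule σ A (i + b) :=
      (homogeneousComponent_isHomogeneous i p).mul hq
    rw [homogeneousComponent_of_mem hm]
    by_cases h : i = a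
    · subst h; simp
    · rw [if_neg h, if_neg (by omega)]
  conv_lhs => rw [← sum_homogeneousComponent p]
  rw [Finset.sum_mul, map_sum]
  simp only [h1]
  rw [Finset.sum_ite_eq']
  split_ifs with h
  · rfl
  · rw [Finset.mem_range] at h
    rw [homogeneousComponent_eq_zero a p (by omega), zero_mul]

theorem pb_ι2_mem {g : P2 K} {n : ℕ} (hg : g ∈ homogeneousSubmodule (Fin 2) K n) :
    ι2 K g ∈ Fm K n := IsHomogeneous.rename_isHomogeneous hg

theorem pb_hc_ι2 (g : P2 K) (n : ℕ) :
    homogeneousComponent n (ι2 K g) = ι2 K (homogeneousComponent n g) := by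
  have h1 : ∀ i, homogeneousComponent n (ι2 K (homogeneousComponent i g)) =
      if i = n then ι2 K (homogeneousComponent i g) else 0 := by
    intro i
    rw [homogeneousComponent_of_mem (pb_ι2_mem (homogeneousComponent_isHomogeneous i g))]
    by_cases h : i = n
    · subst h; simp
    · rw [if_neg h, if_neg (by omega)]
  conv_lhs => rw [← sum_homogeneousComponent g]
  rw [map_sum, map_sum]
  simp only [h1]
  rw [Finset.sum_ite_eq']
  split_ifs with h
  · rfl
  · rw [Finset.mem_range] at h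
    rw [homogeneousComponent_eq_zero n g (by omega), map_zero]

/-- forms of large degree lie in `𝔭 + (z, w)` -/
theorem pb_large {I : Ideal (Pl K)} {N : ℕ} (hN : ∀ f ∈ Fm K N, f ∈ I) :
    ∀ m, N ≤ m → ∀ f ∈ Fm K m, f ∈ I := by
  intro m hm
  induction m, hm using Nat.le_induction with
  | base => exact hN
  | succ m hm ih =>
    intro f hf
    rw [f.as_sum]
    apply I.sum_mem
    intro d hd
    have hdeg : d.degree = m + 1 := by
      have := hf (mem_support_iff.mp hd)
      rw [Finsupp.degree_eq_weight_one]; exact this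
    have hne : d ≠ 0 := by
      rintro rfl
      simp at hdeg
    obtain ⟨i, hi⟩ := Finsupp.ne_iff.mp hne
    have hi' : 1 ≤ d i := Nat.one_le_iff_ne_zero.mpr hi
    have hle : Finsupp.single i 1 ≤ d := by
      rw [Finsupp.single_le_iff]; exact hi'
    obtain ⟨d', hd'⟩ := exists_add_of_le hle
    have h2 : (monomial d) (coeff d f) = X i * monomial d' (coeff d f) := by
      rw [X, monomial_mul, one_mul, hd']
    rw [h2]
    apply I.mul_mem_left
    apply ih
    apply isHomogeneous_monomial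
    have : (Finsupp.single i 1 + d').degree = m + 1 := by rw [← hd', hdeg]
    rw [map_add, Finsupp.degree_single] at this
    omega

/-- the coordinate ring `S/𝔭` -/
def Rq (𝔭 : Ideal (Pl K)) : Type _ := Pl K ⧸ 𝔭

noncomputable instance (𝔭 : Ideal (Pl K)) : CommRing (Rq 𝔭) :=
  inferInstanceAs (CommRing (Pl K ⧸ 𝔭))

/-- the projection to the coordinate ring -/
noncomputable def mq (𝔭 : Ideal (Pl K)) : Pl K →+* Rq 𝔭 := Ideal.Quotient.mk 𝔭

theorem mq_surj (𝔭 : Ideal (Pl K)) : Function.Surjective (mq 𝔭) := Ideal.Quotient.mk_surjective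

theorem mq_zero (𝔭 : Ideal (Pl K)) (f : Pl K) : mq 𝔭 f = 0 ↔ f ∈ 𝔭 :=
  Ideal.Quotient.eq_zero_iff_mem

/-- `S/𝔭` as an algebra over `K[z, w]` -/
noncomputable instance (𝔭 : Ideal (Pl K)) : Algebra (P2 K) (Rq 𝔭) :=
  ((mq 𝔭).comp (ι2 K : P2 K →+* Pl K)).toAlgebra

theorem pb_algMap (𝔭 : Ideal (Pl K)) (g : P2 K) :
    algebraMap (P2 K) (Rq 𝔭) g = mq 𝔭 (ι2 K g) := rfl

theorem pb_smul (𝔭 : Ideal (Pl K)) (g : P2 K) (f : Pl K) :
    g • (mq 𝔭 f) = mq 𝔭 (ι2 K g * f) := by
  rw [Algebra.smul_def, map_mul, pb_algMap]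

theorem pb_mem_span (𝔭 : Ideal (Pl K)) (W : Set (Rq 𝔭)) (g : P2 K) (f : Pl K)
    (hf : mq 𝔭 f ∈ Submodule.span (P2 K) W) :
    mq 𝔭 (ι2 K g * f) ∈ Submodule.span (P2 K) W := by
  have := Submodule.smul_mem _ g hf
  rwa [pb_smul] at this

theorem pb_finite {𝔭 : Ideal (Pl K)} (hom : Hom 𝔭) (h2 : Fin2 𝔭) :
    Module.Finite (P2 K) (Rq 𝔭) := by
  obtain ⟨N0, hN0⟩ := h2
  have hN1 := pb_large hN0
  obtain ⟨N, hNpos, hN⟩ : ∃ N, 0 < N ∧ ∀ m, N ≤ m → ∀ f ∈ Fm K m, f ∈ 𝔭 ⊔ Ideal.span {X 0, X 1} :=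
    ⟨N0 + 1, by omega, fun m hm => hN1 m (by omega)⟩
  let W : Set (Rq 𝔭) := (fun d : Fin 4 →₀ ℕ => mq 𝔭 (monomial d 1)) ''
    {d | d.degree ≤ N}
  have hW : W.Finite := (Finsupp.finite_of_degree_le N).image _
  have key : ∀ m, ∀ f ∈ Fm K m, mq 𝔭 f ∈ Submodule.span (P2 K) W := by
    intro m
    induction m using Nat.strong_induction_on with
    | _ m ih =>
      intro f hf
      by_cases hm : m < N
      · rw [f.as_sum, map_sum]
        apply Submodule.sum_mem
        intro d hd
        have hdeg : d.degree = m := by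
          have := hf (mem_support_iff.mp hd)
          rw [Finsupp.degree_eq_weight_one]; exact this
        have h3 : (monomial d) (coeff d f) = ι2 K (MvPolynomial.C (coeff d f)) * monomial d 1 := by
          rw [ι2, rename_C, C_mul_monomial, mul_one]
        rw [h3]
        apply pb_mem_span
        apply Submodule.subset_span
        exact ⟨d, by simp only [Set.mem_ofPred_eq]; omega, rfl⟩
      · have h4 := hN m (by omega) f hf
        rw [Submodule.mem_sup] at h4
        obtain ⟨p, hp, q, hq, hpq⟩ := h4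
        rw [Ideal.mem_span_pair] at hq
        obtain ⟨a, b, hab⟩ := hq
        obtain ⟨k, rfl⟩ : ∃ k, m = k + 1 := ⟨m - 1, by omega⟩
        have hX : ∀ i : Fin 4, (X i : Pl K) ∈ Fm K 1 := fun i => isHomogeneous_X K i
        have h5 : f = homogeneousComponent (k + 1) p + homogeneousComponent k a * X 0
            + homogeneousComponent k b * X 1 := by
          have h6 : homogeneousComponent (k + 1) f = f := by
            rw [homogeneousComponent_of_mem hf, if_pos rfl]
          rw [← pb_hc_mul a k (hX 0), ← pb_hc_mul b k (hX 1), ← map_add, ← map_add]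
          rw [← h6]
          congr 1
          rw [← hpq, ← hab]; ring
        rw [h5]
        have h7 : (X 0 : Pl K) = ι2 K (X 0) := by
          rw [ι2, rename_X]; rfl
        have h8 : (X 1 : Pl K) = ι2 K (X 1) := by
          rw [ι2, rename_X]; rfl
        rw [map_add, map_add, (mq_zero 𝔭 _).mpr (hom p hp (k + 1)), zero_add]
        apply Submodule.add_mem
        · rw [mul_comm, h7]
          apply pb_mem_span
          exact ih k (by omega) _ (homogeneousComponent_isHomogeneous k a)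
        · rw [mul_comm, h8]
          apply pb_mem_span
          exact ih k (by omega) _ (homogeneousComponent_isHomogeneous k b)
  refine ⟨⟨hW.toFinset, ?_⟩⟩
  rw [Set.Finite.coe_toFinset, eq_top_iff]
  intro r _
  obtain ⟨f, rfl⟩ := mq_surj 𝔭 r
  rw [← sum_homogeneousComponent f, map_sum]
  exact Submodule.sum_mem _ fun i _ => key i _ (homogeneousComponent_isHomogeneous i f)

theorem pb_inj {𝔭 : Ideal (Pl K)} (hp : 𝔭.IsPrime) (tf : Tf 𝔭) :
    Function.Injective (algebraMap (P2 K) (Rq 𝔭)) := by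
  rw [injective_iff_map_eq_zero]
  intro g hg
  rw [pb_algMap, mq_zero] at hg
  by_contra hne
  apply hp.ne_top
  rw [Ideal.eq_top_iff_one]
  apply tf g hne
  rwa [mul_one]

/-- points of the curve -/
theorem pb_point [IsAlgClosed K] {𝔭 : Ideal (Pl K)} (hp : 𝔭.IsPrime) (hom : Hom 𝔭) (tf : Tf 𝔭)
    (h2 : Fin2 𝔭) (t : Fin 2 → K) : ∃ φ : Pl K →+* K, (∀ p ∈ 𝔭, φ p = 0) ∧
      (∀ g : P2 K, φ (ι2 K g) = eval t g) ∧ ∀ a, φ (MvPolynomial.C a) = a := by
  haveI := pb_finite hom h2
  have hker : (RingHom.ker (eval t : P2 K →+* K)).IsMaximal :=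
    RingHom.ker_isMaximal_of_surjective _ (fun a => ⟨MvPolynomial.C a, eval_C a⟩)
  have hle : RingHom.ker (algebraMap (P2 K) (Rq 𝔭)) ≤ RingHom.ker (eval t : P2 K →+* K) := by
    rw [(RingHom.injective_iff_ker_eq_bot _).mp (pb_inj hp tf)]
    exact bot_le
  obtain ⟨Q, hQ, hQc⟩ := Ideal.exists_ideal_over_maximal_of_isIntegral
    (RingHom.ker (eval t : P2 K →+* K)) hle
  let F := Rq 𝔭 ⧸ Q
  letI : Field F := Ideal.Quotient.field Q
  let j : K →+* F := (Ideal.Quotient.mk Q).comp ((algebraMap (P2 K) (Rq 𝔭)).comp MvPolynomial.C)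
  letI : Algebra K F := j.toAlgebra
  have hj : ∀ g : P2 K, Ideal.Quotient.mk Q (algebraMap (P2 K) (Rq 𝔭) g) = j (eval t g) := by
    intro g
    have h1 : g - MvPolynomial.C (eval t g) ∈ Q.comap (algebraMap (P2 K) (Rq 𝔭)) := by
      rw [hQc, RingHom.mem_ker, map_sub, eval_C, sub_self]
    rw [Ideal.mem_comap, map_sub] at h1
    have h2 := Ideal.Quotient.eq_zero_iff_mem.mpr h1
    rw [map_sub, sub_eq_zero] at h2
    rw [h2]
    rfl
  haveI : Algebra.IsIntegral K F := by
    constructor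
    intro x
    obtain ⟨r, rfl⟩ := Ideal.Quotient.mk_surjective x
    obtain ⟨P, hP, hP2⟩ := Algebra.IsIntegral.isIntegral (R := P2 K) r
    refine ⟨P.map (eval t : P2 K →+* K), hP.map _, ?_⟩
    rw [Polynomial.eval₂_map]
    have h3 : (algebraMap K F).comp (eval t : P2 K →+* K) =
        (Ideal.Quotient.mk Q).comp (algebraMap (P2 K) (Rq 𝔭)) := by
      ext g <;> exact (hj _).symm
    rw [h3, ← Polynomial.hom_eval₂, hP2, map_zero]
  have hbij := IsAlgClosed.algebraMap_bijective_of_isIntegral (k := K) (K := F)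
  let e := RingEquiv.ofBijective (algebraMap K F) hbij
  have he : ∀ a, e.symm (j a) = a := fun a => e.symm_apply_apply a
  refine ⟨(e.symm : F →+* K).comp ((Ideal.Quotient.mk Q).comp (mq 𝔭)), ?_, ?_, ?_⟩
  · intro p hp
    have : mq 𝔭 p = 0 := (mq_zero 𝔭 p).mpr hp
    simp [this]
  · intro g
    have := hj g
    rw [pb_algMap] at this
    simp only [RingHom.comp_apply, this]
    exact he _
  · intro a
    have h4 : MvPolynomial.C a = ι2 K (MvPolynomial.C a) := by
      rw [ι2, rename_C]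
    rw [h4]
    have := hj (MvPolynomial.C a)
    rw [pb_algMap, eval_C] at this
    simp only [RingHom.comp_apply, this]
    exact he _

/-- `k` homogeneous elements which are independent over `K[z, w]` -/
def LIh (𝔭 : Ideal (Pl K)) (k : ℕ) : Prop :=
  ∃ (y : Fin k → Pl K) (a : Fin k → ℕ), (∀ i, y i ∈ Fm K (a i)) ∧
    ∀ g : Fin k → P2 K, ∑ i, ι2 K (g i) * y i ∈ 𝔭 → ∀ i, g i = 0

theorem pb_li {𝔭 : Ideal (Pl K)} {k : ℕ} (y : Fin k → Pl K) :
    (∀ g : Fin k → P2 K, ∑ i, ι2 K (g i) * y i ∈ 𝔭 → ∀ i, g i = 0) ↔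
    LinearIndependent (P2 K) (fun i => mq 𝔭 (y i)) := by
  rw [Fintype.linearIndependent_iff]
  refine forall_congr' fun g => ?_
  rw [← mq_zero, map_sum]
  simp only [pb_smul]

theorem pb_max {𝔭 : Ideal (Pl K)} (hp : 𝔭.IsPrime) (hom : Hom 𝔭) (tf : Tf 𝔭) (h2 : Fin2 𝔭) :
    ∃ δ, 0 < δ ∧ LIh 𝔭 δ ∧ ∀ k, LIh 𝔭 k → k ≤ δ := by
  haveI := pb_finite hom h2
  obtain ⟨W, hW⟩ := (inferInstance : Module.Finite (P2 K) (Rq 𝔭)).fg_top
  have hb : ∀ k, LIh 𝔭 k → k ≤ W.card := by
    rintro k ⟨y, a, _, hli⟩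
    rw [pb_li] at hli
    have := linearIndependent_le_span _ hli (W : Set (Rq 𝔭)) hW
    simpa using this
  have h1 : LIh 𝔭 1 := by
    refine ⟨fun _ => 1, fun _ => 0, fun _ => isHomogeneous_one _ _, ?_⟩
    intro g hg i
    have hi : i = 0 := Subsingleton.elim _ _
    subst hi
    by_contra hne
    apply hp.ne_top
    rw [Ideal.eq_top_iff_one]
    apply tf (g 0) hne
    simpa using hg
  have hne : {k | LIh 𝔭 k}.Nonempty := ⟨1, h1⟩
  have hbdd : BddAbove {k | LIh 𝔭 k} := ⟨W.card, fun k hk => hb k hk⟩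
  refine ⟨sSup {k | LIh 𝔭 k}, ?_, Nat.sSup_mem hne hbdd, fun k hk => le_csSup hbdd hk⟩
  exact lt_of_lt_of_le one_pos (le_csSup hbdd h1)

theorem pb_eqn {𝔭 : Ideal (Pl K)} (hp : 𝔭.IsPrime) (hom : Hom 𝔭) (tf : Tf 𝔭) (h2 : Fin2 𝔭)
    {δ : ℕ} (hmax : ∀ k, LIh 𝔭 k → k ≤ δ) {m : ℕ} {f : Pl K} (hf : f ∈ Fm K m) :
    ∃ P : Polynomial (P2 K), P.Monic ∧ P.natDegree ≤ δ ∧ Polynomial.aeval (mq 𝔭 f) P = 0 := by
  haveI := pb_finite hom h2
  haveI : IsDomain (Rq 𝔭) := (Ideal.Quotient.isDomain_iff_prime 𝔭).mpr hp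
  haveI : FaithfulSMul (P2 K) (Rq 𝔭) :=
    (faithfulSMul_iff_algebraMap_injective _ _).mpr (pb_inj hp tf)
  have hint : IsIntegral (P2 K) (mq 𝔭 f) := Algebra.IsIntegral.isIntegral _
  refine ⟨minpoly (P2 K) (mq 𝔭 f), minpoly.monic hint, ?_, minpoly.aeval _ _⟩
  have hnot : ¬ LIh 𝔭 (δ + 1) := fun h => absurd (hmax _ h) (by omega)
  have h3 : ¬ (∀ g : Fin (δ + 1) → P2 K, ∑ i, ι2 K (g i) * f ^ (i : ℕ) ∈ 𝔭 → ∀ i, g i = 0) := by
    intro h
    apply hnot
    refine ⟨fun i => f ^ (i : ℕ), fun i => m * (i : ℕ), fun i => IsHomogeneous.pow hf i, h⟩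
  push Not at h3
  obtain ⟨g, hg, i0, hi0⟩ := h3
  let q : Polynomial (P2 K) := ∑ i : Fin (δ + 1), Polynomial.C (g i) * Polynomial.X ^ (i : ℕ)
  have hq0 : q ≠ 0 := by
    intro h
    have h4 : q.coeff i0 = g i0 := by
      simp only [q, Polynomial.finsetSum_coeff, Polynomial.coeff_C_mul, Polynomial.coeff_X_pow]
      rw [Finset.sum_eq_single i0]
      · simp
      · intro b _ hb
        rw [if_neg]
        · simp
        · intro h
          exact hb (Fin.ext h.symm)
      · simp
    rw [h, Polynomial.coeff_zero] at h4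
    exact hi0 h4.symm
  have hq1 : Polynomial.aeval (mq 𝔭 f) q = 0 := by
    simp only [q, map_sum, map_mul, map_pow, Polynomial.aeval_C, Polynomial.aeval_X]
    rw [← (mq_zero 𝔭 _).mpr hg, map_sum]
    refine Finset.sum_congr rfl fun i _ => ?_
    rw [map_mul, map_pow, pb_algMap]
  have hq2 : q.natDegree ≤ δ := by
    refine Polynomial.natDegree_sum_le_of_forall_le _ _ fun i _ => ?_
    refine (Polynomial.natDegree_C_mul_X_pow_le _ _).trans ?_
    omega
  exact (Polynomial.natDegree_le_of_dvd (minpoly.isIntegrallyClosed_dvd hint hq1) hq0).trans hq2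

theorem pb_heqn {𝔭 : Ideal (Pl K)} (hp : 𝔭.IsPrime) (hom : Hom 𝔭) {m : ℕ} {f : Pl K}
    (hf : f ∈ Fm K m) (hf0 : f ∉ 𝔭) {e : ℕ}
    (h : ∃ c : ℕ → P2 K, c 0 = 1 ∧ ∑ i ∈ Finset.range (e + 1), ι2 K (c i) * f ^ (e - i) ∈ 𝔭) :
    ∃ e' ≤ e, ∃ c : ℕ → P2 K, c e' ≠ 0 ∧
      (∀ i, c i ∈ homogeneousSubmodule (Fin 2) K (i * m)) ∧
      ∑ i ∈ Finset.range (e' + 1), ι2 K (c i) * f ^ (e' - i) ∈ 𝔭 := by
  classical
  have hex : ∃ e, ∃ c : ℕ → P2 K, c 0 = 1 ∧
    ∑ i ∈ Finset.range (e + 1), ι2 K (c i) * f ^ (e - i) ∈ 𝔭 := ⟨e, h⟩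
  refine ⟨Nat.find hex, Nat.find_min' hex h, ?_⟩
  obtain ⟨c, hc0, hc⟩ := Nat.find_spec hex
  have hmin := fun k => Nat.find_min hex (m := k)
  set e' := Nat.find hex with he'
  clear_value e'
  let c' : ℕ → P2 K := fun i => homogeneousComponent (i * m) (c i)
  have hc'0 : c' 0 = 1 := by
    simp only [c', hc0, zero_mul]
    rw [homogeneousComponent_of_mem (isHomogeneous_one (Fin 2) K), if_pos rfl]
  have hsum : ∑ i ∈ Finset.range (e' + 1), ι2 K (c' i) * f ^ (e' - i) ∈ 𝔭 := by
    have h1 := hom _ hc (e' * m)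
    rw [map_sum] at h1
    convert h1 using 1
    refine Finset.sum_congr rfl fun i hi => ?_
    rw [Finset.mem_range] at hi
    have h2 : e' * m = i * m + m * (e' - i) := by
      rw [mul_comm m, ← add_mul]; congr 1; omega
    rw [h2, pb_hc_mul _ _ (IsHomogeneous.pow hf (e' - i)), pb_hc_ι2]
  refine ⟨c', ?_, fun i => homogeneousComponent_isHomogeneous _ _, hsum⟩
  intro hce
  rcases Nat.eq_zero_or_pos e' with h0 | h0
  · rw [h0, hc'0] at hce
    exact one_ne_zero hce
  · obtain ⟨k, rfl⟩ : ∃ k, e' = k + 1 := ⟨e' - 1, by omega⟩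
    apply hmin k (by omega)
    refine ⟨c', hc'0, ?_⟩
    rw [Finset.sum_range_succ, hce, map_zero, zero_mul, add_zero] at hsum
    have h3 : ∑ i ∈ Finset.range (k + 1), ι2 K (c' i) * f ^ (k + 1 - i) =
        f * ∑ i ∈ Finset.range (k + 1), ι2 K (c' i) * f ^ (k - i) := by
      rw [Finset.mul_sum]
      refine Finset.sum_congr rfl fun i hi => ?_
      rw [Finset.mem_range] at hi
      have : k + 1 - i = (k - i) + 1 := by omega
      rw [this, pow_succ]; ring
    rw [h3] at hsum
    exact (hp.mem_or_mem hsum).resolve_left hf0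

theorem pb_dehom_ne {c : P2 K} {D : ℕ} (hc : c ∈ homogeneousSubmodule (Fin 2) K D) (h0 : c ≠ 0) :
    (aeval ![1, Polynomial.X] c : Polynomial K) ≠ 0 := by
  obtain ⟨d0, hd0⟩ := exists_coeff_ne_zero h0
  intro h
  have hdeg : ∀ d, coeff d c ≠ 0 → d 0 + d 1 = D := by
    intro d hd
    have h1 := hc hd
    have h2 : d.degree = D := by rw [Finsupp.degree_eq_weight_one]; exact h1
    rw [Finsupp.degree_eq_sum] at h2
    simpa using h2
  have h1 : (aeval ![1, Polynomial.X] c : Polynomial K).coeff (d0 1) = coeff d0 c := by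
    rw [aeval_def, eval₂_eq']
    simp only [Polynomial.finsetSum_coeff]
    rw [Finset.sum_eq_single d0]
    · simp [Polynomial.coeff_C_mul]
    · intro b hb hne
      have hb' := hdeg b (mem_support_iff.mp hb)
      have hd' := hdeg d0 hd0
      simp only [Fin.prod_univ_two, Matrix.cons_val_zero, Matrix.cons_val_one, one_pow, one_mul,
        Polynomial.algebraMap_eq, Polynomial.coeff_C_mul, Polynomial.coeff_X_pow]
      rw [if_neg]
      · simp
      · intro hh
        apply hne
        ext i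
        fin_cases i
        · simp only [Fin.zero_eta]; omega
        · simp only [Fin.mk_one]; omega
    · intro hn
      exact absurd (mem_support_iff.mpr hd0) hn
  rw [h, Polynomial.coeff_zero] at h1
  exact hd0 h1.symm

theorem pb_vanish {𝔭 : Ideal (Pl K)} (hp : 𝔭.IsPrime) (hom : Hom 𝔭) (tf : Tf 𝔭)
    (h2 : Fin2 𝔭) {δ : ℕ} (hmax : ∀ k, LIh 𝔭 k → k ≤ δ) {m : ℕ} {f : Pl K} (hf : f ∈ Fm K m)
    (t : Fin (δ * m + 1) → K) (ht : Function.Injective t) (φ : Fin (δ * m + 1) → (Pl K →+* K))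
    (hφ : ∀ i, ∀ p ∈ 𝔭, φ i p = 0) (hφ2 : ∀ i, ∀ g : P2 K, φ i (ι2 K g) = eval ![1, t i] g)
    (h : ∀ i, φ i f = 0) : f ∈ 𝔭 := by
  classical
  by_contra hf0
  obtain ⟨P, hP1, hP2, hP3⟩ := pb_eqn hp hom tf h2 hmax hf
  obtain ⟨e', he', c, hce, hch, hc⟩ := pb_heqn hp hom hf hf0 (e := P.natDegree)
    ⟨fun i => P.coeff (P.natDegree - i), by
      show P.coeff (P.natDegree - 0) = 1
      rw [Nat.sub_zero]
      exact hP1, by
      rw [← mq_zero, map_sum, ← Finset.sum_range_reflect]
      rw [Polynomial.aeval_eq_sum_range] at hP3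
      rw [← hP3]
      refine Finset.sum_congr rfl fun i hi => ?_
      rw [Finset.mem_range] at hi
      rw [show P.natDegree + 1 - 1 - i = P.natDegree - i by omega,
        show P.natDegree - (P.natDegree - i) = i by omega, ← pb_smul, map_pow]
      show P.coeff (P.natDegree - (P.natDegree - i)) • _ = _
      rw [show P.natDegree - (P.natDegree - i) = i by omega]⟩
  have hev : ∀ i, eval ![1, t i] (c e') = 0 := by
    intro i
    have h1 := hφ i _ hc
    rw [map_sum, Finset.sum_range_succ, Finset.sum_eq_zero] at h1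
    · rw [zero_add, Nat.sub_self, pow_zero, mul_one, hφ2] at h1
      exact h1
    · intro j hj
      rw [Finset.mem_range] at hj
      rw [map_mul, map_pow, h i, zero_pow (by omega), mul_zero]
  set q : Polynomial K := aeval ![1, Polynomial.X] (c e') with hq
  have hq0 : q ≠ 0 := pb_dehom_ne (hch e') hce
  have hqd : q.natDegree ≤ δ * m := by
    have h3 : q.natDegree ≤ (e' * m) * 1 := by
      apply aeval_natDegree_le
      · exact IsHomogeneous.totalDegree_le (hch e')
      · intro i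
        fin_cases i
        · simp
        · simp
    rw [mul_one] at h3
    exact h3.trans (Nat.mul_le_mul_right m (he'.trans hP2))
  have hroot : ∀ i, q.eval (t i) = 0 := by
    intro i
    rw [← hev i, hq]
    have h4 : ∀ g : P2 K, (aeval ![1, Polynomial.X] g : Polynomial K).eval (t i) =
        eval ![1, t i] g := by
      intro g
      have h5 : (Polynomial.evalRingHom (t i)).comp
          (aeval ![1, Polynomial.X] : P2 K →ₐ[K] Polynomial K).toRingHom = eval ![1, t i] := by
        apply MvPolynomial.ringHom_ext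
        · intro a; simp
        · intro j
          fin_cases j
          · simp
          · simp
      exact RingHom.congr_fun h5 g
    exact h4 _
  have hcard : (Finset.univ.image t).card ≤ q.natDegree := by
    refine le_trans ?_ (Polynomial.card_roots' q)
    refine (Finset.card_le_card (t := q.roots.toFinset) ?_).trans (Multiset.toFinset_card_le _)
    intro x hx
    rw [Finset.mem_image] at hx
    obtain ⟨i, -, rfl⟩ := hx
    rw [Multiset.mem_toFinset, Polynomial.mem_roots hq0]
    exact hroot i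
  rw [Finset.card_image_of_injective _ ht, Finset.card_univ, Fintype.card_fin] at hcard
  omega

theorem pb_embed [IsAlgClosed K] {𝔭 : Ideal (Pl K)} (hp : 𝔭.IsPrime) (hom : Hom 𝔭) (tf : Tf 𝔭)
    (h2 : Fin2 𝔭) {δ : ℕ} (hmax : ∀ k, LIh 𝔭 k → k ≤ δ) (m : ℕ) :
    ∃ Ψ : Qm 𝔭 m →ₗ[K] (Fin (δ * m + 1) → K), Function.Injective Ψ := by
  haveI : Infinite K := IsAlgClosed.instInfinite
  let t : Fin (δ * m + 1) → K := fun i => Infinite.natEmbedding K i
  have ht : Function.Injective t := fun i j h => Fin.ext ((Infinite.natEmbedding K).injective h)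
  choose φ hφ1 hφ2 hφ3 using fun i : Fin (δ * m + 1) => pb_point hp hom tf h2 ![1, t i]
  let Φ : Fm K m →ₗ[K] (Fin (δ * m + 1) → K) :=
    { toFun := fun f i => φ i (f : Pl K)
      map_add' := fun f g => by
        funext i
        simp
      map_smul' := fun a f => by
        funext i
        simp only [Submodule.coe_smul, RingHom.id_apply, Pi.smul_apply, smul_eq_mul]
        rw [smul_eq_C_mul, map_mul, hφ3] }
  have hle : (𝔭.restrictScalars K).comap (Fm K m).subtype ≤ LinearMap.ker Φ := by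
    intro f hf
    rw [LinearMap.mem_ker]
    funext i
    exact hφ1 i _ hf
  have hle2 : LinearMap.ker Φ ≤ (𝔭.restrictScalars K).comap (Fm K m).subtype := by
    intro f hf
    rw [LinearMap.mem_ker] at hf
    exact pb_vanish hp hom tf h2 hmax f.2 t ht φ hφ1 hφ2 (fun i => congrFun hf i)
  refine ⟨((𝔭.restrictScalars K).comap (Fm K m).subtype).liftQ Φ hle, ?_⟩
  rw [← LinearMap.ker_eq_bot, Submodule.ker_liftQ]
  rw [eq_bot_iff, Submodule.map_le_iff_le_comap]
  intro f hf
  have := hle2 hf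
  rw [Submodule.mem_comap, Submodule.mkQ_apply, Submodule.mem_bot,
    Submodule.Quotient.mk_eq_zero]
  exact this

/-- linear independence of monomials -/
theorem pb_mono {r m : ℕ} (hrm : r ≤ m) (c : Fin (r + 1) → K)
    (h : ∑ k : Fin (r + 1), MvPolynomial.C (c k) * ((X 0 : P2 K) ^ (k : ℕ) * X 1 ^ (m - k)) = 0) :
    ∀ k, c k = 0 := by
  intro k
  have h1 := congrArg (coeff (Finsupp.single 0 (k : ℕ) + Finsupp.single 1 (m - k))) h
  rw [coeff_sum, coeff_zero, Finset.sum_eq_single k] at h1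
  · rw [X_pow_eq_monomial, X_pow_eq_monomial, monomial_mul, C_mul_monomial, coeff_monomial,
      if_pos rfl] at h1
    simpa using h1
  · intro b _ hb
    rw [X_pow_eq_monomial, X_pow_eq_monomial, monomial_mul, C_mul_monomial, coeff_monomial,
      if_neg]
    intro h2
    apply hb
    have h3 := DFunLike.congr_fun h2 0
    simp at h3
    exact Fin.ext h3
  · intro hn
    exact absurd (Finset.mem_univ k) hn

theorem pb_lower {𝔭 : Ideal (Pl K)} {δ : ℕ} (hδ : LIh 𝔭 δ)
    (hfin : ∀ m, Module.Finite K (Qm 𝔭 m)) : ∃ C, ∀ m, δ * m ≤ hf 𝔭 m + C := by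
  obtain ⟨y, a, hy, hli⟩ := hδ
  let A := ∑ i, a i
  have hA : ∀ i, a i ≤ A := fun i => Finset.single_le_sum (fun _ _ => Nat.zero_le _) (Finset.mem_univ i)
  refine ⟨δ * A, fun m => ?_⟩
  rcases le_or_gt m A with hm | hm
  · exact (Nat.mul_le_mul_left δ hm).trans (Nat.le_add_left _ _)
  · haveI := hfin m
    let r := m - A
    let v : Fin δ × Fin (r + 1) → Fm K m := fun p =>
      ⟨ι2 K (X 0 ^ (p.2 : ℕ) * X 1 ^ (m - a p.1 - p.2)) * y p.1, by
        have h1 : (X 0 ^ (p.2 : ℕ) * X 1 ^ (m - a p.1 - p.2) : P2 K) ∈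
            homogeneousSubmodule (Fin 2) K ((p.2 : ℕ) + (m - a p.1 - p.2)) := by
          have h3 := (isHomogeneous_X K (0 : Fin 2)).pow (p.2 : ℕ)
          have h4 := (isHomogeneous_X K (1 : Fin 2)).pow (m - a p.1 - p.2)
          rw [one_mul] at h3 h4
          exact h3.mul h4
        have h2 := IsHomogeneous.mul (pb_ι2_mem h1) (hy p.1)
        have h3 : (p.2 : ℕ) + (m - a p.1 - p.2) + a p.1 = m := by
          have := hA p.1
          have := p.2.2
          omega
        rw [h3] at h2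
        exact h2⟩
    have hv : LinearIndependent K (fun p => ((𝔭.restrictScalars K).comap (Fm K m).subtype).mkQ (v p)) := by
      rw [Fintype.linearIndependent_iff]
      intro g hg p
      simp only [← map_smul, ← map_sum] at hg
      rw [Submodule.mkQ_apply, Submodule.Quotient.mk_eq_zero, Submodule.mem_comap,
        Submodule.restrictScalars_mem, map_sum, Fintype.sum_prod_type] at hg
      have h1 := hli (fun i => ∑ k : Fin (r + 1), MvPolynomial.C (g (i, k)) *
        ((X 0 : P2 K) ^ (k : ℕ) * X 1 ^ (m - a i - k))) (by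
          convert hg using 1
          refine Finset.sum_congr rfl fun i _ => ?_
          rw [map_sum, Finset.sum_mul]
          refine Finset.sum_congr rfl fun k _ => ?_
          simp only [v, map_smul, Submodule.subtype_apply]
          rw [smul_eq_C_mul, map_mul, mul_assoc]
          congr 1
          rw [ι2, rename_C]) p.1
      exact pb_mono (by have := hA p.1; omega) _ h1 p.2
    have h5 := hv.fintype_card_le_finrank
    rw [Fintype.card_prod, Fintype.card_fin, Fintype.card_fin] at h5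
    have h6 : δ * m ≤ δ * (r + 1) + δ * A := by
      rw [← mul_add]
      apply Nat.mul_le_mul_left
      omega
    exact h6.trans (Nat.add_le_add_right h5 _)

theorem pb_one {𝔭 : Ideal (Pl K)} (hp : 𝔭.IsPrime) (hom : Hom 𝔭) (tf : Tf 𝔭) (h2 : Fin2 𝔭)
    (hmax : ∀ k, LIh 𝔭 k → k ≤ 1) : ∃ C, 𝔭 = Lam C := by
  have key : ∀ i : Fin 4, ∃ u v : K, X i - ι2 K (MvPolynomial.C u * X 0 + MvPolynomial.C v * X 1) ∈ 𝔭 := by
    intro i
    have hX : (X i : Pl K) ∈ Fm K 1 := isHomogeneous_X K i
    obtain ⟨P, hP1, hP2, hP3⟩ := pb_eqn hp hom tf h2 hmax hX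
    have hg : ∃ g : P2 K, X i - ι2 K g ∈ 𝔭 := by
      rcases Nat.lt_or_ge P.natDegree 1 with h | h
      · exfalso
        have h3 : P = 1 := hP1.natDegree_eq_zero.mp (by omega)
        rw [h3, map_one] at hP3
        have h4 : (1 : Rq 𝔭) = mq 𝔭 1 := (map_one _).symm
        rw [h4, mq_zero] at hP3
        exact hp.ne_top ((Ideal.eq_top_iff_one _).mpr hP3)
      · have h3 : P.natDegree = 1 := le_antisymm hP2 h
        have h4 : P = Polynomial.X + Polynomial.C (P.coeff 0) :=
          Polynomial.Monic.eq_X_add_C hP1 h3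
        refine ⟨-(P.coeff 0), ?_⟩
        rw [h4] at hP3
        simp only [map_add, Polynomial.aeval_X, Polynomial.aeval_C] at hP3
        rw [pb_algMap, ← map_add, mq_zero] at hP3
        simpa using hP3
    obtain ⟨g, hg⟩ := hg
    have h5 := hom _ hg 1
    rw [map_sub, homogeneousComponent_of_mem hX, if_pos rfl, pb_hc_ι2] at h5
    have h6 : ∃ u v : K, homogeneousComponent 1 g = MvPolynomial.C u * X 0 + MvPolynomial.C v * X 1 := by
      refine ⟨coeff (Finsupp.single 0 1) g, coeff (Finsupp.single 1 1) g, ?_⟩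
      ext d
      rw [coeff_homogeneousComponent, coeff_add, coeff_C_mul, coeff_C_mul, coeff_X, coeff_X]
      by_cases hd : d.degree = 1
      · rw [if_pos hd]
        rw [Finsupp.degree_eq_sum, Fin.sum_univ_two] at hd
        have hcases : (d 0 = 1 ∧ d 1 = 0) ∨ (d 0 = 0 ∧ d 1 = 1) := by omega
        rcases hcases with ⟨h7, h8⟩ | ⟨h7, h8⟩
        · have hd' : d = Finsupp.single 0 1 := by
            ext j; fin_cases j
            · simpa using h7
            · simpa using h8
          subst hd'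
          rw [if_pos rfl, if_neg]
          · simp
          · intro h9
            have := DFunLike.congr_fun h9 0
            simp at this
        · have hd' : d = Finsupp.single 1 1 := by
            ext j; fin_cases j
            · simpa using h7
            · simpa using h8
          subst hd'
          rw [if_neg, if_pos rfl]
          · simp
          · intro h9
            have := DFunLike.congr_fun h9 0
            simp at this
      · rw [if_neg hd, if_neg, if_neg]
        · simp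
        · rintro rfl
          simp at hd
        · rintro rfl
          simp at hd
    obtain ⟨u, v, huv⟩ := h6
    exact ⟨u, v, by rw [← huv]; exact h5⟩
  obtain ⟨u2, v2, h2'⟩ := key 2
  obtain ⟨u3, v3, h3'⟩ := key 3
  let C : Matrix (Fin 2) (Fin 2) K := !![u2, v2; u3, v3]
  have hres : ∀ p : Pl K, p - ι2 K (res C p) ∈ 𝔭 := by
    intro p
    have h7 : (Ideal.Quotient.mk 𝔭) =
        ((Ideal.Quotient.mk 𝔭).comp (ι2 K : P2 K →+* Pl K)).comp (res C : Pl K →+* P2 K) := by
      apply MvPolynomial.ringHom_ext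
      · intro a
        simp [ι2, res]
      · intro j
        simp only [RingHom.comp_apply, RingHom.coe_coe]
        fin_cases j
        · simp [res, ι2]
        · simp [res, ι2]
        · have h8 := Ideal.Quotient.eq.mpr h2'
          simp only [Fin.reduceFinMk]
          rw [h8]
          simp [res, row, C]
        · have h8 := Ideal.Quotient.eq.mpr h3'
          simp only [Fin.reduceFinMk]
          rw [h8]
          simp [res, row, C]
    rw [← Ideal.Quotient.eq]
    exact RingHom.congr_fun h7 p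
  refine ⟨C, le_antisymm ?_ ?_⟩
  · intro p hpp
    rw [Lam, RingHom.mem_ker]
    have h9 : ι2 K (res C p) ∈ 𝔭 := by
      have := 𝔭.sub_mem hpp (hres p)
      simpa using this
    by_contra hne
    apply hp.ne_top
    rw [Ideal.eq_top_iff_one]
    apply tf _ hne
    rwa [mul_one]
  · intro p hpp
    rw [Lam, RingHom.mem_ker] at hpp
    have := hres p
    rwa [hpp, map_zero, sub_zero] at this

/-- integral curves -/
theorem _root_.Pool.Agent.Helper947.Crv.prime_bound [IsAlgClosed K] {𝔭 : Ideal (Pl K)} (hp : 𝔭.IsPrime) (hom : Hom 𝔭) (tf : Tf 𝔭)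
    (h2 : Fin2 𝔭) : ∃ δ : ℕ, 0 < δ ∧ (∀ m, hf 𝔭 m ≤ δ * m + 1) ∧
      (∃ C, ∀ m, δ * m ≤ hf 𝔭 m + C) ∧ (δ = 1 → ∃ C, 𝔭 = Lam C) := by
  obtain ⟨δ, hpos, hδ, hmax⟩ := pb_max hp hom tf h2
  have hemb := pb_embed hp hom tf h2 hmax
  refine ⟨δ, hpos, ?_, ?_, ?_⟩
  · intro m
    obtain ⟨Ψ, hΨ⟩ := hemb m
    have := LinearMap.finrank_le_finrank_of_injective hΨ
    rwa [Module.finrank_fin_fun] at this
  · apply pb_lower hδ
    intro m
    obtain ⟨Ψ, hΨ⟩ := hemb m
    exact Module.Finite.of_injective Ψ hΨ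
  · rintro rfl
    exact pb_one hp hom tf h2 hmax

end growth
end Pool.Agent.Helper947.Crv.LD1

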