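import Mathlib
import Pool.Agent.Helper947.Crv.Defs
import Pool.Agent.Helper947.Crv.A1
import Pool.Agent.Helper947.Crv.A2
import Pool.Agent.Helper947.Crv.A3
import Pool.Agent.Helper947.Crv.A4
import Pool.Agent.Helper947.Crv.A5
import Pool.Agent.Helper947.Crv.D1

open MvPolynomial Filter

namespace Pool.Agent.Helper947.Crv.LD2

section line

variable {K : Type*} [CommRing K]

end line

namespace Cfg

variable {K : Type*} [CommRing K] {J M : Type} (c : Cfg K J M)

end Cfg

section defs2

variable {K : Type*} [Field K]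

end defs2

section hilb

variable {K : Type*} [Field K] {I J N : Ideal (Pl K)}

end hilb

section lines

variable {K : Type*} [Field K]

end lines

section growth

variable {K : Type*} [Field K]

/-! auxiliary lemmas for radical_bound -/

section j7344_graded

attribute [local instance] MvPolynomial.gradedAlgebra

theorem j7344_Hom_iff {K : Type*} [Field K] (I : Ideal (Pl K)) :
    Hom I ↔ I.IsHomogeneous (homogeneousSubmodule (Fin 4) K) := by
  constructor
  · intro h i p hp
    have := h p hp i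
    rwa [← decomposition.decompose'_apply] at this
  · intro h p hp i
    have := h i hp
    rw [← decomposition.decompose'_apply]
    exact this

theorem j7344_min_hom {K : Type*} [Field K] {N 𝔭 : Ideal (Pl K)} (hom : Hom N)
    (hp : 𝔭 ∈ N.minimalPrimes) : Hom 𝔭 := by
  rw [j7344_Hom_iff] at hom ⊢
  have hcore : (𝔭.homogeneousCore (homogeneousSubmodule (Fin 4) K)).toIdeal.IsPrime :=
    Ideal.IsPrime.homogeneousCore hp.1.1
  have hle : N ≤ (𝔭.homogeneousCore (homogeneousSubmodule (Fin 4) K)).toIdeal := by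
    rw [← Ideal.IsHomogeneous.toIdeal_homogeneousCore_eq_self hom]
    exact Ideal.homogeneousCore_mono _ hp.1.2
  have h1 : 𝔭 ≤ (𝔭.homogeneousCore (homogeneousSubmodule (Fin 4) K)).toIdeal :=
    hp.2 ⟨hcore, hle⟩ (Ideal.toIdeal_homogeneousCore_le _ _)
  have h2 : (𝔭.homogeneousCore (homogeneousSubmodule (Fin 4) K)).toIdeal = 𝔭 :=
    le_antisymm (Ideal.toIdeal_homogeneousCore_le _ _) h1
  rw [← h2]
  exact (𝔭.homogeneousCore (homogeneousSubmodule (Fin 4) K)).isHomogeneous

end j7344_graded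

theorem j7344_fin (K : Type*) [Field K] (m : ℕ) : Module.Finite K (Fm K m) :=
  Module.Finite.iff_fg.2 (homogeneousSubmodule_fg (Fin 4) K m)

theorem j7344_finQ {K : Type*} [Field K] (I : Ideal (Pl K)) (m : ℕ) : Module.Finite K (Qm I m) := by
  have := j7344_fin K m
  infer_instance

theorem j7344_top {K : Type*} [Field K] (m : ℕ) : hf (⊤ : Ideal (Pl K)) m = 0 := by
  unfold hf
  have : Subsingleton (Qm (⊤ : Ideal (Pl K)) m) := by
    rw [Submodule.Quotient.subsingleton_iff]
    ext x; simp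
  exact Module.finrank_zero_of_subsingleton

theorem j7344_Hom_top {K : Type*} [Field K] : Hom (⊤ : Ideal (Pl K)) := fun _ _ _ => trivial

/-- multiplication by a form -/
theorem j7344_mul {K : Type*} [Field K] {t : Ideal (Pl K)} (ht : t.IsPrime) {h : Pl K} {d : ℕ}
    (hd : h ∈ Fm K d) (hh : h ∉ t) (m : ℕ) :
    hf t m + hf (t ⊔ Ideal.span {h}) (m + d) ≤ hf t (m + d) := by
  have f1 := j7344_finQ t m
  have f2 := j7344_finQ t (m + d)
  have f3 := j7344_finQ (t ⊔ Ideal.span {h}) (m + d)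
  -- multiplication map on forms
  let μ0 : Fm K m →ₗ[K] Fm K (m + d) :=
    LinearMap.restrict (LinearMap.mulRight K h) (p := Fm K m) (q := Fm K (m + d)) (fun x hx => by
      have h1 : x.IsHomogeneous m := hx
      have h2 : h.IsHomogeneous d := hd
      exact h1.mul h2)
  have hμ0 : ∀ x : Fm K m, ((μ0 x : Fm K (m + d)) : Pl K) = (x : Pl K) * h := fun x => rfl
  let μ : Qm t m →ₗ[K] Qm t (m + d) := Submodule.mapQ _ _ μ0 (by
    intro x hx
    simp only [Submodule.mem_comap, Submodule.restrictScalars_mem, Submodule.subtype_apply] at hx ⊢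
    rw [hμ0]
    exact t.mul_mem_right _ hx)
  have hμ : Function.Injective μ := by
    rw [← LinearMap.ker_eq_bot, LinearMap.ker_eq_bot']
    intro x hx
    obtain ⟨y, rfl⟩ := Submodule.Quotient.mk_surjective _ x
    have h1 : (Submodule.Quotient.mk (μ0 y) : Qm t (m + d)) = 0 := hx
    rw [Submodule.Quotient.mk_eq_zero] at h1 ⊢
    simp only [Submodule.mem_comap, Submodule.restrictScalars_mem, Submodule.subtype_apply] at h1 ⊢
    rw [hμ0] at h1
    exact (ht.mem_or_mem h1).resolve_right hh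
  let π : Qm t (m + d) →ₗ[K] Qm (t ⊔ Ideal.span {h}) (m + d) :=
    Submodule.mapQ _ _ LinearMap.id (by
      intro x hx
      simp only [Submodule.mem_comap, Submodule.restrictScalars_mem, Submodule.subtype_apply,
        LinearMap.id_apply] at hx ⊢
      exact (le_sup_left : t ≤ t ⊔ Ideal.span {h}) hx)
  have hπ : Function.Surjective π := by
    intro x
    obtain ⟨y, rfl⟩ := Submodule.Quotient.mk_surjective _ x
    exact ⟨Submodule.Quotient.mk y, rfl⟩
  have hker : LinearMap.range μ ≤ LinearMap.ker π := by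
    rintro _ ⟨x, rfl⟩
    obtain ⟨y, rfl⟩ := Submodule.Quotient.mk_surjective _ x
    rw [LinearMap.mem_ker]
    have h1 : π (μ (Submodule.Quotient.mk y)) =
      (Submodule.Quotient.mk (μ0 y) : Qm (t ⊔ Ideal.span {h}) (m + d)) := rfl
    rw [h1, Submodule.Quotient.mk_eq_zero]
    simp only [Submodule.mem_comap, Submodule.restrictScalars_mem, Submodule.subtype_apply]
    rw [hμ0]
    exact (le_sup_right : Ideal.span {h} ≤ t ⊔ Ideal.span {h})
      (Ideal.mul_mem_left _ _ (Ideal.subset_span rfl))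
  have e1 := LinearMap.finrank_range_add_finrank_ker π
  have e2 : Module.finrank K (LinearMap.range π) = Module.finrank K (Qm (t ⊔ Ideal.span {h}) (m + d)) :=
    by rw [LinearMap.range_eq_top.2 hπ, finrank_top]
  have e3 : Module.finrank K (LinearMap.range μ) = Module.finrank K (Qm t m) :=
    LinearMap.finrank_range_of_inj hμ
  have e4 := Submodule.finrank_mono hker
  unfold hf
  omega

theorem j7344_exists_hom {K : Type*} [Field K] {I t : Ideal (Pl K)} (hI : Hom I) (h : ¬ I ≤ t) :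
    ∃ (d : ℕ) (f : Pl K), f ∈ Fm K d ∧ f ∈ I ∧ f ∉ t := by
  obtain ⟨p, hp, hpt⟩ := SetLike.not_le_iff_exists.1 h
  by_contra hcon
  push Not at hcon
  apply hpt
  rw [← sum_homogeneousComponent p]
  exact Ideal.sum_mem _ fun i _ => hcon i _ (homogeneousComponent_mem i p) (hI p hp i)

/-- `N` is the intersection of its minimal primes, finset form -/
theorem j7344_bounds {K : Type*} [Field K] {N : Ideal (Pl K)} (h2 : Fin2 N)
    (P : Finset (Ideal (Pl K))) (hle : ∀ p ∈ P, N ≤ p) (hprime : ∀ p ∈ P, p.IsPrime)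
    (hhom : ∀ p ∈ P, Hom p) (hinc : ∀ p ∈ P, ∀ q ∈ P, p ≤ q → p = q) (δ : Ideal (Pl K) → ℕ)
    (hub : ∀ p ∈ P, ∀ m, hf p m ≤ δ p * m + 1)
    (hlb : ∀ p ∈ P, ∃ C, ∀ m, δ p * m ≤ hf p m + C) :
    Hom (P.inf id) ∧ N ≤ P.inf id ∧ (∀ m, hf (P.inf id) m ≤ ∑ p ∈ P, (δ p * m + 1)) ∧
      ∃ C, ∀ m, (∑ p ∈ P, δ p) * m ≤ hf (P.inf id) m + C := by
  classical
  induction P using Finset.induction_on with
  | empty =>
    simp only [Finset.inf_empty, Finset.sum_empty]
    exact ⟨j7344_Hom_top, le_top, fun m => by rw [j7344_top], 0, fun m => by simp⟩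
  | insert t T ht ih =>
    obtain ⟨ih1, ih2, ih3, C1, ih4⟩ := ih (fun p hp => hle p (Finset.mem_insert_of_mem hp))
      (fun p hp => hprime p (Finset.mem_insert_of_mem hp))
      (fun p hp => hhom p (Finset.mem_insert_of_mem hp))
      (fun p hp q hq => hinc p (Finset.mem_insert_of_mem hp) q (Finset.mem_insert_of_mem hq))
      (fun p hp => hub p (Finset.mem_insert_of_mem hp))
      (fun p hp => hlb p (Finset.mem_insert_of_mem hp))
    have htm := Finset.mem_insert_self t T
    have htp := hprime t htm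
    have hth := hhom t htm
    have hNt := hle t htm
    have hex := hf_inf_sup hth ih1
    simp only [Finset.inf_insert, id_eq, Finset.sum_insert ht]
    refine ⟨Hom.inf hth ih1, le_inf hNt ih2, ?_, ?_⟩
    · intro m
      have := hex m
      have := ih3 m
      have := hub t htm m
      omega
    · -- the sum is bounded
      have hnle : ¬ T.inf id ≤ t := by
        rw [htp.inf_le']
        rintro ⟨q, hq, hqt⟩
        have : q = t := hinc q (Finset.mem_insert_of_mem hq) t htm hqt
        exact ht (this ▸ hq)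
      obtain ⟨d, h, hd, hI, hnt⟩ := j7344_exists_hom ih1 hnle
      obtain ⟨C2, hC2⟩ := hlb t htm
      have hbd : ∀ᶠ m in atTop, hf (t ⊔ Ideal.span {h}) m ≤
          hf (⊤ : Ideal (Pl K)) m + (δ t * d + 1 + C2) := by
        filter_upwards [eventually_ge_atTop d] with m hm
        obtain ⟨m', rfl⟩ := Nat.exists_eq_add_of_le' hm
        have a1 := j7344_mul htp hd hnt m'
        have a2 := hub t htm (m' + d)
        have a3 := hC2 m'
        rw [j7344_top]
        have a4 : δ t * (m' + d) = δ t * m' + δ t * d := by ring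
        omega
      obtain ⟨g, hg, hgm⟩ := torsion_of_hf (le_top : t ⊔ Ideal.span {h} ≤ ⊤) hbd
        (f := 1) (d := 0) (isHomogeneous_one _ _) trivial
      rw [mul_one] at hgm
      have hgm' : ι2 K g ∈ t ⊔ T.inf id := by
        refine (sup_le_sup_left ?_ t : t ⊔ Ideal.span {h} ≤ t ⊔ T.inf id) hgm
        rw [Ideal.span_singleton_le_iff_mem]
        exact hI
      obtain ⟨C3, hC3⟩ := bdd_of_mem (Hom.sup hth ih1) (Fin2.mono h2 (hNt.trans le_sup_left)) hg hgm'
      refine ⟨C1 + C2 + C3, fun m => ?_⟩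
      have b1 := hex m
      have b2 := ih4 m
      have b3 := hC2 m
      have b4 := hC3 m
      have b5 : (δ t + ∑ p ∈ T, δ p) * m = δ t * m + (∑ p ∈ T, δ p) * m := by ring
      omega

/-- reduced curves -/
theorem _root_.Pool.Agent.Helper947.Crv.radical_bound [IsAlgClosed K] {N : Ideal (Pl K)} (hN : N.IsRadical) (hom : Hom N)
    (tf : Tf N) (h2 : Fin2 N) : ∃ r : ℕ, (∀ m, hf N m ≤ r * (m + 1)) ∧
      (∃ C, ∀ m, r * m ≤ hf N m + C) ∧
      ((∀ᶠ m in atTop, hf N m = r * (m + 1)) →
        ∃ C : Fin r → Matrix (Fin 2) (Fin 2) K, N = ⨅ s, Lam (C s)) := by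
  classical
  have hfin : N.minimalPrimes.Finite := Ideal.finite_minimalPrimes_of_isNoetherianRing _ N
  obtain ⟨P, hP⟩ : ∃ P : Finset (Ideal (Pl K)), ∀ p, p ∈ P ↔ p ∈ N.minimalPrimes :=
    ⟨hfin.toFinset, fun p => by simp⟩
  have hNP : P.inf id = N := by
    have h1 : sInf N.minimalPrimes = N := by rw [Ideal.sInf_minimalPrimes, hN.radical]
    rw [← h1]
    apply le_antisymm
    · exact le_sInf fun p hp => Finset.inf_le (f := id) ((hP p).2 hp)
    · exact Finset.le_inf fun p hp => sInf_le ((hP p).1 hp)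
  have hle : ∀ p ∈ P, N ≤ p := fun p hp => ((hP p).1 hp).1.2
  have hprime : ∀ p ∈ P, p.IsPrime := fun p hp => ((hP p).1 hp).1.1
  have hhom : ∀ p ∈ P, Hom p := fun p hp => j7344_min_hom hom ((hP p).1 hp)
  have hinc : ∀ p ∈ P, ∀ q ∈ P, p ≤ q → p = q := by
    intro p hp q hq hpq
    exact le_antisymm hpq (((hP q).1 hq).2 ⟨hprime p hp, hle p hp⟩ hpq)
  have htf : ∀ p ∈ P, Tf p := by
    intro p hp g hg f hf
    have hnle : ¬ (P.erase p).inf id ≤ p := by
      rw [(hprime p hp).inf_le']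
      rintro ⟨q, hq, hqp⟩
      rw [Finset.mem_erase] at hq
      exact hq.1 (hinc q hq.2 p hp hqp)
    obtain ⟨h, hh, hhp⟩ := SetLike.not_le_iff_exists.1 hnle
    have hmem : ι2 K g * (f * h) ∈ N := by
      rw [← hNP, ← Finset.insert_erase hp, Finset.inf_insert]
      refine ⟨?_, ?_⟩
      · rw [← mul_assoc]; exact p.mul_mem_right _ hf
      · rw [← mul_assoc]; exact Ideal.mul_mem_left _ _ hh
    have h3 := hle p hp (tf g hg _ hmem)
    exact ((hprime p hp).mem_or_mem h3).resolve_right hhp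
  have hfin2 : ∀ p ∈ P, Fin2 p := fun p hp => h2.mono (hle p hp)
  have hpb : ∀ p : Ideal (Pl K), ∃ δ : ℕ, p ∈ P → (0 < δ ∧ (∀ m, hf p m ≤ δ * m + 1) ∧
      (∃ C, ∀ m, δ * m ≤ hf p m + C) ∧ (δ = 1 → ∃ C, p = Lam C)) := by
    intro p
    by_cases hp : p ∈ P
    · obtain ⟨δ, h⟩ := prime_bound (hprime p hp) (hhom p hp) (htf p hp) (hfin2 p hp)
      exact ⟨δ, fun _ => h⟩
    · exact ⟨0, fun h => absurd h hp⟩
  choose δ hδ using hpb
  obtain ⟨-, -, hub, C, hlb⟩ := j7344_bounds h2 P hle hprime hhom hinc δ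
    (fun p hp => (hδ p hp).2.1) (fun p hp => (hδ p hp).2.2.1)
  rw [hNP] at hub hlb
  have hcard : P.card ≤ ∑ p ∈ P, δ p := by
    rw [Finset.card_eq_sum_ones]
    exact Finset.sum_le_sum fun p hp => (hδ p hp).1
  have hsum : ∀ m, ∑ p ∈ P, (δ p * m + 1) = (∑ p ∈ P, δ p) * m + P.card := by
    intro m
    rw [Finset.sum_add_distrib, Finset.sum_mul, Finset.card_eq_sum_ones]
  refine ⟨∑ p ∈ P, δ p, ?_, ⟨C, hlb⟩, ?_⟩
  · intro m
    have := hub m
    rw [hsum] at this
    calc hf N m ≤ (∑ p ∈ P, δ p) * m + P.card := this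
      _ ≤ (∑ p ∈ P, δ p) * m + ∑ p ∈ P, δ p := by omega
      _ = (∑ p ∈ P, δ p) * (m + 1) := by ring
  · intro hev
    obtain ⟨m, hm⟩ := hev.exists
    have h3 := hub m
    rw [hsum, hm] at h3
    have h4 : (∑ p ∈ P, δ p) * (m + 1) = (∑ p ∈ P, δ p) * m + ∑ p ∈ P, δ p := by ring
    have h5 : ∑ p ∈ P, δ p = P.card := by omega
    have h6 : ∀ p ∈ P, δ p = 1 := by
      rw [Finset.card_eq_sum_ones] at h5
      have := (Finset.sum_eq_sum_iff_of_le (fun p hp => (hδ p hp).1)).1 h5.symm
      exact fun p hp => (this p hp).symm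
    rw [h5]
    have h7 : ∀ p : P, ∃ C, (p : Ideal (Pl K)) = Lam C := fun p => (hδ p p.2).2.2.2 (h6 p p.2)
    choose L hL using h7
    let e : Fin P.card ≃ P := P.equivFin.symm
    refine ⟨fun s => L (e s), ?_⟩
    rw [← hNP, Finset.inf_eq_iInf]
    apply le_antisymm
    · refine le_iInf fun s => ?_
      rw [← hL]
      exact (iInf_le _ (e s : Ideal (Pl K))).trans (iInf_le _ (e s).2)
    · refine le_iInf fun p => le_iInf fun hp => ?_
      have h8 : (id p : Ideal (Pl K)) = Lam (L (e (e.symm ⟨p, hp⟩))) := by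
        rw [← hL]; simp
      rw [h8]
      exact iInf_le (fun s => Lam (L (e s))) (e.symm ⟨p, hp⟩)

end growth

end Pool.Agent.Helper947.Crv.LD2

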