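import Mathlib
import Pool.Agent.Helper947.Crv.Defs
import Pool.Agent.Helper947.Crv.A2
import Pool.Agent.Helper947.Crv.C1

open MvPolynomial Filter

namespace Pool.Agent.Helper947.Crv.LD3

section line

variable {K : Type*} [CommRing K]

end line

namespace Cfg

variable {K : Type*} [CommRing K] {J M : Type} (c : Cfg K J M)

end Cfg

section defs2

variable {K : Type*} [Field K]

end defs2

section hilb

variable {K : Type*} [Field K] {I J N : Ideal (Pl K)}

end hilb

section lines

variable {K : Type*} [Field K]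

end lines

section growth

variable {K : Type*} [Field K]

theorem finFm_7345 {σ : Type} [Finite σ] (m : ℕ) :
    Module.Finite K (homogeneousSubmodule σ K m) :=
  Module.Finite.iff_fg.mpr (homogeneousSubmodule_fg _ _ m)

theorem res_hom_7345 (C : Matrix (Fin 2) (Fin 2) K) {p : Pl K} {m : ℕ} (hp : p ∈ Fm K m) :
    res C p ∈ homogeneousSubmodule (Fin 2) K m := by
  have hrow : ∀ a, (row C a).IsHomogeneous 1 := fun a =>
    (isHomogeneous_C_mul_X _ _).add (isHomogeneous_C_mul_X _ _)
  have h := IsHomogeneous.aeval (n := 1) (show p.IsHomogeneous m from hp)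
    (![X 0, X 1, row C 0, row C 1] : Fin 4 → P2 K) (by
      intro i
      fin_cases i
      · exact isHomogeneous_X _ _
      · exact isHomogeneous_X _ _
      · exact hrow 0
      · exact hrow 1)
  rw [one_mul] at h
  exact h

theorem dG_hom_7345 (C : Matrix (Fin 2) (Fin 2) K) {G : Fin 2 → P2 K} {e : ℕ}
    (hG : ∀ a, G a ∈ homogeneousSubmodule (Fin 2) K e) {p : Pl K} {m : ℕ} (hp : p ∈ Fm K m) :
    dG C G p ∈ homogeneousSubmodule (Fin 2) K (m - 1 + e) := by
  have h1 : ∀ i : Fin 4, (res C (pderiv i p)).IsHomogeneous (m - 1) := fun i =>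
    res_hom_7345 C (IsHomogeneous.pderiv (show p.IsHomogeneous m from hp))
  exact ((h1 2).mul (hG 0)).add ((h1 3).mul (hG 1))

theorem iota_hom_7345 {g : P2 K} {k : ℕ} (hg : g ∈ homogeneousSubmodule (Fin 2) K k) :
    ι2 K g ∈ Fm K k :=
  IsHomogeneous.rename_isHomogeneous (show g.IsHomogeneous k from hg)

theorem finrank_P2_7345 (k : ℕ) : Module.finrank K (homogeneousSubmodule (Fin 2) K k) = k + 1 := by
  have h := hf_Lam (K := K) 0 k
  unfold hf at h
  let L : Fm K k →ₗ[K] P2 K := (res (0 : Matrix (Fin 2) (Fin 2) K)).toLinearMap ∘ₗ (Fm K k).subtype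
  have hker : LinearMap.ker L =
      ((Lam (0 : Matrix (Fin 2) (Fin 2) K)).restrictScalars K).comap (Fm K k).subtype := by
    ext x
    rfl
  have hrange : LinearMap.range L = homogeneousSubmodule (Fin 2) K k := by
    apply le_antisymm
    · rintro _ ⟨x, rfl⟩
      exact res_hom_7345 _ x.2
    · intro g hg
      exact ⟨⟨ι2 K g, iota_hom_7345 hg⟩, res_ι2 _ g⟩
  rw [← hrange, ← (LinearMap.quotKerEquivRange L).finrank_eq, hker]
  exact h

theorem hf_add_7345 (I : Ideal (Pl K)) (m : ℕ) :
    hf I m + Module.finrank K ((Fm K m ⊓ I.restrictScalars K : Submodule K (Pl K))) =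
      Module.finrank K (Fm K m) := by
  have := finFm_7345 (K := K) (σ := Fin 4) m
  have h1 := Submodule.finrank_quotient_add_finrank
    ((I.restrictScalars K).comap (Fm K m).subtype)
  rw [← Submodule.finrank_map_subtype_eq, Submodule.map_comap_subtype] at h1
  exact h1

/-- the map `Ψ` -/
noncomputable def Psi_7345 {J M : Type} (c : Cfg K J M) : Pl K →ₗ[K] (J → P2 K) where
  toFun p := fun j => dG (c.A j) (c.G j) p
  map_add' p q := by
    funext j
    exact dG_add _ _ p q
  map_smul' a p := by
    funext j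
    show res (c.A j) (pderiv 2 (a • p)) * c.G j 0 + res (c.A j) (pderiv 3 (a • p)) * c.G j 1 =
      a • (res (c.A j) (pderiv 2 p) * c.G j 0 + res (c.A j) (pderiv 3 p) * c.G j 1)
    rw [Derivation.map_smul, Derivation.map_smul, map_smul, map_smul, smul_mul_assoc,
      smul_mul_assoc, smul_add]

theorem Psi_apply_7345 {J M : Type} (c : Cfg K J M) (p : Pl K) (j : J) :
    Psi_7345 c p j = dG (c.A j) (c.G j) p := rfl

theorem hf_diff_7345 {J M : Type} {c : Cfg K J M} {U : Ideal (Pl K)}
    (hle : U ≤ c.GA ⊓ c.GB) {m : ℕ} (hJ : ∀ p ∈ Fm K m, p ∈ c.J0 → p ∈ U) :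
    hf c.J0 m = hf U m + Module.finrank K (Submodule.map (Psi_7345 c)
      (Fm K m ⊓ U.restrictScalars K : Submodule K (Pl K))) := by
  have := finFm_7345 (K := K) (σ := Fin 4) m
  have h1 := hf_add_7345 U m
  have h2 := hf_add_7345 c.J0 m
  set VU : Submodule K (Pl K) := Fm K m ⊓ U.restrictScalars K with hVU
  set VJ : Submodule K (Pl K) := Fm K m ⊓ c.J0.restrictScalars K with hVJ
  have hfin : Module.Finite K VU :=
    Submodule.finiteDimensional_of_le (inf_le_left : VU ≤ Fm K m)
  have h3 := LinearMap.finrank_range_add_finrank_ker ((Psi_7345 c).domRestrict VU)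
  have hVV : VU ⊓ LinearMap.ker (Psi_7345 c) = VJ := by
    ext p
    constructor
    · rintro ⟨⟨hp1, hp2⟩, hp3⟩
      refine ⟨hp1, ?_⟩
      have hp4 := hle hp2
      refine ⟨?_, hp4.2⟩
      have hA : ∀ j, p ∈ Lam (c.A j) := fun j => (Submodule.mem_iInf _).mp hp4.1 j
      show p ∈ ⨅ j, Qd (c.A j) (c.G j)
      rw [Submodule.mem_iInf]
      intro j
      exact ⟨hA j, congrFun hp3 j⟩
    · rintro ⟨hp1, hp2⟩
      refine ⟨⟨hp1, hJ p hp1 hp2⟩, ?_⟩
      funext j
      have h5 : p ∈ ⨅ j, Qd (c.A j) (c.G j) := hp2.1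
      exact ((Submodule.mem_iInf _).mp h5 j).2
  have h4 : Module.finrank K (LinearMap.ker ((Psi_7345 c).domRestrict VU)) =
      Module.finrank K VJ := by
    rw [← hVV, ← Submodule.map_comap_subtype, Submodule.finrank_map_subtype_eq]
    rfl
  rw [h4, LinearMap.range_domRestrict] at h3
  omega

theorem Psi_smul_7345 {J M : Type} {c : Cfg K J M} {p : Pl K} (hp : p ∈ c.GA) (g : P2 K) (j : J) :
    Psi_7345 c (ι2 K g * p) j = g * Psi_7345 c p j := by
  have hA : p ∈ Lam (c.A j) := (Submodule.mem_iInf _).mp hp j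
  have h0 : res (c.A j) p = 0 := hA
  rw [Psi_apply_7345, Psi_apply_7345, dG_mul, h0, mul_zero, add_zero, res_ι2]

/-- submodules of the nilradical -/
theorem _root_.Pool.Agent.Helper947.Crv.nil_bound {J M : Type} [Fintype J] [Fintype M] {c : Cfg K J M} {e : ℕ}
    (hG : ∀ j a, c.G j a ∈ homogeneousSubmodule (Fin 2) K e) {U : Ideal (Pl K)} (hU : Hom U)
    (hle : U ≤ c.GA ⊓ c.GB) (hJ : ∀ᶠ m in atTop, ∀ p ∈ Fm K m, p ∈ c.J0 → p ∈ U) :
    ∃ ρ : ℕ, ρ ≤ Fintype.card J ∧ (∀ᶠ m in atTop, hf c.J0 m ≤ hf U m + ρ * (m + e)) ∧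
      (∃ C, ∀ᶠ m in atTop, hf U m + ρ * m ≤ hf c.J0 m + C) ∧
      (ρ = Fintype.card J → ∀ j, ∃ d, ∃ p ∈ U, p ∈ Fm K d ∧ dG (c.A j) (c.G j) p ≠ 0) := by
  classical
  let F := FractionRing (P2 K)
  let s : Set (J → F) := {v | ∃ d, ∃ p ∈ U, p ∈ Fm K d ∧
    v = fun j => algebraMap (P2 K) F (dG (c.A j) (c.G j) p)}
  let 𝒱 : Submodule F (J → F) := Submodule.span F s
  have hinj : Function.Injective (algebraMap (P2 K) F) := IsFractionRing.injective (P2 K) F
  refine ⟨Module.finrank F 𝒱, ?_, ?_, ?_, ?_⟩
  · refine (Submodule.finrank_le 𝒱).trans (le_of_eq ?_)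
    exact Module.finrank_fintype_fun_eq_card F
  · -- upper bound
    obtain ⟨κ, a, hainj, haspan, hali⟩ := exists_linearIndependent' F
      (fun j : J => ((LinearMap.proj j : (J → F) →ₗ[F] F).domRestrict 𝒱 : Module.Dual F 𝒱))
    have : Finite κ := Finite.of_injective a hainj
    have : Fintype κ := Fintype.ofFinite κ
    have hκ : Fintype.card κ ≤ Module.finrank F 𝒱 := by
      have h1 := hali.fintype_card_le_finrank
      rwa [Subspace.dual_finrank_eq] at h1
    have hker : ∀ v ∈ 𝒱, (∀ k, v (a k) = 0) → ∀ j, v j = 0 := by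
      intro v hv hk j
      let ev : Module.Dual F (Module.Dual F 𝒱) := Module.Dual.eval F 𝒱 ⟨v, hv⟩
      have h1 : Submodule.span F (Set.range
          (fun j : J => ((LinearMap.proj j : (J → F) →ₗ[F] F).domRestrict 𝒱 :
            Module.Dual F 𝒱))) ≤ LinearMap.ker ev := by
        rw [← haspan, Submodule.span_le]
        rintro _ ⟨k, rfl⟩
        exact hk k
      exact h1 (Submodule.subset_span ⟨j, rfl⟩)
    filter_upwards [hJ, eventually_ge_atTop 1] with m hm hm1
    rw [hf_diff_7345 hle hm]
    apply Nat.add_le_add_left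
    set R : Submodule K (J → P2 K) := Submodule.map (Psi_7345 c)
      (Fm K m ⊓ U.restrictScalars K : Submodule K (Pl K)) with hR
    have hRh : ∀ y ∈ R, ∀ j, y j ∈ homogeneousSubmodule (Fin 2) K (m - 1 + e) := by
      rintro _ ⟨p, ⟨hp1, -⟩, rfl⟩ j
      exact dG_hom_7345 _ (hG j) hp1
    let T : R →ₗ[K] (κ → homogeneousSubmodule (Fin 2) K (m - 1 + e)) :=
      LinearMap.pi (fun k => LinearMap.codRestrict _
        ((LinearMap.proj (a k) : (J → P2 K) →ₗ[K] P2 K) ∘ₗ R.subtype)
        (fun y => hRh y.1 y.2 (a k)))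
    have hTa : ∀ (y : R) k, ((T y k : homogeneousSubmodule (Fin 2) K (m - 1 + e)) : P2 K) =
      (y : J → P2 K) (a k) := fun y k => rfl
    have hTinj : Function.Injective T := by
      rw [← LinearMap.ker_eq_bot, LinearMap.ker_eq_bot']
      rintro ⟨y, hy⟩ hT0
      obtain ⟨p, ⟨hp1, hp2⟩, rfl⟩ := hy
      apply Subtype.ext
      funext j
      have hv : (fun j => algebraMap (P2 K) F (dG (c.A j) (c.G j) p)) ∈ 𝒱 :=
        Submodule.subset_span ⟨m, p, hp2, hp1, rfl⟩
      have h1 := hker _ hv (fun k => by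
        have h2 := hTa ⟨Psi_7345 c p, ⟨p, ⟨hp1, hp2⟩, rfl⟩⟩ k
        rw [hT0] at h2
        have h3 : dG (c.A (a k)) (c.G (a k)) p = 0 := h2.symm
        show algebraMap (P2 K) F (dG (c.A (a k)) (c.G (a k)) p) = 0
        rw [h3, map_zero]) j
      have h4 : algebraMap (P2 K) F (dG (c.A j) (c.G j) p) = 0 := h1
      exact (map_eq_zero_iff _ hinj).mp h4
    have := finFm_7345 (K := K) (σ := Fin 2) (m - 1 + e)
    have h5 := LinearMap.finrank_le_finrank_of_injective hTinj
    rw [Module.finrank_pi_fintype] at h5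
    simp only [finrank_P2_7345, Finset.sum_const, Finset.card_univ, smul_eq_mul] at h5
    calc Module.finrank K R ≤ Fintype.card κ * (m - 1 + e + 1) := h5
      _ = Fintype.card κ * (m + e) := by congr 1; omega
      _ ≤ Module.finrank F 𝒱 * (m + e) := Nat.mul_le_mul_right _ hκ
  · -- lower bound
    obtain ⟨b, hbs, hbspan, hbli⟩ := exists_linearIndependent F s
    have hbfin : b.Finite := hbli.setFinite
    have : Fintype b := hbfin.fintype
    have hbcard : Fintype.card b = Module.finrank F 𝒱 := by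
      show Fintype.card b = Module.finrank F (Submodule.span F s)
      rw [← hbspan, finrank_span_set_eq_card hbli, Set.toFinset_card]
    have hch : ∀ v : b, ∃ d, ∃ p ∈ U, p ∈ Fm K d ∧
        (v : J → F) = fun j => algebraMap (P2 K) F (dG (c.A j) (c.G j) p) := fun v => hbs v.2
    choose d p hpU hpF hpv using hch
    let D : ℕ := ∑ v, d v
    have hdD : ∀ v, d v ≤ D := fun v =>
      Finset.single_le_sum (f := d) (fun _ _ => Nat.zero_le _) (Finset.mem_univ v)
    refine ⟨Module.finrank F 𝒱 * D, ?_⟩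
    filter_upwards [hJ, eventually_ge_atTop D] with m hm hmD
    rw [hf_diff_7345 hle hm, add_assoc]
    apply Nat.add_le_add_left
    set R : Submodule K (J → P2 K) := Submodule.map (Psi_7345 c)
      (Fm K m ⊓ U.restrictScalars K : Submodule K (Pl K)) with hR
    have := finFm_7345 (K := K) (σ := Fin 4) m
    have hfinU : Module.Finite K (Fm K m ⊓ U.restrictScalars K : Submodule K (Pl K)) :=
      Submodule.finiteDimensional_of_le inf_le_left
    have hfinR : Module.Finite K R := by
      rw [hR]; infer_instance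
    let Θ : (∀ v : b, homogeneousSubmodule (Fin 2) K (m - d v)) →ₗ[K] (J → P2 K) :=
      { toFun := fun g => fun j => ∑ v, (g v : P2 K) * dG (c.A j) (c.G j) (p v)
        map_add' := by
          intro g g'
          funext j
          simp only [Pi.add_apply, Submodule.coe_add, add_mul, Finset.sum_add_distrib]
        map_smul' := by
          intro r g
          funext j
          simp only [Pi.smul_apply, Submodule.coe_smul, smul_mul_assoc, RingHom.id_apply,
            Finset.smul_sum] }
    have hΘa : ∀ g j, Θ g j = ∑ v, (g v : P2 K) * dG (c.A j) (c.G j) (p v) := fun g j => rfl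
    have hΘR : ∀ g, Θ g ∈ R := by
      intro g
      refine ⟨∑ v, ι2 K (g v : P2 K) * p v, ⟨?_, ?_⟩, ?_⟩
      · apply Submodule.sum_mem
        intro v _
        have h1 := IsHomogeneous.mul (iota_hom_7345 (g v).2) (hpF v)
        have h2 : m - d v + d v = m := Nat.sub_add_cancel ((hdD v).trans hmD)
        rw [h2] at h1
        exact h1
      · show ∑ v, ι2 K (g v : P2 K) * p v ∈ U
        exact Ideal.sum_mem _ (fun v _ => Ideal.mul_mem_left _ _ (hpU v))
      · funext j
        rw [map_sum, Finset.sum_apply, hΘa]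
        apply Finset.sum_congr rfl
        intro v _
        exact Psi_smul_7345 (hle (hpU v)).1 _ j
    let Θ' : (∀ v : b, homogeneousSubmodule (Fin 2) K (m - d v)) →ₗ[K] R :=
      LinearMap.codRestrict R Θ hΘR
    have hΘinj : Function.Injective Θ' := by
      rw [← LinearMap.ker_eq_bot, LinearMap.ker_eq_bot']
      intro g hg
      have hg' : Θ g = 0 := congrArg Subtype.val hg
      have h1 : ∑ v : b, (algebraMap (P2 K) F (g v : P2 K)) • (v : J → F) = 0 := by
        funext j
        rw [Finset.sum_apply]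
        have h2 := congrFun hg' j
        rw [hΘa] at h2
        have h3 := congrArg (algebraMap (P2 K) F) h2
        rw [map_sum] at h3
        simp only [Pi.zero_apply, map_zero, map_mul] at h3
        rw [Pi.zero_apply, ← h3]
        apply Finset.sum_congr rfl
        intro v _
        rw [Pi.smul_apply, smul_eq_mul]
        congr 1
        exact congrFun (hpv v) j
      have h4 := Fintype.linearIndependent_iff.mp hbli _ h1
      funext v
      apply Subtype.ext
      exact (map_eq_zero_iff _ hinj).mp (h4 v)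
    have h5 := LinearMap.finrank_le_finrank_of_injective hΘinj
    have hff : ∀ v : b, Module.Finite K (homogeneousSubmodule (Fin 2) K (m - d v)) :=
      fun v => finFm_7345 (K := K) (σ := Fin 2) (m - d v)
    rw [Module.finrank_pi_fintype] at h5
    simp only [finrank_P2_7345] at h5
    have h6 : Fintype.card b * m ≤ ∑ v : b, (m - d v + 1) + Fintype.card b * D := by
      have h7 : ∑ v : b, m ≤ ∑ v : b, ((m - d v + 1) + D) := by
        apply Finset.sum_le_sum
        intro v _
        have := hdD v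
        omega
      rw [Finset.sum_const, Finset.card_univ, smul_eq_mul, Finset.sum_add_distrib,
        Finset.sum_const, Finset.card_univ, smul_eq_mul] at h7
      exact h7
    rw [hbcard] at h6
    omega
  · intro hρ j
    by_contra hcon
    push Not at hcon
    have h1 : 𝒱 ≤ LinearMap.ker (LinearMap.proj j : (J → F) →ₗ[F] F) := by
      refine Submodule.span_le.mpr ?_
      rintro _ ⟨d, p, hp1, hp2, rfl⟩
      show algebraMap (P2 K) F (dG (c.A j) (c.G j) p) = 0
      rw [hcon d p hp1 hp2, map_zero]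
    have h2 : 𝒱 = ⊤ := by
      apply Submodule.eq_top_of_finrank_eq
      rw [hρ, Module.finrank_fintype_fun_eq_card]
    have h3 : (Pi.single j (1 : F) : J → F) ∈ LinearMap.ker (LinearMap.proj j : (J → F) →ₗ[F] F) :=
      h1 (h2 ▸ Submodule.mem_top)
    have h4 : (Pi.single j (1 : F) : J → F) j = 0 := h3
    rw [Pi.single_eq_same] at h4
    exact one_ne_zero h4

end growth

end Pool.Agent.Helper947.Crv.LD3

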