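import Mathlib
import Pool.Agent.Helper947.Crv.Defs
import Pool.Agent.Helper947.Crv.A1
import Pool.Agent.Helper947.Crv.A2
import Pool.Agent.Helper947.Crv.A3
import Pool.Agent.Helper947.Crv.C1
import Pool.Agent.Helper947.Crv.C2
import Pool.Agent.Helper947.Crv.C3
import Pool.Agent.Helper947.Crv.C4
import Pool.Agent.Helper947.Crv.C5

open MvPolynomial Filter

namespace Pool.Agent.Helper947.Crv.LE1

section line

variable {K : Type*} [CommRing K]

end line

namespace Cfg

variable {K : Type*} [CommRing K] {J M : Type} (c : Cfg K J M)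

end Cfg

section defs2

variable {K : Type*} [Field K]

end defs2

section hilb

variable {K : Type*} [Field K] {I J N : Ideal (Pl K)}

end hilb

section lines

variable {K : Type*} [Field K]

end lines

section curve

variable {K : Type*} [Field K] {J M : Type} [Fintype J] [Fintype M] {c : Cfg K J M} {e : ℕ}
  {E : Finset (J × M)}

/-- Hilbert polynomial of the curve -/
theorem _root_.Pool.Agent.Helper947.Crv.hf_J0 (hc : c.Good e E) : ∀ᶠ m in atTop, hf c.J0 m + 2 * E.card =
    (2 * Fintype.card J + Fintype.card M) * m + Fintype.card J * (1 + e) + Fintype.card M := by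
  have hGD : Hom c.GD := Hom.iInf fun j => Qd_hom (c.A j) (hc.G_hom j)
  have hGB : Hom c.GB := Hom.iInf fun i => Lam_hom (c.B i)
  have hcard : Nat.card {p : J × M // (c.A p.1 - c.B p.2).det = 0} = E.card := by
    have e1 : {p : J × M // (c.A p.1 - c.B p.2).det = 0} ≃ {p : J × M // p ∈ E} :=
      Equiv.subtypeEquivRight fun p => hc.inc p.1 p.2
    rw [Nat.card_congr e1, Nat.card_eq_fintype_card, Fintype.card_coe]
  have hle : c.GA * c.GA ⊔ c.GB ≤ c.GD ⊔ c.GB := by
    refine sup_le_sup_right ?_ _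
    refine le_iInf fun j => ?_
    exact (Ideal.mul_mono (iInf_le _ j) (iInf_le _ j)).trans (Lam_sq_le (c.A j) (c.G j))
  filter_upwards [hf_skew_double c.A c.G hc.G_hom hc.G_cop hc.skewA, hf_skew c.B hc.skewB,
    le_hf_meet hc, hf_meet_le c.A c.B hc.skewA hc.skewB hc.ne] with m h1 h2 h3 h4
  have h5 := hf_inf_sup hGD hGB m
  have h6 : hf (c.GD ⊔ c.GB) m ≤ 2 * E.card := by
    rw [hcard] at h4
    exact (hf_anti hle m).trans h4
  have h1' : hf c.GD m = Fintype.card J * (2 * m + 1 + e) := h1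
  have h2' : hf c.GB m = Fintype.card M * (m + 1) := h2
  have h7 : hf (c.GD ⊔ c.GB) m = 2 * E.card := le_antisymm h6 h3
  rw [h7, h1', h2'] at h5
  have h8 : hf c.J0 m + 2 * E.card = Fintype.card J * (2 * m + 1 + e) + Fintype.card M * (m + 1) := h5
  rw [h8]
  ring

theorem _root_.Pool.Agent.Helper947.Crv.J0_hom (hc : c.Good e E) : Hom c.J0 :=
  Hom.inf (Hom.iInf fun j => Qd_hom (c.A j) (hc.G_hom j)) (Hom.iInf fun i => Lam_hom (c.B i))

theorem _root_.Pool.Agent.Helper947.Crv.J0_tf (c : Cfg K J M) : Tf c.J0 :=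
  Tf.inf (Tf.iInf fun j => Qd_tf (c.A j) (c.G j)) (Tf.iInf fun i => Lam_tf (c.B i))

theorem _root_.Pool.Agent.Helper947.Crv.J0_fin2 (c : Cfg K J M) : Fin2 c.J0 := by
  have h1 : Fin2 c.GD := Fin2.iInf fun j =>
    ((Lam_fin2 (c.A j)).mul (Lam_fin2 (c.A j))).mono (Lam_sq_le (c.A j) (c.G j))
  have h2 : Fin2 c.GB := Fin2.iInf fun i => Lam_fin2 (c.B i)
  exact (h1.mul h2).mono Ideal.mul_le_inf

end curve

end Pool.Agent.Helper947.Crv.LE1

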