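import Mathlib
import Pool.Agent.Helper947.Crv.Defs
import Pool.Agent.Helper947.Crv.A1
import Pool.Agent.Helper947.Crv.A2
import Pool.Agent.Helper947.Crv.B1
import Pool.Agent.Helper947.Crv.B2
import Pool.Agent.Helper947.Crv.B3
import Pool.Agent.Helper947.Crv.E1

open MvPolynomial Filter

namespace Pool.Agent.Helper947.Crv.LE2

section line

variable {K : Type*} [CommRing K]

end line

namespace Cfg

variable {K : Type*} [CommRing K] {J M : Type} (c : Cfg K J M)

end Cfg

section defs2

variable {K : Type*} [Field K]

end defs2

section hilb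

variable {K : Type*} [Field K] {I J N : Ideal (Pl K)}

end hilb

section redsec

variable {K : Type*} [Field K] (V : ValuationSubring K) {I J : Ideal (Pl K)}

end redsec

section lines

variable {K : Type*} [Field K]

end lines

section curve

variable {K : Type*} [Field K] {J M : Type} [Fintype J] [Fintype M] {c : Cfg K J M} {e : ℕ}
  {E : Finset (J × M)}

end curve

section steps

variable {K : Type*} [Field K] (V : ValuationSubring K) {J M : Type} [Fintype J] [Fintype M]
  {c : Cfg (IsLocalRing.ResidueField V) J M} {e : ℕ} {E : Finset (J × M)}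

/-- homogeneous component of a product -/
theorem hcomp_mul {σ R : Type*} [CommRing R] (k : ℕ) (p q : MvPolynomial σ R) :
    homogeneousComponent k (p * q) =
      ∑ x ∈ Finset.HasAntidiagonal.antidiagonal k, homogeneousComponent x.1 p * homogeneousComponent x.2 q := by
  classical
  induction p using MvPolynomial.induction_on' with
  | add p p' hp hp' =>
    rw [add_mul, map_add, hp, hp', ← Finset.sum_add_distrib]
    refine Finset.sum_congr rfl fun x _ => ?_
    rw [map_add, add_mul]
  | monomial u a =>
    induction q using MvPolynomial.induction_on' with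
    | add q q' hq hq' =>
      rw [mul_add, map_add, hq, hq', ← Finset.sum_add_distrib]
      refine Finset.sum_congr rfl fun x _ => ?_
      rw [map_add, mul_add]
    | monomial v b =>
      have h1 : ∀ m, homogeneousComponent m (monomial u a) =
          if m = u.degree then monomial u a else 0 := fun m =>
        homogeneousComponent_of_mem (isHomogeneous_monomial a rfl)
      have h2 : ∀ m, homogeneousComponent m (monomial v b) =
          if m = v.degree then monomial v b else 0 := fun m =>
        homogeneousComponent_of_mem (isHomogeneous_monomial b rfl)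
      have h3 : homogeneousComponent k (monomial u a * monomial v b) =
          if k = u.degree + v.degree then monomial u a * monomial v b else 0 :=
        homogeneousComponent_of_mem ((isHomogeneous_monomial a rfl).mul
          (isHomogeneous_monomial b rfl))
      rw [h3]
      split_ifs with hk
      · rw [Finset.sum_eq_single (u.degree, v.degree)]
        · rw [h1, h2, if_pos rfl, if_pos rfl]
        · intro x hx hne
          rw [h1, h2]
          by_cases hx1 : x.1 = u.degree
          · have hx2 : x.2 ≠ v.degree := fun h => hne (Prod.ext hx1 h)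
            rw [if_neg hx2, mul_zero]
          · rw [if_neg hx1, zero_mul]
        · intro h
          exact absurd (Finset.HasAntidiagonal.mem_antidiagonal.2 hk.symm) h
      · symm
        refine Finset.sum_eq_zero fun x hx => ?_
        rw [h1, h2]
        have hx' := Finset.HasAntidiagonal.mem_antidiagonal.1 hx
        by_cases hx1 : x.1 = u.degree
        · have hx2 : x.2 ≠ v.degree := fun h => hk (by rw [← hx', hx1, h])
          rw [if_neg hx2, mul_zero]
        · rw [if_neg hx1, zero_mul]

theorem ι2_inj {K : Type*} [CommRing K] : Function.Injective (ι2 K) :=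
  rename_injective _ (Fin.castLE_injective _)

theorem ι2_map {R S : Type*} [CommRing R] [CommRing S] (f : R →+* S) (g : P2 R) :
    MvPolynomial.map f (ι2 R g) = ι2 S (MvPolynomial.map f g) :=
  map_rename f _ g

theorem ι2_comp {K : Type*} [CommRing K] (m : ℕ) (g : P2 K) :
    homogeneousComponent m (ι2 K g) = ι2 K (homogeneousComponent m g) :=
  (rename_homogeneousComponent m g).symm

/-- the saturation of an ideal with respect to the polynomials in `z, w` -/
noncomputable def satI {K : Type*} [Field K] (I : Ideal (Pl K)) : Ideal (Pl K) where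
  carrier := {f | ∃ g : P2 K, g ≠ 0 ∧ ι2 K g * f ∈ I}
  add_mem' := by
    rintro a b ⟨g, hg, ha⟩ ⟨g', hg', hb⟩
    refine ⟨g * g', mul_ne_zero hg hg', ?_⟩
    have : ι2 K (g * g') * (a + b) = ι2 K g' * (ι2 K g * a) + ι2 K g * (ι2 K g' * b) := by
      rw [map_mul]; ring
    rw [this]
    exact I.add_mem (I.mul_mem_left _ ha) (I.mul_mem_left _ hb)
  zero_mem' := ⟨1, one_ne_zero, by simp⟩
  smul_mem' := by
    rintro c x ⟨g, hg, hx⟩
    refine ⟨g, hg, ?_⟩
    have : ι2 K g * (c • x) = c * (ι2 K g * x) := by
      rw [smul_eq_mul]; ring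
    rw [this]
    exact I.mul_mem_left _ hx

theorem mem_satI {K : Type*} [Field K] {I : Ideal (Pl K)} {f : Pl K} :
    f ∈ satI I ↔ ∃ g : P2 K, g ≠ 0 ∧ ι2 K g * f ∈ I := Iff.rfl

theorem satI_le {K : Type*} [Field K] (I : Ideal (Pl K)) : I ≤ satI I := fun f hf =>
  mem_satI.2 ⟨1, one_ne_zero, by simpa using hf⟩

theorem satI_tf {K : Type*} [Field K] (I : Ideal (Pl K)) : Tf (satI I) := by
  intro g hg f hf
  obtain ⟨g', hg', h⟩ := mem_satI.1 hf
  refine mem_satI.2 ⟨g' * g, mul_ne_zero hg' hg, ?_⟩
  rw [map_mul, mul_assoc]
  exact h

theorem exists_comp_ne {σ R : Type*} [CommRing R] {g : MvPolynomial σ R} (hg : g ≠ 0) :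
    ∃ d, homogeneousComponent d g ≠ 0 := by
  by_contra h
  push Not at h
  apply hg
  rw [← sum_homogeneousComponent g]
  exact Finset.sum_eq_zero fun i _ => h i

theorem satI_hom {K : Type*} [Field K] {I : Ideal (Pl K)} (hI : Hom I) : Hom (satI I) := by
  classical
  intro f hf
  obtain ⟨g, hg, h⟩ := mem_satI.1 hf
  obtain ⟨d, hd, hmin⟩ : ∃ d, homogeneousComponent d g ≠ 0 ∧
      ∀ i < d, homogeneousComponent i g = 0 := by
    have hex := exists_comp_ne hg
    exact ⟨Nat.find hex, Nat.find_spec hex, fun i hi => not_not.1 (Nat.find_min hex hi)⟩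
  have key : ∀ m, ι2 K (homogeneousComponent d g) ^ (m + 1) * homogeneousComponent m f ∈ I := by
    intro m
    induction m using Nat.strong_induction_on with
    | _ m ih =>
      have h1 : ι2 K (homogeneousComponent d g) ^ m *
          homogeneousComponent (d + m) (ι2 K g * f) ∈ I := I.mul_mem_left _ (hI _ h _)
      rw [hcomp_mul, Finset.mul_sum] at h1
      rw [← Ideal.Quotient.eq_zero_iff_mem, map_sum, Finset.sum_eq_single (d, m)] at h1
      · rw [← Ideal.Quotient.eq_zero_iff_mem, ← h1]
        congr 1
        rw [ι2_comp]
        ring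
      · intro x hx hne
        have hx' := Finset.HasAntidiagonal.mem_antidiagonal.1 hx
        rw [Ideal.Quotient.eq_zero_iff_mem]
        rcases lt_trichotomy x.1 d with hlt | heq | hgt
        · rw [ι2_comp, hmin _ hlt]
          simp
        · exact absurd (Prod.ext heq (by omega : x.2 = m)) hne
        · have hx2 : x.2 < m := by omega
          have h2 := ih x.2 hx2
          obtain ⟨r, hr⟩ := Nat.exists_eq_add_of_le (Nat.succ_le_of_lt hx2)
          have h3 : ι2 K (homogeneousComponent d g) ^ m *
              (homogeneousComponent x.1 (ι2 K g) * homogeneousComponent x.2 f) =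
              (ι2 K (homogeneousComponent d g) ^ r * homogeneousComponent x.1 (ι2 K g)) *
              (ι2 K (homogeneousComponent d g) ^ (x.2 + 1) * homogeneousComponent x.2 f) := by
            have h4 : m = (x.2 + 1) + r := by omega
            conv_lhs => rw [h4]
            rw [pow_add]
            ring
          rw [h3]
          exact I.mul_mem_left _ h2
      · intro hx
        exact absurd (by simp) hx
  intro m
  refine mem_satI.2 ⟨homogeneousComponent d g ^ (m + 1), pow_ne_zero _ hd, ?_⟩
  rw [map_pow]
  exact key m

/-- saturation -/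
theorem _root_.Pool.Agent.Helper947.Crv.step1 (hc : c.Good e E) {I : Ideal (Pl K)} (hI : Hom I)
    (h : ∀ᶠ m in atTop, ∀ p ∈ Fm _ m, p ∈ red V I ↔ p ∈ c.J0) :
    ∃ I' : Ideal (Pl K), Hom I' ∧ Tf I' ∧ Fin2 I' ∧ red V I' ≤ c.J0 ∧
      (∀ᶠ m in atTop, ∀ p ∈ Fm K m, p ∈ I' ↔ p ∈ I) ∧ ∀ᶠ m in atTop, hf I' m = hf c.J0 m := by
  classical
  have hIs := satI_hom hI
  have hle := satI_le I
  -- step 6
  have hred : red V (satI I) ≤ c.J0 := by
    have hhom : ∀ m, ∀ p ∈ Fm (IsLocalRing.ResidueField V) m, p ∈ red V (satI I) → p ∈ c.J0 := by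
      intro m p hpm hp
      obtain ⟨q, hqm, hqI, hqp⟩ := exists_hom_lift V hIs hp hpm
      obtain ⟨g, hg, hgI⟩ := mem_satI.1 hqI
      obtain ⟨a, ha⟩ := exists_comp_ne hg
      have hmq : MvPolynomial.map V.subtype q ∈ Fm K m :=
        IsHomogeneous.map (f := V.subtype) hqm
      have h1 : ι2 K (homogeneousComponent a g) * MvPolynomial.map V.subtype q ∈ I := by
        have h2 := hI _ hgI (a + m)
        rw [hcomp_mul, Finset.sum_eq_single (a, m)] at h2
        · rw [ι2_comp, homogeneousComponent_eq_self hmq] at h2
          exact h2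
        · intro x hx hne
          have hx' := Finset.HasAntidiagonal.mem_antidiagonal.1 hx
          have hx2 : x.2 ≠ m := fun h => hne (Prod.ext (by omega) h)
          rw [homogeneousComponent_of_mem (m := x.2) hmq, if_neg hx2, mul_zero]
        · intro hx
          exact absurd (by simp) hx
      obtain ⟨b, q', hb, hq', hq'0⟩ := exists_primitive V ha
      have hq'h : q'.IsHomogeneous a := by
        refine IsHomogeneous.of_map (f := V.subtype) (Subtype.val_injective) ?_
        rw [hq']
        exact (homogeneousComponent_isHomogeneous a g).C_mul b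
      set g' := MvPolynomial.map (IsLocalRing.residue V) q' with hg'
      have hg'h : g'.IsHomogeneous a := hq'h.map _
      have h3 : ι2 _ g' * p ∈ red V I := by
        refine (mem_red V).2 ⟨ι2 V q' * q, ?_, ?_⟩
        · rw [map_mul, ι2_map, hq']
          have : ι2 K (MvPolynomial.C b * homogeneousComponent a g) *
              MvPolynomial.map V.subtype q = ι2 K (MvPolynomial.C b) *
              (ι2 K (homogeneousComponent a g) * MvPolynomial.map V.subtype q) := by
            rw [map_mul]; ring
          rw [this]
          exact I.mul_mem_left _ h1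
        · rw [map_mul, ι2_map, hqp]
      obtain ⟨N, hN⟩ := eventually_atTop.1 h
      have h4 : ι2 (IsLocalRing.ResidueField V) ((X 0) ^ N * g') * p ∈ c.J0 := by
        refine (hN (N + (a + m)) (by omega) _ ?_).1 ?_
        · have e1 : (ι2 (IsLocalRing.ResidueField V) ((X 0) ^ N * g')).IsHomogeneous (N + a) := by
            refine IsHomogeneous.rename_isHomogeneous ?_
            have e2 := isHomogeneous_X_pow (R := IsLocalRing.ResidueField V) (0 : Fin 2) N
            exact e2.mul hg'h
          have e3 := e1.mul hpm
          rw [add_assoc] at e3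
          exact e3
        · rw [map_mul, mul_assoc]
          exact (red V I).mul_mem_left _ h3
      exact J0_tf c _ (mul_ne_zero (pow_ne_zero _ (X_ne_zero 0)) hq'0) _ h4
    intro p hp
    rw [← sum_homogeneousComponent p]
    refine Ideal.sum_mem _ fun m _ => ?_
    exact hhom m _ (homogeneousComponent_mem m p) (Hom.red V hIs p hp m)
  have hJ0 : ∀ᶠ m in atTop, hf c.J0 m = hf (red V I) m := by
    filter_upwards [h] with m hm
    have e : (c.J0.restrictScalars (IsLocalRing.ResidueField V)).comap
        (Fm (IsLocalRing.ResidueField V) m).subtype =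
        ((red V I).restrictScalars (IsLocalRing.ResidueField V)).comap
        (Fm (IsLocalRing.ResidueField V) m).subtype := by
      ext x
      exact (hm x.1 x.2).symm
    unfold hf Qm
    rw [e]
  have hchain : ∀ᶠ m in atTop, hf (satI I) m = hf c.J0 m ∧ hf I m ≤ hf (satI I) m := by
    filter_upwards [hJ0] with m hm
    have e1 := hf_red V hIs m
    have e2 := hf_anti hred m
    have e3 := hf_red V hI m
    have e4 := hf_anti hle m
    omega
  refine ⟨satI I, hIs, satI_tf I, ?_, hred, ?_, ?_⟩
  · refine fin2_of_red V hIs (J0_hom hc) (J0_fin2 c) ?_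
    filter_upwards [h] with m hm p hp hpJ
    exact red_mono V hle ((hm p hp).2 hpJ)
  · filter_upwards [hchain] with m hm p hp
    exact ⟨fun hpI => mem_of_hf_le hle hm.2 hp hpI, fun hpI => hle hpI⟩
  · filter_upwards [hchain] with m hm
    exact hm.1

end steps

end Pool.Agent.Helper947.Crv.LE2

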