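import Mathlib
import Pool.Agent.Helper947.Crv.Defs
import Pool.Agent.Helper947.Crv.A1
import Pool.Agent.Helper947.Crv.A2
import Pool.Agent.Helper947.Crv.A3
import Pool.Agent.Helper947.Crv.B1
import Pool.Agent.Helper947.Crv.B2
import Pool.Agent.Helper947.Crv.B3
import Pool.Agent.Helper947.Crv.C1
import Pool.Agent.Helper947.Crv.C2
import Pool.Agent.Helper947.Crv.D2
import Pool.Agent.Helper947.Crv.D3
import Pool.Agent.Helper947.Crv.E1

open MvPolynomial Filter

namespace Pool.Agent.Helper947.Crv.LE3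

section line

variable {K : Type*} [CommRing K]

end line

namespace Cfg

variable {K : Type*} [CommRing K] {J M : Type} (c : Cfg K J M)

end Cfg

section defs2

variable {K : Type*} [Field K]

end defs2

section hilb

variable {K : Type*} [Field K] {I J N : Ideal (Pl K)}

end hilb

section redsec

variable {K : Type*} [Field K] (V : ValuationSubring K) {I J : Ideal (Pl K)}

end redsec

section lines

variable {K : Type*} [Field K]

end lines

section growth

variable {K : Type*} [Field K]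

end growth

section curve

variable {K : Type*} [Field K] {J M : Type} [Fintype J] [Fintype M] {c : Cfg K J M} {e : ℕ}
  {E : Finset (J × M)}

end curve

theorem h_slope {A B C m0 : ℕ} (h : ∀ m ≥ m0, A * m ≤ B * m + C) : A ≤ B := by
  by_contra hcon
  push Not at hcon
  have h1 := h (m0 + C + 1) (by omega)
  have h2 : (B + 1) * (m0 + C + 1) ≤ A * (m0 + C + 1) := Nat.mul_le_mul_right _ hcon
  have h3 : (B + 1) * (m0 + C + 1) = B * (m0 + C + 1) + (m0 + C + 1) := by ring
  omega

theorem h_dG_X {K : Type*} [Field K] (C : Matrix (Fin 2) (Fin 2) K) (G : Fin 2 → P2 K) (k : ℕ) (p : Pl K)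
    (h : dG C G p ≠ 0) : dG C G (X 0 ^ k * p) ≠ 0 := by
  have h0 : dG C G (X 0 ^ k) = 0 := by
    unfold dG
    have e1 : pderiv 2 ((X 0 : Pl K) ^ k) = 0 := by
      rw [Derivation.leibniz_pow, pderiv_X_of_ne (by decide)]; simp
    have e2 : pderiv 3 ((X 0 : Pl K) ^ k) = 0 := by
      rw [Derivation.leibniz_pow, pderiv_X_of_ne (by decide)]; simp
    rw [e1, e2]; simp
  rw [dG_mul, h0, zero_mul, add_zero]
  apply mul_ne_zero _ h
  rw [map_pow]
  apply pow_ne_zero
  unfold res
  rw [aeval_X]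
  exact X_ne_zero 0

/-- `dG` as a linear map -/
noncomputable def h_dGL {K : Type*} [Field K] (C : Matrix (Fin 2) (Fin 2) K) (G : Fin 2 → P2 K) :
    Pl K →ₗ[K] P2 K where
  toFun := dG C G
  map_add' := dG_add C G
  map_smul' := by
    intro c p
    have e1 : pderiv 2 (c • p) = c • pderiv 2 p := (pderiv 2).map_smul c p
    have e2 : pderiv 3 (c • p) = c • pderiv 3 p := (pderiv 3).map_smul c p
    have e3 : ∀ q : Pl K, res C (c • q) = c • res C q := fun q => map_smul (res C) c q
    show res C (pderiv 2 (c • p)) * G 0 + res C (pderiv 3 (c • p)) * G 1 =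
      c • (res C (pderiv 2 p) * G 0 + res C (pderiv 3 p) * G 1)
    rw [e1, e2, e3, e3, smul_mul_assoc, smul_mul_assoc, smul_add]

section steps

variable {K : Type*} [Field K] (V : ValuationSubring K) {J M : Type} [Fintype J] [Fintype M]
  {c : Cfg (IsLocalRing.ResidueField V) J M} {e : ℕ} {E : Finset (J × M)}

/-- the radical -/
theorem _root_.Pool.Agent.Helper947.Crv.step2 [IsAlgClosed K] (hc : c.Good e E) (he : 2 * E.card + 1 < e) {I : Ideal (Pl K)}
    (hI : Hom I) (tf : Tf I) (h2 : Fin2 I) (hred : red V I ≤ c.J0)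
    (hhf : ∀ᶠ m in atTop, hf I m = hf c.J0 m) :
    (∀ m, hf I.radical m ≤ (Fintype.card J + Fintype.card M) * (m + 1)) ∧
    (∀ᶠ m in atTop, hf I m ≤ hf I.radical m + Fintype.card J * (m + e)) ∧
    ∃ d, ∃ q ∈ Fm V d, MvPolynomial.map V.subtype q ∈ I.radical ∧
      ∀ j, dG (c.A j) (c.G j) (MvPolynomial.map (IsLocalRing.residue V) q) ≠ 0 := by
  obtain ⟨N, hN⟩ : ∃ N, N = I.radical := ⟨_, rfl⟩
  rw [← hN]
  have homN : Hom N := by rw [hN]; exact hI.radical
  have tfN : Tf N := by rw [hN]; exact tf.radical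
  have f2N : Fin2 N := by rw [hN]; exact h2.mono Ideal.le_radical
  have radN : N.IsRadical := by rw [hN]; exact Ideal.radical_isRadical I
  have hIN : I ≤ N := by rw [hN]; exact Ideal.le_radical
  obtain ⟨r, r1, ⟨C, r2⟩, -⟩ := radical_bound radN homN tfN f2N
  obtain ⟨U, hU⟩ : ∃ U, U = red V N := ⟨_, rfl⟩
  have homU : Hom U := by rw [hU]; exact Hom.red V homN
  have hJA : ∀ j, c.J0 ≤ Lam (c.A j) := fun j =>
    (inf_le_left.trans (iInf_le _ j)).trans (Qd_le _ _)
  have hJB : ∀ i, c.J0 ≤ Lam (c.B i) := fun i => inf_le_right.trans (iInf_le _ i)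
  have hle : U ≤ c.GA ⊓ c.GB := by
    rw [hU, hN]
    apply le_inf
    · exact le_iInf fun j => red_radical_le V (Lam_prime _) (hred.trans (hJA j))
    · exact le_iInf fun i => red_radical_le V (Lam_prime _) (hred.trans (hJB i))
  have hJ : ∀ᶠ m in atTop, ∀ p ∈ Fm _ m, p ∈ c.J0 → p ∈ U := by
    filter_upwards [hhf] with m hm p hp hpJ
    have h1 : p ∈ red V I := mem_of_hf_le hred (by rw [hf_red V hI]; exact hm.le) hp hpJ
    rw [hU]
    exact red_mono V hIN h1
  obtain ⟨ρ, ρ1, ρ2, ⟨C', ρ3⟩, ρ4⟩ := nil_bound hc.G_hom homU hle hJ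
  have hUN : ∀ m, hf U m = hf N m := fun m => by rw [hU]; exact hf_red V homN m
  obtain ⟨m0, hm0⟩ := eventually_atTop.mp (ρ2.and (ρ3.and (hf_J0 hc)))
  obtain ⟨a, ha⟩ : ∃ a, a = Fintype.card J := ⟨_, rfl⟩
  obtain ⟨b, hb⟩ : ∃ b, b = Fintype.card M := ⟨_, rfl⟩
  obtain ⟨ε, hε⟩ : ∃ ε, ε = E.card := ⟨_, rfl⟩
  rw [← ha] at ρ1
  rw [← hε] at he
  have s1 : r + ρ ≤ 2 * a + b := by
    apply h_slope (m0 := m0) (C := a * (1 + e) + b + C' + C)
    intro m hm
    obtain ⟨q1, q2, q3⟩ := hm0 m hm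
    rw [← ha, ← hb, ← hε] at q3
    rw [hUN] at q1 q2
    have q4 := r2 m
    have e1 : (r + ρ) * m = r * m + ρ * m := by ring
    omega
  have s2 : 2 * a + b ≤ r + ρ := by
    apply h_slope (m0 := m0) (C := r + ρ * e + 2 * ε)
    intro m hm
    obtain ⟨q1, q2, q3⟩ := hm0 m hm
    rw [← ha, ← hb, ← hε] at q3
    rw [hUN] at q1 q2
    have q4 := r1 m
    have e1 : (r + ρ) * m = r * m + ρ * m := by ring
    have e2 : r * (m + 1) = r * m + r := by ring
    have e3 : ρ * (m + e) = ρ * m + ρ * e := by ring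
    omega
  have s3 : r + ρ = 2 * a + b := le_antisymm s1 s2
  have s4 : ρ = a := by
    obtain ⟨q1, q2, q3⟩ := hm0 m0 le_rfl
    rw [← ha, ← hb, ← hε] at q3
    rw [hUN] at q1 q2
    have q4 := r1 m0
    have e2 : r * (m0 + 1) = r * m0 + r := by ring
    have e3 : ρ * (m0 + e) = ρ * m0 + ρ * e := by ring
    have e4 : (2 * a + b) * m0 = r * m0 + ρ * m0 := by rw [← s3]; ring
    have e5 : a * (1 + e) = a + a * e := by ring
    -- a + a e + b ≤ r + ρ e + 2 ε
    have k1 : a + a * e + b ≤ r + ρ * e + 2 * ε := by omega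
    by_contra hne
    have hlt : ρ + 1 ≤ a := by omega
    obtain ⟨δ, hδ⟩ := Nat.exists_eq_add_of_le hlt
    have e6 : a * e = ρ * e + e + δ * e := by rw [hδ]; ring
    have e7 : δ ≤ δ * e := Nat.le_mul_of_pos_right δ (by omega)
    omega
  have s5 : r = a + b := by omega
  rw [← ha, ← hb]
  refine ⟨?_, ?_, ?_⟩
  · intro m
    rw [← s5]
    exact r1 m
  · filter_upwards [ρ2, hhf] with m q1 q2
    rw [q2, ← hUN m, ← s4]
    exact q1
  · choose d p hp using ρ4 (s4.trans ha)
    obtain ⟨D, hD⟩ : ∃ D, ∀ j, d j ≤ D := ⟨Finset.univ.sup d, fun j => Finset.le_sup (Finset.mem_univ j)⟩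
    let W : Submodule (IsLocalRing.ResidueField V) (Pl (IsLocalRing.ResidueField V)) :=
      (U.restrictScalars (IsLocalRing.ResidueField V)) ⊓ Fm (IsLocalRing.ResidueField V) D
    have : IsAlgClosed (IsLocalRing.ResidueField V) := residue_algClosed V
    have : Infinite (IsLocalRing.ResidueField V) := inferInstance
    let S : J → Submodule (IsLocalRing.ResidueField V) W := fun j =>
      LinearMap.ker ((h_dGL (c.A j) (c.G j)).comp W.subtype)
    have hS : ∀ j, S j ≠ ⊤ := by
      intro j htop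
      have hq : (X 0 ^ (D - d j) * p j : Pl (IsLocalRing.ResidueField V)) ∈ W := by
        refine ⟨?_, ?_⟩
        · exact U.mul_mem_left _ (hp j).1
        · have h1 : ((X 0 : Pl (IsLocalRing.ResidueField V)) ^ (D - d j)).IsHomogeneous (D - d j) := by
            have := (isHomogeneous_X (IsLocalRing.ResidueField V) (0 : Fin 4)).pow (D - d j)
            rwa [one_mul] at this
          have h2 := h1.mul ((mem_homogeneousSubmodule _ _).mp (hp j).2.1)
          rw [Nat.sub_add_cancel (hD j)] at h2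
          exact (mem_homogeneousSubmodule _ _).mpr h2
      have h3 : (⟨_, hq⟩ : W) ∈ S j := by rw [htop]; exact Submodule.mem_top
      have h4 : dG (c.A j) (c.G j) (X 0 ^ (D - d j) * p j) = 0 := LinearMap.mem_ker.mp h3
      exact h_dG_X _ _ _ _ (hp j).2.2 h4
    obtain ⟨w, hw⟩ : ∃ w : W, ∀ j, w ∉ S j := by
      by_contra hcon
      push Not at hcon
      have hcov : ⋃ j, (S j : Set W) = Set.univ := by
        rw [Set.eq_univ_iff_forall]
        intro w
        obtain ⟨j, hj⟩ := hcon w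
        exact Set.mem_iUnion.mpr ⟨j, hj⟩
      obtain ⟨j, hj⟩ := Subspace.exists_eq_top_of_iUnion_eq_univ hcov
      exact hS j hj
    have hwU : (w : Pl (IsLocalRing.ResidueField V)) ∈ red V N := hU ▸ w.2.1
    obtain ⟨q, hq1, hq2, hq3⟩ := exists_hom_lift V homN hwU w.2.2
    refine ⟨D, q, hq1, hq2, ?_⟩
    intro j
    rw [hq3]
    intro h4
    exact hw j (LinearMap.mem_ker.mpr h4)

end steps

end Pool.Agent.Helper947.Crv.LE3

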