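import Mathlib
import Pool.Agent.Helper947.Crv.Defs
import Pool.Agent.Helper947.Crv.B3
import Pool.Agent.Helper947.Crv.C1

open MvPolynomial Filter

namespace Pool.Agent.Helper947.Crv.LE4

section line

variable {K : Type*} [CommRing K]

end line

namespace Cfg

variable {K : Type*} [CommRing K] {J M : Type} (c : Cfg K J M)

end Cfg

section defs2

variable {K : Type*} [Field K]

end defs2

section redsec

variable {K : Type*} [Field K] (V : ValuationSubring K) {I J : Ideal (Pl K)}

end redsec

section lines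

variable {K : Type*} [Field K]

end lines

section steps

variable {K : Type*} [Field K] (V : ValuationSubring K) {J M : Type} [Fintype J] [Fintype M]
  {c : Cfg (IsLocalRing.ResidueField V) J M} {e : ℕ} {E : Finset (J × M)}

omit [Fintype J] [Fintype M] in
theorem map_row_7349 {R S : Type*} [CommRing R] [CommRing S] (f : R →+* S)
    (C : Matrix (Fin 2) (Fin 2) R) (a : Fin 2) :
    MvPolynomial.map f (row C a) = row (C.map f) a := by
  simp [row]

/-- linear form vanishing on the line -/
noncomputable def lf_7349 {R : Type*} [CommRing R] (C : Matrix (Fin 2) (Fin 2) R) (μ : R) : Pl R :=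
  (X 2 - ι2 R (row C 0)) + MvPolynomial.C μ * (X 3 - ι2 R (row C 1))

theorem map_lf_7349 {R S : Type*} [CommRing R] [CommRing S] (f : R →+* S)
    (C : Matrix (Fin 2) (Fin 2) R) (μ : R) :
    MvPolynomial.map f (lf_7349 C μ) = lf_7349 (C.map f) (f μ) := by
  unfold lf_7349 ι2
  simp only [map_add, map_sub, map_mul, MvPolynomial.map_X, MvPolynomial.map_C,
    MvPolynomial.map_rename, map_row_7349]

theorem lf_hom_7349 {R : Type*} [CommRing R] (C : Matrix (Fin 2) (Fin 2) R) (μ : R) :
    (lf_7349 C μ).IsHomogeneous 1 := by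
  have hr : ∀ a, (row C a).IsHomogeneous 1 := fun a =>
    (isHomogeneous_C_mul_X _ _).add (isHomogeneous_C_mul_X _ _)
  have hι : ∀ a, (ι2 R (row C a)).IsHomogeneous 1 := fun a => (hr a).rename_isHomogeneous
  have h2 : ((X 3 : Pl R) - ι2 R (row C 1)).IsHomogeneous 1 := (isHomogeneous_X _ _).sub (hι 1)
  have h3 := (isHomogeneous_C (Fin 4) μ).mul h2
  rw [zero_add] at h3
  exact ((isHomogeneous_X _ _).sub (hι 0)).add h3

theorem res_lf_7349 {K : Type*} [Field K] (B C : Matrix (Fin 2) (Fin 2) K) (μ : K) :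
    res B (lf_7349 C μ) = (row B 0 - row C 0) + MvPolynomial.C μ * (row B 1 - row C 1) := by
  unfold lf_7349
  rw [map_add, map_mul, map_sub, map_sub, res_ι2, res_ι2]
  have h1 : res B (X 2) = row B 0 := by simp [res]
  have h2 : res B (X 3) = row B 1 := by simp [res]
  have h3 : res B (MvPolynomial.C μ) = MvPolynomial.C μ := by
    simp [res, MvPolynomial.algebraMap_eq]
  rw [h1, h2, h3]

/-- avoiding lines -/
theorem _root_.Pool.Agent.Helper947.Crv.avoid [IsAlgClosed K] {ι κ : Type} [Fintype ι] [Fintype κ]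
    (A : ι → Matrix (Fin 2) (Fin 2) V)
    (B : κ → Matrix (Fin 2) (Fin 2) (IsLocalRing.ResidueField V))
    (h : ∀ j i, (A j).map (IsLocalRing.residue V) ≠ B i) :
    ∃ d, ∃ a ∈ Fm V d, MvPolynomial.map V.subtype a ∈ ⨅ j, Lam ((A j).map V.subtype) ∧
      ∀ i, res (B i) (MvPolynomial.map (IsLocalRing.residue V) a) ≠ 0 := by
  classical
  haveI := residue_algClosed V (K := K)
  haveI : Infinite (IsLocalRing.ResidueField V) := IsAlgClosed.instInfinite
  let D : ι × κ → Matrix (Fin 2) (Fin 2) (IsLocalRing.ResidueField V) := fun p =>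
    B p.2 - (A p.1).map (IsLocalRing.residue V)
  have hbad : ∀ p : ι × κ, {μ : IsLocalRing.ResidueField V |
      D p 0 0 + μ * D p 1 0 = 0 ∧ D p 0 1 + μ * D p 1 1 = 0}.Finite := by
    intro p
    refine Set.Subsingleton.finite ?_
    rintro μ ⟨h1, h2⟩ ν ⟨h3, h4⟩
    by_contra hne
    have hne' : μ - ν ≠ 0 := sub_ne_zero.2 hne
    have e1 : D p 1 0 = 0 := by
      have : (μ - ν) * D p 1 0 = 0 := by linear_combination h1 - h3
      exact (mul_eq_zero.1 this).resolve_left hne'
    have e2 : D p 1 1 = 0 := by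
      have : (μ - ν) * D p 1 1 = 0 := by linear_combination h2 - h4
      exact (mul_eq_zero.1 this).resolve_left hne'
    have e3 : D p 0 0 = 0 := by simpa [e1] using h1
    have e4 : D p 0 1 = 0 := by simpa [e2] using h2
    apply h p.1 p.2
    have hD : D p = 0 := by
      ext a b
      fin_cases a <;> fin_cases b
      · exact e3
      · exact e4
      · exact e1
      · exact e2
    exact (sub_eq_zero.1 hD).symm
  obtain ⟨μ, hμ⟩ := (Set.finite_iUnion hbad).exists_notMem
  obtain ⟨l, hl⟩ := IsLocalRing.residue_surjective μ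
  refine ⟨Fintype.card ι, ∏ j, lf_7349 (A j) l, ?_, ?_, ?_⟩
  · have := MvPolynomial.IsHomogeneous.prod (Finset.univ : Finset ι) (fun j => lf_7349 (A j) l)
      (fun _ => 1) (fun j _ => lf_hom_7349 (A j) l)
    simpa using this
  · rw [Ideal.mem_iInf]
    intro j
    rw [map_prod]
    show _ ∈ RingHom.ker _
    rw [RingHom.mem_ker, map_prod]
    refine Finset.prod_eq_zero (Finset.mem_univ j) ?_
    rw [map_lf_7349, res_lf_7349]
    simp
  · intro i
    rw [map_prod, map_prod, Finset.prod_ne_zero_iff]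
    intro j _ hz
    rw [map_lf_7349, hl, res_lf_7349] at hz
    apply hμ
    refine Set.mem_iUnion.2 ⟨(j, i), ?_⟩
    have z0 := congrArg (eval ![1, 0]) hz
    have z1 := congrArg (eval ![0, 1]) hz
    simp [row] at z0 z1
    exact ⟨by simpa [D] using z0, by simpa [D] using z1⟩

end steps

end Pool.Agent.Helper947.Crv.LE4

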