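import Mathlib
import Pool.Agent.Helper947.Crv.Defs
import Pool.Agent.Helper947.Crv.A1
import Pool.Agent.Helper947.Crv.A2
import Pool.Agent.Helper947.Crv.A3
import Pool.Agent.Helper947.Crv.A4
import Pool.Agent.Helper947.Crv.B1
import Pool.Agent.Helper947.Crv.B2
import Pool.Agent.Helper947.Crv.C1
import Pool.Agent.Helper947.Crv.C3
import Pool.Agent.Helper947.Crv.D2

open MvPolynomial Filter

namespace Pool.Agent.Helper947.Crv.LE5

section line

variable {K : Type*} [CommRing K]

end line

namespace Cfg

variable {K : Type*} [CommRing K] {J M : Type} (c : Cfg K J M)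

end Cfg

section defs2

variable {K : Type*} [Field K]

end defs2

section hilb

variable {K : Type*} [Field K] {I J N : Ideal (Pl K)}

end hilb

section redsec

variable {K : Type*} [Field K] (V : ValuationSubring K) {I J : Ideal (Pl K)}

end redsec

section lines

variable {K : Type*} [Field K]

end lines

section growth

variable {K : Type*} [Field K]

end growth

section steps

variable {K : Type*} [Field K] (V : ValuationSubring K) {J M : Type} [Fintype J] [Fintype M]
  {c : Cfg (IsLocalRing.ResidueField V) J M} {e : ℕ} {E : Finset (J × M)}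

theorem lor_eval_res {R : Type*} [CommRing R] (C : Matrix (Fin 2) (Fin 2) R) (t : Fin 2 → R)
    (p : Fin 4 → R) (h0 : p 0 = t 0) (h1 : p 1 = t 1) (h2 : p 2 = C 0 0 * t 0 + C 0 1 * t 1)
    (h3 : p 3 = C 1 0 * t 0 + C 1 1 * t 1) (f : Pl R) : eval t (res C f) = eval p f := by
  have h : (eval t).comp (res C).toRingHom = eval p := by
    apply MvPolynomial.ringHom_ext
    · intro r
      simp [res]
    · intro i
      fin_cases i
      · simp [res, h0]
      · simp [res, h1]
      · simp [res, row, h2]
      · simp [res, row, h3]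
  exact RingHom.congr_fun h f

theorem lor_res_map {R S : Type*} [CommRing R] [CommRing S] (φ : R →+* S)
    (A : Matrix (Fin 2) (Fin 2) R) (q : Pl R) :
    res (A.map φ) (MvPolynomial.map φ q) = MvPolynomial.map φ (res A q) := by
  have h : (res (A.map φ)).toRingHom.comp (MvPolynomial.map φ)
      = (MvPolynomial.map φ).comp (res A).toRingHom := by
    apply MvPolynomial.ringHom_ext
    · intro r
      simp [res]
    · intro i
      fin_cases i
      · simp [res]
      · simp [res]
      · simp [res, row]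
      · simp [res, row]
  exact RingHom.congr_fun h q

theorem lor_red_le (A : Matrix (Fin 2) (Fin 2) V) :
    red V (Lam (A.map V.subtype)) ≤ Lam (A.map (IsLocalRing.residue V)) := by
  intro f hf'
  obtain ⟨q, hq, rfl⟩ := (mem_red V).mp hf'
  have h1 : res (A.map V.subtype) (MvPolynomial.map V.subtype q) = 0 := hq
  rw [lor_res_map] at h1
  have h2 : res A q = 0 := by
    apply MvPolynomial.map_injective V.subtype Subtype.val_injective
    rw [h1, map_zero]
  show res (A.map (IsLocalRing.residue V)) (MvPolynomial.map (IsLocalRing.residue V) q) = 0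
  rw [lor_res_map, h2, map_zero]

theorem lor_vanish (D : Matrix (Fin 2) (Fin 2) K) (p : Fin 4 → V)
    (h2 : (p 2 : K) = D 0 0 * (p 0 : K) + D 0 1 * (p 1 : K))
    (h3 : (p 3 : K) = D 1 0 * (p 0 : K) + D 1 1 * (p 1 : K))
    {f : Pl (IsLocalRing.ResidueField V)} (hf' : f ∈ red V (Lam D)) :
    eval (fun i => IsLocalRing.residue V (p i)) f = 0 := by
  obtain ⟨q, hq, rfl⟩ := (mem_red V).mp hf'
  have h4 : res D (MvPolynomial.map V.subtype q) = 0 := hq
  have h5 := lor_eval_res D ![(p 0 : K), (p 1 : K)] (fun i => (p i : K)) rfl rfl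
    (by simpa using h2) (by simpa using h3) (MvPolynomial.map V.subtype q)
  rw [h4, map_zero] at h5
  have h6 : eval (fun i => (p i : K)) (MvPolynomial.map V.subtype q)
      = V.subtype (eval p q) := by
    rw [MvPolynomial.eval_map, ← MvPolynomial.coe_eval₂Hom]
    have h : (eval₂Hom V.subtype (fun i => (p i : K))) = (V.subtype).comp (eval p) := by
      apply MvPolynomial.ringHom_ext
      · intro r; simp
      · intro i; simp
    rw [h]; rfl
  rw [h6] at h5
  have h7 : eval p q = 0 := by
    apply Subtype.val_injective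
    exact h5.symm
  have h8 : eval (fun i => IsLocalRing.residue V (p i)) (MvPolynomial.map (IsLocalRing.residue V) q)
      = IsLocalRing.residue V (eval p q) := by
    rw [MvPolynomial.eval_map, ← MvPolynomial.coe_eval₂Hom]
    have h : (eval₂Hom (IsLocalRing.residue V) (fun i => IsLocalRing.residue V (p i)))
        = (IsLocalRing.residue V).comp (eval p) := by
      apply MvPolynomial.ringHom_ext
      · intro r; simp
      · intro i; simp
    rw [h]; rfl
  rw [h8, h7, map_zero]

/-- a column which is not integral gives a bad point -/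
theorem lor_col (a b : K) (h : ¬ (a ∈ V ∧ b ∈ V)) :
    ∃ c x y : V, IsLocalRing.residue V c = 0 ∧ (x : K) = a * c ∧ (y : K) = b * c ∧
      (x = 1 ∨ y = 1) := by
  have key : ∀ a : K, (ha : a ∉ V) → ∃ c : V, (c : K) = a⁻¹ ∧ IsLocalRing.residue V c = 0 := by
    intro a ha
    have h1 : a⁻¹ ∈ V := (V.mem_or_inv_mem a).resolve_left ha
    have ha0 : a ≠ 0 := fun h => ha (h ▸ V.zero_mem)
    refine ⟨⟨a⁻¹, h1⟩, rfl, ?_⟩
    rw [IsLocalRing.residue_eq_zero_iff, IsLocalRing.mem_maximalIdeal, mem_nonunits_iff]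
    intro hu
    obtain ⟨y, hy⟩ := isUnit_iff_exists_inv.mp hu
    apply ha
    have h2 : a⁻¹ * (y : K) = 1 := congrArg Subtype.val hy
    have h3 : a = (y : K) := by
      field_simp at h2
      exact h2.symm
    rw [h3]
    exact y.2
  have hcase : (a ∉ V ∧ b * a⁻¹ ∈ V) ∨ (b ∉ V ∧ a * b⁻¹ ∈ V) := by
    by_cases ha : a ∈ V
    · have hb : b ∉ V := fun hb => h ⟨ha, hb⟩
      right
      exact ⟨hb, V.mul_mem _ _ ha ((V.mem_or_inv_mem b).resolve_left hb)⟩
    · by_cases h0 : b * a⁻¹ ∈ V
      · exact Or.inl ⟨ha, h0⟩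
      · right
        have h1 := (V.mem_or_inv_mem (b * a⁻¹)).resolve_left h0
        rw [mul_inv_rev, inv_inv] at h1
        refine ⟨?_, h1⟩
        intro hb
        apply ha
        have hb0 : b ≠ 0 := by
          intro hb0
          apply h0
          rw [hb0, zero_mul]
          exact V.zero_mem
        have h2 : a = a * b⁻¹ * b := by field_simp
        rw [h2]
        exact V.mul_mem _ _ h1 hb
  rcases hcase with ⟨ha, hb⟩ | ⟨hb, ha⟩
  · obtain ⟨c, hc, hc0⟩ := key a ha
    have ha0 : a ≠ 0 := fun h => ha (h ▸ V.zero_mem)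
    exact ⟨c, 1, ⟨_, hb⟩, hc0, by rw [hc, mul_inv_cancel₀ ha0]; rfl, by rw [hc], Or.inl rfl⟩
  · obtain ⟨c, hc, hc0⟩ := key b hb
    have hb0 : b ≠ 0 := fun h => hb (h ▸ V.zero_mem)
    exact ⟨c, ⟨_, ha⟩, 1, hc0, by rw [hc], by rw [hc, mul_inv_cancel₀ hb0]; rfl, Or.inr rfl⟩

/-- ideals which reduce to a union of skew lines -/
theorem _root_.Pool.Agent.Helper947.Crv.lines_of_red [IsAlgClosed K] {ι : Type} [Fintype ι]
    {C : ι → Matrix (Fin 2) (Fin 2) (IsLocalRing.ResidueField V)}
    (hC : ∀ s t, s ≠ t → (C s - C t).det ≠ 0) {X : Ideal (Pl K)} (hX : Hom X) (tf : Tf X)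
    (h2 : Fin2 X) (hred : red V X ≤ ⨅ s, Lam (C s)) {k : ℕ}
    (hhf : ∀ᶠ m in atTop, hf X m ≤ Fintype.card ι * m + k) :
    ∃ A : ι → Matrix (Fin 2) (Fin 2) V, (∀ s, (A s).map (IsLocalRing.residue V) = C s) ∧
      X = ⨅ s, Lam ((A s).map V.subtype) := by
  classical
  set n := Fintype.card ι with hn
  set N := X.radical with hN
  have hXN : X ≤ N := Ideal.le_radical
  have Nhom : Hom N := hX.radical
  have Ntf : Tf N := tf.radical
  have Nfin : Fin2 N := h2.mono hXN
  have Nrad : N.IsRadical := Ideal.radical_isRadical X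
  have hskew := hf_skew C hC
  have hredN : red V N ≤ ⨅ s, Lam (C s) := by
    apply le_iInf
    intro s
    exact red_radical_le V (Lam_prime (C s)) (hred.trans (iInf_le _ s))
  have hNlow : ∀ᶠ m in atTop, n * (m + 1) ≤ hf N m := by
    filter_upwards [hskew] with m hm
    rw [← hm, ← hf_red V Nhom]
    exact hf_anti hredN m
  obtain ⟨r, hr1, ⟨C', hr2⟩, hr3⟩ := radical_bound Nrad Nhom Ntf Nfin
  have hnr : n ≤ r := by
    obtain ⟨m, hm⟩ := hNlow.exists
    have h3 := hm.trans (hr1 m)
    exact Nat.le_of_mul_le_mul_right h3 (Nat.succ_pos m)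
  have hrn : r ≤ n := by
    by_contra hc
    push Not at hc
    obtain ⟨m, hm1, hm2⟩ := (hhf.and (eventually_gt_atTop (k + C'))).exists
    have h3 := hr2 m
    have h4 := hf_anti hXN m
    have h5 : (n + 1) * m ≤ r * m := Nat.mul_le_mul_right m hc
    have h6 : (n + 1) * m ≤ n * m + k + C' := by omega
    have h7 : (n + 1) * m = n * m + m := by ring
    omega
  have hr : r = n := le_antisymm hrn hnr
  have hNeq : ∀ᶠ m in atTop, hf N m = n * (m + 1) := by
    filter_upwards [hNlow] with m hm
    have h3 := hr1 m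
    rw [hr] at h3
    exact le_antisymm h3 hm
  obtain ⟨D, hD⟩ := hr3 (by rw [hr]; exact hNeq)
  have hNX : N ≤ X := by
    apply le_of_hf hXN Nhom tf (C := k)
    filter_upwards [hhf, hNeq] with m h3 h4
    rw [h4]
    refine h3.trans ?_
    have : n * m ≤ n * (m + 1) := Nat.mul_le_mul_left n (Nat.le_succ m)
    omega
  have hXe : X = N := le_antisymm hXN hNX
  have hXD : X = ⨅ s, Lam (D s) := by rw [hXe, hD]
  -- equality of the reduction in large degrees
  set I : Ideal (Pl (IsLocalRing.ResidueField V)) := ⨅ s, Lam (C s) with hI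
  have Ihom : Hom I := Hom.iInf (fun s => Lam_hom (C s))
  obtain ⟨m0, hm0⟩ : ∃ m0 : ℕ, ∀ m ≥ m0, hf (red V X) m ≤ hf I m := by
    rw [← eventually_atTop]
    filter_upwards [hNeq, hskew] with m h3 h4
    rw [hf_red V hX, hXe, h3, h4]
  have L1 : ∀ f ∈ I, ∀ i : Fin 4, f * MvPolynomial.X i ^ m0 ∈ red V X := by
    intro f hfI i
    have h3 : f * MvPolynomial.X i ^ m0 = ∑ j ∈ Finset.range (f.totalDegree + 1),
        homogeneousComponent j f * MvPolynomial.X i ^ m0 := by
      rw [← Finset.sum_mul, MvPolynomial.sum_homogeneousComponent]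
    rw [h3]
    apply Ideal.sum_mem
    intro j _
    have h4 : homogeneousComponent j f * MvPolynomial.X i ^ m0 ∈ Fm _ (j + m0) :=
      (homogeneousComponent_isHomogeneous j f).mul (isHomogeneous_X_pow i m0)
    exact mem_of_hf_le hred (hm0 (j + m0) (Nat.le_add_left _ _)) h4
      (I.mul_mem_right _ (Ihom f hfI j))
  have hXle : ∀ s, red V X ≤ red V (Lam (D s)) := by
    intro s
    apply red_mono
    rw [hXD]
    exact iInf_le _ s
  -- finiteness gives integrality
  have Ifin : Fin2 I := Fin2.iInf (fun s => Lam_fin2 (C s))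
  obtain ⟨N0, hN0⟩ := Ifin
  have noPt : ∀ (s : Fin r) (p : Fin 4 → V) (i : Fin 4),
      (p 2 : K) = D s 0 0 * (p 0 : K) + D s 0 1 * (p 1 : K) →
      (p 3 : K) = D s 1 0 * (p 0 : K) + D s 1 1 * (p 1 : K) →
      IsLocalRing.residue V (p 0) = 0 → IsLocalRing.residue V (p 1) = 0 → p i = 1 → False := by
    intro s p i e2 e3 z0 z1 ei
    have h3 : (MvPolynomial.X i ^ N0 : Pl (IsLocalRing.ResidueField V)) ∈ Fm _ N0 :=
      isHomogeneous_X_pow i N0
    obtain ⟨a, ha, b, hb, hab⟩ := Submodule.mem_sup.mp (hN0 _ h3)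
    have hevb : eval (fun i => IsLocalRing.residue V (p i)) b = 0 := by
      have h4 : Ideal.span {MvPolynomial.X 0, MvPolynomial.X 1} ≤
          RingHom.ker (eval (fun i => IsLocalRing.residue V (p i))) := by
        rw [Ideal.span_le]
        rintro x (rfl | rfl)
        · simp [RingHom.mem_ker, z0]
        · simp [RingHom.mem_ker, z1]
      exact h4 hb
    have heva : eval (fun i => IsLocalRing.residue V (p i)) a = 0 := by
      have h4 := lor_vanish V (D s) p e2 e3 (hXle s (L1 a ha i))
      rw [map_mul, map_pow, eval_X, ei, map_one, one_pow, mul_one] at h4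
      exact h4
    have h5 := congrArg (eval (fun i => IsLocalRing.residue V (p i))) hab
    rw [map_add, heva, hevb, map_pow, eval_X, ei, map_one, one_pow, add_zero] at h5
    exact zero_ne_one h5
  have hint : ∀ (s : Fin r) (j : Fin 2), D s 0 j ∈ V ∧ D s 1 j ∈ V := by
    intro s j
    by_contra hc
    obtain ⟨c, x, y, hc0, hx, hy, hxy⟩ := lor_col V (D s 0 j) (D s 1 j) hc
    fin_cases j
    · have e2 : (x : K) = D s 0 0 * (c : K) + D s 0 1 * ((0 : V) : K) := by
        rw [hx]; simp
      have e3 : (y : K) = D s 1 0 * (c : K) + D s 1 1 * ((0 : V) : K) := by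
        rw [hy]; simp
      rcases hxy with h | h
      · exact noPt s ![c, 0, x, y] 2 e2 e3 hc0 (map_zero _) h
      · exact noPt s ![c, 0, x, y] 3 e2 e3 hc0 (map_zero _) h
    · have e2 : (x : K) = D s 0 0 * ((0 : V) : K) + D s 0 1 * (c : K) := by
        rw [hx]; simp
      have e3 : (y : K) = D s 1 0 * ((0 : V) : K) + D s 1 1 * (c : K) := by
        rw [hy]; simp
      rcases hxy with h | h
      · exact noPt s ![0, c, x, y] 2 e2 e3 (map_zero _) hc0 h
      · exact noPt s ![0, c, x, y] 3 e2 e3 (map_zero _) hc0 h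
  have hmem : ∀ (s : Fin r) (i j : Fin 2), D s i j ∈ V := by
    intro s i j
    fin_cases i
    · exact (hint s j).1
    · exact (hint s j).2
  set A' : Fin r → Matrix (Fin 2) (Fin 2) V := fun s => Matrix.of (fun i j => ⟨D s i j, hmem s i j⟩)
    with hA'
  have hA'D : ∀ s, (A' s).map V.subtype = D s := by
    intro s
    ext i j
    rfl
  have hXA : X = ⨅ s, Lam ((A' s).map V.subtype) := by
    rw [hXD]
    exact iInf_congr (fun s => by rw [hA'D])
  have hle : ∀ s, red V (Lam (D s)) ≤ Lam ((A' s).map (IsLocalRing.residue V)) := by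
    intro s
    have := lor_red_le V (A' s)
    rwa [hA'D] at this
  -- the target lines
  have hex : ∀ s, ∃ t, C t = (A' s).map (IsLocalRing.residue V) := by
    intro s
    have hP := Lam_prime ((A' s).map (IsLocalRing.residue V))
    have h3 : I ≤ Lam ((A' s).map (IsLocalRing.residue V)) := by
      intro f hfI
      have h4 := hle s (hXle s (L1 f hfI 0))
      rcases hP.mem_or_mem h4 with h5 | h5
      · exact h5
      · exfalso
        have h6 := hP.mem_of_pow_mem _ h5
        have h7 : res ((A' s).map (IsLocalRing.residue V)) (MvPolynomial.X 0) = 0 := h6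
        have h8 : res ((A' s).map (IsLocalRing.residue V)) (MvPolynomial.X 0)
            = MvPolynomial.X 0 := by simp [res]
        rw [h8] at h7
        exact MvPolynomial.X_ne_zero _ h7
    rw [hI, ← Finset.inf_univ_eq_iInf, hP.inf_le'] at h3
    obtain ⟨t, -, ht⟩ := h3
    exact ⟨t, Lam_inj ht⟩
  choose t ht using hex
  have hsurj : Function.Surjective t := by
    intro t0
    by_contra hc
    push Not at hc
    have hP := Lam_prime (C t0)
    have h3 : ∀ s, ∃ f ∈ red V (Lam (D s)), f ∉ Lam (C t0) := by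
      intro s
      by_contra hcc
      push Not at hcc
      have h4 : red V (Lam (D s)) ≤ Lam (C t0) := hcc
      have h5 : Lam (C t0) ≤ red V (Lam (D s)) := by
        intro f hfC
        rw [← MvPolynomial.sum_homogeneousComponent f]
        apply Ideal.sum_mem
        intro j _
        apply mem_of_hf_le h4 (m := j) _ (homogeneousComponent_isHomogeneous j f)
          (Lam_hom (C t0) f hfC j)
        rw [hf_red V (Lam_hom (D s)), hf_Lam, hf_Lam]
      have h6 := Lam_inj (h5.trans (hle s))
      rw [← ht s] at h6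
      -- C t0 = C (t s)
      have h7 := hc s
      have h8 := hC (t s) t0 h7
      rw [← h6, sub_self, Matrix.det_zero] at h8
      exact h8 rfl
    choose f hf1 hf2 using h3
    choose q hq1 hq2 using fun s => (mem_red V).mp (hf1 s)
    have h4 : ∏ s, f s ∈ red V X := by
      rw [mem_red]
      refine ⟨∏ s, q s, ?_, ?_⟩
      · rw [hXD, Ideal.mem_iInf]
        intro s
        rw [map_prod]
        exact Ideal.mem_of_dvd _ (Finset.dvd_prod_of_mem _ (Finset.mem_univ s)) (hq1 s)
      · rw [map_prod]
        exact Finset.prod_congr rfl (fun s _ => hq2 s)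
    have h5 := (hred.trans (iInf_le _ t0)) h4
    obtain ⟨s, -, hs⟩ := hP.prod_mem_iff.mp h5
    exact hf2 s hs
  have hcard : Fintype.card (Fin r) = Fintype.card ι := by
    rw [Fintype.card_fin, hr]
  have hbij := (Fintype.bijective_iff_surjective_and_card t).mpr ⟨hsurj, hcard⟩
  set e := Equiv.ofBijective t hbij with he
  refine ⟨fun i => A' (e.symm i), ?_, ?_⟩
  · intro i
    show (A' (e.symm i)).map (IsLocalRing.residue V) = C i
    rw [← ht]
    congr 1
    exact e.apply_symm_apply i
  · rw [hXA]
    exact (e.symm.iInf_comp (g := fun s => Lam ((A' s).map V.subtype))).symm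

end steps

end Pool.Agent.Helper947.Crv.LE5

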