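import Mathlib
import Pool.Agent.Helper947.Crv.Defs
import Pool.Agent.Helper947.Crv.A1
import Pool.Agent.Helper947.Crv.A2
import Pool.Agent.Helper947.Crv.A3
import Pool.Agent.Helper947.Crv.A4
import Pool.Agent.Helper947.Crv.B1
import Pool.Agent.Helper947.Crv.B2
import Pool.Agent.Helper947.Crv.C1
import Pool.Agent.Helper947.Crv.C2
import Pool.Agent.Helper947.Crv.C3
import Pool.Agent.Helper947.Crv.C4
import Pool.Agent.Helper947.Crv.E1
import Pool.Agent.Helper947.Crv.E2
import Pool.Agent.Helper947.Crv.E3
import Pool.Agent.Helper947.Crv.E4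
import Pool.Agent.Helper947.Crv.E5

open MvPolynomial Filter

namespace Pool.Agent.Helper947.Crv.LE6

section line

variable {K : Type*} [CommRing K]

end line

namespace Cfg

variable {K : Type*} [CommRing K] {J M : Type} (c : Cfg K J M)

end Cfg

section defs2

variable {K : Type*} [Field K]

end defs2

section hilb

variable {K : Type*} [Field K] {I J N : Ideal (Pl K)}

end hilb

section redsec

variable {K : Type*} [Field K] (V : ValuationSubring K) {I J : Ideal (Pl K)}

end redsec

section lines

variable {K : Type*} [Field K]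

end lines

section curve

variable {K : Type*} [Field K] {J M : Type} [Fintype J] [Fintype M] {c : Cfg K J M} {e : ℕ}
  {E : Finset (J × M)}

end curve

section steps

variable {K : Type*} [Field K] (V : ValuationSubring K) {J M : Type} [Fintype J] [Fintype M]
  {c : Cfg (IsLocalRing.ResidueField V) J M} {e : ℕ} {E : Finset (J × M)}

theorem j7351_le_col {K : Type*} [Field K] (I : Ideal (Pl K)) (n : Pl K) : I ≤ col I n :=
  fun _ hx => I.mul_mem_right n hx

theorem j7351_mem_col {K : Type*} [Field K] {I : Ideal (Pl K)} {n f : Pl K} :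
    f ∈ col I n ↔ f * n ∈ I := Iff.rfl

theorem j7351_det {K : Type*} [Field K] (V : ValuationSubring K) (A B : Matrix (Fin 2) (Fin 2) V)
    (h : (A.map (IsLocalRing.residue V) - B.map (IsLocalRing.residue V)).det ≠ 0) :
    (A.map V.subtype - B.map V.subtype).det ≠ 0 := by
  intro h0
  apply h
  have e1 : (A.map V.subtype - B.map V.subtype).det = V.subtype (A - B).det := by
    rw [RingHom.map_det, RingHom.mapMatrix_apply, Matrix.map_sub _ (map_sub V.subtype)]
  have e2 : (A.map (IsLocalRing.residue V) - B.map (IsLocalRing.residue V)).det =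
      IsLocalRing.residue V (A - B).det := by
    rw [RingHom.map_det, RingHom.mapMatrix_apply, Matrix.map_sub _ (map_sub (IsLocalRing.residue V))]
  rw [e1] at h0
  have h1 : (A - B).det = 0 := by
    have := h0
    rwa [map_eq_zero_iff _ (ValuationSubring.subtype_injective V)] at this
  rw [e2, h1, map_zero]

theorem j7351_shift {P : ℕ → Prop} (d : ℕ) (h : ∀ᶠ m in atTop, P (m + d)) : ∀ᶠ m in atTop, P m := by
  rw [← Filter.map_add_atTop_eq_nat d, Filter.eventually_map]
  exact h

theorem j7351_map_hom {R S : Type*} [CommRing R] [CommRing S] (φ : R →+* S) {p : Pl R} {d : ℕ}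
    (hp : p ∈ Fm R d) : MvPolynomial.map φ p ∈ Fm S d := by
  rw [mem_homogeneousSubmodule] at hp ⊢
  exact hp.map φ

theorem j7351_mul_hom {R : Type*} [CommRing R] {p q : Pl R} {d e : ℕ}
    (hp : p ∈ Fm R d) (hq : q ∈ Fm R e) : p * q ∈ Fm R (d + e) := by
  rw [mem_homogeneousSubmodule] at hp hq ⊢
  exact hp.mul hq

theorem j7351_radical_le {K : Type*} [Field K] {ι : Type} {I : Ideal (Pl K)}
    {C : ι → Matrix (Fin 2) (Fin 2) K} (h : I ≤ ⨅ s, Lam (C s)) : I.radical ≤ ⨅ s, Lam (C s) :=
  le_iInf fun s => (Ideal.IsPrime.radical_le_iff (Lam_prime (C s))).2 (h.trans (iInf_le _ s))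

theorem j7351_stepA [IsAlgClosed K] (hc : c.Good e E) (he : 2 * E.card + 1 < e) {I : Ideal (Pl K)}
    (hI : Hom I) (tf : Tf I) (h2 : Fin2 I) (hred : red V I ≤ c.J0)
    (hhf : ∀ᶠ m in atTop, hf I m = hf c.J0 m) :
    (∀ m, hf I.radical m ≤ (Fintype.card J + Fintype.card M) * (m + 1)) ∧
    ∃ A : J → Matrix (Fin 2) (Fin 2) V, (∀ s, (A s).map (IsLocalRing.residue V) = c.A s) ∧
      I ≤ (⨅ s, Lam ((A s).map V.subtype)) ∧
      ∀ u ∈ (⨅ s, Lam ((A s).map V.subtype)), ∀ f ∈ I.radical, u * f ∈ I := by
  obtain ⟨hN, hIN, d, q, hq, hqN, hqd⟩ := step2 V hc he hI tf h2 hred hhf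
  refine ⟨hN, ?_⟩
  have hnd : MvPolynomial.map V.subtype q ∈ Fm K d := j7351_map_hom _ hq
  have hJ0 : ∀ j, c.J0 ≤ Qd (c.A j) (c.G j) := fun j => inf_le_left.trans (iInf_le _ j)
  have hqbar : ∀ j, res (c.A j) (MvPolynomial.map (IsLocalRing.residue V) q) = 0 := by
    intro j
    have h1 : red V I ≤ Lam (c.A j) := hred.trans ((hJ0 j).trans (Qd_le _ _))
    have h3 := red_radical_le V (Lam_prime (c.A j)) h1
    have h4 : MvPolynomial.map (IsLocalRing.residue V) q ∈ red V I.radical :=
      (mem_red V).2 ⟨q, hqN, rfl⟩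
    exact RingHom.mem_ker.1 (h3 h4)
  have redA : red V (col I (MvPolynomial.map V.subtype q)) ≤ ⨅ s, Lam (c.A s) := by
    refine le_iInf fun j => ?_
    intro p hp
    obtain ⟨f, hf1, hf2⟩ := (mem_red V).1 hp
    have h5 : MvPolynomial.map V.subtype (f * q) ∈ I := by
      rw [map_mul]; exact hf1
    have h6 : p * MvPolynomial.map (IsLocalRing.residue V) q ∈ red V I :=
      (mem_red V).2 ⟨f * q, h5, by rw [map_mul, hf2]⟩
    have h7 : dG (c.A j) (c.G j) (p * MvPolynomial.map (IsLocalRing.residue V) q) = 0 :=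
      (hJ0 j (hred h6)).2
    rw [dG_mul, hqbar j, mul_zero, add_zero] at h7
    rcases mul_eq_zero.1 h7 with h8 | h8
    · exact RingHom.mem_ker.2 h8
    · exact absurd h8 (hqd j)
  have hle : I ⊔ Ideal.span {MvPolynomial.map V.subtype q} ≤ I.radical :=
    sup_le Ideal.le_radical ((Ideal.span_singleton_le_iff_mem _).2 hqN)
  have hgrow : ∀ᶠ m in atTop, hf (col I (MvPolynomial.map V.subtype q)) m ≤
      Fintype.card J * m + Fintype.card J * (d + e) := by
    filter_upwards [(tendsto_add_atTop_nat d).eventually hIN] with m hm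
    have h9 := hf_col hI hnd m
    have h10 := hf_anti hle (m + d)
    have h11 : Fintype.card J * (m + d + e) = Fintype.card J * m + Fintype.card J * (d + e) := by ring
    omega
  obtain ⟨A, hA, hX⟩ := lines_of_red V hc.skewA (Hom.col hI hnd) (Tf.col tf _)
    (Fin2.mono h2 (j7351_le_col _ _)) redA hgrow
  refine ⟨A, hA, ?_, ?_⟩
  · rw [← hX]; exact j7351_le_col _ _
  have hskewK : ∀ s t, s ≠ t → ((A s).map V.subtype - (A t).map V.subtype).det ≠ 0 := fun s t hst =>
    j7351_det V _ _ (by rw [hA, hA]; exact hc.skewA s t hst)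
  have hIA := hf_skew (fun s => (A s).map V.subtype) hskewK
  have hbd : ∀ᶠ m in atTop, hf (I ⊔ Ideal.span {MvPolynomial.map V.subtype q}) m ≤
      hf I.radical m + Fintype.card J * (d + e) := by
    apply j7351_shift d
    filter_upwards [(tendsto_add_atTop_nat d).eventually hIN, hIA] with m hm1 hm2
    have h9 := hf_col hI hnd m
    rw [hX, hm2] at h9
    have h11 : Fintype.card J * (m + d + e) = Fintype.card J * m + Fintype.card J * (d + e) := by ring
    have h12 : Fintype.card J * (m + 1) = Fintype.card J * m + Fintype.card J := by ring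
    omega
  intro u hu f hfN
  have hu' : u * MvPolynomial.map V.subtype q ∈ I := by
    have : u ∈ col I (MvPolynomial.map V.subtype q) := by rw [hX]; exact hu
    exact this
  have key : ∀ k, u * homogeneousComponent k f ∈ I := by
    intro k
    obtain ⟨g, hg, hgf⟩ := torsion_of_hf hle hbd (d := k) (f := homogeneousComponent k f)
      ((mem_homogeneousSubmodule _ _).2 (homogeneousComponent_isHomogeneous k f))
      (Hom.radical hI f hfN k)
    apply tf g hg
    have e1 : ι2 K g * (u * homogeneousComponent k f) = u * (ι2 K g * homogeneousComponent k f) := by ring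
    rw [e1]
    obtain ⟨w1, hw1, w2, hw2, hw⟩ := Submodule.mem_sup.1 hgf
    rw [← hw, mul_add]
    refine I.add_mem (I.mul_mem_left _ hw1) ?_
    obtain ⟨z, rfl⟩ := Ideal.mem_span_singleton'.1 hw2
    have e2 : u * (z * MvPolynomial.map V.subtype q) = z * (u * MvPolynomial.map V.subtype q) := by ring
    rw [e2]
    exact I.mul_mem_left _ hu'
  have hsum := MvPolynomial.sum_homogeneousComponent f
  rw [← hsum, Finset.mul_sum]
  exact I.sum_mem (fun i _ => key i)

theorem j7351_stepB [IsAlgClosed K] (hc : c.Good e E) {I : Ideal (Pl K)}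
    (hI : Hom I) (tf : Tf I) (h2 : Fin2 I) (hred : red V I ≤ c.J0)
    (hN : ∀ m, hf I.radical m ≤ (Fintype.card J + Fintype.card M) * (m + 1))
    {A : J → Matrix (Fin 2) (Fin 2) V} (hA : ∀ s, (A s).map (IsLocalRing.residue V) = c.A s)
    (hIA : I ≤ (⨅ s, Lam ((A s).map V.subtype)))
    (hmul : ∀ u ∈ (⨅ s, Lam ((A s).map V.subtype)), ∀ f ∈ I.radical, u * f ∈ I) :
    ∃ B : M → Matrix (Fin 2) (Fin 2) V, (∀ s, (B s).map (IsLocalRing.residue V) = c.B s) ∧
      I ≤ (⨅ s, Lam ((B s).map V.subtype)) := by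
  obtain ⟨d, α, hα, hαA, hαB⟩ := avoid V A c.B (fun j i => by rw [hA]; exact hc.ne j i)
  have had : MvPolynomial.map V.subtype α ∈ Fm K d := j7351_map_hom _ hα
  have ha2 : MvPolynomial.map V.subtype α * MvPolynomial.map V.subtype α ∈ Fm K (d + d) :=
    j7351_mul_hom had had
  have hred' : red V (col I (MvPolynomial.map V.subtype α * MvPolynomial.map V.subtype α)) ≤
      ⨅ s, Lam (c.B s) := by
    refine le_iInf fun i => ?_
    intro p hp
    obtain ⟨f, hf1, hf2⟩ := (mem_red V).1 hp
    have h5 : MvPolynomial.map V.subtype (f * (α * α)) ∈ I := by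
      rw [map_mul, map_mul]; exact hf1
    have h6 : p * (MvPolynomial.map (IsLocalRing.residue V) α *
        MvPolynomial.map (IsLocalRing.residue V) α) ∈ red V I :=
      (mem_red V).2 ⟨f * (α * α), h5, by rw [map_mul, map_mul, hf2]⟩
    have h7 : c.J0 ≤ Lam (c.B i) := inf_le_right.trans (iInf_le _ i)
    have h8 := RingHom.mem_ker.1 (h7 (hred h6))
    rw [map_mul, map_mul] at h8
    rcases mul_eq_zero.1 h8 with h9 | h9
    · exact RingHom.mem_ker.2 h9
    · rcases mul_eq_zero.1 h9 with h10 | h10
      · exact absurd h10 (hαB i)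
      · exact absurd h10 (hαB i)
  have hskewK : ∀ s t, s ≠ t → ((A s).map V.subtype - (A t).map V.subtype).det ≠ 0 := fun s t hst =>
    j7351_det V _ _ (by rw [hA, hA]; exact hc.skewA s t hst)
  have hIA' := hf_skew (fun s => (A s).map V.subtype) hskewK
  have hcol : col I.radical (MvPolynomial.map V.subtype α) ≤
      col I (MvPolynomial.map V.subtype α * MvPolynomial.map V.subtype α) := by
    intro f hfa
    have h1 := hmul _ hαA _ hfa
    have e1 : f * (MvPolynomial.map V.subtype α * MvPolynomial.map V.subtype α) =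
        MvPolynomial.map V.subtype α * (f * MvPolynomial.map V.subtype α) := by ring
    show f * (MvPolynomial.map V.subtype α * MvPolynomial.map V.subtype α) ∈ I
    rw [e1]
    exact h1
  have hsup : I.radical ⊔ Ideal.span {MvPolynomial.map V.subtype α} ≤
      ⨅ s, Lam ((A s).map V.subtype) :=
    sup_le (j7351_radical_le hIA) ((Ideal.span_singleton_le_iff_mem _).2 hαA)
  have hgrow : ∀ᶠ m in atTop, hf (col I (MvPolynomial.map V.subtype α * MvPolynomial.map V.subtype α)) m ≤
      Fintype.card M * m + Fintype.card M * (d + 1) := by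
    filter_upwards [(tendsto_add_atTop_nat d).eventually hIA'] with m hm
    have h9 := hf_col (Hom.radical hI) had m
    have h10 := hf_anti hsup (m + d)
    have h11 := hf_anti hcol m
    have h12 := hN (m + d)
    have h13 : (Fintype.card J + Fintype.card M) * (m + d + 1) =
      Fintype.card J * (m + d + 1) + (Fintype.card M * m + Fintype.card M * (d + 1)) := by ring
    have hm' : hf (⨅ s, Lam ((A s).map V.subtype)) (m + d) = Fintype.card J * (m + d + 1) := hm
    rw [hm'] at h10
    rw [h13] at h12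
    omega
  obtain ⟨B, hB, hX⟩ := lines_of_red V hc.skewB (Hom.col hI ha2) (Tf.col tf _)
    (Fin2.mono h2 (j7351_le_col _ _)) hred' hgrow
  exact ⟨B, hB, by rw [← hX]; exact j7351_le_col _ _⟩

/-- main theorem on degenerations -/
theorem _root_.Pool.Agent.Helper947.Crv.core [IsAlgClosed K] (hc : c.Good e E) (he : 2 * E.card + 1 < e) {I : Ideal (Pl K)}
    (hI : Hom I) (h : ∀ᶠ m in atTop, ∀ p ∈ Fm _ m, p ∈ red V I ↔ p ∈ c.J0) :
    ∃ (A : J → Matrix (Fin 2) (Fin 2) V) (B : M → Matrix (Fin 2) (Fin 2) V),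
      (∀ j, (A j).map (IsLocalRing.residue V) = c.A j) ∧
      (∀ i, (B i).map (IsLocalRing.residue V) = c.B i) ∧
      (∀ j i, (j, i) ∈ E → (A j - B i).det = 0) ∧
      ∀ C : Matrix (Fin 2) (Fin 2) K, (∀ᶠ m in atTop, ∀ p ∈ Fm K m, p ∈ I → p ∈ Lam C) ↔
        (∃ j, C = (A j).map V.subtype) ∨ ∃ i, C = (B i).map V.subtype := by
  obtain ⟨I', hI', tf, h2, hred, hag, hhf⟩ := step1 V hc hI h
  obtain ⟨hN, A, hA, hIA, hmul⟩ := j7351_stepA V hc he hI' tf h2 hred hhf
  obtain ⟨B, hB, hIB⟩ := j7351_stepB V hc hI' tf h2 hred hN hA hIA hmul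
  have hskA : ∀ s t, s ≠ t → ((A s).map V.subtype - (A t).map V.subtype).det ≠ 0 := fun s t hst =>
    j7351_det V _ _ (by rw [hA, hA]; exact hc.skewA s t hst)
  have hskB : ∀ s t, s ≠ t → ((B s).map V.subtype - (B t).map V.subtype).det ≠ 0 := fun s t hst =>
    j7351_det V _ _ (by rw [hB, hB]; exact hc.skewB s t hst)
  have hne : ∀ j i, (A j).map V.subtype ≠ (B i).map V.subtype := by
    intro j i hji
    have h1 : A j = B i := Matrix.map_injective (ValuationSubring.subtype_injective V) hji
    apply hc.ne j i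
    rw [← hA, ← hB, h1]
  set IA : Ideal (Pl K) := ⨅ s, Lam ((A s).map V.subtype) with hIAd
  set IB : Ideal (Pl K) := ⨅ s, Lam ((B s).map V.subtype) with hIBd
  set D : ℕ := Nat.card {p : J × M // ((A p.1).map V.subtype - (B p.2).map V.subtype).det = 0} with hDd
  have hfA : ∀ᶠ m in atTop, hf IA m = Fintype.card J * (m + 1) :=
    hf_skew (fun s => (A s).map V.subtype) hskA
  have hfB : ∀ᶠ m in atTop, hf IB m = Fintype.card M * (m + 1) :=
    hf_skew (fun s => (B s).map V.subtype) hskB
  have hmeet : ∀ᶠ m in atTop, hf (IA * IA ⊔ IB) m ≤ 2 * D :=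
    hf_meet_le (fun s => (A s).map V.subtype) (fun s => (B s).map V.subtype) hskA hskB hne
  have homA : Hom IA := Hom.iInf fun s => Lam_hom _
  have homB : Hom IB := Hom.iInf fun s => Lam_hom _
  have hNA : I'.radical ≤ IA := j7351_radical_le hIA
  have hNB : I'.radical ≤ IB := j7351_radical_le hIB
  have hAAB : IA * IA ⊔ IB ≤ IA ⊔ IB := sup_le_sup_right Ideal.mul_le_left IB
  -- step 5
  have hinf : IA ⊓ IB ≤ I'.radical := by
    refine le_of_hf (C := 2 * D) (le_inf hNA hNB) (Hom.inf homA homB) (Tf.radical tf) ?_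
    filter_upwards [hfA, hfB, hmeet] with m h1 h3 h4
    have h5 := hf_inf_sup homA homB m
    have h6 := hf_anti hAAB m
    have h7 := hN m
    have h8 : (Fintype.card J + Fintype.card M) * (m + 1) =
      Fintype.card J * (m + 1) + Fintype.card M * (m + 1) := by ring
    rw [h8] at h7
    omega
  obtain ⟨d, β, hβ, hβB, hβA⟩ := avoid V B c.A (fun i j => by rw [hB]; exact (hc.ne j i).symm)
  have hbd : MvPolynomial.map V.subtype β ∈ Fm K d := j7351_map_hom _ hβ
  have hDAA : IA * IA ≤ col I' (MvPolynomial.map V.subtype β) := by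
    rw [Ideal.mul_le]
    intro x hx y hy
    show x * y * MvPolynomial.map V.subtype β ∈ I'
    have h1 : y * MvPolynomial.map V.subtype β ∈ I'.radical :=
      hinf ⟨IA.mul_mem_right _ hy, IB.mul_mem_left _ hβB⟩
    rw [mul_assoc]
    exact hmul x hx _ h1
  have hredD : red V (col I' (MvPolynomial.map V.subtype β)) ≤ c.GD := by
    refine le_iInf fun j => ?_
    intro p hp
    obtain ⟨f, hf1, hf2⟩ := (mem_red V).1 hp
    have h5 : MvPolynomial.map V.subtype (f * β) ∈ I' := by
      rw [map_mul]; exact hf1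
    have h6 : p * MvPolynomial.map (IsLocalRing.residue V) β ∈ red V I' :=
      (mem_red V).2 ⟨f * β, h5, by rw [map_mul, hf2]⟩
    have h7 : c.J0 ≤ Qd (c.A j) (c.G j) := inf_le_left.trans (iInf_le _ j)
    obtain ⟨h8, h9⟩ := h7 (hred h6)
    have h10 : res (c.A j) p = 0 := by
      rw [map_mul] at h8
      rcases mul_eq_zero.1 h8 with h | h
      · exact h
      · exact absurd h (hβA j)
    rw [dG_mul, h10, zero_mul, zero_add] at h9
    refine ⟨h10, ?_⟩
    rcases mul_eq_zero.1 h9 with h | h
    · exact h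
    · exact absurd h (hβA j)
  have homD : Hom (col I' (MvPolynomial.map V.subtype β)) := Hom.col hI' hbd
  have hfGD := hf_skew_double c.A c.G hc.G_hom hc.G_cop hc.skewA
  have hJ0 := hf_J0 hc
  have hcardE : E.card ≤ D := by
    have hev : ∀ᶠ m : ℕ in atTop, 2 * E.card ≤ 2 * D := by
      filter_upwards [hfGD, hJ0, hhf, hfB, hmeet] with m h1 h3 h4 h5 h6
      have h7 := hf_inf_sup homD homB m
      have h8 : hf (col I' (MvPolynomial.map V.subtype β) ⊓ IB) m ≤ hf I' m :=
        hf_anti (le_inf (j7351_le_col _ _) hIB) m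
      have h9 : hf (col I' (MvPolynomial.map V.subtype β) ⊔ IB) m ≤ hf (IA * IA ⊔ IB) m :=
        hf_anti (sup_le_sup_right hDAA IB) m
      have h10 := hf_red V homD m
      have h11 : hf c.GD m ≤ hf (red V (col I' (MvPolynomial.map V.subtype β))) m := hf_anti hredD m
      have h12 : hf c.GD m = Fintype.card J * (2 * m + 1 + e) := h1
      have e1 : Fintype.card J * (2 * m + 1 + e) = Fintype.card J * (2 * m) + Fintype.card J * (1 + e) := by ring
      have e2 : (2 * Fintype.card J + Fintype.card M) * m = Fintype.card J * (2 * m) + Fintype.card M * m := by ring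
      have e3 : Fintype.card M * (m + 1) = Fintype.card M * m + Fintype.card M := by ring
      rw [e1] at h12
      rw [e2] at h3
      rw [e3] at h5
      omega
    obtain ⟨_, hm⟩ := hev.exists
    omega
  have hsub : ∀ p : J × M, ((A p.1).map V.subtype - (B p.2).map V.subtype).det = 0 → p ∈ E := by
    intro p hp
    by_contra hpE
    refine j7351_det V (A p.1) (B p.2) ?_ hp
    rw [hA, hB]
    exact fun h0 => hpE ((hc.inc p.1 p.2).1 h0)
  have hEall : ∀ p ∈ E, ((A p.1).map V.subtype - (B p.2).map V.subtype).det = 0 := by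
    classical
    let F : Finset (J × M) := E.filter (fun p => ((A p.1).map V.subtype - (B p.2).map V.subtype).det = 0)
    have hDF : D = F.card := Nat.subtype_card F (fun p => by
      rw [Finset.mem_filter]
      exact ⟨fun h => h.2, fun h => ⟨hsub p h, h⟩⟩)
    have hFE : F = E := Finset.eq_of_subset_of_card_le (Finset.filter_subset _ _) (by rw [← hDF]; exact hcardE)
    intro p hp
    rw [← hFE] at hp
    exact (Finset.mem_filter.1 hp).2
  refine ⟨A, B, hA, hB, ?_, ?_⟩
  · intro j i hji
    have h1 := hEall (j, i) hji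
    have e1 : ((A j).map V.subtype - (B i).map V.subtype).det = V.subtype (A j - B i).det := by
      rw [RingHom.map_det, RingHom.mapMatrix_apply, Matrix.map_sub _ (map_sub V.subtype)]
    have h3 : V.subtype (A j - B i).det = 0 := by rw [← e1]; exact h1
    rwa [map_eq_zero_iff _ (ValuationSubring.subtype_injective V)] at h3
  · intro C
    constructor
    · intro hC
      have hIC : I' ≤ Lam C := by
        intro f hfI
        have key : ∀ k, homogeneousComponent k f ∈ Lam C := by
          intro k
          obtain ⟨t, ht⟩ := ((hC.and hag).and (eventually_ge_atTop k)).exists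
          obtain ⟨⟨ht1, ht2⟩, ht3⟩ := ht
          have hk1 : homogeneousComponent k f ∈ Fm K k :=
            (mem_homogeneousSubmodule _ _).2 (homogeneousComponent_isHomogeneous k f)
          have hX : (X 0 : Pl K) ^ (t - k) ∈ Fm K (t - k) := by
            rw [mem_homogeneousSubmodule]
            have := (isHomogeneous_X K (0 : Fin 4)).pow (t - k)
            rwa [one_mul] at this
          have h5 := j7351_mul_hom hX hk1
          rw [Nat.sub_add_cancel ht3] at h5
          have h6 : (X 0 : Pl K) ^ (t - k) * homogeneousComponent k f ∈ I' :=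
            I'.mul_mem_left _ (hI' f hfI k)
          have h7 := ht1 _ h5 ((ht2 _ h5).1 h6)
          rcases (Lam_prime C).mem_or_mem h7 with h8 | h8
          · exfalso
            have h9 := (Lam_prime C).mem_of_pow_mem _ h8
            have h10 : res C (X 0 : Pl K) = 0 := RingHom.mem_ker.1 h9
            rw [res, aeval_X] at h10
            exact X_ne_zero (R := K) (0 : Fin 2) h10
          · exact h8
        rw [← MvPolynomial.sum_homogeneousComponent f]
        exact (Lam C).sum_mem (fun i _ => key i)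
      have hNC : I'.radical ≤ Lam C := (Ideal.IsPrime.radical_le_iff (Lam_prime C)).2 hIC
      have hAB : IA ⊓ IB ≤ Lam C := hinf.trans hNC
      rcases (Ideal.IsPrime.inf_le (Lam_prime C)).1 hAB with h1 | h1
      · left
        rw [hIAd, ← Finset.inf_univ_eq_iInf, Ideal.IsPrime.inf_le' (Lam_prime C)] at h1
        obtain ⟨j, _, hj⟩ := h1
        exact ⟨j, (Lam_inj hj).symm⟩
      · right
        rw [hIBd, ← Finset.inf_univ_eq_iInf, Ideal.IsPrime.inf_le' (Lam_prime C)] at h1
        obtain ⟨i, _, hi⟩ := h1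
        exact ⟨i, (Lam_inj hi).symm⟩
    · rintro (⟨j, rfl⟩ | ⟨i, rfl⟩)
      · filter_upwards [hag] with m hm p hp hpI
        exact iInf_le (fun s => Lam ((A s).map V.subtype)) j (hIA ((hm p hp).2 hpI))
      · filter_upwards [hag] with m hm p hp hpI
        exact iInf_le (fun s => Lam ((B s).map V.subtype)) i (hIB ((hm p hp).2 hpI))

end steps

end Pool.Agent.Helper947.Crv.LE6

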