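import Mathlib
import Pool.Agent.Helper947.Crv.Conf

open MvPolynomial Filter

namespace Pool.Agent.Helper947.Crv.LF1

section line

variable {K : Type*} [CommRing K]

end line

namespace Cfg

variable {K : Type*} [CommRing K] {J M : Type} (c : Cfg K J M)

end Cfg

section defs2

variable {K : Type*} [Field K]

end defs2

section confdefs

end confdefs

section confalg

variable {K : Type*} [Field K]

/-- lines meeting three given lines -/
theorem _root_.Pool.Agent.Helper947.Crv.bracket_zero {A0 A1 A2 : Matrix (Fin 2) (Fin 2) K} (h01 : (A0 - A1).det ≠ 0)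
    (h02 : A2 ≠ A0) (h12 : A2 ≠ A1) (B : Fin 4 → Matrix (Fin 2) (Fin 2) K)
    (h0 : ∀ s, (A0 - B s).det = 0) (h1 : ∀ s, (A1 - B s).det = 0)
    (h2 : ∀ s, (A2 - B s).det = 0) :
    Matrix.det ![bv A0 (B 0), bv A0 (B 1), bv A0 (B 2), bv A0 (B 3)] = 0 := by
  simp only [Matrix.det_fin_two, Matrix.sub_apply] at h0 h1 h2 h01
  obtain ⟨δ, hδ⟩ : ∃ δ, δ = (A1 0 0 - A0 0 0) * (A1 1 1 - A0 1 1) -
    (A1 0 1 - A0 0 1) * (A1 1 0 - A0 1 0) := ⟨_, rfl⟩
  obtain ⟨γ, hγ⟩ : ∃ γ, γ = (A2 0 0 - A0 0 0) * (A2 1 1 - A0 1 1) -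
    (A2 0 1 - A0 0 1) * (A2 1 0 - A0 1 0) := ⟨_, rfl⟩
  have hδ0 : δ ≠ 0 := by
    intro h
    apply h01
    rw [hδ] at h
    linear_combination h
  let u : Fin 4 → K := ![γ * (A1 1 1 - A0 1 1) - δ * (A2 1 1 - A0 1 1),
    -(γ * (A1 1 0 - A0 1 0) - δ * (A2 1 0 - A0 1 0)),
    -(γ * (A1 0 1 - A0 0 1) - δ * (A2 0 1 - A0 0 1)),
    γ * (A1 0 0 - A0 0 0) - δ * (A2 0 0 - A0 0 0)]
  have hdot : ∀ s, bv A0 (B s) ⬝ᵥ u = 0 := by
    intro s
    simp only [dotProduct, Fin.sum_univ_four, bv, u, Matrix.sub_apply, Matrix.cons_val_zero,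
      Matrix.cons_val_one, Matrix.cons_val]
    linear_combination γ * (h0 s - h1 s) - δ * (h0 s - h2 s) - γ * hδ + δ * hγ
  have hu : u ≠ 0 := by
    intro hu
    have e0 : γ * (A1 1 1 - A0 1 1) - δ * (A2 1 1 - A0 1 1) = 0 := congrFun hu 0
    have e1 : -(γ * (A1 1 0 - A0 1 0) - δ * (A2 1 0 - A0 1 0)) = 0 := congrFun hu 1
    have e2 : -(γ * (A1 0 1 - A0 0 1) - δ * (A2 0 1 - A0 0 1)) = 0 := congrFun hu 2
    have e3 : γ * (A1 0 0 - A0 0 0) - δ * (A2 0 0 - A0 0 0) = 0 := congrFun hu 3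
    have f0 : γ * (A1 1 1 - A0 1 1) = δ * (A2 1 1 - A0 1 1) := by linear_combination e0
    have f1 : γ * (A1 1 0 - A0 1 0) = δ * (A2 1 0 - A0 1 0) := by linear_combination -e1
    have f2 : γ * (A1 0 1 - A0 0 1) = δ * (A2 0 1 - A0 0 1) := by linear_combination -e2
    have f3 : γ * (A1 0 0 - A0 0 0) = δ * (A2 0 0 - A0 0 0) := by linear_combination e3
    have g : γ * δ * (γ - δ) = 0 := by
      have g1 : (γ * (A1 0 0 - A0 0 0)) * (γ * (A1 1 1 - A0 1 1)) -
          (γ * (A1 0 1 - A0 0 1)) * (γ * (A1 1 0 - A0 1 0)) =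
          (δ * (A2 0 0 - A0 0 0)) * (δ * (A2 1 1 - A0 1 1)) -
          (δ * (A2 0 1 - A0 0 1)) * (δ * (A2 1 0 - A0 1 0)) := by
        rw [f0, f1, f2, f3]
      linear_combination g1 + γ ^ 2 * hδ - δ ^ 2 * hγ
    rcases mul_eq_zero.1 g with g2 | g2
    · rcases mul_eq_zero.1 g2 with g3 | g3
      · apply h02
        rw [g3] at f0 f1 f2 f3
        simp only [zero_mul, zero_eq_mul, hδ0, false_or] at f0 f1 f2 f3
        ext i j
        fin_cases i <;> fin_cases j
        · exact sub_eq_zero.1 f3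
        · exact sub_eq_zero.1 f2
        · exact sub_eq_zero.1 f1
        · exact sub_eq_zero.1 f0
      · exact hδ0 g3
    · have g3 : γ = δ := sub_eq_zero.1 g2
      apply h12
      rw [g3] at f0 f1 f2 f3
      have k0 := mul_left_cancel₀ hδ0 f0
      have k1 := mul_left_cancel₀ hδ0 f1
      have k2 := mul_left_cancel₀ hδ0 f2
      have k3 := mul_left_cancel₀ hδ0 f3
      ext i j
      fin_cases i <;> fin_cases j
      · exact (sub_left_injective k3).symm
      · exact (sub_left_injective k2).symm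
      · exact (sub_left_injective k1).symm
      · exact (sub_left_injective k0).symm
  apply Matrix.exists_mulVec_eq_zero_iff.1
  refine ⟨u, hu, ?_⟩
  ext s
  fin_cases s
  · exact hdot 0
  · exact hdot 1
  · exact hdot 2
  · exact hdot 3

end confalg

end Pool.Agent.Helper947.Crv.LF1

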