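import Mathlib
import Pool.Agent.Helper947.Crv.Conf

open MvPolynomial Filter

namespace Pool.Agent.Helper947.Crv.LF2

section line

variable {K : Type*} [CommRing K]

end line

namespace Cfg

variable {K : Type*} [CommRing K] {J M : Type} (c : Cfg K J M)

end Cfg

section defs2

variable {K : Type*} [Field K]

end defs2

section confdefs

end confdefs

section confalg

variable {K : Type*} [Field K]

theorem det4_aux (a b c : Fin 4 → K) :
    Matrix.det (![Pi.single 0 1, a, b, c] : Matrix (Fin 4) (Fin 4) K) =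
      a 1 * (b 2 * c 3 - b 3 * c 2) - a 2 * (b 1 * c 3 - b 3 * c 1) +
        a 3 * (b 1 * c 2 - b 2 * c 1) := by
  rw [Matrix.det_succ_row_zero, Fin.sum_univ_four]
  simp only [Matrix.cons_val_zero, Pi.single_eq_same]
  rw [show (Pi.single (0 : Fin 4) (1 : K) : Fin 4 → K) 1 = 0 from by simp,
    show (Pi.single (0 : Fin 4) (1 : K) : Fin 4 → K) 2 = 0 from by simp,
    show (Pi.single (0 : Fin 4) (1 : K) : Fin 4 → K) 3 = 0 from by simp,
    Matrix.det_fin_three]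
  simp [Matrix.submatrix, Fin.succAbove]
  ring

theorem br_aux (v : Fin 9 → Fin 4 → K) (h : br v 1 2 3 ≠ 0) :
    ∃ c : Fin 9 → Fin 4 → K, c 1 = Pi.single 1 1 ∧ c 2 = Pi.single 2 1 ∧ c 3 = Pi.single 3 1 ∧
      ∀ i j k, br v i j k = (c i 1 * (c j 2 * c k 3 - c j 3 * c k 2) -
        c i 2 * (c j 1 * c k 3 - c j 3 * c k 1) +
        c i 3 * (c j 1 * c k 2 - c j 2 * c k 1)) * br v 1 2 3 := by
  obtain ⟨P, hP⟩ : ∃ P : Matrix (Fin 4) (Fin 4) K, P = ![v 0, v 1, v 2, v 3] := ⟨_, rfl⟩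
  have hdet : br v 1 2 3 = P.det := by rw [hP]; rfl
  have hU : IsUnit P.det := by rw [← hdet]; exact h.isUnit
  have hrow : ∀ k : Fin 4, Matrix.vecMul (Pi.single k 1) P = P k := fun k => by
    rw [Matrix.single_one_vecMul]; rfl
  have hinv : ∀ w : Fin 4 → K, Matrix.vecMul (Matrix.vecMul w P) P⁻¹ = w := fun w => by
    rw [Matrix.vecMul_vecMul, Matrix.mul_nonsing_inv _ hU, Matrix.vecMul_one]
  have hinv' : ∀ w : Fin 4 → K, Matrix.vecMul (Matrix.vecMul w P⁻¹) P = w := fun w => by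
    rw [Matrix.vecMul_vecMul, Matrix.nonsing_inv_mul _ hU, Matrix.vecMul_one]
  refine ⟨fun i => Matrix.vecMul (v i) P⁻¹, ?_, ?_, ?_, ?_⟩
  · have : v 1 = Matrix.vecMul (Pi.single 1 1) P := by rw [hrow, hP]; rfl
    show Matrix.vecMul (v 1) P⁻¹ = _
    rw [this, hinv]
  · have : v 2 = Matrix.vecMul (Pi.single 2 1) P := by rw [hrow, hP]; rfl
    show Matrix.vecMul (v 2) P⁻¹ = _
    rw [this, hinv]
  · have : v 3 = Matrix.vecMul (Pi.single 3 1) P := by rw [hrow, hP]; rfl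
    show Matrix.vecMul (v 3) P⁻¹ = _
    rw [this, hinv]
  · intro i j k
    have h0 : v 0 = Matrix.vecMul (Pi.single 0 1) P := by rw [hrow, hP]; rfl
    obtain ⟨C, hC⟩ : ∃ C : Matrix (Fin 4) (Fin 4) K, C = ![Pi.single 0 1,
        Matrix.vecMul (v i) P⁻¹, Matrix.vecMul (v j) P⁻¹, Matrix.vecMul (v k) P⁻¹] := ⟨_, rfl⟩
    have hM : (![v 0, v i, v j, v k] : Matrix (Fin 4) (Fin 4) K) = C * P := by
      ext r s
      have h1 : ∀ (A : Matrix (Fin 4) (Fin 4) K) (r s : Fin 4), (A * P) r s =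
          Matrix.vecMul (A r) P s := fun A r s => rfl
      rw [h1, hC]
      fin_cases r
      · show v 0 s = Matrix.vecMul (Pi.single 0 1) P s
        rw [← h0]
      · show v i s = Matrix.vecMul (Matrix.vecMul (v i) P⁻¹) P s
        rw [hinv']
      · show v j s = Matrix.vecMul (Matrix.vecMul (v j) P⁻¹) P s
        rw [hinv']
      · show v k s = Matrix.vecMul (Matrix.vecMul (v k) P⁻¹) P s
        rw [hinv']
    have h2 : br v i j k = Matrix.det (![v 0, v i, v j, v k] : Matrix (Fin 4) (Fin 4) K) := rfl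
    rw [h2, hM, Matrix.det_mul, hC, det4_aux, ← hdet]

/-- the MacLane configuration forces a cube root of unity -/
theorem _root_.Pool.Agent.Helper947.Crv.mac_rel (v : Fin 9 → Fin 4 → K)
    (h : ∀ a b c : Fin 9, 0 < a → a < b → b < c → (br v a b c = 0 ↔ (a, b, c) ∈ macT)) :
    (br v 1 2 5 * br v 4 2 3) ^ 2 - (br v 1 2 5 * br v 4 2 3) * (br v 1 2 4 * br v 5 2 3) +
      (br v 1 2 4 * br v 5 2 3) ^ 2 = 0 := by
  have h123 : br v 1 2 3 ≠ 0 := by
    intro h0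
    have := (h 1 2 3 (by decide) (by decide) (by decide)).1 h0
    revert this
    decide
  obtain ⟨c, c1, c2, c3, hc⟩ := br_aux v h123
  have hz : ∀ i j k : Fin 9, 0 < i → i < j → j < k → (i, j, k) ∈ macT →
      c i 1 * (c j 2 * c k 3 - c j 3 * c k 2) - c i 2 * (c j 1 * c k 3 - c j 3 * c k 1) +
        c i 3 * (c j 1 * c k 2 - c j 2 * c k 1) = 0 := by
    intro i j k h1 h2 h3 h4
    have h5 := (h i j k h1 h2 h3).2 h4
    rw [hc] at h5
    exact (mul_eq_zero.1 h5).resolve_right h123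
  have hn : ∀ i j k : Fin 9, 0 < i → i < j → j < k → (i, j, k) ∉ macT →
      c i 1 * (c j 2 * c k 3 - c j 3 * c k 2) - c i 2 * (c j 1 * c k 3 - c j 3 * c k 1) +
        c i 3 * (c j 1 * c k 2 - c j 2 * c k 1) ≠ 0 := by
    intro i j k h1 h2 h3 h4 h5
    apply h4
    apply (h i j k h1 h2 h3).1
    rw [hc, h5, zero_mul]
  have a11 : c 1 1 = 1 := by rw [c1]; simp
  have a12 : c 1 2 = 0 := by rw [c1]; simp
  have a13 : c 1 3 = 0 := by rw [c1]; simp
  have a21 : c 2 1 = 0 := by rw [c2]; simp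
  have a22 : c 2 2 = 1 := by rw [c2]; simp
  have a23 : c 2 3 = 0 := by rw [c2]; simp
  have a31 : c 3 1 = 0 := by rw [c3]; simp
  have a32 : c 3 2 = 0 := by rw [c3]; simp
  have a33 : c 3 3 = 1 := by rw [c3]; simp
  have e1 := hz 1 3 5 (by decide) (by decide) (by decide) (by decide)
  have e2 := hz 1 4 8 (by decide) (by decide) (by decide) (by decide)
  have e3 := hz 1 6 7 (by decide) (by decide) (by decide) (by decide)
  have e4 := hz 2 3 7 (by decide) (by decide) (by decide) (by decide)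
  have e5 := hz 2 4 6 (by decide) (by decide) (by decide) (by decide)
  have e6 := hz 2 5 8 (by decide) (by decide) (by decide) (by decide)
  have e7 := hz 3 6 8 (by decide) (by decide) (by decide) (by decide)
  have e8 := hz 4 5 7 (by decide) (by decide) (by decide) (by decide)
  have n6 := hn 1 2 6 (by decide) (by decide) (by decide) (by decide)
  have n8 := hn 1 2 8 (by decide) (by decide) (by decide) (by decide)
  have n7 := hn 1 3 7 (by decide) (by decide) (by decide) (by decide)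
  rw [hc 1 2 5, hc 4 2 3, hc 1 2 4, hc 5 2 3]
  simp only [a11, a12, a13, a21, a22, a23, a31, a32, a33] at *
  obtain ⟨x4, hx4⟩ : ∃ t, t = c 4 1 := ⟨_, rfl⟩
  obtain ⟨y4, hy4⟩ : ∃ t, t = c 4 2 := ⟨_, rfl⟩
  obtain ⟨z4, hz4⟩ : ∃ t, t = c 4 3 := ⟨_, rfl⟩
  obtain ⟨x5, hx5⟩ : ∃ t, t = c 5 1 := ⟨_, rfl⟩
  obtain ⟨y5, hy5⟩ : ∃ t, t = c 5 2 := ⟨_, rfl⟩
  obtain ⟨z5, hz5⟩ : ∃ t, t = c 5 3 := ⟨_, rfl⟩
  obtain ⟨x6, hx6⟩ : ∃ t, t = c 6 1 := ⟨_, rfl⟩
  obtain ⟨y6, hy6⟩ : ∃ t, t = c 6 2 := ⟨_, rfl⟩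
  obtain ⟨z6, hz6⟩ : ∃ t, t = c 6 3 := ⟨_, rfl⟩
  obtain ⟨x7, hx7⟩ : ∃ t, t = c 7 1 := ⟨_, rfl⟩
  obtain ⟨y7, hy7⟩ : ∃ t, t = c 7 2 := ⟨_, rfl⟩
  obtain ⟨z7, hz7⟩ : ∃ t, t = c 7 3 := ⟨_, rfl⟩
  obtain ⟨x8, hx8⟩ : ∃ t, t = c 8 1 := ⟨_, rfl⟩
  obtain ⟨y8, hy8⟩ : ∃ t, t = c 8 2 := ⟨_, rfl⟩
  obtain ⟨z8, hz8⟩ : ∃ t, t = c 8 3 := ⟨_, rfl⟩
  rw [← hx4, ← hy4, ← hz4, ← hx5, ← hy5, ← hz5, ← hx7, ← hy7, ← hz7] at e8
  rw [← hy5] at e1
  rw [← hy4, ← hz4, ← hy8, ← hz8] at e2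
  rw [← hy6, ← hz6, ← hy7, ← hz7] at e3
  rw [← hx7] at e4
  rw [← hx4, ← hz4, ← hx6, ← hz6] at e5
  rw [← hx5, ← hz5, ← hx8, ← hz8] at e6
  rw [← hx6, ← hy6, ← hx8, ← hy8] at e7
  rw [← hz6] at n6
  rw [← hz8] at n8
  rw [← hy7] at n7
  rw [← hx4, ← hx5, ← hz4, ← hz5]
  have f1 : y5 = 0 := by linear_combination -e1
  have f2 : y4 * z8 = z4 * y8 := by linear_combination e2
  have f3 : y6 * z7 = z6 * y7 := by linear_combination e3
  have f4 : x7 = 0 := by linear_combination e4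
  have f5 : x4 * z6 = z4 * x6 := by linear_combination -e5
  have f6 : x5 * z8 = z5 * x8 := by linear_combination -e6
  have f7 : x6 * y8 = y6 * x8 := by linear_combination e7
  have f8 : y7 * (z4 * x5 - x4 * z5) = y4 * x5 * z7 := by
    linear_combination e8 - (x4 * z7 - z4 * x7) * f1 - y4 * z5 * f4
  have m6 : z6 ≠ 0 := by
    intro h0
    apply n6
    rw [h0]
    ring
  have m8 : z8 ≠ 0 := by
    intro h0
    apply n8
    rw [h0]
    ring
  have m7 : y7 ≠ 0 := by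
    intro h0
    apply n7
    rw [h0]
    ring
  have hE : (z6 * z8) * (y7 * x5 * z4 ^ 2 - x4 * y4 * z5 * z7) = 0 := by
    linear_combination -(z8 * x5 * z4 ^ 2) * f3 + (y6 * z7 * z4 ^ 2) * f6 -
      (z7 * z5 * z4 ^ 2) * f7 - (y8 * z7 * z5 * z4) * f5 - (x4 * z6 * z7 * z5) * f2
  have hE' := (mul_eq_zero.1 hE).resolve_left (mul_ne_zero m6 m8)
  have hQ : y7 * (x4 * z5 * (z4 * x5 - x4 * z5) - x5 ^ 2 * z4 ^ 2) = 0 := by
    linear_combination (x4 * z5) * f8 - x5 * hE'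
  have hQ' := (mul_eq_zero.1 hQ).resolve_left m7
  linear_combination (-(br v 1 2 3) ^ 4) * hQ'

end confalg

end Pool.Agent.Helper947.Crv.LF2

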