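import Mathlib
import Pool.Agent.Helper947.Crv.Conf

open MvPolynomial Filter

namespace Pool.Agent.Helper947.Crv.LF3

section line

variable {K : Type*} [CommRing K]

end line

namespace Cfg

variable {K : Type*} [CommRing K] {J M : Type} (c : Cfg K J M)

end Cfg

section defs2

variable {K : Type*} [Field K]

end defs2

section confdefs

end confdefs

section confalg

variable {K : Type*} [Field K]

/-- three by three determinant of the last three coordinates -/
def fD (u : Fin 8 → Fin 4 → K) (a b c : Fin 8) : K :=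
  u a 1 * (u b 2 * u c 3 - u b 3 * u c 2) - u a 2 * (u b 1 * u c 3 - u b 3 * u c 1) +
    u a 3 * (u b 1 * u c 2 - u b 2 * u c 1)

theorem fano_det (p q r : Fin 4 → K) :
    Matrix.det (Matrix.of ![Pi.single 0 1, p, q, r]) =
      p 1 * (q 2 * r 3 - q 3 * r 2) - p 2 * (q 1 * r 3 - q 3 * r 1) +
        p 3 * (q 1 * r 2 - q 2 * r 1) := by
  rw [Matrix.det_succ_row_zero]
  simp [Fin.sum_univ_succ, Matrix.det_fin_three, Matrix.submatrix, Fin.succAbove, Pi.single_apply]
  ring

theorem fano_br (v u : Fin 8 → Fin 4 → K) (P : Matrix (Fin 4) (Fin 4) K)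
    (hu : ∀ i, Matrix.vecMul (u i) P = v i) (h0 : u 0 = Pi.single 0 1) (a b c : Fin 8) :
    br v a b c = fD u a b c * P.det := by
  have e : (Matrix.of ![v 0, v a, v b, v c]) = (Matrix.of ![u 0, u a, u b, u c]) * P := by
    ext i j
    rw [← hu 0, ← hu a, ← hu b, ← hu c]
    fin_cases i <;> rfl
  show Matrix.det (Matrix.of ![v 0, v a, v b, v c]) = _
  rw [e, Matrix.det_mul, h0, fano_det]
  rfl

/-- the Fano configuration forces characteristic two -/
theorem _root_.Pool.Agent.Helper947.Crv.fano_rel (v : Fin 8 → Fin 4 → K)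
    (h : ∀ a b c : Fin 8, 0 < a → a < b → b < c → (br v a b c = 0 ↔ (a, b, c) ∈ fanoT)) :
    (2 : K) = 0 := by
  set P : Matrix (Fin 4) (Fin 4) K := Matrix.of ![v 0, v 1, v 2, v 3] with hP
  have hdet : P.det ≠ 0 := by
    intro h'
    have h1 := (h 1 2 3 (by decide) (by decide) (by decide)).mp h'
    revert h1; decide
  have hunit : IsUnit P.det := isUnit_iff_ne_zero.mpr hdet
  set u : Fin 8 → Fin 4 → K := fun i => Matrix.vecMul (v i) P⁻¹ with hu
  have huP : ∀ i, Matrix.vecMul (u i) P = v i := by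
    intro i
    rw [hu]
    show Matrix.vecMul (Matrix.vecMul (v i) P⁻¹) P = v i
    rw [Matrix.vecMul_vecMul, Matrix.nonsing_inv_mul P hunit, Matrix.vecMul_one]
  have hrow : ∀ (k : Fin 4), Matrix.vecMul (P k) P⁻¹ = Pi.single k 1 := by
    intro k
    have h1 : P k = Matrix.vecMul (Pi.single k 1) P := by
      rw [Matrix.single_one_vecMul]
      rfl
    rw [h1, Matrix.vecMul_vecMul, Matrix.mul_nonsing_inv P hunit, Matrix.vecMul_one]
  have u0 : u 0 = Pi.single 0 1 := hrow 0
  have u1 : u 1 = Pi.single 1 1 := hrow 1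
  have u2 : u 2 = Pi.single 2 1 := hrow 2
  have u3 : u 3 = Pi.single 3 1 := hrow 3
  have key : ∀ a b c : Fin 8, 0 < a → a < b → b < c → (fD u a b c = 0 ↔ (a, b, c) ∈ fanoT) := by
    intro a b c h1 h2 h3
    rw [← h a b c h1 h2 h3, fano_br v u P huP u0 a b c]
    constructor
    · intro h4; rw [h4, zero_mul]
    · intro h4
      rcases mul_eq_zero.mp h4 with h5 | h5
      · exact h5
      · exact absurd h5 hdet
  have t125 := (key 1 2 5 (by decide) (by decide) (by decide)).mpr (by decide)
  have t136 := (key 1 3 6 (by decide) (by decide) (by decide)).mpr (by decide)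
  have t237 := (key 2 3 7 (by decide) (by decide) (by decide)).mpr (by decide)
  have t147 := (key 1 4 7 (by decide) (by decide) (by decide)).mpr (by decide)
  have t246 := (key 2 4 6 (by decide) (by decide) (by decide)).mpr (by decide)
  have t345 := (key 3 4 5 (by decide) (by decide) (by decide)).mpr (by decide)
  have t567 := (key 5 6 7 (by decide) (by decide) (by decide)).mpr (by decide)
  have n124 : fD u 1 2 4 ≠ 0 := fun h' =>
    absurd ((key 1 2 4 (by decide) (by decide) (by decide)).mp h') (by decide)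
  have n134 : fD u 1 3 4 ≠ 0 := fun h' =>
    absurd ((key 1 3 4 (by decide) (by decide) (by decide)).mp h') (by decide)
  have n234 : fD u 2 3 4 ≠ 0 := fun h' =>
    absurd ((key 2 3 4 (by decide) (by decide) (by decide)).mp h') (by decide)
  have n235 : fD u 2 3 5 ≠ 0 := fun h' =>
    absurd ((key 2 3 5 (by decide) (by decide) (by decide)).mp h') (by decide)
  have n126 : fD u 1 2 6 ≠ 0 := fun h' =>
    absurd ((key 1 2 6 (by decide) (by decide) (by decide)).mp h') (by decide)
  have n137 : fD u 1 3 7 ≠ 0 := fun h' =>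
    absurd ((key 1 3 7 (by decide) (by decide) (by decide)).mp h') (by decide)
  have s11 : u 1 1 = 1 := by rw [u1]; simp
  have s12 : u 1 2 = 0 := by rw [u1]; simp
  have s13 : u 1 3 = 0 := by rw [u1]; simp
  have s21 : u 2 1 = 0 := by rw [u2]; simp
  have s22 : u 2 2 = 1 := by rw [u2]; simp
  have s23 : u 2 3 = 0 := by rw [u2]; simp
  have s31 : u 3 1 = 0 := by rw [u3]; simp
  have s32 : u 3 2 = 0 := by rw [u3]; simp
  have s33 : u 3 3 = 1 := by rw [u3]; simp
  clear_value u
  simp only [fD, s11, s12, s13, s21, s22, s23, s31, s32, s33, mul_zero, zero_mul, one_mul,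
    mul_one, sub_zero, zero_sub, add_zero, zero_add, neg_neg, sub_self, mul_neg, neg_zero]
    at t125 t136 t237 t147 t246 t345 t567 n124 n134 n234 n235 n126 n137
  have z5 : u 5 3 = 0 := by linear_combination t125
  have y6 : u 6 2 = 0 := by linear_combination -t136
  have x7 : u 7 1 = 0 := by linear_combination t237
  rw [z5, y6, x7] at t567
  have e1 : u 4 2 * u 7 3 = u 4 3 * u 7 2 := by linear_combination t147
  have e2 : u 4 1 * u 6 3 = u 4 3 * u 6 1 := by linear_combination -t246
  have e3 : u 4 1 * u 5 2 = u 4 2 * u 5 1 := by linear_combination t345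
  have n4 : u 4 1 * u 4 2 * u 4 3 ≠ 0 := by
    refine mul_ne_zero (mul_ne_zero ?_ ?_) ?_
    · intro h'; apply n234; linear_combination h'
    · intro h'; apply n134; linear_combination -h'
    · intro h'; apply n124; linear_combination h'
  have n5 : u 5 1 * u 6 3 * u 7 2 ≠ 0 := by
    refine mul_ne_zero (mul_ne_zero ?_ ?_) ?_
    · intro h'; apply n235; linear_combination h'
    · intro h'; apply n126; linear_combination h'
    · intro h'; apply n137; linear_combination -h'
  have e4 : (u 4 1 * u 4 2 * u 4 3) * (u 5 2 * u 6 1 * u 7 3) =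
      (u 4 1 * u 4 2 * u 4 3) * (u 5 1 * u 6 3 * u 7 2) := by
    calc (u 4 1 * u 4 2 * u 4 3) * (u 5 2 * u 6 1 * u 7 3)
        = (u 4 1 * u 5 2) * (u 4 3 * u 6 1) * (u 4 2 * u 7 3) := by ring
      _ = (u 4 2 * u 5 1) * (u 4 1 * u 6 3) * (u 4 3 * u 7 2) := by rw [e1, e3, ← e2]
      _ = _ := by ring
  have e5 := mul_left_cancel₀ n4 e4
  have e6 : 2 * (u 5 1 * u 6 3 * u 7 2) = 0 := by linear_combination -t567 - e5
  rcases mul_eq_zero.mp e6 with h6 | h6
  · exact h6
  · exact absurd h6 n5

end confalg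

end Pool.Agent.Helper947.Crv.LF3

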