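import Mathlib
import Pool.Agent.Helper947.Crv.Conf

open MvPolynomial Filter

namespace Pool.Agent.Helper947.Crv.LF4

section line

variable {K : Type*} [CommRing K]

end line

namespace Cfg

variable {K : Type*} [CommRing K] {J M : Type} (c : Cfg K J M)

end Cfg

section defs2

variable {K : Type*} [Field K]

end defs2

section confdefs

end confdefs

section confalg

variable {K : Type*} [Field K]

/-- adjacency table -/
def rtbl : Fin 10 → Fin 12 → Bool :=
  ![![true, true, true, true, true, true, true, true, true, true, false, false],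
    ![true, true, true, true, true, true, true, true, true, false, false, false],
    ![true, true, false, true, false, true, false, false, false, true, true, false],
    ![true, false, true, false, false, true, false, false, true, false, true, true],
    ![true, false, false, false, true, true, false, true, false, false, false, false],
    ![true, false, true, false, true, false, true, false, false, false, false, false],
    ![true, true, false, false, false, false, true, true, false, false, false, false],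
    ![true, false, false, true, false, false, true, false, true, false, true, false],
    ![true, false, true, true, false, false, false, true, false, false, false, true],
    ![true, true, false, false, true, false, false, false, true, false, false, false]]

/-- walk counts of length 1 -/
def rw1 : Fin 10 ⊕ Fin 12 → ℕ :=
  Sum.elim ![10, 9, 6, 6, 4, 4, 4, 5, 5, 4]
    ![10, 5, 5, 5, 5, 5, 5, 5, 5, 2, 3, 2]

/-- walk counts of length 2 -/
def rw2 : Fin 10 ⊕ Fin 12 → ℕ :=
  Sum.elim ![52, 50, 30, 30, 25, 25, 25, 28, 27, 25]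
    ![57, 33, 34, 35, 31, 35, 32, 32, 34, 16, 17, 11]

/-- walk counts of length 3 -/
def rw3 : Fin 10 ⊕ Fin 12 → ℕ :=
  Sum.elim ![339, 323, 193, 188, 155, 154, 154, 175, 169, 155]
    ![317, 182, 184, 187, 177, 187, 180, 179, 185, 82, 88, 57]

/-- walk counts of length 4 -/
def rw4 : Fin 10 ⊕ Fin 12 → ℕ :=
  Sum.elim ![1860, 1778, 1043, 1018, 860, 858, 858, 957, 924, 861]
    ![2005, 1164, 1173, 1199, 1126, 1198, 1145, 1140, 1180, 532, 556, 357]

/-- walk counts of length 5 -/
def rw5 : Fin 10 ⊕ Fin 12 → ℕ :=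
  Sum.elim ![11862, 11330, 6654, 6469, 5469, 5449, 5454, 6085, 5874, 5475]
    ![11017, 6400, 6438, 6562, 6217, 6559, 6311, 6280, 6474, 2903, 3018, 1942]

/-- walk counts of length 0 -/
def rw0 : Fin 10 ⊕ Fin 12 → ℕ := fun _ => 1

/-- boolean adjacency -/
def radj : Fin 10 ⊕ Fin 12 → Fin 10 ⊕ Fin 12 → Bool
  | Sum.inl j, Sum.inr i => rtbl j i
  | Sum.inr i, Sum.inl j => rtbl j i
  | _, _ => false

set_option maxRecDepth 100000 in
theorem rtbl_iff : ∀ (j : Fin 10) (i : Fin 12), (j, i) ∈ macE ↔ rtbl j i = true := by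
  decide

theorem radj_iff (u v : Fin 10 ⊕ Fin 12) : macAdj u v ↔ radj u v = true := by
  rcases u with j | i <;> rcases v with j' | i'
  · simp [macAdj, radj]
  · exact rtbl_iff j i'
  · exact rtbl_iff j' i
  · simp [macAdj, radj]

/-- one step of the walk count -/
def rstep (w : Fin 10 ⊕ Fin 12 → ℕ) (u : Fin 10 ⊕ Fin 12) : ℕ :=
  ∑ v, if radj u v = true then w v else 0

theorem rstep_inl (w : Fin 10 ⊕ Fin 12 → ℕ) (j : Fin 10) :
    rstep w (Sum.inl j) = ∑ i : Fin 12, if rtbl j i = true then w (Sum.inr i) else 0 := by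
  unfold rstep
  rw [Fintype.sum_sum_type]
  have : ∀ x : Fin 10, (if radj (Sum.inl j) (Sum.inl x) = true then w (Sum.inl x) else 0) = 0 := by
    intro x; simp [radj]
  simp only [this, Finset.sum_const_zero, zero_add]
  rfl

theorem rstep_inr (w : Fin 10 ⊕ Fin 12 → ℕ) (i : Fin 12) :
    rstep w (Sum.inr i) = ∑ j : Fin 10, if rtbl j i = true then w (Sum.inl j) else 0 := by
  unfold rstep
  rw [Fintype.sum_sum_type]
  have : ∀ x : Fin 12, (if radj (Sum.inr i) (Sum.inr x) = true then w (Sum.inr x) else 0) = 0 := by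
    intro x; simp [radj]
  simp only [this, Finset.sum_const_zero, add_zero]
  rfl

theorem rstep_equiv (e : Fin 10 ⊕ Fin 12 ≃ Fin 10 ⊕ Fin 12)
    (he : ∀ u v, radj (e u) (e v) = true ↔ radj u v = true) (w : Fin 10 ⊕ Fin 12 → ℕ)
    (hw : ∀ u, w (e u) = w u) (u : Fin 10 ⊕ Fin 12) : rstep w (e u) = rstep w u := by
  unfold rstep
  rw [← Equiv.sum_comp e]
  refine Finset.sum_congr rfl fun v _ => ?_
  rw [hw v]
  by_cases h : radj u v = true
  · rw [if_pos h, if_pos ((he u v).2 h)]
  · rw [if_neg h, if_neg (fun h' => h ((he u v).1 h'))]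

set_option maxRecDepth 100000 in
theorem rw_step1 : ∀ u, rw1 u = rstep rw0 u := by
  have h1 : ∀ j : Fin 10, rw1 (Sum.inl j) = ∑ i : Fin 12, if rtbl j i = true then rw0 (Sum.inr i) else 0 := by
    decide
  have h2 : ∀ i : Fin 12, rw1 (Sum.inr i) = ∑ j : Fin 10, if rtbl j i = true then rw0 (Sum.inl j) else 0 := by
    decide
  rintro (j | i)
  · rw [rstep_inl]; exact h1 j
  · rw [rstep_inr]; exact h2 i

set_option maxRecDepth 100000 in
theorem rw_step2 : ∀ u, rw2 u = rstep rw1 u := by
  have h1 : ∀ j : Fin 10, rw2 (Sum.inl j) = ∑ i : Fin 12, if rtbl j i = true then rw1 (Sum.inr i) else 0 := by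
    decide
  have h2 : ∀ i : Fin 12, rw2 (Sum.inr i) = ∑ j : Fin 10, if rtbl j i = true then rw1 (Sum.inl j) else 0 := by
    decide
  rintro (j | i)
  · rw [rstep_inl]; exact h1 j
  · rw [rstep_inr]; exact h2 i

set_option maxRecDepth 100000 in
theorem rw_step3 : ∀ u, rw3 u = rstep rw2 u := by
  have h1 : ∀ j : Fin 10, rw3 (Sum.inl j) = ∑ i : Fin 12, if rtbl j i = true then rw2 (Sum.inr i) else 0 := by
    decide
  have h2 : ∀ i : Fin 12, rw3 (Sum.inr i) = ∑ j : Fin 10, if rtbl j i = true then rw2 (Sum.inl j) else 0 := by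
    decide
  rintro (j | i)
  · rw [rstep_inl]; exact h1 j
  · rw [rstep_inr]; exact h2 i

set_option maxRecDepth 100000 in
theorem rw_step4 : ∀ u, rw4 u = rstep rw3 u := by
  have h1 : ∀ j : Fin 10, rw4 (Sum.inl j) = ∑ i : Fin 12, if rtbl j i = true then rw3 (Sum.inr i) else 0 := by
    decide
  have h2 : ∀ i : Fin 12, rw4 (Sum.inr i) = ∑ j : Fin 10, if rtbl j i = true then rw3 (Sum.inl j) else 0 := by
    decide
  rintro (j | i)
  · rw [rstep_inl]; exact h1 j
  · rw [rstep_inr]; exact h2 i

set_option maxRecDepth 100000 in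
theorem rw_step5 : ∀ u, rw5 u = rstep rw4 u := by
  have h1 : ∀ j : Fin 10, rw5 (Sum.inl j) = ∑ i : Fin 12, if rtbl j i = true then rw4 (Sum.inr i) else 0 := by
    decide
  have h2 : ∀ i : Fin 12, rw5 (Sum.inr i) = ∑ j : Fin 10, if rtbl j i = true then rw4 (Sum.inl j) else 0 := by
    decide
  rintro (j | i)
  · rw [rstep_inl]; exact h1 j
  · rw [rstep_inr]; exact h2 i

theorem rw5_inj : ∀ u v : Fin 10 ⊕ Fin 12, rw5 u = rw5 v → u = v := by
  have h1 : ∀ i j : Fin 10, rw5 (Sum.inl i) = rw5 (Sum.inl j) → i = j := by decide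
  have h2 : ∀ i j : Fin 12, rw5 (Sum.inr i) = rw5 (Sum.inr j) → i = j := by decide
  have h3 : ∀ (i : Fin 10) (j : Fin 12), rw5 (Sum.inl i) ≠ rw5 (Sum.inr j) := by decide
  rintro (i | i) (j | j) h
  · rw [h1 i j h]
  · exact absurd h (h3 i j)
  · exact absurd h.symm (h3 j i)
  · rw [h2 i j h]

/-- the graph of the first configuration has no symmetries -/
theorem _root_.Pool.Agent.Helper947.Crv.mac_rigid {X : Type*} (L L' : Fin 10 ⊕ Fin 12 → X) (hL : Function.Injective L)
    (hL' : Function.Injective L') (hr : Set.range L = Set.range L') (adj : X → X → Prop)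
    (h : ∀ u v, adj (L u) (L v) ↔ macAdj u v) (h' : ∀ u v, adj (L' u) (L' v) ↔ macAdj u v) :
    L = L' := by
  let e : Fin 10 ⊕ Fin 12 ≃ Fin 10 ⊕ Fin 12 :=
    (Equiv.ofInjective L hL).trans ((Equiv.setCongr hr).trans (Equiv.ofInjective L' hL').symm)
  have he : ∀ u, L' (e u) = L u := by
    intro u
    exact Equiv.apply_ofInjective_symm hL' ((Equiv.setCongr hr) (Equiv.ofInjective L hL u))
  have hadj : ∀ u v, radj (e u) (e v) = true ↔ radj u v = true := by
    intro u v
    rw [← radj_iff, ← radj_iff, ← h', ← h, he, he]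
  have g1 : ∀ u, rw1 (e u) = rw1 u := fun u => by
    rw [rw_step1, rw_step1]; exact rstep_equiv e hadj rw0 (fun _ => rfl) u
  have g2 : ∀ u, rw2 (e u) = rw2 u := fun u => by
    rw [rw_step2, rw_step2]; exact rstep_equiv e hadj rw1 g1 u
  have g3 : ∀ u, rw3 (e u) = rw3 u := fun u => by
    rw [rw_step3, rw_step3]; exact rstep_equiv e hadj rw2 g2 u
  have g4 : ∀ u, rw4 (e u) = rw4 u := fun u => by
    rw [rw_step4, rw_step4]; exact rstep_equiv e hadj rw3 g3 u
  have g5 : ∀ u, rw5 (e u) = rw5 u := fun u => by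
    rw [rw_step5, rw_step5]; exact rstep_equiv e hadj rw4 g4 u
  funext u
  rw [← he u, rw5_inj _ _ (g5 u)]

end confalg

end Pool.Agent.Helper947.Crv.LF4

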