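import Mathlib
import Pool.Agent.Helper947.Crv.Conf

open MvPolynomial Filter

namespace Pool.Agent.Helper947.Crv.LF5

section line

variable {K : Type*} [CommRing K]

end line

namespace Cfg

variable {K : Type*} [CommRing K] {J M : Type} (c : Cfg K J M)

end Cfg

section defs2

variable {K : Type*} [Field K]

end defs2

section confdefs

end confdefs

section confalg

variable {K : Type*} [Field K]

theorem homog_hom_8062 {K : Type*} [CommRing K] (e : ℕ) (F : Polynomial K) :
    (homog e F).IsHomogeneous e := by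
  unfold homog
  refine MvPolynomial.IsHomogeneous.sum _ _ _ fun k hk => ?_
  rw [Finset.mem_range] at hk
  have h1 : (MvPolynomial.C (F.coeff k) * X 0 ^ k * X 1 ^ (e - k) : P2 K).IsHomogeneous
      (0 + 1 * k + 1 * (e - k)) :=
    (((isHomogeneous_C _ _).mul ((isHomogeneous_X _ _).pow k)).mul ((isHomogeneous_X _ _).pow _))
  have h2 : 0 + 1 * k + 1 * (e - k) = e := by omega
  rw [h2] at h1
  exact h1

theorem homog_lead_8062 {K : Type*} [CommRing K] (e : ℕ) (F : Polynomial K) (hF : F.coeff e = 1) :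
    ∃ H : P2 K, homog e F = X 0 ^ e + X 1 * H := by
  unfold homog
  rw [Finset.sum_range_succ, hF]
  refine ⟨∑ k ∈ Finset.range e, MvPolynomial.C (F.coeff k) * X 0 ^ k * X 1 ^ (e - k - 1), ?_⟩
  rw [Finset.mul_sum, Nat.sub_self, pow_zero, mul_one, map_one, one_mul, add_comm]
  congr 1
  refine Finset.sum_congr rfl fun k hk => ?_
  rw [Finset.mem_range] at hk
  have : e - k = (e - k - 1) + 1 := by omega
  conv_lhs => rw [this, pow_succ]
  ring

theorem cop_8062 {K : Type*} [CommRing K] (e : ℕ) (g : P2 K) (H : P2 K)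
    (hg : g = X 0 ^ e + X 1 * H) (f : P2 K) (hf : f.IsHomogeneous (e * e + e)) :
    f ∈ Ideal.span {(X 1 ^ e : P2 K), g} := by
  have m1 : (X 1 ^ e : P2 K) ∈ Ideal.span {(X 1 ^ e : P2 K), g} :=
    Ideal.subset_span (by simp)
  have m2 : g ∈ Ideal.span {(X 1 ^ e : P2 K), g} := Ideal.subset_span (by simp)
  have m3 : (X 0 ^ (e * e) : P2 K) ∈ Ideal.span {(X 1 ^ e : P2 K), g} := by
    have h1 : (X 0 ^ e : P2 K) = -(X 1 * H) + g := by rw [hg]; ring
    rw [pow_mul, h1]
    have h2 : (-(X 1 * H)) ^ e = X 1 ^ e * (-H) ^ e := by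
      rw [← mul_pow]; congr 1; ring
    obtain ⟨q, hq⟩ : g ∣ (-(X 1 * H) + g) ^ e - (-(X 1 * H)) ^ e := by
      have := sub_dvd_pow_sub_pow (-(X 1 * H) + g) (-(X 1 * H)) e
      rwa [add_sub_cancel_left] at this
    have h3 : (-(X 1 * H) + g) ^ e = X 1 ^ e * (-H) ^ e + g * q := by
      rw [← h2, ← hq]; ring
    rw [h3]
    exact Ideal.add_mem _ (Ideal.mul_mem_right _ _ m1) (Ideal.mul_mem_right _ _ m2)
  rw [← MvPolynomial.support_sum_monomial_coeff f]
  refine Ideal.sum_mem _ fun d hd => ?_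
  have hdeg : d 0 + d 1 = e * e + e := by
    have h1 := hf (MvPolynomial.mem_support_iff.1 hd)
    rw [← h1, Finsupp.weight_apply, Finsupp.sum_fintype _ _ (by intro i; simp)]
    simp
  have hmon : (monomial d (coeff d f) : P2 K) = MvPolynomial.C (coeff d f) * X 0 ^ d 0 *
      X 1 ^ d 1 := by
    rw [MvPolynomial.monomial_eq, Finsupp.prod_fintype _ _ (by intro i; simp)]
    simp [Fin.prod_univ_two, mul_assoc]
  rw [hmon]
  rcases Nat.lt_or_ge (d 0) (e * e) with h | h
  · have h2 : e ≤ d 1 := by omega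
    obtain ⟨r, hr⟩ := Nat.exists_eq_add_of_le h2
    rw [hr, pow_add]
    have : MvPolynomial.C (coeff d f) * X 0 ^ d 0 * (X 1 ^ e * X 1 ^ r) =
      X 1 ^ e * (MvPolynomial.C (coeff d f) * X 0 ^ d 0 * X 1 ^ r : P2 K) := by ring
    rw [this]
    exact Ideal.mul_mem_right _ _ m1
  · obtain ⟨r, hr⟩ := Nat.exists_eq_add_of_le h
    rw [hr, pow_add]
    have : MvPolynomial.C (coeff d f) * (X 0 ^ (e * e) * X 0 ^ r) * X 1 ^ d 1 =
      X 0 ^ (e * e) * (MvPolynomial.C (coeff d f) * X 0 ^ r * X 1 ^ d 1 : P2 K) := by ring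
    rw [this]
    exact Ideal.mul_mem_right _ _ m3

theorem interp_8062 {K : Type*} [Field K] {M : Type} [DecidableEq M] (e : ℕ) (S : Finset M)
    (s y : M → K) (hs : Set.InjOn s S) (he : S.card < e) :
    (interp e S s y).natDegree ≤ e ∧ (interp e S s y).coeff e = 1 ∧
      ∀ i ∈ S, (interp e S s y).eval (s i) = y i := by
  have hmon1 : (∏ i ∈ S, (Polynomial.X - Polynomial.C (s i))).Monic :=
    Polynomial.monic_prod_of_monic _ _ fun i _ => Polynomial.monic_X_sub_C _
  have hmon : (Polynomial.X ^ (e - S.card) * ∏ i ∈ S, (Polynomial.X - Polynomial.C (s i))).Monic :=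
    (Polynomial.monic_X_pow _).mul hmon1
  have hdeg1 : (∏ i ∈ S, (Polynomial.X - Polynomial.C (s i))).natDegree = S.card := by
    rw [Polynomial.natDegree_prod_of_monic _ _ fun i _ => Polynomial.monic_X_sub_C _]
    simp
  have hdeg : (Polynomial.X ^ (e - S.card) *
      ∏ i ∈ S, (Polynomial.X - Polynomial.C (s i))).natDegree = e := by
    rw [Polynomial.Monic.natDegree_mul (Polynomial.monic_X_pow _) hmon1,
      Polynomial.natDegree_X_pow, hdeg1]
    omega
  have hlag := Lagrange.degree_interpolate_lt y hs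
  have hlag2 : (Lagrange.interpolate S s y).degree < (e : WithBot ℕ) :=
    hlag.trans (by exact_mod_cast he)
  refine ⟨?_, ?_, ?_⟩
  · unfold interp
    refine (Polynomial.natDegree_add_le _ _).trans (max_le ?_ hdeg.le)
    exact Polynomial.natDegree_le_of_degree_le hlag2.le
  · unfold interp
    rw [Polynomial.coeff_add, Polynomial.coeff_eq_zero_of_degree_lt hlag2, zero_add]
    have := hmon.coeff_natDegree
    rwa [hdeg] at this
  · intro i hi
    unfold interp
    rw [Polynomial.eval_add, Lagrange.eval_interpolate_at_node y hs hi, Polynomial.eval_mul,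
      Polynomial.eval_prod, Finset.prod_eq_zero hi (by simp), mul_zero, add_zero]

theorem inj_8062 {K : Type*} [Field K] (A B B' : Matrix (Fin 2) (Fin 2) K)
    (h1 : (A - B).det = 0) (h2 : (A - B').det = 0) (h3 : (A - B) 0 0 ≠ 0) (h4 : (A - B') 0 0 ≠ 0)
    (h : - (A - B) 0 1 / (A - B) 0 0 = - (A - B') 0 1 / (A - B') 0 0) : (B - B').det = 0 := by
  rw [Matrix.det_fin_two] at h1 h2 ⊢
  obtain ⟨D, hD⟩ : ∃ D, D = A - B := ⟨_, rfl⟩
  obtain ⟨D', hD'⟩ : ∃ D', D' = A - B' := ⟨_, rfl⟩
  rw [← hD] at h1 h3 h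
  rw [← hD'] at h2 h4 h
  have hB : B - B' = D' - D := by rw [hD, hD']; abel
  rw [hB]
  simp only [Matrix.sub_apply]
  obtain ⟨s, hs⟩ : ∃ s, s = - D 0 1 / D 0 0 := ⟨_, rfl⟩
  have e1 : D 0 1 = - s * D 0 0 := by rw [hs]; field_simp
  have e2 : D' 0 1 = - s * D' 0 0 := by rw [hs, h]; field_simp
  have e3 : D 1 1 = - s * D 1 0 := by
    apply mul_left_cancel₀ h3
    rw [e1] at h1
    linear_combination h1
  have e4 : D' 1 1 = - s * D' 1 0 := by
    apply mul_left_cancel₀ h4
    rw [e2] at h2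
    linear_combination h2
  rw [e1, e2, e3, e4]
  ring

/-- configurations given by matrices are good -/
theorem _root_.Pool.Agent.Helper947.Crv.good_of {J M : Type} [Fintype M] [DecidableEq J] [DecidableEq M]
    (A : J → Matrix (Fin 2) (Fin 2) K) (B : M → Matrix (Fin 2) (Fin 2) K) (E : Finset (J × M))
    {e : ℕ} (he : Fintype.card M < e) (hA : ∀ j j', j ≠ j' → (A j - A j').det ≠ 0)
    (hB : ∀ i i', i ≠ i' → (B i - B i').det ≠ 0)
    (hinc : ∀ j i, (A j - B i).det = 0 ↔ (j, i) ∈ E)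
    (h00 : ∀ j i, (j, i) ∈ E → (A j - B i) 0 0 ≠ 0) : (mkCfg A B E e).Good e E := by
  have hinj : ∀ j, Set.InjOn (fun i => - (A j - B i) 0 1 / (A j - B i) 0 0)
      (Finset.univ.filter fun i => (j, i) ∈ E : Finset M) := by
    intro j i hi i' hi' h
    by_contra hne
    simp only [Finset.coe_filter, Finset.mem_univ, true_and, Set.mem_ofPred_eq] at hi hi'
    exact hB i i' hne (inj_8062 (A j) (B i) (B i') ((hinc j i).2 hi) ((hinc j i').2 hi')
      (h00 j i hi) (h00 j i' hi') h)
  have hint : ∀ j, _ := fun j => interp_8062 e (Finset.univ.filter fun i => (j, i) ∈ E)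
    (fun i => - (A j - B i) 0 1 / (A j - B i) 0 0) (fun i => (A j - B i) 1 0 / (A j - B i) 0 0)
    (hinj j) (lt_of_le_of_lt (Finset.card_le_univ _) he)
  refine ⟨?_, ?_, hA, hB, ?_, hinc, ?_⟩
  · intro j a
    fin_cases a
    · show (X 1 ^ e : P2 K).IsHomogeneous e
      have := (isHomogeneous_X K (1 : Fin 2)).pow e
      rwa [one_mul] at this
    · exact homog_hom_8062 e _
  · intro j
    obtain ⟨H, hH⟩ := homog_lead_8062 e _ (hint j).2.1
    exact ⟨e * e + e, fun f hf => cop_8062 e _ H hH f hf⟩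
  · intro j i h
    have h1 : A j - B i = 0 := sub_eq_zero.2 h
    have h2 : (j, i) ∈ E := (hinc j i).1 (by rw [h1, Matrix.det_zero])
    exact h00 j i h2 (by rw [h1]; rfl)
  · intro j i hji t ht v
    change (A j - B i).mulVec t = 0 at ht
    obtain ⟨hd, -, hev⟩ := hint j
    have h1 := hev i (by simpa using hji)
    obtain ⟨Ph, hPh⟩ : ∃ Ph, Ph = interp e (Finset.univ.filter fun i => (j, i) ∈ E)
      (fun i => - (A j - B i) 0 1 / (A j - B i) 0 0)
      (fun i => (A j - B i) 1 0 / (A j - B i) 0 0) := ⟨_, rfl⟩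
    rw [← hPh] at h1 hd
    show eval t (X 1 ^ e) * (A j - B i).mulVec v 1 = eval t (homog e (interp e
      (Finset.univ.filter fun i => (j, i) ∈ E)
      (fun i => - (A j - B i) 0 1 / (A j - B i) 0 0)
      (fun i => (A j - B i) 1 0 / (A j - B i) 0 0))) * (A j - B i).mulVec v 0
    rw [← hPh]
    have hdet := (hinc j i).2 hji
    have h0 := h00 j i hji
    rw [Matrix.det_fin_two] at hdet
    obtain ⟨D, hD⟩ : ∃ D, D = A j - B i := ⟨_, rfl⟩
    simp only [← hD] at h1 ht hdet h0 ⊢
    have ht0 : D 0 0 * t 0 + D 0 1 * t 1 = 0 := by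
      have := congrFun ht 0
      simpa [Matrix.mulVec, dotProduct, Fin.sum_univ_two] using this
    obtain ⟨s, hs⟩ : ∃ s, s = - D 0 1 / D 0 0 := ⟨_, rfl⟩
    rw [← hs] at h1
    have e1 : D 0 1 = - s * D 0 0 := by rw [hs]; field_simp
    have et : t 0 = s * t 1 := by
      apply mul_left_cancel₀ h0
      rw [e1] at ht0
      linear_combination ht0
    have e3 : D 1 1 = - s * D 1 0 := by
      apply mul_left_cancel₀ h0
      rw [e1] at hdet
      linear_combination hdet
    have hev2 : eval t (homog e Ph) = t 1 ^ e * (D 1 0 / D 0 0) := by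
      rw [← h1, Polynomial.eval_eq_sum_range' (Nat.lt_succ_of_le hd)]
      unfold homog
      rw [map_sum, Finset.mul_sum]
      refine Finset.sum_congr rfl fun k hk => ?_
      rw [Finset.mem_range] at hk
      simp only [map_mul, map_pow, eval_C, eval_X]
      rw [et, mul_pow]
      have : t 1 ^ e = t 1 ^ k * t 1 ^ (e - k) := by
        rw [← pow_add]; congr 1; omega
      rw [this]
      ring
    rw [hev2]
    simp only [map_pow, eval_X, Matrix.mulVec, dotProduct, Fin.sum_univ_two]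
    rw [e1, e3]
    field_simp

end confalg

end Pool.Agent.Helper947.Crv.LF5

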