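import Mathlib
import Pool.Agent.Helper947.Crv.Conf

open MvPolynomial Filter

namespace Pool.Agent.Helper947.Crv.LF6

section line

variable {K : Type*} [CommRing K]

end line

namespace Cfg

variable {K : Type*} [CommRing K] {J M : Type} (c : Cfg K J M)

end Cfg

section defs2

variable {K : Type*} [Field K]

end defs2

section confdefs

end confdefs

section confalg

variable {K : Type*} [Field K]

/-- scaling of the argument of a form -/
theorem eval_smul_form {K : Type*} [Field K] {e : ℕ} {F : P2 K}
    (hF : F.IsHomogeneous e) (l : K) (x : Fin 2 → K) :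
    eval (fun i => l * x i) F = l ^ e * eval x F := by
  rw [eval_eq', eval_eq', Finset.mul_sum]
  refine Finset.sum_congr rfl fun d hd => ?_
  have h1 : coeff d F ≠ 0 := mem_support_iff.1 hd
  have h2 := hF h1
  have h3 : d 0 + d 1 = e := by
    rw [← h2]
    simp [Finsupp.weight_apply, Finsupp.sum_fintype]
  simp only [Fin.prod_univ_two, mul_pow]
  rw [← h3, pow_add]
  ring

theorem eval_map_comp {K K' : Type*} [Field K] [Field K'] (φ : K →+* K') (x : Fin 2 → K)
    (F : P2 K) : eval (fun i => φ (x i)) (MvPolynomial.map φ F) = φ (eval x F) := by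
  induction F using MvPolynomial.induction_on with
  | C a => simp
  | add p q hp hq => simp [hp, hq]
  | mul_X p n hp => simp [hp]

theorem det_map_sub {K K' : Type*} [Field K] [Field K'] (φ : K →+* K')
    (A B : Matrix (Fin 2) (Fin 2) K) : (A.map φ - B.map φ).det = φ ((A - B).det) := by
  simp [Matrix.det_fin_two]

theorem _root_.Pool.Agent.Helper947.Crv.Good.map {K' : Type*} [Field K'] {J M : Type} {c : Cfg K J M} {e : ℕ}
    {E : Finset (J × M)} (hc : c.Good e E) (φ : K →+* K') : (c.map φ).Good e E := by
  have hφ := φ.injective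
  refine ⟨?_, ?_, ?_, ?_, ?_, ?_, ?_⟩
  · intro j a
    have := hc.G_hom j a
    rw [mem_homogeneousSubmodule] at this ⊢
    exact this.map φ
  · intro j
    obtain ⟨N, hN⟩ := hc.G_cop j
    refine ⟨N, fun f hf => ?_⟩
    rw [mem_homogeneousSubmodule] at hf
    rw [f.as_sum]
    refine Ideal.sum_mem _ fun v hv => ?_
    have h1 : coeff v f ≠ 0 := mem_support_iff.1 hv
    have h2 := hf h1
    have h3 : (monomial v (1 : K)) ∈ homogeneousSubmodule (Fin 2) K N := by
      rw [mem_homogeneousSubmodule]
      refine isHomogeneous_monomial _ ?_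
      rw [← h2]
      simp [Finsupp.weight_apply, Finsupp.sum_fintype, Finsupp.degree_eq_sum]
    have h4 := Ideal.mem_map_of_mem (MvPolynomial.map φ) (hN _ h3)
    rw [Ideal.map_span, Set.image_pair] at h4
    have h5 : monomial v (coeff v f) = MvPolynomial.C (coeff v f) *
        MvPolynomial.map φ (monomial v (1 : K)) := by
      rw [map_monomial, C_mul_monomial, map_one, mul_one]
    rw [h5]
    exact Ideal.mul_mem_left _ _ h4
  · intro j j' hjj
    show ((c.A j).map φ - (c.A j').map φ).det ≠ 0
    rw [det_map_sub]
    exact fun h => hc.skewA j j' hjj ((map_eq_zero φ).1 h)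
  · intro j j' hjj
    show ((c.B j).map φ - (c.B j').map φ).det ≠ 0
    rw [det_map_sub]
    exact fun h => hc.skewB j j' hjj ((map_eq_zero φ).1 h)
  · intro j i h
    exact hc.ne j i (Matrix.map_injective hφ h)
  · intro j i
    show ((c.A j).map φ - (c.B i).map φ).det = 0 ↔ _
    rw [det_map_sub, map_eq_zero]
    exact hc.inc j i
  · intro j i hji t' ht' s'
    have hd0 : (c.A j - c.B i).det = 0 := (hc.inc j i).2 hji
    have hne : c.A j - c.B i ≠ 0 := sub_ne_zero.2 (hc.ne j i)
    have hpl := hc.pl j i hji
    have hm : (c.map φ).A j - (c.map φ).B i = (c.A j - c.B i).map φ := by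
      ext a b
      simp [Cfg.map]
    rw [hm] at ht' ⊢
    generalize c.A j - c.B i = D at *
    have g0 := hc.G_hom j 0
    have g1 := hc.G_hom j 1
    rw [mem_homogeneousSubmodule] at g0 g1
    show eval t' (MvPolynomial.map φ (c.G j 0)) * _ = eval t' (MvPolynomial.map φ (c.G j 1)) * _
    rw [Matrix.det_fin_two] at hd0
    -- a nonzero row
    obtain ⟨r, hr⟩ : ∃ r, D r 0 ≠ 0 ∨ D r 1 ≠ 0 := by
      by_contra hcon
      push Not at hcon
      apply hne
      ext a b
      fin_cases b
      · exact (hcon a).1
      · exact (hcon a).2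
    have hker : D.mulVec ![D r 1, - D r 0] = 0 := by
      ext a
      fin_cases r <;> fin_cases a <;> simp [Matrix.mulVec, dotProduct, Fin.sum_univ_two] <;>
        first
        | linear_combination hd0
        | linear_combination -hd0
        | ring1
    have h0 := congrArg φ (hpl _ hker ![1, 0])
    have h1 := congrArg φ (hpl _ hker ![0, 1])
    have hk := congrFun ht' r
    simp only [Matrix.mulVec, dotProduct, Fin.sum_univ_two, Matrix.map_apply,
      Pi.zero_apply] at hk
    obtain ⟨l, hl⟩ : ∃ l : K', t' = fun i => l * φ ((![D r 1, - D r 0] : Fin 2 → K) i) := by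
      rcases hr with hr | hr
      · have hr' : φ (D r 0) ≠ 0 := fun h => hr ((map_eq_zero φ).1 h)
        refine ⟨- t' 1 / φ (D r 0), ?_⟩
        ext a
        fin_cases a
        · simp
          field_simp
          linear_combination hk
        · simp
          field_simp
      · have hr' : φ (D r 1) ≠ 0 := fun h => hr ((map_eq_zero φ).1 h)
        refine ⟨t' 0 / φ (D r 1), ?_⟩
        ext a
        fin_cases a
        · simp
          field_simp
        · simp
          field_simp
          linear_combination hk
    rw [hl, eval_smul_form (g0.map φ) l, eval_smul_form (g1.map φ) l, eval_map_comp,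
      eval_map_comp]
    simp only [map_mul, Matrix.mulVec, dotProduct, Fin.sum_univ_two, Matrix.map_apply,
      Matrix.cons_val_zero, Matrix.cons_val_one, mul_one, mul_zero, add_zero, zero_add] at h0 h1 ⊢
    linear_combination l ^ e * s' 0 * h0 + l ^ e * s' 1 * h1

theorem homog_map {K K' : Type*} [Field K] [Field K'] (φ : K →+* K') (e : ℕ) (F : Polynomial K) :
    MvPolynomial.map φ (homog e F) = homog e (F.map φ) := by
  simp [homog, map_sum, Polynomial.coeff_map]

theorem interp_map {K K' : Type*} [Field K] [Field K'] {M : Type} [DecidableEq M]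
    (φ : K →+* K') (e : ℕ) (S : Finset M) (s y : M → K) :
    (interp e S s y).map φ = interp e S (fun i => φ (s i)) (fun i => φ (y i)) := by
  simp only [interp, Polynomial.map_add, Polynomial.map_mul, Polynomial.map_pow,
    Polynomial.map_X, Polynomial.map_prod, Polynomial.map_sub, Polynomial.map_C,
    Lagrange.interpolate_apply, Polynomial.map_sum, Lagrange.basis, Lagrange.basisDivisor,
    map_inv₀, map_sub]

theorem _root_.Pool.Agent.Helper947.Crv.mkCfg_map {K' : Type*} [Field K'] {J M : Type} [Fintype M] [DecidableEq J]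
    [DecidableEq M] (A : J → Matrix (Fin 2) (Fin 2) K) (B : M → Matrix (Fin 2) (Fin 2) K)
    (E : Finset (J × M)) (e : ℕ) (φ : K →+* K') :
    (mkCfg A B E e).map φ = mkCfg (fun j => (A j).map φ) (fun i => (B i).map φ) E e := by
  simp only [mkCfg, Cfg.map, Cfg.mk.injEq, true_and, and_true]
  funext j a
  fin_cases a
  · simp
  · simp [homog_map, interp_map]

theorem _root_.Pool.Agent.Helper947.Crv.eis_map {K' : Type*} [Field K'] (φ : K →+* K') (ω : K) (T : Fin 2 → Fin 2 → ℤ × ℤ) :
    (eis ω T).map φ = eis (φ ω) T := by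
  ext a b
  simp [eis]

theorem _root_.Pool.Agent.Helper947.Crv.gfm_map {K' : Type*} [Field K'] (φ : K →+* K') (α : K) (T : Fin 2 → Fin 2 → ℕ) :
    (gfm α T).map φ = gfm (φ α) T := by
  ext a b
  simp [gfm, gfe, map_sum, apply_ite φ]

end confalg

end Pool.Agent.Helper947.Crv.LF6

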