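import Mathlib
import Pool.Agent.Helper947.Crv.Conf
import Pool.Agent.Helper947.Crv.F5

open MvPolynomial Filter

namespace Pool.Agent.Helper947.Crv.LF7

section line

variable {K : Type*} [CommRing K]

end line

namespace Cfg

variable {K : Type*} [CommRing K] {J M : Type} (c : Cfg K J M)

end Cfg

section defs2

variable {K : Type*} [Field K]

end defs2

section confdefs

end confdefs

section confalg

variable {K : Type*} [Field K]

/-- multiplication of Eisenstein integers as pairs -/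
def mulE (p q : ℤ × ℤ) : ℤ × ℤ := (p.1 * q.1 - p.2 * q.2, p.1 * q.2 + p.2 * q.1 - p.2 * q.2)

/-- value of an Eisenstein integer -/
def embE (ω : K) (p : ℤ × ℤ) : K := (p.1 : K) + (p.2 : K) * ω

theorem embE_sub (ω : K) (p q : ℤ × ℤ) : embE ω (p - q) = embE ω p - embE ω q := by
  unfold embE
  rw [Prod.fst_sub, Prod.snd_sub]
  push_cast
  ring

theorem embE_add (ω : K) (p q : ℤ × ℤ) : embE ω (p + q) = embE ω p + embE ω q := by
  unfold embE
  rw [Prod.fst_add, Prod.snd_add]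
  push_cast
  ring

theorem embE_mul {ω : K} (hω : ω ^ 2 + ω + 1 = 0) (p q : ℤ × ℤ) :
    embE ω (mulE p q) = embE ω p * embE ω q := by
  unfold embE mulE
  push_cast
  linear_combination (-(p.2 : K) * q.2) * hω

theorem embE_eq_zero [CharZero K] {ω : K} (hω : ω ^ 2 + ω + 1 = 0) (p : ℤ × ℤ) :
    embE ω p = 0 ↔ p = 0 := by
  constructor
  · intro h
    obtain ⟨a, b⟩ := p
    have h1 : ((a ^ 2 - a * b + b ^ 2 : ℤ) : K) = embE ω (a, b) * embE ω (a - b, -b) := by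
      unfold embE
      push_cast
      linear_combination ((b : K) ^ 2) * hω
    rw [h, zero_mul] at h1
    have h2 : a ^ 2 - a * b + b ^ 2 = 0 := by exact_mod_cast h1
    have h3 : b = 0 := by
      have h4 : b ^ 2 = 0 := by nlinarith [sq_nonneg (2 * a - b), sq_nonneg b]
      exact pow_eq_zero_iff (two_ne_zero) |>.1 h4
    have h5 : a = 0 := by
      rw [h3] at h2
      have h4 : a ^ 2 = 0 := by linarith
      exact pow_eq_zero_iff (two_ne_zero) |>.1 h4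
    rw [h3, h5]
    rfl
  · rintro rfl
    simp [embE]

/-- 2x2 determinant of the difference -/
def detE (T T' : Fin 2 → Fin 2 → ℤ × ℤ) : ℤ × ℤ :=
  mulE (T 0 0 - T' 0 0) (T 1 1 - T' 1 1) - mulE (T 0 1 - T' 0 1) (T 1 0 - T' 1 0)

theorem det_eis {ω : K} (hω : ω ^ 2 + ω + 1 = 0) (T T' : Fin 2 → Fin 2 → ℤ × ℤ) :
    (eis ω T - eis ω T').det = embE ω (detE T T') := by
  unfold detE
  rw [embE_sub, embE_mul hω, embE_mul hω, embE_sub, embE_sub, embE_sub, embE_sub,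
    Matrix.det_fin_two]
  simp only [eis, Matrix.sub_apply, Matrix.of_apply, embE]

theorem _root_.Pool.Agent.Helper947.Crv.macCfg_good [CharZero K] {ω : K} (hω : ω ^ 2 + ω + 1 = 0) :
    (macCfg ω).Good 116 macE := by
  unfold macCfg
  apply good_of
  · simp
  · have h : ∀ j j' : Fin 10, j ≠ j' → detE (macA j) (macA j') ≠ 0 := by decide +kernel
    intro j j' hjj
    rw [det_eis hω, Ne, embE_eq_zero hω]
    exact h j j' hjj
  · have h : ∀ j j' : Fin 12, j ≠ j' → detE (macB j) (macB j') ≠ 0 := by decide +kernel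
    intro j j' hjj
    rw [det_eis hω, Ne, embE_eq_zero hω]
    exact h j j' hjj
  · have h : ∀ (j : Fin 10) (i : Fin 12), detE (macA j) (macB i) = 0 ↔ (j, i) ∈ macE := by
      decide +kernel
    intro j i
    rw [det_eis hω, embE_eq_zero hω]
    exact h j i
  · have h : ∀ (j : Fin 10) (i : Fin 12), (j, i) ∈ macE → macA j 0 0 - macB i 0 0 ≠ 0 := by
      decide +kernel
    intro j i hji h0
    apply h j i hji
    rw [← embE_eq_zero hω, embE_sub]
    exact h0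

/-- explicit 4x4 determinant -/
theorem det4_formula (m : Fin 4 → Fin 4 → K) : Matrix.det (m : Matrix (Fin 4) (Fin 4) K) =
    m 0 0 * (m 1 1 * (m 2 2 * m 3 3 - m 2 3 * m 3 2) - m 1 2 * (m 2 1 * m 3 3 - m 2 3 * m 3 1) +
      m 1 3 * (m 2 1 * m 3 2 - m 2 2 * m 3 1)) -
    m 0 1 * (m 1 0 * (m 2 2 * m 3 3 - m 2 3 * m 3 2) - m 1 2 * (m 2 0 * m 3 3 - m 2 3 * m 3 0) +
      m 1 3 * (m 2 0 * m 3 2 - m 2 2 * m 3 0)) +
    m 0 2 * (m 1 0 * (m 2 1 * m 3 3 - m 2 3 * m 3 1) - m 1 1 * (m 2 0 * m 3 3 - m 2 3 * m 3 0) +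
      m 1 3 * (m 2 0 * m 3 1 - m 2 1 * m 3 0)) -
    m 0 3 * (m 1 0 * (m 2 1 * m 3 2 - m 2 2 * m 3 1) - m 1 1 * (m 2 0 * m 3 2 - m 2 2 * m 3 0) +
      m 1 2 * (m 2 0 * m 3 1 - m 2 1 * m 3 0)) := by
  rw [Matrix.det_succ_row_zero]
  simp only [Fin.sum_univ_four, Matrix.det_fin_three, Matrix.submatrix_apply]
  have e1 : (Fin.succ 0 : Fin 4) = 1 := rfl
  have e2 : (Fin.succ 1 : Fin 4) = 2 := rfl
  have e3 : (Fin.succ 2 : Fin 4) = 3 := rfl
  have s00 : (Fin.succAbove 0 0 : Fin 4) = 1 := rfl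
  have s01 : (Fin.succAbove 0 1 : Fin 4) = 2 := rfl
  have s02 : (Fin.succAbove 0 2 : Fin 4) = 3 := rfl
  have s10 : (Fin.succAbove 1 0 : Fin 4) = 0 := rfl
  have s11 : (Fin.succAbove 1 1 : Fin 4) = 2 := rfl
  have s12 : (Fin.succAbove 1 2 : Fin 4) = 3 := rfl
  have s20 : (Fin.succAbove 2 0 : Fin 4) = 0 := rfl
  have s21 : (Fin.succAbove 2 1 : Fin 4) = 1 := rfl
  have s22 : (Fin.succAbove 2 2 : Fin 4) = 3 := rfl
  have s30 : (Fin.succAbove 3 0 : Fin 4) = 0 := rfl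
  have s31 : (Fin.succAbove 3 1 : Fin 4) = 1 := rfl
  have s32 : (Fin.succAbove 3 2 : Fin 4) = 2 := rfl
  have v0 : ((0 : Fin 4) : ℕ) = 0 := rfl
  have v1 : ((1 : Fin 4) : ℕ) = 1 := rfl
  have v2 : ((2 : Fin 4) : ℕ) = 2 := rfl
  have v3 : ((3 : Fin 4) : ℕ) = 3 := rfl
  simp only [e1, e2, e3, s00, s01, s02, s10, s11, s12, s20, s21, s22, s30, s31, s32, v0, v1, v2, v3]
  ring

/-- explicit 4x4 determinant for pairs -/
def det4E (m : Fin 4 → Fin 4 → ℤ × ℤ) : ℤ × ℤ :=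
    mulE (m 0 0) (mulE (m 1 1) (mulE (m 2 2) (m 3 3) - mulE (m 2 3) (m 3 2)) -
      mulE (m 1 2) (mulE (m 2 1) (m 3 3) - mulE (m 2 3) (m 3 1)) +
      mulE (m 1 3) (mulE (m 2 1) (m 3 2) - mulE (m 2 2) (m 3 1))) -
    mulE (m 0 1) (mulE (m 1 0) (mulE (m 2 2) (m 3 3) - mulE (m 2 3) (m 3 2)) -
      mulE (m 1 2) (mulE (m 2 0) (m 3 3) - mulE (m 2 3) (m 3 0)) +
      mulE (m 1 3) (mulE (m 2 0) (m 3 2) - mulE (m 2 2) (m 3 0))) +
    mulE (m 0 2) (mulE (m 1 0) (mulE (m 2 1) (m 3 3) - mulE (m 2 3) (m 3 1)) -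
      mulE (m 1 1) (mulE (m 2 0) (m 3 3) - mulE (m 2 3) (m 3 0)) +
      mulE (m 1 3) (mulE (m 2 0) (m 3 1) - mulE (m 2 1) (m 3 0))) -
    mulE (m 0 3) (mulE (m 1 0) (mulE (m 2 1) (m 3 2) - mulE (m 2 2) (m 3 1)) -
      mulE (m 1 1) (mulE (m 2 0) (m 3 2) - mulE (m 2 2) (m 3 0)) +
      mulE (m 1 2) (mulE (m 2 0) (m 3 1) - mulE (m 2 1) (m 3 0)))

theorem det4_emb {ω : K} (hω : ω ^ 2 + ω + 1 = 0) (m : Fin 4 → Fin 4 → ℤ × ℤ) :
    Matrix.det ((fun a b => embE ω (m a b)) : Matrix (Fin 4) (Fin 4) K) =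
      embE ω (det4E m) := by
  have h := det4_formula (fun a b => embE ω (m a b))
  refine h.trans ?_
  unfold det4E
  simp only [embE_sub, embE_add, embE_mul hω]

/-- the points -/
def vE (i : Fin 9) : Fin 4 → ℤ × ℤ :=
  ![macB (Fin.castLE (by norm_num) i) 0 0 - macA 0 0 0,
    macB (Fin.castLE (by norm_num) i) 0 1 - macA 0 0 1,
    macB (Fin.castLE (by norm_num) i) 1 0 - macA 0 1 0,
    macB (Fin.castLE (by norm_num) i) 1 1 - macA 0 1 1]

/-- the brackets -/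
def brE (a b c : Fin 9) : ℤ × ℤ := det4E ![vE 0, vE a, vE b, vE c]

theorem br_emb {ω : K} (hω : ω ^ 2 + ω + 1 = 0) (v : Fin 9 → Fin 4 → K)
    (hv : ∀ i : Fin 9, v i = bv (eis ω (macA 0)) (eis ω (macB (Fin.castLE (by norm_num) i))))
    (a b c : Fin 9) : br v a b c = embE ω (brE a b c) := by
  unfold br brE
  rw [← det4_emb hω]
  have hv' : ∀ (i : Fin 9) (k : Fin 4), v i k = embE ω (vE i k) := by
    intro i k
    rw [hv i]
    unfold bv vE
    fin_cases k <;>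
      simp only [Fin.zero_eta, Fin.mk_one, Fin.reduceFinMk, Matrix.cons_val, embE_sub,
        Matrix.cons_val_zero, Matrix.cons_val_one] <;>
      simp only [eis, Matrix.sub_apply, Matrix.of_apply, embE]
  congr 1
  funext x y
  fin_cases x <;> exact hv' _ _

theorem _root_.Pool.Agent.Helper947.Crv.macCfg_br [CharZero K] {ω : K} (hω : ω ^ 2 + ω + 1 = 0) (v : Fin 9 → Fin 4 → K)
    (hv : ∀ i : Fin 9, v i = bv (eis ω (macA 0)) (eis ω (macB (Fin.castLE (by norm_num) i)))) :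
    (∀ a b c : Fin 9, 0 < a → a < b → b < c → (br v a b c = 0 ↔ (a, b, c) ∈ macT)) ∧
    br v 5 2 3 ≠ 0 ∧ br v 1 2 5 * br v 4 2 3 + ω * (br v 1 2 4 * br v 5 2 3) = 0 := by
  have hb := br_emb hω v hv
  refine ⟨?_, ?_, ?_⟩
  · have h : ∀ a b c : Fin 9, 0 < a → a < b → b < c → (brE a b c = 0 ↔ (a, b, c) ∈ macT) := by
      decide +kernel
    intro a b c h1 h2 h3
    rw [hb, embE_eq_zero hω]
    exact h a b c h1 h2 h3
  · have h : brE 5 2 3 ≠ 0 := by decide +kernel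
    rw [hb, Ne, embE_eq_zero hω]
    exact h
  · have h1 : mulE (brE 1 2 5) (brE 4 2 3) = (432, 288) := by decide +kernel
    have h2 : mulE (brE 1 2 4) (brE 5 2 3) = (144, 432) := by decide +kernel
    rw [hb, hb, hb, hb, ← embE_mul hω, ← embE_mul hω, h1, h2]
    unfold embE
    push_cast
    linear_combination 432 * hω

theorem _root_.Pool.Agent.Helper947.Crv.macE_card : macE.card = 57 := by decide +kernel

end confalg

end Pool.Agent.Helper947.Crv.LF7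

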