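import Mathlib
import Pool.Agent.Helper947.Crv.Conf
import Pool.Agent.Helper947.Crv.F5

open MvPolynomial Filter

namespace Pool.Agent.Helper947.Crv.LF8

section line

variable {K : Type*} [CommRing K]

end line

namespace Cfg

variable {K : Type*} [CommRing K] {J M : Type} (c : Cfg K J M)

end Cfg

section defs2

variable {K : Type*} [Field K]

end defs2

section confdefs

end confdefs

section confalg

variable {K : Type*} [Field K]

/-- model of the field with 16 elements -/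
abbrev G16 : Type := ZMod 2 × ZMod 2 × ZMod 2 × ZMod 2

/-- multiplication in the model -/
def mulG (p q : G16) : G16 :=
  (p.1 * q.1 + (p.2.1 * q.2.2.2 + p.2.2.1 * q.2.2.1 + p.2.2.2 * q.2.1),
   p.1 * q.2.1 + p.2.1 * q.1 + (p.2.1 * q.2.2.2 + p.2.2.1 * q.2.2.1 + p.2.2.2 * q.2.1) +
     (p.2.2.1 * q.2.2.2 + p.2.2.2 * q.2.2.1),
   p.1 * q.2.2.1 + p.2.1 * q.2.1 + p.2.2.1 * q.1 +
     (p.2.2.1 * q.2.2.2 + p.2.2.2 * q.2.2.1) + p.2.2.2 * q.2.2.2,
   p.1 * q.2.2.2 + p.2.1 * q.2.2.1 + p.2.2.1 * q.2.1 + p.2.2.2 * q.1 + p.2.2.2 * q.2.2.2)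

/-- evaluation of the model -/
def embG [CharP K 2] (α : K) (p : G16) : K :=
  ZMod.castHom (dvd_refl 2) K p.1 + ZMod.castHom (dvd_refl 2) K p.2.1 * α +
    ZMod.castHom (dvd_refl 2) K p.2.2.1 * α ^ 2 + ZMod.castHom (dvd_refl 2) K p.2.2.2 * α ^ 3

theorem embG_sub [CharP K 2] (α : K) (p q : G16) : embG α (p - q) = embG α p - embG α q := by
  simp only [embG, Prod.fst_sub, Prod.snd_sub, map_sub]
  ring

theorem embG_add [CharP K 2] (α : K) (p q : G16) : embG α (p + q) = embG α p + embG α q := by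
  simp only [embG, Prod.fst_add, Prod.snd_add, map_add]
  ring

theorem embG_mul [CharP K 2] {α : K} (hα : α ^ 4 = α + 1) (p q : G16) :
    embG α (mulG p q) = embG α p * embG α q := by
  simp only [embG, mulG, map_add, map_mul]
  generalize ZMod.castHom (dvd_refl 2) K p.1 = a0
  generalize ZMod.castHom (dvd_refl 2) K p.2.1 = a1
  generalize ZMod.castHom (dvd_refl 2) K p.2.2.1 = a2
  generalize ZMod.castHom (dvd_refl 2) K p.2.2.2 = a3
  generalize ZMod.castHom (dvd_refl 2) K q.1 = b0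
  generalize ZMod.castHom (dvd_refl 2) K q.2.1 = b1
  generalize ZMod.castHom (dvd_refl 2) K q.2.2.1 = b2
  generalize ZMod.castHom (dvd_refl 2) K q.2.2.2 = b3
  linear_combination (-((a1 * b3 + a2 * b2 + a3 * b1) + (a2 * b3 + a3 * b2) * α +
    a3 * b3 * α ^ 2)) * hα

theorem invG : ∀ p : G16, p ≠ 0 → ∃ q : G16, mulG p q = (1, 0, 0, 0) := by decide

theorem embG_eq_zero [CharP K 2] {α : K} (hα : α ^ 4 = α + 1) (p : G16) :
    embG α p = 0 ↔ p = 0 := by
  constructor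
  · intro h
    by_contra hp
    obtain ⟨q, hq⟩ := invG p hp
    have h1 := embG_mul hα p q
    rw [hq, h, zero_mul] at h1
    simp [embG] at h1
  · rintro rfl
    simp [embG]

/-- binary digits -/
def bt (n k : ℕ) : ZMod 2 := if n.testBit k then 1 else 0

/-- the element of the model with given binary code -/
def gd (n : ℕ) : G16 := (bt n 0, bt n 1, bt n 2, bt n 3)

theorem gfe_eq [CharP K 2] (α : K) (n : ℕ) : gfe α n = embG α (gd n) := by
  have h : ∀ k, ZMod.castHom (dvd_refl 2) K (bt n k) = if n.testBit k then 1 else 0 := by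
    intro k
    unfold bt
    split_ifs
    · exact map_one _
    · exact map_zero _
  unfold gfe embG gd
  simp only [h, Fin.sum_univ_four]
  simp

/-- determinant of the difference in the model -/
def detG (T S : Fin 2 → Fin 2 → ℕ) : G16 :=
  mulG (gd (T 0 0) - gd (S 0 0)) (gd (T 1 1) - gd (S 1 1)) -
    mulG (gd (T 0 1) - gd (S 0 1)) (gd (T 1 0) - gd (S 1 0))

theorem det_gfm [CharP K 2] {α : K} (hα : α ^ 4 = α + 1) (T S : Fin 2 → Fin 2 → ℕ) :
    (gfm α T - gfm α S).det = embG α (detG T S) := by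
  rw [Matrix.det_fin_two]
  simp only [Matrix.sub_apply, gfm, Matrix.of_apply, gfe_eq, detG, embG_sub, embG_mul hα]

theorem gfm_ent [CharP K 2] (α : K) (T S : Fin 2 → Fin 2 → ℕ) (i j : Fin 2) :
    (gfm α T - gfm α S) i j = embG α (gd (T i j) - gd (S i j)) := by
  simp only [Matrix.sub_apply, gfm, Matrix.of_apply, gfe_eq, embG_sub]

theorem fano_d1 : ∀ j j' : Fin 9, j ≠ j' → detG (fanoA j) (fanoA j') ≠ 0 := by decide +kernel

theorem fano_d2 : ∀ i i' : Fin 8, i ≠ i' → detG (fanoB i) (fanoB i') ≠ 0 := by decide +kernel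

theorem fano_d3 : ∀ (j : Fin 9) (i : Fin 8), detG (fanoA j) (fanoB i) = 0 ↔ (j, i) ∈ fanoE := by
  decide +kernel

theorem fano_d4 : ∀ (j : Fin 9) (i : Fin 8), (j, i) ∈ fanoE →
    gd (fanoA j 0 0) - gd (fanoB i 0 0) ≠ 0 := by
  decide +kernel

theorem _root_.Pool.Agent.Helper947.Crv.fanoCfg_good [CharP K 2] {α : K} (hα : α ^ 4 = α + 1) :
    (fanoCfg α).Good 90 fanoE := by
  refine good_of _ _ _ (by simp) ?_ ?_ ?_ ?_
  · intro j j' hj
    rw [det_gfm hα, Ne, embG_eq_zero hα]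
    exact fano_d1 j j' hj
  · intro i i' hi
    rw [det_gfm hα, Ne, embG_eq_zero hα]
    exact fano_d2 i i' hi
  · intro j i
    rw [det_gfm hα, embG_eq_zero hα]
    exact fano_d3 j i
  · intro j i hji
    rw [gfm_ent, Ne, embG_eq_zero hα]
    exact fano_d4 j i hji

/-- two by two minors -/
def mnG (r s : Fin 4 → G16) (i j : Fin 4) : G16 := mulG (r i) (s j) - mulG (r j) (s i)

/-- four by four determinants in the model -/
def det4G (r0 r1 r2 r3 : Fin 4 → G16) : G16 :=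
  mulG (mnG r0 r1 0 1) (mnG r2 r3 2 3) - mulG (mnG r0 r1 0 2) (mnG r2 r3 1 3) +
  mulG (mnG r0 r1 0 3) (mnG r2 r3 1 2) + mulG (mnG r0 r1 1 2) (mnG r2 r3 0 3) -
  mulG (mnG r0 r1 1 3) (mnG r2 r3 0 2) + mulG (mnG r0 r1 2 3) (mnG r2 r3 0 1)

theorem det4_eq {R : Type*} [CommRing R] (r0 r1 r2 r3 : Fin 4 → R) :
    Matrix.det ![r0, r1, r2, r3] =
      (r0 0 * r1 1 - r0 1 * r1 0) * (r2 2 * r3 3 - r2 3 * r3 2) -
      (r0 0 * r1 2 - r0 2 * r1 0) * (r2 1 * r3 3 - r2 3 * r3 1) +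
      (r0 0 * r1 3 - r0 3 * r1 0) * (r2 1 * r3 2 - r2 2 * r3 1) +
      (r0 1 * r1 2 - r0 2 * r1 1) * (r2 0 * r3 3 - r2 3 * r3 0) -
      (r0 1 * r1 3 - r0 3 * r1 1) * (r2 0 * r3 2 - r2 2 * r3 0) +
      (r0 2 * r1 3 - r0 3 * r1 2) * (r2 0 * r3 1 - r2 1 * r3 0) := by
  rw [Matrix.det_succ_row_zero]
  simp [Matrix.det_fin_three, Fin.sum_univ_succ, Fin.succAbove, Matrix.submatrix]
  ring

theorem det4_emb [CharP K 2] {α : K} (hα : α ^ 4 = α + 1) (r0 r1 r2 r3 : Fin 4 → G16) :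
    Matrix.det ![fun k => embG α (r0 k), fun k => embG α (r1 k), fun k => embG α (r2 k),
      fun k => embG α (r3 k)] = embG α (det4G r0 r1 r2 r3) := by
  rw [det4_eq]
  simp only [det4G, mnG, embG_add, embG_sub, embG_mul hα]

/-- the vectors in the model -/
def wG (i : Fin 8) : Fin 4 → G16 :=
  ![gd (fanoB i 0 0) - gd (fanoA 0 0 0), gd (fanoB i 0 1) - gd (fanoA 0 0 1),
    gd (fanoB i 1 0) - gd (fanoA 0 1 0), gd (fanoB i 1 1) - gd (fanoA 0 1 1)]

theorem bv_wG [CharP K 2] (α : K) (i : Fin 8) :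
    bv (gfm α (fanoA 0)) (gfm α (fanoB i)) = fun k => embG α (wG i k) := by
  funext k
  unfold bv wG
  simp only [gfm_ent]
  fin_cases k <;> rfl

theorem fano_d5 : ∀ a b c : Fin 8, 0 < a → a < b → b < c →
    (det4G (wG 0) (wG a) (wG b) (wG c) = 0 ↔ (a, b, c) ∈ fanoT) := by
  decide +kernel

theorem _root_.Pool.Agent.Helper947.Crv.fanoCfg_br [CharP K 2] {α : K} (hα : α ^ 4 = α + 1) (v : Fin 8 → Fin 4 → K)
    (hv : ∀ i : Fin 8, v i = bv (gfm α (fanoA 0)) (gfm α (fanoB i))) :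
    ∀ a b c : Fin 8, 0 < a → a < b → b < c → (br v a b c = 0 ↔ (a, b, c) ∈ fanoT) := by
  intro a b c ha hab hbc
  unfold br
  rw [hv, hv, hv, hv, bv_wG, bv_wG, bv_wG, bv_wG, det4_emb hα, embG_eq_zero hα]
  exact fano_d5 a b c ha hab hbc

theorem _root_.Pool.Agent.Helper947.Crv.fanoE_card : fanoE.card = 44 := by decide +kernel

end confalg

end Pool.Agent.Helper947.Crv.LF8

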