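import Mathlib
import Pool.Agent.Helper947.Crv.Conf
import Pool.Agent.Helper947.Crv.A1
import Pool.Agent.Helper947.Crv.E1
import Pool.Agent.Helper947.Crv.F6

open MvPolynomial Filter

namespace Pool.Agent.Helper947.Crv.LF9

section line

variable {K : Type*} [CommRing K]

end line

namespace Cfg

variable {K : Type*} [CommRing K] {J M : Type} (c : Cfg K J M)

end Cfg

section defs2

variable {K : Type*} [Field K]

end defs2

section confdefs

end confdefs

section hilb

variable {K : Type*} [Field K] {I J N : Ideal (Pl K)}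

end hilb

section curve

variable {K : Type*} [Field K] {J M : Type} [Fintype J] [Fintype M] {c : Cfg K J M} {e : ℕ}
  {E : Finset (J × M)}

end curve

section confalg

variable {K : Type*} [Field K]

end confalg

section basechange

variable {K K' : Type*} [Field K] [Field K'] (φ : K →+* K')

/-- the homogeneous components of elements of the extended ideal -/
theorem bc_comp_mul_map {I : Ideal (Pl K)} (hI : Hom I) (m : ℕ) (a : Pl K') {p : Pl K} (hp : p ∈ I) :
    homogeneousComponent m (a * MvPolynomial.map φ p) ∈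
      Submodule.span K' (MvPolynomial.map φ '' {q : Pl K | q ∈ I ∧ q ∈ Fm K m}) := by
  induction a using MvPolynomial.induction_on' with
  | monomial s c =>
    have h1 : (monomial s c : Pl K') * MvPolynomial.map φ p =
        c • MvPolynomial.map φ (monomial s 1 * p) := by
      rw [map_mul, map_monomial, map_one, MvPolynomial.smul_eq_C_mul, ← mul_assoc,
        C_mul_monomial, mul_one]
    rw [h1, map_smul]
    refine Submodule.smul_mem _ _ (Submodule.subset_span ?_)
    refine ⟨homogeneousComponent m (monomial s 1 * p), ⟨hI _ (I.mul_mem_left _ hp) m, ?_⟩, ?_⟩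
    · exact (mem_homogeneousSubmodule _ _).2 (homogeneousComponent_isHomogeneous m _)
    · ext t
      simp only [coeff_map, coeff_homogeneousComponent]
      split_ifs <;> simp
  | add x y hx hy => rw [add_mul, map_add]; exact Submodule.add_mem _ hx hy

theorem bc_comp_mem_span' {I : Ideal (Pl K)} (hI : Hom I) (m : ℕ) {f : Pl K'}
    (hf : f ∈ I.map (MvPolynomial.map φ)) : ∀ a : Pl K', 
    homogeneousComponent m (a * f) ∈
      Submodule.span K' (MvPolynomial.map φ '' {q : Pl K | q ∈ I ∧ q ∈ Fm K m}) := by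
  rw [Ideal.map] at hf
  induction hf using Submodule.span_induction with
  | mem x h =>
    obtain ⟨p, hp, rfl⟩ := h
    intro a
    exact bc_comp_mul_map φ hI m a hp
  | zero => intro a; simp
  | add x y _ _ hx hy => intro a; rw [mul_add, map_add]; exact Submodule.add_mem _ (hx a) (hy a)
  | smul b x hx h =>
    intro a
    rw [smul_eq_mul, ← mul_assoc]
    exact h (a * b)

theorem bc_comp_mem_span {I : Ideal (Pl K)} (hI : Hom I) (m : ℕ) {f : Pl K'}
    (hf : f ∈ I.map (MvPolynomial.map φ)) : 
    homogeneousComponent m f ∈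
      Submodule.span K' (MvPolynomial.map φ '' {q : Pl K | q ∈ I ∧ q ∈ Fm K m}) := by
  have := bc_comp_mem_span' φ hI m hf 1
  rwa [one_mul] at this

theorem bc_span_le_map (I : Ideal (Pl K)) (m : ℕ) {f : Pl K'} 
    (hf : f ∈ Submodule.span K' (MvPolynomial.map φ '' {q : Pl K | q ∈ I ∧ q ∈ Fm K m})) :
    f ∈ I.map (MvPolynomial.map φ) := by
  induction hf using Submodule.span_induction with
  | mem x h =>
    obtain ⟨p, hp, rfl⟩ := h
    exact Ideal.mem_map_of_mem _ hp.1
  | zero => simp
  | add x y _ _ hx hy => exact Ideal.add_mem _ hx hy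
  | smul b x hx h => rw [MvPolynomial.smul_eq_C_mul]; exact Ideal.mul_mem_left _ _ h

/-- exponents of the monomials of degree `m` -/
abbrev BcEx (m : ℕ) : Type := {x // x ∈ Finset.finsuppAntidiag (Finset.univ : Finset (Fin 4)) m}

theorem bc_ex_mem {m : ℕ} {t : Fin 4 →₀ ℕ} :
    t ∈ Finset.finsuppAntidiag (Finset.univ : Finset (Fin 4)) m ↔ t.degree = m := by
  rw [Finset.mem_finsuppAntidiag, Finsupp.degree_eq_sum]
  simp

/-- monomials of degree `m` -/
noncomputable def bcMon (K : Type*) [Field K] {m : ℕ} (t : BcEx m) : Fm K m :=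
  ⟨monomial t.1 1, by
    rw [mem_homogeneousSubmodule]
    exact isHomogeneous_monomial 1 (bc_ex_mem.1 t.2)⟩

theorem bc_sum_mon {m : ℕ} (f : Fm K m) : f = ∑ t : BcEx m, coeff t.1 f.1 • bcMon K t := by
  apply Subtype.ext
  rw [Submodule.coe_sum]
  simp only [Submodule.coe_smul, bcMon, smul_monomial, smul_eq_mul, mul_one]
  ext s
  rw [coeff_sum]
  simp only [coeff_monomial]
  by_cases hs : s.degree = m
  · rw [Finset.sum_eq_single (⟨s, bc_ex_mem.2 hs⟩ : BcEx m)]
    · simp
    · intro b _ hb
      rw [if_neg]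
      intro h
      exact hb (Subtype.ext h)
    · intro h; exact absurd (Finset.mem_univ _) h
  · rw [Finset.sum_eq_zero]
    · exact ((mem_homogeneousSubmodule m f.1).1 f.2).coeff_eq_zero hs
    · intro t _
      rw [if_neg]
      intro h
      exact hs (by rw [← h]; exact bc_ex_mem.1 t.2)

instance bc_fm_finite (m : ℕ) : Module.Finite K (Fm K m) := by
  classical
  refine ⟨⟨Finset.univ.image (bcMon K), ?_⟩⟩
  rw [eq_top_iff]
  intro f _
  rw [bc_sum_mon f]
  refine Submodule.sum_mem _ fun t _ => Submodule.smul_mem _ _ (Submodule.subset_span ?_)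
  simp

/-- base change of a linear map on forms of degree `m` -/
noncomputable def bcL {m s : ℕ} (π : Fm K m →ₗ[K] (Fin s → K)) : Fm K' m →ₗ[K'] (Fin s → K') :=
  ∑ t : BcEx m, ((MvPolynomial.lcoeff K' t.1).comp (Fm K' m).subtype).smulRight
      (fun i => φ (π (bcMon K t) i))

theorem bcL_apply {m s : ℕ} (π : Fm K m →ₗ[K] (Fin s → K)) (f : Fm K' m) (i : Fin s) :
    bcL φ π f i = ∑ t : BcEx m, coeff t.1 f.1 * φ (π (bcMon K t) i) := by
  simp [bcL, MvPolynomial.lcoeff]

/-- image of a form -/
noncomputable def bcMapF {m : ℕ} (f : Fm K m) : Fm K' m :=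
  ⟨MvPolynomial.map φ f.1, by
    have := (mem_homogeneousSubmodule m f.1).1 f.2
    rw [mem_homogeneousSubmodule]
    exact this.map φ⟩

theorem bcL_map {m s : ℕ} (π : Fm K m →ₗ[K] (Fin s → K)) (f : Fm K m) (i : Fin s) :
    bcL φ π (bcMapF φ f) i = φ (π f i) := by
  rw [bcL_apply]
  conv_rhs => rw [bc_sum_mon f, map_sum]
  rw [Finset.sum_apply, map_sum]
  refine Finset.sum_congr rfl fun t _ => ?_
  simp [bcMapF, coeff_map]

theorem bcMapF_mon {m : ℕ} (t : BcEx m) : bcMapF φ (bcMon K t) = bcMon K' t := by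
  apply Subtype.ext
  simp [bcMapF, bcMon]

theorem bcL_decomp {m s : ℕ} (π : Fm K m →ₗ[K] (Fin s → K)) (q : Fin s → Fm K m)
    (f : Fm K' m) :
    f = ∑ t : BcEx m, coeff t.1 f.1 • bcMapF φ (bcMon K t - ∑ i, π (bcMon K t) i • q i) +
      ∑ i, bcL φ π f i • bcMapF φ (q i) := by
  conv_lhs => rw [bc_sum_mon f]
  simp only [bcL_apply, Finset.sum_smul]
  rw [Finset.sum_comm, ← Finset.sum_add_distrib]
  refine Finset.sum_congr rfl fun t _ => ?_
  simp only [mul_smul]
  rw [← Finset.smul_sum, ← smul_add]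
  congr 1
  apply Subtype.ext
  simp only [bcMapF, bcMon, Submodule.coe_add, Submodule.coe_sum, Submodule.coe_smul,
    Submodule.coe_sub, map_sub, map_sum, map_monomial, map_one, MvPolynomial.smul_eq_C_mul,
    map_mul, map_C]
  ring

theorem hf_map' {I : Ideal (Pl K)} (hI : Hom I) (m : ℕ) :
    hf (I.map (MvPolynomial.map φ)) m = hf I m := by
  have hfin : Module.Finite K (Qm I m) := inferInstance
  let e : Qm I m ≃ₗ[K] (Fin (hf I m) → K) := (Module.finBasis K (Qm I m)).equivFun
  let π : Fm K m →ₗ[K] (Fin (hf I m) → K) :=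
    e.toLinearMap.comp ((I.restrictScalars K).comap (Fm K m).subtype).mkQ
  have hker : ∀ f : Fm K m, π f = 0 ↔ f.1 ∈ I := by
    intro f
    simp only [π, LinearMap.comp_apply, LinearEquiv.coe_coe, LinearEquiv.map_eq_zero_iff,
      Submodule.mkQ_apply, Submodule.Quotient.mk_eq_zero, Submodule.mem_comap,
      Submodule.subtype_apply, Submodule.restrictScalars_mem]
  have hsur : ∀ i, ∃ q : Fm K m, π q = Pi.single i 1 := by
    intro i
    obtain ⟨q, hq⟩ := Submodule.mkQ_surjective _ (e.symm (Pi.single i 1))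
    exact ⟨q, by simp only [π, LinearMap.comp_apply, hq, LinearEquiv.coe_coe, e.apply_symm_apply]⟩
  choose q hq using hsur
  have hsur' : Function.Surjective (bcL φ π) := by
    intro y
    refine ⟨∑ i, y i • bcMapF φ (q i), ?_⟩
    ext j
    rw [map_sum, Finset.sum_apply]
    simp only [map_smul, Pi.smul_apply, bcL_map, hq, smul_eq_mul]
    rw [Finset.sum_eq_single j]
    · simp
    · intro b _ hb; simp [Pi.single_eq_of_ne (Ne.symm hb)]
    · simp
  have hk : LinearMap.ker (bcL φ π) =
      ((I.map (MvPolynomial.map φ)).restrictScalars K').comap (Fm K' m).subtype := by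
    ext f
    rw [LinearMap.mem_ker, Submodule.mem_comap, Submodule.subtype_apply,
      Submodule.restrictScalars_mem]
    constructor
    · intro h
      have h1 := bcL_decomp φ π q f
      rw [h] at h1
      rw [h1]
      simp only [Pi.zero_apply, zero_smul, Finset.sum_const_zero, add_zero]
      rw [Submodule.coe_sum]
      refine Ideal.sum_mem _ fun t _ => ?_
      rw [Submodule.coe_smul, MvPolynomial.smul_eq_C_mul]
      refine Ideal.mul_mem_left _ _ (Ideal.mem_map_of_mem _ ((hker _).1 ?_))
      rw [map_sub, map_sum]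
      ext j
      simp only [map_smul, hq, Pi.sub_apply, Finset.sum_apply, Pi.smul_apply, smul_eq_mul,
        Pi.zero_apply]
      rw [Finset.sum_eq_single j]
      · simp
      · intro b _ hb; simp [Pi.single_eq_of_ne (Ne.symm hb)]
      · simp
    · intro h
      have h1 := bc_comp_mem_span φ hI m h
      have h2 : homogeneousComponent m f.1 = f.1 := by
        have := (mem_homogeneousSubmodule m f.1).1 f.2
        exact homogeneousComponent_of_mem this |>.trans (by simp)
      rw [h2] at h1
      have h3 : ∀ g : Pl K', g ∈ Submodule.span K' (MvPolynomial.map φ '' {q : Pl K | q ∈ I ∧ q ∈ Fm K m}) →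
          ∃ hg : g ∈ Fm K' m, bcL φ π ⟨g, hg⟩ = 0 := by
        intro g hg
        induction hg using Submodule.span_induction with
        | mem x h =>
          obtain ⟨p, hp, rfl⟩ := h
          refine ⟨(bcMapF φ ⟨p, hp.2⟩).2, ?_⟩
          ext i
          have := bcL_map φ π ⟨p, hp.2⟩ i
          rw [(hker ⟨p, hp.2⟩).2 hp.1] at this
          simpa [bcMapF] using this
        | zero => exact ⟨Submodule.zero_mem _, map_zero _⟩
        | add x y _ _ hx hy =>
          obtain ⟨h1, h1'⟩ := hx
          obtain ⟨h2, h2'⟩ := hy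
          refine ⟨Submodule.add_mem _ h1 h2, ?_⟩
          have : (⟨x + y, Submodule.add_mem _ h1 h2⟩ : Fm K' m) = ⟨x, h1⟩ + ⟨y, h2⟩ := rfl
          rw [this, map_add, h1', h2', add_zero]
        | smul b x hx h =>
          obtain ⟨h1, h1'⟩ := h
          refine ⟨Submodule.smul_mem _ _ h1, ?_⟩
          have : (⟨b • x, Submodule.smul_mem _ _ h1⟩ : Fm K' m) = b • ⟨x, h1⟩ := rfl
          rw [this, map_smul, h1', smul_zero]
      obtain ⟨_, h4⟩ := h3 f.1 h1
      exact h4
  have h5 := LinearEquiv.finrank_eq ((bcL φ π).quotKerEquivOfSurjective hsur')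
  rw [Module.finrank_fin_fun] at h5
  rw [← h5, hk]
  rfl

theorem bc_row_map (C : Matrix (Fin 2) (Fin 2) K) (a : Fin 2) :
    row (C.map φ) a = MvPolynomial.map φ (row C a) := by
  simp [row]

theorem bc_res_map (C : Matrix (Fin 2) (Fin 2) K) (p : Pl K) :
    res (C.map φ) (MvPolynomial.map φ p) = MvPolynomial.map φ (res C p) := by
  have h : (res (C.map φ)).toRingHom.comp (MvPolynomial.map φ) =
      (MvPolynomial.map φ).comp (res C).toRingHom := by
    refine MvPolynomial.ringHom_ext ?_ ?_
    · intro r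
      simp [res]
    · intro i
      fin_cases i <;> simp [res, bc_row_map]
  exact congrArg (fun g => g p) h

theorem bc_dG_map (C : Matrix (Fin 2) (Fin 2) K) (G : Fin 2 → P2 K) (p : Pl K) :
    dG (C.map φ) (fun a => MvPolynomial.map φ (G a)) (MvPolynomial.map φ p) =
      MvPolynomial.map φ (dG C G p) := by
  simp only [dG, pderiv_map, bc_res_map, map_add, map_mul]

theorem bc_J0_map_le {J M : Type} (c : Cfg K J M) :
    c.J0.map (MvPolynomial.map φ) ≤ (c.map φ).J0 := by
  rw [Ideal.map_le_iff_le_comap]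
  intro p hp
  rw [Ideal.mem_comap]
  rw [Cfg.J0, Ideal.mem_inf, Cfg.GD, Cfg.GB, Ideal.mem_iInf, Ideal.mem_iInf] at hp ⊢
  refine ⟨fun j => ?_, fun i => ?_⟩
  · have h := hp.1 j
    change res (c.A j) p = 0 ∧ dG (c.A j) (c.G j) p = 0 at h
    change res ((c.A j).map φ) (MvPolynomial.map φ p) = 0 ∧
      dG ((c.A j).map φ) (fun a => MvPolynomial.map φ (c.G j a)) (MvPolynomial.map φ p) = 0
    rw [bc_res_map, bc_dG_map, h.1, h.2, map_zero]
    exact ⟨rfl, rfl⟩
  · have h := hp.2 i
    change res (c.B i) p = 0 at h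
    change res ((c.B i).map φ) (MvPolynomial.map φ p) = 0
    rw [bc_res_map, h, map_zero]

/-- base change does not change the Hilbert function -/
theorem _root_.Pool.Agent.Helper947.Crv.hf_map {I : Ideal (Pl K)} (hI : Hom I) (m : ℕ) :
    hf (I.map (MvPolynomial.map φ)) m = hf I m := hf_map' φ hI m

theorem _root_.Pool.Agent.Helper947.Crv.Hom.map {I : Ideal (Pl K)} (hI : Hom I) : Hom (I.map (MvPolynomial.map φ)) :=
  fun _ hp m => bc_span_le_map φ I m (bc_comp_mem_span φ hI m hp)

theorem _root_.Pool.Agent.Helper947.Crv.J0_map {J M : Type} [Fintype J] [Fintype M] {c : Cfg K J M} {e : ℕ}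
    {E : Finset (J × M)} (hc : c.Good e E) : ∀ᶠ m in atTop, ∀ p ∈ Fm K' m,
      p ∈ c.J0.map (MvPolynomial.map φ) ↔ p ∈ (c.map φ).J0 := by
  filter_upwards [hf_J0 hc, hf_J0 (Good.map hc φ)] with m h1 h2 p hp
  refine ⟨fun h => bc_J0_map_le φ c h, fun h => ?_⟩
  refine mem_of_hf_le (bc_J0_map_le φ c) (m := m) ?_ hp h
  have h3 := hf_map φ (J0_hom hc) m
  omega

end basechange

end Pool.Agent.Helper947.Crv.LF9

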