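import Mathlib
import Pool.Agent.Helper947.Crv.Conf

set_option autoImplicit false

open MvPolynomial Filter CategoryTheory CategoryTheory.Limits AlgebraicGeometry

namespace Pool.Agent.Helper947.Crv

section schdefs

/-- The set of `A`-valued points of the Hilbert functor of curves of degree `d` and arithmetic
genus `g` in projective 3-space: saturated homogeneous ideals `I` of `A[z, w, x, y]` such that the
graded pieces of `A[z, w, x, y] / I` are finitely generated projective of constant rank
`d m + 1 - g` in all large degrees `m`. -/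
structure HilbPt (d g : ℤ) (A : Type) [CommRing A] where
  /-- the homogeneous ideal of the closed subscheme -/
  I : Ideal (Pl A)
  hom : Hom I
  sat : ∀ f : Pl A, (∃ n, ∀ p ∈ Fm A n, p * f ∈ I) → f ∈ I
  flat : ∃ m0 : ℕ, ∀ m ≥ m0, Module.Finite A (Qm I m) ∧ Module.Projective A (Qm I m) ∧
    ∀ 𝔭 : PrimeSpectrum A, (Module.rankAtStalk (R := A) (Qm I m) 𝔭 : ℤ) = d * m + 1 - g

/-- The Hilbert scheme of curves of degree `d` and arithmetic genus `g` in projective 3-space over
the integers: a scheme `H` with bijections, natural in the ring `A`, between the `A`-valued points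
of `H` and the `A`-valued points of the Hilbert functor. (The saturated homogeneous ideal of the
pullback of a family is the one which agrees in large degrees with the extended ideal.) -/
structure HilbertScheme (d g : ℤ) where
  /-- the scheme -/
  H : Scheme.{0}
  /-- its points with values in a ring -/
  Φ : ∀ (A : Type) [CommRing A], (Spec (CommRingCat.of A) ⟶ H) ≃ HilbPt d g A
  natural : ∀ (A B : Type) [CommRing A] [CommRing B] (φ : A →+* B)
    (f : Spec (CommRingCat.of A) ⟶ H), ∃ m0 : ℕ, ∀ m ≥ m0, ∀ p ∈ Fm B m,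
      p ∈ (Φ B (Spec.map (CommRingCat.ofHom φ) ≫ f)).I ↔
        p ∈ (Φ A f).I.map (MvPolynomial.map φ)

/-- The base change `H × Spec R` of the Hilbert scheme. -/
noncomputable abbrev bc {d g : ℤ} (𝓗 : HilbertScheme d g) (R : Type) [CommRing R] : Scheme :=
  pullback (terminal.from 𝓗.H) (terminal.from (Spec (CommRingCat.of R)))

/-- The morphism `H × Spec R' ⟶ H × Spec R` given by a ring homomorphism `R ⟶ R'`. -/
noncomputable def bcMap {d g : ℤ} (𝓗 : HilbertScheme d g) {R R' : Type} [CommRing R]
    [CommRing R'] (φ : R →+* R') : bc 𝓗 R' ⟶ bc 𝓗 R :=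
  pullback.map _ _ _ _ (𝟙 _) (Spec.map (CommRingCat.ofHom φ)) (𝟙 _)
    (Subsingleton.elim _ _) (Subsingleton.elim _ _)

/-- The section `Spec k ⟶ H × Spec k` given by a `k`-valued point of the Hilbert functor. -/
noncomputable def secOf {d g : ℤ} (𝓗 : HilbertScheme d g) {k : Type} [Field k]
    (x : HilbPt d g k) : Spec (CommRingCat.of k) ⟶ bc 𝓗 k :=
  pullback.lift ((𝓗.Φ k).symm x) (𝟙 _) (Subsingleton.elim _ _)

/-- The point of `Spec k`, `k` a field. -/
def ptF (k : Type) [Field k] : Spec (CommRingCat.of k) := (⟨⊥, Ideal.isPrime_bot⟩ : PrimeSpectrum k)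

/-- The point of `H × Spec k` given by a `k`-valued point of the Hilbert functor. -/
noncomputable def ptOf {d g : ℤ} (𝓗 : HilbertScheme d g) {k : Type} [Field k]
    (x : HilbPt d g k) : bc 𝓗 k := secOf 𝓗 x (ptF k)

/-- The action of a field automorphism `σ` of `k` on `H × Spec k` (the one which sends the point of
an ideal to the point of the conjugate ideal). -/
noncomputable def galAct {d g : ℤ} (𝓗 : HilbertScheme d g) {k : Type} [Field k] (σ : k ≃+* k) :
    bc 𝓗 k ⟶ bc 𝓗 k := bcMap 𝓗 (σ.symm : k →+* k)

end schdefs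

end Pool.Agent.Helper947.Crv
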