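import Mathlib
import Pool.Agent.Helper947.Crv.Sch

open MvPolynomial Filter CategoryTheory CategoryTheory.Limits AlgebraicGeometry

namespace Pool.Agent.Helper947.Crv.LH1

section line

variable {K : Type*} [CommRing K]

end line

namespace Cfg

variable {K : Type*} [CommRing K] {J M : Type} (c : Cfg K J M)

end Cfg

section defs2

variable {K : Type*} [Field K]

end defs2

section confdefs

end confdefs

section schdefs

end schdefs

section sch

theorem ptF_eq (k : Type) [Field k] : ptF k = IsLocalRing.closedPoint (CommRingCat.of k) := by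
  refine PrimeSpectrum.ext ?_
  change (⊥ : Ideal k) = IsLocalRing.maximalIdeal k
  rw [IsLocalRing.maximalIdeal_eq_bot]

/-- valuation rings for specializations -/
theorem _root_.Pool.Agent.Helper947.Crv.exists_val {Y : Scheme.{0}} {R k K : Type} [CommRing R] [Field k] [Field K]
    (q : Y ⟶ Spec (CommRingCat.of R)) (x : Spec (CommRingCat.of k) ⟶ Y) (ρ : R →+* k)
    (hρ : Function.Surjective ρ) (hx : x ≫ q = Spec.map (CommRingCat.ofHom ρ))
    (f : Spec (CommRingCat.of K) ⟶ Y) (hf : f (ptF K) ⤳ x (ptF k)) :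
    ∃ (V : ValuationSubring K) (v : Spec (CommRingCat.of V) ⟶ Y)
      (θ : k →+* IsLocalRing.ResidueField V),
      Spec.map (CommRingCat.ofHom V.subtype) ≫ v = f ∧
      Spec.map (CommRingCat.ofHom (IsLocalRing.residue V)) ≫ v =
        Spec.map (CommRingCat.ofHom θ) ≫ x := by
  rw [ptF_eq, ptF_eq] at hf
  obtain ⟨G, hG⟩ : ∃ G, G = Scheme.stalkClosedPointTo x := ⟨_, rfl⟩
  have hGx : Spec.map G ≫ Y.fromSpecStalk _ = x := by
    rw [hG]; exact Scheme.Spec_stalkClosedPointTo_fromSpecStalk x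
  obtain ⟨F, hF⟩ : ∃ F, F = Y.presheaf.stalkSpecializes hf ≫ Scheme.stalkClosedPointTo f :=
    ⟨_, rfl⟩
  have hFf : Spec.map F ≫ Y.fromSpecStalk _ = f := by
    rw [hF, Spec.map_comp, Category.assoc, Scheme.SpecMap_stalkSpecializes_fromSpecStalk]
    exact Scheme.Spec_stalkClosedPointTo_fromSpecStalk f
  obtain ⟨V, hV, hloc⟩ := IsLocalRing.exists_factor_valuationRing (K := K) F.hom
  let F' : Y.presheaf.stalk (x (IsLocalRing.closedPoint (CommRingCat.of k))) ⟶ CommRingCat.of V :=
    CommRingCat.ofHom (F.hom.codRestrict _ hV)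
  have hF' : F' ≫ CommRingCat.ofHom V.subtype = F := by
    ext s
    rfl
  -- surjectivity of `G`
  obtain ⟨a, ha⟩ : ∃ a : CommRingCat.of R ⟶ Y.presheaf.stalk
      (x (IsLocalRing.closedPoint (CommRingCat.of k))), Spec.map a = Y.fromSpecStalk _ ≫ q :=
    ⟨Spec.preimage (Y.fromSpecStalk _ ≫ q), Spec.map_preimage _⟩
  have haG : a ≫ G = CommRingCat.ofHom ρ := by
    apply Spec.map_injective
    rw [Spec.map_comp, ha, ← Category.assoc, hGx, hx]
  have hGs : Function.Surjective G.hom := by
    intro z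
    obtain ⟨r, hr⟩ := hρ z
    refine ⟨a.hom r, ?_⟩
    have := congrArg (fun g => g.hom r) haG
    rw [← hr]
    exact this
  have hker : RingHom.ker G.hom ≤ RingHom.ker ((IsLocalRing.residue V).comp F'.hom) := by
    intro s hs
    rw [RingHom.mem_ker] at hs ⊢
    rw [RingHom.comp_apply, IsLocalRing.residue_eq_zero_iff, IsLocalRing.mem_maximalIdeal,
      mem_nonunits_iff]
    intro hu
    have hu' : IsUnit s := hloc.map_nonunit s hu
    have h2 := hu'.map G.hom
    rw [hs] at h2
    exact not_isUnit_zero h2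
  obtain ⟨θ, hθ⟩ : ∃ θ : k →+* IsLocalRing.ResidueField V,
      θ.comp G.hom = (IsLocalRing.residue V).comp F'.hom := by
    refine ⟨RingHom.liftOfSurjective G.hom hGs ⟨_, hker⟩, ?_⟩
    exact RingHom.liftOfRightInverse_comp _ _ _ ⟨_, hker⟩
  refine ⟨V, Spec.map F' ≫ Y.fromSpecStalk _, θ, ?_, ?_⟩
  · rw [← Category.assoc, ← Spec.map_comp, hF', hFf]
  · have h3 : F' ≫ CommRingCat.ofHom (IsLocalRing.residue V) = G ≫ CommRingCat.ofHom θ := by
      ext s
      exact (congrArg (fun g => g s) hθ).symm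
    rw [← Category.assoc, ← Spec.map_comp, h3, Spec.map_comp, Category.assoc, hGx]

end sch

end Pool.Agent.Helper947.Crv.LH1

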