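import Mathlib
import Pool.Agent.Helper947.Crv.Sch

open MvPolynomial Filter CategoryTheory CategoryTheory.Limits AlgebraicGeometry

namespace Pool.Agent.Helper947.Crv.LH2

section line

variable {K : Type*} [CommRing K]

end line

namespace Cfg

variable {K : Type*} [CommRing K] {J M : Type} (c : Cfg K J M)

end Cfg

section defs2

variable {K : Type*} [Field K]

end defs2

section confdefs

end confdefs

section schdefs

end schdefs

section sch

/-- geometric points -/
theorem _root_.Pool.Agent.Helper947.Crv.exists_geom {Y : Scheme.{0}} (y : Y) : ∃ (K : Type) (_ : Field K) (_ : IsAlgClosed K)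
    (f : Spec (CommRingCat.of K) ⟶ Y), f (ptF K) = y := by
  refine ⟨AlgebraicClosure (Y.residueField y), inferInstance, inferInstance,
    Spec.map (CommRingCat.ofHom (algebraMap (Y.residueField y)
      (AlgebraicClosure (Y.residueField y)))) ≫ Y.fromSpecResidueField y, ?_⟩
  rw [Scheme.Hom.comp_apply]
  exact Scheme.fromSpecResidueField_apply _ _

theorem geomAt_aux {A : CommRingCat.{0}} {Y : Scheme.{0}} (φ : Spec A ⟶ Y) (q : PrimeSpectrum A)
    (K : Type) [Field K] (g : A →+* K) (hg : RingHom.ker g = q.asIdeal) :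
    (Spec.map (CommRingCat.ofHom g : A ⟶ CommRingCat.of K) ≫ φ) (ptF K) = φ q := by
  rw [Scheme.Hom.comp_apply]
  congr 1
  apply PrimeSpectrum.ext
  rw [← hg]
  exact (RingHom.ker_eq_comap_bot g).symm

theorem ring_aux1 (A : Type) [CommRing A] (q : Ideal A) [q.IsPrime] :
    ∃ (K : Type) (_ : Field K) (_ : IsAlgClosed K) (g : A →+* K), RingHom.ker g = q := by
  have hker0 : RingHom.ker (algebraMap A (FractionRing (A ⧸ q))) = q := by
    ext b
    rw [RingHom.mem_ker, IsScalarTower.algebraMap_apply A (A ⧸ q),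
      FaithfulSMul.algebraMap_eq_zero_iff, Ideal.Quotient.algebraMap_eq,
      Ideal.Quotient.eq_zero_iff_mem]
  refine ⟨AlgebraicClosure (FractionRing (A ⧸ q)), inferInstance, inferInstance,
    (algebraMap (FractionRing (A ⧸ q))
      (AlgebraicClosure (FractionRing (A ⧸ q)))).comp
      (algebraMap A (FractionRing (A ⧸ q))), ?_⟩
  rw [RingHom.ker_comp_of_injective _ (algebraMap (FractionRing (A ⧸ q))
      (AlgebraicClosure (FractionRing (A ⧸ q)))).injective]
  exact hker0

theorem ring_aux2 (A : Type) [CommRing A] (p : PrimeSpectrum A) (n : ℕ)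
    (H : ∀ a : A, a ∉ p.asIdeal → ∃ q : PrimeSpectrum A, a ∉ q.asIdeal ∧ (n : A) ∉ q.asIdeal) :
    ∃ q : PrimeSpectrum A, q ≤ p ∧ (n : A) ∉ q.asIdeal := by
  set S : Submonoid A := p.asIdeal.primeCompl ⊔ Submonoid.powers (n : A) with hS
  have hS0 : (0 : A) ∉ S := by
    intro h0
    rw [hS, Submonoid.mem_sup] at h0
    obtain ⟨a, ha, z, ⟨j, rfl⟩, hz⟩ := h0
    obtain ⟨q, hq, hnq⟩ := H a ha
    have h1 : a * (n : A) ^ j ∉ q.asIdeal := by
      intro h
      rcases q.isPrime.mem_or_mem h with h | h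
      · exact hq h
      · exact hnq (q.isPrime.mem_of_pow_mem _ h)
    apply h1
    have hz' : a * (n : A) ^ j = 0 := hz
    rw [hz']
    exact Ideal.zero_mem _
  obtain ⟨q, hqp, -, hqS⟩ := Ideal.exists_le_prime_disjoint (⊥ : Ideal A) S (by
    rw [Set.disjoint_left]
    intro b hb hbS
    have : b = 0 := hb
    exact hS0 (this ▸ hbS))
  refine ⟨⟨q, hqp⟩, ?_, ?_⟩
  · intro a ha
    by_contra hap
    refine Set.disjoint_left.mp hqS ha ?_
    exact Submonoid.mem_sup_left hap
  · intro h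
    refine Set.disjoint_left.mp hqS h ?_
    exact Submonoid.mem_sup_right (Submonoid.mem_powers _)

/-- points in the closure of a set of points at which `n` is invertible -/
theorem _root_.Pool.Agent.Helper947.Crv.exists_closure {Y : Scheme.{0}} (n : ℕ) (U : Set Y)
    (hU : ∀ y ∈ U, ∀ (K : Type) [Field K] (f : Spec (CommRingCat.of K) ⟶ Y), f (ptF K) = y →
      (n : K) ≠ 0) {x : Y} (hx : x ∈ closure U) :
    ∃ (K : Type) (_ : Field K) (_ : IsAlgClosed K) (_ : (n : K) ≠ 0)
      (f : Spec (CommRingCat.of K) ⟶ Y), f (ptF K) ⤳ x := by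
  obtain ⟨W, hW, hxW, -⟩ := exists_isAffineOpen_mem_and_subset (X := Y) (x := x) (U := ⊤) trivial
  obtain ⟨A, hA⟩ : ∃ A : CommRingCat.{0}, A = Γ(Y, W) := ⟨_, rfl⟩
  obtain ⟨φ, p, hφo, hpx⟩ : ∃ (φ : Spec A ⟶ Y) (p : PrimeSpectrum A),
      IsOpenMap φ ∧ φ p = x := by
    subst hA
    exact ⟨hW.fromSpec, hW.primeIdealOf ⟨x, hxW⟩, hW.fromSpec.isOpenEmbedding.isOpenMap,
      hW.fromSpec_primeIdealOf ⟨x, hxW⟩⟩
  obtain ⟨q, hle, hnq⟩ := ring_aux2 A p n (by
    intro a ha
    have hopen : IsOpen (φ '' (PrimeSpectrum.basicOpen a : Set (PrimeSpectrum A))) :=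
      hφo _ (PrimeSpectrum.basicOpen a).isOpen
    have hmem : x ∈ φ '' (PrimeSpectrum.basicOpen a : Set (PrimeSpectrum A)) := ⟨p, ha, hpx⟩
    obtain ⟨y, ⟨q, hq, hqy⟩, hyU⟩ := mem_closure_iff.mp hx _ hopen hmem
    haveI : (PrimeSpectrum.asIdeal q).IsPrime := PrimeSpectrum.isPrime q
    obtain ⟨K, _, _, g, hg⟩ := ring_aux1 A (PrimeSpectrum.asIdeal q)
    have hn := hU y hyU K _ ((geomAt_aux φ q K g hg).trans hqy)
    refine ⟨q, hq, fun h => hn ?_⟩
    have h2 := (RingHom.mem_ker).mp (hg.symm ▸ h)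
    rwa [map_natCast] at h2)
  haveI : q.asIdeal.IsPrime := q.isPrime
  obtain ⟨K, _, _, g, hg⟩ := ring_aux1 A q.asIdeal
  refine ⟨K, inferInstance, inferInstance, ?_, Spec.map (CommRingCat.ofHom g : A ⟶ _) ≫ φ, ?_⟩
  · intro h
    apply hnq
    rw [← hg, RingHom.mem_ker, map_natCast]
    exact h
  · rw [geomAt_aux φ q K g hg, ← hpx]
    exact ((PrimeSpectrum.le_iff_specializes _ _).mp hle).map φ.continuous

end sch

end Pool.Agent.Helper947.Crv.LH2

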