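import Mathlib
import Pool.Agent.Helper947.Crv.Sch
import Pool.Agent.Helper947.Crv.B1

open MvPolynomial Filter CategoryTheory CategoryTheory.Limits AlgebraicGeometry

namespace Pool.Agent.Helper947.Crv.LH3

section line

variable {K : Type*} [CommRing K]

end line

namespace Cfg

variable {K : Type*} [CommRing K] {J M : Type} (c : Cfg K J M)

end Cfg

section defs2

variable {K : Type*} [Field K]

end defs2

section confdefs

end confdefs

section schdefs

end schdefs

section redsec

variable {K : Type*} [Field K] (V : ValuationSubring K) {I J : Ideal (Pl K)}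

end redsec

section sch

theorem rov_map_hc {R S : Type*} [CommRing R] [CommRing S] (φ : R →+* S) (p : Pl R) (m : ℕ) :
    MvPolynomial.map φ (homogeneousComponent m p) =
      homogeneousComponent m (MvPolynomial.map φ p) := by
  ext d
  rw [coeff_map, coeff_homogeneousComponent, coeff_homogeneousComponent, coeff_map]
  split_ifs with h
  · rfl
  · exact map_zero φ

theorem rov_map_mem_Fm {R S : Type*} [CommRing R] [CommRing S] (φ : R →+* S) {p : Pl R} {m : ℕ}
    (hp : p ∈ Fm R m) : MvPolynomial.map φ p ∈ Fm S m := by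
  have h : p.IsHomogeneous m := hp
  exact h.map φ

theorem rov_den {K : Type*} [Field K] (V : ValuationSubring K) (c : Pl K) :
    ∃ a : V, a ≠ 0 ∧ ∃ g : Pl V, MvPolynomial.map V.subtype g = C (a : K) * c := by
  induction c using MvPolynomial.induction_on with
  | C r =>
    obtain ⟨x, z, hz, hxz⟩ := IsFractionRing.div_surjective (A := V) r
    have hz0 : z ≠ 0 := nonZeroDivisors.ne_zero hz
    refine ⟨z, hz0, C x, ?_⟩
    rw [map_C, ← map_mul]
    congr 1
    rw [← hxz]
    have hz1 : (z : K) ≠ 0 := fun h => hz0 (Subtype.ext h)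
    change (x : K) = (z : K) * ((x : K) / (z : K))
    field_simp
  | add p q hp hq =>
    obtain ⟨a, ha, g, hg⟩ := hp
    obtain ⟨b, hb, h, hh⟩ := hq
    refine ⟨a * b, mul_ne_zero ha hb, C b * g + C a * h, ?_⟩
    rw [map_add, map_mul, map_mul, hg, hh, map_C, map_C]
    change C (b : K) * (C (a : K) * p) + C (a : K) * (C (b : K) * q) = C ((a : K) * (b : K)) * (p + q)
    rw [C_mul]
    ring
  | mul_X p n hp =>
    obtain ⟨a, ha, g, hg⟩ := hp
    refine ⟨a, ha, g * X n, ?_⟩
    rw [map_mul, hg, map_X]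
    ring

theorem rov_den_ideal {K : Type*} [Field K] (V : ValuationSubring K) (I : Ideal (Pl V)) {f : Pl K}
    (hf : f ∈ I.map (MvPolynomial.map V.subtype)) :
    ∃ a : V, a ≠ 0 ∧ ∃ g ∈ I, MvPolynomial.map V.subtype g = C (a : K) * f := by
  unfold Ideal.map at hf
  induction hf using Submodule.span_induction with
  | mem x hx =>
    obtain ⟨p, hp, rfl⟩ := hx
    refine ⟨1, one_ne_zero, p, hp, ?_⟩
    change _ = C (1 : K) * _
    rw [C_1, one_mul]
  | zero => exact ⟨1, one_ne_zero, 0, I.zero_mem, by rw [map_zero, mul_zero]⟩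
  | add x z _ _ hx hz =>
    obtain ⟨a, ha, g, hgI, hg⟩ := hx
    obtain ⟨b, hb, h, hhI, hh⟩ := hz
    refine ⟨a * b, mul_ne_zero ha hb, C b * g + C a * h,
      I.add_mem (I.mul_mem_left _ hgI) (I.mul_mem_left _ hhI), ?_⟩
    rw [map_add, map_mul, map_mul, hg, hh, map_C, map_C]
    change C (b : K) * (C (a : K) * x) + C (a : K) * (C (b : K) * z) = C ((a : K) * (b : K)) * (x + z)
    rw [C_mul]
    ring
  | smul c x _ hx =>
    obtain ⟨a, ha, g, hgI, hg⟩ := hx
    obtain ⟨b, hb, h, hh⟩ := rov_den V c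
    refine ⟨a * b, mul_ne_zero ha hb, h * g, I.mul_mem_left _ hgI, ?_⟩
    rw [map_mul, hg, hh, smul_eq_mul]
    change C (b : K) * c * (C (a : K) * x) = C ((a : K) * (b : K)) * (c * x)
    rw [C_mul]
    ring

theorem rov_proj_torsion {R : Type*} [CommRing R] [IsDomain R] (I : Ideal (Pl R)) (m : ℕ)
    (hproj : Module.Projective R (Qm I m)) {a : R} (ha : a ≠ 0) {q : Pl R} (hq : q ∈ Fm R m)
    (haq : C a * q ∈ I) : q ∈ I := by
  obtain ⟨s, hs⟩ := Module.projective_def'.1 hproj
  set x : Qm I m := Submodule.Quotient.mk ⟨q, hq⟩ with hx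
  have h1 : a • x = 0 := by
    rw [hx, ← Submodule.Quotient.mk_smul, Submodule.Quotient.mk_eq_zero]
    simp only [Submodule.mem_comap, Submodule.restrictScalars_mem, map_smul,
      Submodule.subtype_apply]
    rw [smul_eq_C_mul]
    exact haq
  have h2 : a • s x = 0 := by rw [← map_smul, h1, map_zero]
  have h3 : s x = 0 := by
    ext i
    have := congrArg (fun F => F i) h2
    simp only [Finsupp.smul_apply, smul_eq_mul, Finsupp.zero_apply] at this
    rcases mul_eq_zero.1 this with h | h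
    · exact absurd h ha
    · rw [h]; rfl
  have h4 : x = 0 := by
    have := congrArg (fun F => F x) hs
    simp only [LinearMap.comp_apply, LinearMap.id_apply] at this
    rw [← this, h3, map_zero]
  rw [hx, Submodule.Quotient.mk_eq_zero] at h4
  simpa using h4

/-- reduction of families over valuation rings -/
theorem _root_.Pool.Agent.Helper947.Crv.red_of_val {d g : ℤ} {K : Type} [Field K] (V : ValuationSubring K) (y : HilbPt d g V)
    (yK : HilbPt d g K) (hK : ∃ m0 : ℕ, ∀ m ≥ m0, ∀ p ∈ Fm K m,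
      p ∈ yK.I ↔ p ∈ y.I.map (MvPolynomial.map V.subtype))
    {T : Ideal (Pl (IsLocalRing.ResidueField V))} (hT : ∃ m0 : ℕ, ∀ m ≥ m0, ∀ p ∈ Fm _ m,
      p ∈ T ↔ p ∈ y.I.map (MvPolynomial.map (IsLocalRing.residue V))) :
    ∀ᶠ m in atTop, ∀ p ∈ Fm _ m, p ∈ red V yK.I ↔ p ∈ T := by
  obtain ⟨m1, h1⟩ := y.flat
  obtain ⟨m2, h2⟩ := hK
  obtain ⟨m3, h3⟩ := hT
  filter_upwards [eventually_ge_atTop m1, eventually_ge_atTop m2, eventually_ge_atTop m3] with
    m hm1 hm2 hm3
  intro p hp
  rw [h3 m hm3 p hp]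
  constructor
  · intro hpr
    obtain ⟨q, hq, hq1, hq2⟩ := exists_hom_lift V yK.hom hpr hp
    rw [← hq2]
    refine Ideal.mem_map_of_mem _ ?_
    rw [h2 m hm2 _ (rov_map_mem_Fm V.subtype hq)] at hq1
    obtain ⟨a, ha, g, hg, hga⟩ := rov_den_ideal V y.I hq1
    have e1 : g = C a * q := by
      apply MvPolynomial.map_injective V.subtype Subtype.val_injective
      rw [hga, map_mul, map_C]
      rfl
    rw [e1] at hg
    obtain ⟨-, hproj, -⟩ := h1 m hm1
    exact rov_proj_torsion y.I m hproj ha hq hg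
  · intro hpm
    rw [Ideal.mem_map_iff_of_surjective _
      (MvPolynomial.map_surjective _ IsLocalRing.residue_surjective)] at hpm
    obtain ⟨q, hq, hqp⟩ := hpm
    rw [mem_red]
    have hq' := y.hom q hq m
    refine ⟨homogeneousComponent m q, ?_, ?_⟩
    · rw [h2 m hm2 _ (rov_map_mem_Fm V.subtype (homogeneousComponent_mem _ _))]
      exact Ideal.mem_map_of_mem _ hq'
    · rw [rov_map_hc, hqp, homogeneousComponent_of_mem hp, if_pos rfl]

end sch

end Pool.Agent.Helper947.Crv.LH3

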