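import Mathlib
import Pool.Agent.Helper947.Crv.Sch
import Pool.Agent.Helper947.Crv.E1

open MvPolynomial Filter CategoryTheory CategoryTheory.Limits AlgebraicGeometry

namespace Pool.Agent.Helper947.Crv.LH4

section line

variable {K : Type*} [CommRing K]

end line

namespace Cfg

variable {K : Type*} [CommRing K] {J M : Type} (c : Cfg K J M)

end Cfg

section defs2

variable {K : Type*} [Field K]

end defs2

section confdefs

end confdefs

section schdefs

end schdefs

section curve

variable {K : Type*} [Field K] {J M : Type} [Fintype J] [Fintype M] {c : Cfg K J M} {e : ℕ}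
  {E : Finset (J × M)}

end curve

section sch

theorem HilbPt.le_of_large {d g : ℤ} {A : Type} [CommRing A] {x y : HilbPt d g A} (m0 : ℕ)
    (h : ∀ m ≥ m0, ∀ p ∈ Fm A m, p ∈ x.I → p ∈ y.I) : x.I ≤ y.I := by
  intro f hf
  refine y.sat f ⟨m0, fun p hp => ?_⟩
  rw [← sum_homogeneousComponent f, Finset.mul_sum]
  refine Ideal.sum_mem _ fun i _ => ?_
  have h1 : p * homogeneousComponent i f ∈ Fm A (m0 + i) := by
    rw [mem_homogeneousSubmodule] at hp ⊢
    exact hp.mul (homogeneousComponent_isHomogeneous i f)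
  exact h (m0 + i) (Nat.le_add_right _ _) _ h1 (x.I.mul_mem_left p (x.hom f hf i))

theorem HilbPt.ext_of_I {d g : ℤ} {A : Type} [CommRing A] {x y : HilbPt d g A}
    (h : x.I = y.I) : x = y := by
  cases x
  cases y
  dsimp only at h
  subst h
  rfl

/-- two points of the Hilbert functor which agree in large degrees are equal -/
theorem _root_.Pool.Agent.Helper947.Crv.HilbPt.ext_large {d g : ℤ} {A : Type} [CommRing A] {x y : HilbPt d g A}
    (h : ∃ m0 : ℕ, ∀ m ≥ m0, ∀ p ∈ Fm A m, p ∈ x.I ↔ p ∈ y.I) : x = y := by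
  obtain ⟨m0, hm0⟩ := h
  refine HilbPt.ext_of_I (le_antisymm ?_ ?_)
  · exact HilbPt.le_of_large m0 fun m hm p hp => (hm0 m hm p hp).1
  · exact HilbPt.le_of_large m0 fun m hm p hp => (hm0 m hm p hp).2

theorem finite_Fm {k : Type} [Field k] (m : ℕ) : Module.Finite k (Fm k m) :=
  Module.Finite.iff_fg.2 (homogeneousSubmodule_fg (Fin 4) k m)

/-- points given by configurations -/
theorem _root_.Pool.Agent.Helper947.Crv.exists_pt {k : Type} [Field k] {J M : Type} [Fintype J] [Fintype M] {c : Cfg k J M}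
    {e : ℕ} {E : Finset (J × M)} (hc : c.Good e E) {d g : ℤ}
    (hd : d = 2 * Fintype.card J + Fintype.card M)
    (hg : 1 - g = Fintype.card J * (1 + e) + Fintype.card M - 2 * E.card) :
    ∃ x : HilbPt d g k, x.I = c.J0 := by
  refine ⟨⟨c.J0, J0_hom hc, ?_, ?_⟩, rfl⟩
  · rintro f ⟨n, hn⟩
    refine J0_tf c (X 0 ^ n) (pow_ne_zero _ (X_ne_zero 0)) f ?_
    have h1 : ι2 k (X 0 ^ n) = X 0 ^ n := by
      rw [map_pow]
      congr 1
      simp [ι2, rename_X]
    rw [h1]
    refine hn _ ?_
    rw [mem_homogeneousSubmodule]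
    exact isHomogeneous_X_pow 0 n
  · obtain ⟨m0, hm0⟩ := eventually_atTop.1 (hf_J0 hc)
    refine ⟨m0, fun m hm => ?_⟩
    have : Module.Finite k (Fm k m) := finite_Fm m
    have : Module.Finite k (Qm c.J0 m) := Module.Finite.quotient k _
    refine ⟨inferInstance, inferInstance, fun 𝔭 => ?_⟩
    rw [Module.rankAtStalk_eq_finrank_of_free]
    have h2 := hm0 m hm
    have h3 : ((hf c.J0 m : ℕ) : ℤ) + 2 * E.card =
      (2 * Fintype.card J + Fintype.card M) * m + Fintype.card J * (1 + e) + Fintype.card M := by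
      exact_mod_cast h2
    simp only [Pi.natCast_apply]
    show ((hf c.J0 m : ℕ) : ℤ) = _
    rw [hd]
    linarith

end sch

end Pool.Agent.Helper947.Crv.LH4

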