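import Mathlib
import Pool.Agent.Helper947.Crv.Sch
import Pool.Agent.Helper947.Crv.H4

open MvPolynomial Filter CategoryTheory CategoryTheory.Limits AlgebraicGeometry

namespace Pool.Agent.Helper947.Crv.LH5

section line

variable {K : Type*} [CommRing K]

end line

namespace Cfg

variable {K : Type*} [CommRing K] {J M : Type} (c : Cfg K J M)

end Cfg

section defs2

variable {K : Type*} [Field K]

end defs2

section confdefs

end confdefs

section schdefs

end schdefs

section sch

/-- the Galois action on rational points -/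
theorem _root_.Pool.Agent.Helper947.Crv.galAct_ptOf {d g : ℤ} (𝓗 : HilbertScheme d g) {k : Type} [Field k] (σ : k ≃+* k)
    (x x' : HilbPt d g k) (h : ∃ m0 : ℕ, ∀ m ≥ m0, ∀ p ∈ Fm k m,
      p ∈ x'.I ↔ p ∈ x.I.map (MvPolynomial.map (σ : k →+* k))) :
    galAct 𝓗 σ (ptOf 𝓗 x) = ptOf 𝓗 x' := by
  have hst : Spec.map (CommRingCat.ofHom (σ : k →+* k)) ≫
      Spec.map (CommRingCat.ofHom (σ.symm : k →+* k)) = 𝟙 _ := by
    rw [← Spec.map_comp, ← CommRingCat.ofHom_comp]
    have : ((σ : k →+* k).comp (σ.symm : k →+* k)) = RingHom.id k := by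
      ext y; simp
    rw [this, CommRingCat.ofHom_id, Spec.map_id]
  have h1 : Spec.map (CommRingCat.ofHom (σ : k →+* k)) ≫ (𝓗.Φ k).symm x = (𝓗.Φ k).symm x' := by
    rw [Equiv.eq_symm_apply]
    apply HilbPt.ext_large
    obtain ⟨m0, hm0⟩ := h
    obtain ⟨m1, hm1⟩ := 𝓗.natural k k (σ : k →+* k) ((𝓗.Φ k).symm x)
    refine ⟨max m0 m1, fun m hm p hp => ?_⟩
    rw [hm1 m (le_trans (le_max_right _ _) hm) p hp, Equiv.apply_symm_apply,
      hm0 m (le_trans (le_max_left _ _) hm) p hp]
  have hkey : Spec.map (CommRingCat.ofHom (σ : k →+* k)) ≫ secOf 𝓗 x ≫ galAct 𝓗 σ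
      = secOf 𝓗 x' := by
    apply pullback.hom_ext
    · simp only [secOf, galAct, bcMap, Category.assoc, pullback.lift_fst, pullback.map,
        pullback.lift_fst_assoc, Category.comp_id]
      exact h1
    · simp only [secOf, galAct, bcMap, Category.assoc, pullback.lift_snd, pullback.map,
        pullback.lift_snd_assoc, Category.id_comp]
      exact hst
  have hpt : Spec.map (CommRingCat.ofHom (σ : k →+* k)) (ptF k) = ptF k := by
    have hs : Subsingleton (PrimeSpectrum k) := inferInstance
    exact hs.elim _ _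
  show galAct 𝓗 σ (secOf 𝓗 x (ptF k)) = secOf 𝓗 x' (ptF k)
  rw [← hkey]
  conv_lhs => rw [← hpt]
  simp

end sch

section fin

theorem _root_.Pool.Agent.Helper947.Crv.bcMap_id {d g : ℤ} (𝓗 : HilbertScheme d g) (R : Type) [CommRing R] :
    bcMap 𝓗 (RingHom.id R) = 𝟙 _ := by
  apply pullback.hom_ext
  · simp only [bcMap, pullback.map, pullback.lift_fst, Category.comp_id, Category.id_comp]
  · simp only [bcMap, pullback.map, pullback.lift_snd, CommRingCat.ofHom_id, Spec.map_id,
      Category.comp_id, Category.id_comp]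

end fin

end Pool.Agent.Helper947.Crv.LH5

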