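import Mathlib
import Pool.Agent.Helper947.Crv.Sch

set_option autoImplicit false

open CategoryTheory AlgebraicGeometry

namespace Pool.Agent.Helper947.Crv

/-- A subset `Z` (a component) of the fibre `H × Spec k`, `k` the algebraic closure of `ZMod p`,
exists only in characteristic `p` if it has a generic point which does not lie in the closure,
inside `H × Spec W(k)`, of the characteristic zero fibre `H × Spec Frac(W(k))`. -/
def OnlyInChar {d g : ℤ} (𝓗 : HilbertScheme d g) (p : ℕ) [Fact p.Prime]
    (Z : Set (bc 𝓗 (AlgebraicClosure (ZMod p)))) : Prop :=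
  ∃ η : bc 𝓗 (AlgebraicClosure (ZMod p)), closure {η} = Z ∧
    bcMap 𝓗 (WittVector.constantCoeff (p := p) (R := AlgebraicClosure (ZMod p))) η ∉
      closure (Set.range (bcMap 𝓗 (algebraMap (WittVector p (AlgebraicClosure (ZMod p)))
        (FractionRing (WittVector p (AlgebraicClosure (ZMod p)))))))

end Pool.Agent.Helper947.Crv
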