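import Mathlib
import Pool.Agent.Helper947.Crv.Conf
import Pool.Agent.Helper947.Crv.E6
import Pool.Agent.Helper947.Crv.F1
import Pool.Agent.Helper947.Crv.F3
import Pool.Agent.Helper947.Crv.F6
import Pool.Agent.Helper947.Crv.F8

open MvPolynomial Filter

namespace Pool.Agent.Helper947.Crv.LZ1

section line

variable {K : Type*} [CommRing K]

end line

namespace Cfg

variable {K : Type*} [CommRing K] {J M : Type} (c : Cfg K J M)

end Cfg

section defs2

variable {K : Type*} [Field K]

end defs2

section confdefs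

end confdefs

section steps

variable {K : Type*} [Field K] (V : ValuationSubring K) {J M : Type} [Fintype J] [Fintype M]
  {c : Cfg (IsLocalRing.ResidueField V) J M} {e : ℕ} {E : Finset (J × M)}

end steps

section confalg

variable {K : Type*} [Field K]

end confalg

section fincontra

theorem z1_detmap {R S : Type*} [CommRing R] [CommRing S] (φ : R →+* S)
    (A B : Matrix (Fin 2) (Fin 2) R) : (A.map φ - B.map φ).det = φ ((A - B).det) := by
  rw [RingHom.map_det]
  congr 1
  ext i j
  simp only [Matrix.sub_apply, Matrix.map_apply, RingHom.mapMatrix_apply, map_sub]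

theorem z1_bvmap {R S : Type*} [CommRing R] [CommRing S] (φ : R →+* S)
    (A B : Matrix (Fin 2) (Fin 2) R) : bv (A.map φ) (B.map φ) = fun x => φ (bv A B x) := by
  funext x
  fin_cases x <;> simp [bv, Matrix.sub_apply, Matrix.map_apply]

theorem z1_brmap {R S : Type*} [CommRing R] [CommRing S] (φ : R →+* S) {n : ℕ}
    (w : Fin (n + 1) → Fin 4 → R) (a b c : Fin (n + 1)) :
    br (fun i x => φ (w i x)) a b c = φ (br w a b c) := by
  have h := RingHom.map_det φ (Matrix.of ![w 0, w a, w b, w c])
  have h2 : φ.mapMatrix (Matrix.of ![w 0, w a, w b, w c]) =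
      Matrix.of ![(fun x => φ (w 0 x)), (fun x => φ (w a x)), (fun x => φ (w b x)),
        (fun x => φ (w c x))] := by
    ext i j
    fin_cases i <;> rfl
  rw [h2] at h
  exact h.symm

/-- the second configuration does not lift to a field in which `2` is not zero -/
theorem _root_.Pool.Agent.Helper947.Crv.fano_contra {K : Type*} [Field K] [IsAlgClosed K] (h2 : (2 : K) ≠ 0)
    (V : ValuationSubring K) {k : Type*} [Field k] [CharP k 2] {α : k} (hα : α ^ 4 = α + 1)
    (θ : k →+* IsLocalRing.ResidueField V) {I : Ideal (Pl K)} (hI : Hom I)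
    (h : ∀ᶠ m in atTop, ∀ p ∈ Fm _ m, p ∈ red V I ↔ p ∈ ((fanoCfg α).map θ).J0) : False := by
  have hgood : ((fanoCfg α).map θ).Good 90 fanoE := Good.map (fanoCfg_good hα) θ
  obtain ⟨A, B, hA, hB, hdet, _⟩ := core V hgood (by rw [fanoE_card]; norm_num) hI h
  have hcA : ∀ j, ((fanoCfg α).map θ).A j = (gfm α (fanoA j)).map θ := fun j => rfl
  have hcB : ∀ i, ((fanoCfg α).map θ).B i = (gfm α (fanoB i)).map θ := fun i => rfl
  have hVinj : Function.Injective V.subtype := Subtype.val_injective
  have hall : ∀ i : Fin 8, (0, i) ∈ fanoE ∧ (1, i) ∈ fanoE := by decide +kernel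
  have hex : ∀ x ∈ fanoT, ∃ k : Fin 9, k ≠ 0 ∧ k ≠ 1 ∧ (k, 0) ∈ fanoE ∧ (k, x.1) ∈ fanoE ∧
      (k, x.2.1) ∈ fanoE ∧ (k, x.2.2) ∈ fanoE := by decide +kernel
  -- differences of different lifts are invertible
  have hskew : ∀ j j', j ≠ j' → ((A j).map V.subtype - (A j').map V.subtype).det ≠ 0 := by
    intro j j' hj hcon
    rw [z1_detmap] at hcon
    have h1 : (A j - A j').det = 0 := hVinj (by rw [hcon, map_zero])
    have h3 := hgood.skewA j j' hj
    rw [← hA j, ← hA j', z1_detmap, h1, map_zero] at h3
    exact h3 rfl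
  have hneq : ∀ j j', j ≠ j' → (A j).map V.subtype ≠ (A j').map V.subtype := by
    intro j j' hj hcon
    apply hskew j j' hj
    rw [hcon, sub_self, Matrix.det_zero]
  apply h2
  refine fano_rel (fun i => bv ((A 0).map V.subtype) ((B i).map V.subtype)) ?_
  intro a b c ha hab hbc
  constructor
  · intro hbr
    have e1 : (fun i => bv ((A 0).map V.subtype) ((B i).map V.subtype)) =
        (fun (i : Fin 8) x => V.subtype (bv (A 0) (B i) x)) := funext fun i => z1_bvmap _ _ _
    rw [e1, z1_brmap] at hbr
    have h3 : br (fun i : Fin 8 => bv (A 0) (B i)) a b c = 0 := hVinj (by rw [hbr, map_zero])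
    have h4 := z1_brmap (IsLocalRing.residue V) (fun i : Fin 8 => bv (A 0) (B i)) a b c
    rw [h3, map_zero] at h4
    have e2 : (fun (i : Fin 8) x => (IsLocalRing.residue V) (bv (A 0) (B i) x)) =
        (fun (i : Fin 8) x => θ (bv (gfm α (fanoA 0)) (gfm α (fanoB i)) x)) := by
      funext i
      rw [← z1_bvmap, ← z1_bvmap, hA, hB, hcA, hcB]
    rw [e2, z1_brmap] at h4
    have h5 : br (fun i : Fin 8 => bv (gfm α (fanoA 0)) (gfm α (fanoB i))) a b c = 0 :=
      θ.injective (by rw [h4, map_zero])
    exact (fanoCfg_br hα _ (fun i => rfl) a b c ha hab hbc).1 h5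
  · intro hT
    obtain ⟨k', hk0, hk1, e0, ea, eb, ec⟩ := hex (a, b, c) hT
    have hd : ∀ j i, (j, i) ∈ fanoE →
        ((A j).map V.subtype - (B i).map V.subtype).det = 0 := by
      intro j i hji
      rw [z1_detmap, hdet j i hji, map_zero]
    exact bracket_zero (hskew 0 1 (by decide)) (hneq k' 0 hk0) (hneq k' 1 hk1)
      ![(B 0).map V.subtype, (B a).map V.subtype, (B b).map V.subtype, (B c).map V.subtype]
      (by intro s; fin_cases s <;> exact hd _ _ (hall _).1)
      (by intro s; fin_cases s <;> exact hd _ _ (hall _).2)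
      (by
        intro s
        fin_cases s
        · exact hd _ _ e0
        · exact hd _ _ ea
        · exact hd _ _ eb
        · exact hd _ _ ec)

end fincontra

end Pool.Agent.Helper947.Crv.LZ1

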