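import Mathlib
import Pool.Agent.Helper947.Crv.Conf
import Pool.Agent.Helper947.Crv.E6
import Pool.Agent.Helper947.Crv.F1
import Pool.Agent.Helper947.Crv.F2
import Pool.Agent.Helper947.Crv.F6
import Pool.Agent.Helper947.Crv.F7

open MvPolynomial Filter

namespace Pool.Agent.Helper947.Crv.LZ2

section line

variable {K : Type*} [CommRing K]

end line

namespace Cfg

variable {K : Type*} [CommRing K] {J M : Type} (c : Cfg K J M)

end Cfg

section defs2

variable {K : Type*} [Field K]

end defs2

section confdefs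

end confdefs

section steps

variable {K : Type*} [Field K] (V : ValuationSubring K) {J M : Type} [Fintype J] [Fintype M]
  {c : Cfg (IsLocalRing.ResidueField V) J M} {e : ℕ} {E : Finset (J × M)}

end steps

section confalg

variable {K : Type*} [Field K]

end confalg

section fincontra

theorem mp_br_map {R S : Type*} [CommRing R] [CommRing S] (φ : R →+* S) {n : ℕ}
    (v : Fin (n + 1) → Fin 4 → R) (v' : Fin (n + 1) → Fin 4 → S) (h : ∀ i t, v' i t = φ (v i t))
    (a b c : Fin (n + 1)) : br v' a b c = φ (br v a b c) := by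
  have h1 := RingHom.map_det φ (Matrix.of ![v 0, v a, v b, v c])
  have h2 : φ.mapMatrix (Matrix.of ![v 0, v a, v b, v c]) = Matrix.of ![v' 0, v' a, v' b, v' c] := by
    ext i t
    fin_cases i
    · exact (h 0 t).symm
    · exact (h a t).symm
    · exact (h b t).symm
    · exact (h c t).symm
  rw [h2] at h1
  exact h1.symm

theorem mp_bv_map {R S : Type*} [CommRing R] [CommRing S] (φ : R →+* S)
    (A B : Matrix (Fin 2) (Fin 2) R) (t : Fin 4) : bv (A.map φ) (B.map φ) t = φ (bv A B t) := by
  fin_cases t <;> simp [bv]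

theorem mp_det_map {R S : Type*} [CommRing R] [CommRing S] (φ : R →+* S)
    (A B : Matrix (Fin 2) (Fin 2) R) : (A.map φ - B.map φ).det = φ (A - B).det := by
  simp [Matrix.det_fin_two]

theorem mp_det_comm {R : Type*} [CommRing R]
    (A B : Matrix (Fin 2) (Fin 2) R) : (A - B).det = (B - A).det := by
  simp [Matrix.det_fin_two]
  ring

theorem mp_dec : ∀ x ∈ macT, ∃ k : Fin 10, k ≠ 0 ∧ k ≠ 1 ∧ (k, (0 : Fin 12)) ∈ macE ∧
    (k, (Fin.castLE (by norm_num : 9 ≤ 12) x.1)) ∈ macE ∧
    (k, (Fin.castLE (by norm_num : 9 ≤ 12) x.2.1)) ∈ macE ∧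
    (k, (Fin.castLE (by norm_num : 9 ≤ 12) x.2.2)) ∈ macE := by decide +kernel

theorem mp_dec0 : ∀ i : Fin 9, ((0 : Fin 10), (Fin.castLE (by norm_num : 9 ≤ 12) i)) ∈ macE := by
  decide +kernel

theorem mp_dec1 : ∀ i : Fin 9, ((1 : Fin 10), (Fin.castLE (by norm_num : 9 ≤ 12) i)) ∈ macE := by
  decide +kernel

/-- lines in a deformation of the first configuration -/
theorem _root_.Pool.Agent.Helper947.Crv.mac_point {K : Type*} [Field K] [IsAlgClosed K] {k : Type*} [Field k] [CharZero k]
    {ω : k} (hω : ω ^ 2 + ω + 1 = 0) (V : ValuationSubring K) (s : k →+* V)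
    {I : Ideal (Pl K)} (hI : Hom I) (h : ∀ᶠ m in atTop, ∀ p ∈ Fm _ m, p ∈ red V I ↔
      p ∈ ((macCfg ω).map ((IsLocalRing.residue V).comp s)).J0) :
    ∃ L : Fin 10 ⊕ Fin 12 → Matrix (Fin 2) (Fin 2) K, Function.Injective L ∧
      Set.range L = {C | ∀ᶠ m in atTop, ∀ p ∈ Fm K m, p ∈ I → p ∈ Lam C} ∧
      (∀ u v, (L u ≠ L v ∧ (L u - L v).det = 0) ↔ macAdj u v) ∧
      ∀ v : Fin 9 → Fin 4 → K,
        (∀ i, v i = bv (L (Sum.inl 0)) (L (Sum.inr (Fin.castLE (by norm_num) i)))) →
        br v 1 2 4 * br v 5 2 3 ≠ 0 ∧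
        br v 1 2 5 * br v 4 2 3 + (s ω : K) * (br v 1 2 4 * br v 5 2 3) = 0 := by
  have hc : ((macCfg ω).map ((IsLocalRing.residue V).comp s)).Good 116 macE :=
    Good.map (macCfg_good hω) _
  obtain ⟨A, B, hA, hB, hdet, hC⟩ := core V hc (by rw [macE_card]; norm_num) hI h
  obtain ⟨θ, hθ⟩ : ∃ θ : k →+* IsLocalRing.ResidueField V, θ = (IsLocalRing.residue V).comp s :=
    ⟨_, rfl⟩
  rw [← hθ] at hc hA hB
  have hinj : Function.Injective V.subtype := Subtype.val_injective
  have hθinj : Function.Injective θ := θ.injective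
  have hAA : ∀ j j', j ≠ j' → (A j - A j').det ≠ 0 := by
    intro j j' hj h1
    apply hc.skewA j j' hj
    rw [← hA, ← hA, mp_det_map, h1, map_zero]
  have hBB : ∀ i i', i ≠ i' → (B i - B i').det ≠ 0 := by
    intro j j' hj h1
    apply hc.skewB j j' hj
    rw [← hB, ← hB, mp_det_map, h1, map_zero]
  have hAB : ∀ j i, A j ≠ B i := by
    intro j i h1
    apply hc.ne j i
    rw [← hA, ← hB, h1]
  have hAB' : ∀ j i, (A j - B i).det = 0 ↔ (j, i) ∈ macE := by
    intro j i
    refine ⟨fun h1 => ?_, hdet j i⟩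
    rw [← hc.inc, ← hA, ← hB, mp_det_map, h1, map_zero]
  have hmi : ∀ X Y : Matrix (Fin 2) (Fin 2) V, X.map V.subtype = Y.map V.subtype → X = Y := by
    intro X Y h1
    ext a b
    exact congrArg (fun M => M a b) h1
  have hd0 : ∀ X Y : Matrix (Fin 2) (Fin 2) V, (X.map V.subtype - Y.map V.subtype).det = 0 ↔
      (X - Y).det = 0 := by
    intro X Y
    rw [mp_det_map]
    exact map_eq_zero_iff V.subtype hinj
  have hself : ∀ {R : Type _} [CommRing R] (X : Matrix (Fin 2) (Fin 2) R), (X - X).det = 0 := by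
    intro R _ X
    rw [sub_self, Matrix.det_zero]
  refine ⟨Sum.elim (fun j => (A j).map V.subtype) (fun i => (B i).map V.subtype), ?_, ?_, ?_, ?_⟩
  · rintro (j | i) (j' | i') h1
    · congr 1
      by_contra h2
      have h3 := hmi _ _ h1
      apply hAA j j' h2
      rw [h3, hself]
    · exact absurd (hmi _ _ h1) (hAB j i')
    · exact absurd (hmi _ _ h1).symm (hAB j' i)
    · congr 1
      by_contra h2
      have h3 := hmi _ _ h1
      apply hBB i i' h2
      rw [h3, hself]
  · ext C
    rw [Set.mem_ofPred_eq, hC C]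
    constructor
    · rintro ⟨j | i, rfl⟩
      · exact Or.inl ⟨j, rfl⟩
      · exact Or.inr ⟨i, rfl⟩
    · rintro (⟨j, rfl⟩ | ⟨i, rfl⟩)
      · exact ⟨Sum.inl j, rfl⟩
      · exact ⟨Sum.inr i, rfl⟩
  · rintro (j | i) (j' | i')
    · simp only [Sum.elim_inl, macAdj, iff_false, not_and]
      intro h1 h2
      rw [hd0] at h2
      apply hAA j j' _ h2
      rintro rfl
      exact h1 rfl
    · simp only [Sum.elim_inl, Sum.elim_inr, macAdj]
      rw [hd0, hAB']
      exact ⟨fun h1 => h1.2, fun h1 => ⟨fun h2 => hAB j i' (hmi _ _ h2), h1⟩⟩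
    · simp only [Sum.elim_inl, Sum.elim_inr, macAdj]
      rw [hd0, mp_det_comm, hAB']
      exact ⟨fun h1 => h1.2, fun h1 => ⟨fun h2 => hAB j' i (hmi _ _ h2).symm, h1⟩⟩
    · simp only [Sum.elim_inr, macAdj, iff_false, not_and]
      intro h1 h2
      rw [hd0] at h2
      apply hBB i i' _ h2
      rintro rfl
      exact h1 rfl
  · intro v hv
    simp only [Sum.elim_inl, Sum.elim_inr] at hv
    obtain ⟨v0, hv0⟩ : ∃ v0 : Fin 9 → Fin 4 → k, ∀ i,
      v0 i = bv (eis ω (macA 0)) (eis ω (macB (Fin.castLE (by norm_num) i))) := ⟨_, fun i => rfl⟩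
    obtain ⟨w, hw⟩ : ∃ w : Fin 9 → Fin 4 → V, ∀ i,
      w i = bv (A 0) (B (Fin.castLE (by norm_num) i)) := ⟨_, fun i => rfl⟩
    obtain ⟨hb0, hb1, hb2⟩ := macCfg_br hω v0 hv0
    have hvw : ∀ a b c, br v a b c = V.subtype (br w a b c) := by
      apply mp_br_map
      intro i t
      rw [hv, hw, mp_bv_map]
    have hwv : ∀ a b c, IsLocalRing.residue V (br w a b c) = θ (br v0 a b c) := by
      intro a b c
      rw [← mp_br_map (IsLocalRing.residue V) w (fun i t => IsLocalRing.residue V (w i t))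
        (fun i t => rfl), ← mp_br_map θ v0 (fun i t => IsLocalRing.residue V (w i t))]
      intro i t
      rw [hw, hv0, ← mp_bv_map, ← mp_bv_map, hA, hB]
      rfl
    have hv00 : ∀ a b c, br v a b c = 0 → br v0 a b c = 0 := by
      intro a b c h1
      rw [hvw] at h1
      have h2 := (map_eq_zero_iff V.subtype hinj).1 h1
      have h3 := hwv a b c
      rw [h2, map_zero] at h3
      exact (map_eq_zero_iff θ hθinj).1 h3.symm
    have hiff : ∀ a b c : Fin 9, 0 < a → a < b → b < c → (br v a b c = 0 ↔ (a, b, c) ∈ macT) := by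
      intro a b c h1 h2 h3
      constructor
      · intro h4
        exact (hb0 a b c h1 h2 h3).1 (hv00 a b c h4)
      · intro h4
        obtain ⟨k', k0, k1, m0, ma, mb, mc⟩ := mp_dec (a, b, c) h4
        have hz : ∀ j i, (j, i) ∈ macE →
            ((A j).map V.subtype - (B i).map V.subtype).det = 0 := by
          intro j i hji
          rw [hd0]
          exact hdet j i hji
        have h5 := bracket_zero (A0 := (A 0).map V.subtype) (A1 := (A 1).map V.subtype)
          (A2 := (A k').map V.subtype) (by rw [ne_eq, hd0]; exact hAA 0 1 (by decide))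
          (fun h6 => hAA k' 0 k0 (by rw [hmi _ _ h6, hself]))
          (fun h6 => hAA k' 1 k1 (by rw [hmi _ _ h6, hself]))
          (fun t : Fin 4 => (B (Fin.castLE (by norm_num : 9 ≤ 12) ((![0, a, b, c] : Fin 4 → Fin 9) t))).map V.subtype)
          (fun t => hz _ _ (mp_dec0 _)) (fun t => hz _ _ (mp_dec1 _)) (by
            intro t
            apply hz
            fin_cases t
            · exact m0
            · exact ma
            · exact mb
            · exact mc)
        rw [← h5]
        unfold br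
        rw [hv, hv, hv, hv]
        rfl
    have hrel := mac_rel v hiff
    have h124 : br v 1 2 4 ≠ 0 := fun h1 => by
      have := (hiff 1 2 4 (by decide) (by decide) (by decide)).1 h1
      revert this
      decide
    have h124' : br v0 1 2 4 ≠ 0 := fun h1 => by
      have := (hb0 1 2 4 (by decide) (by decide) (by decide)).1 h1
      revert this
      decide
    have h523 : br v 5 2 3 ≠ 0 := fun h1 => hb1 (hv00 _ _ _ h1)
    refine ⟨mul_ne_zero h124 h523, ?_⟩
    have hω1 : ((s ω : V) : K) ^ 2 + ((s ω : V) : K) + 1 = 0 := by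
      have h1 := congrArg (fun x => V.subtype (s x)) hω
      simp only [map_add, map_pow, map_one, map_zero] at h1
      exact h1
    have hprod : (br v 1 2 5 * br v 4 2 3 + ((s ω : V) : K) * (br v 1 2 4 * br v 5 2 3)) *
        (br v 1 2 5 * br v 4 2 3 + ((s ω : V) : K) ^ 2 * (br v 1 2 4 * br v 5 2 3)) = 0 := by
      linear_combination hrel + ((br v 1 2 5 * br v 4 2 3) * (br v 1 2 4 * br v 5 2 3)
        + (((s ω : V) : K) - 1) * (br v 1 2 4 * br v 5 2 3) ^ 2) * hω1
    rcases mul_eq_zero.1 hprod with h1 | h1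
    · exact h1
    · exfalso
      have h2 : V.subtype (br w 1 2 5 * br w 4 2 3 + (s ω) ^ 2 * (br w 1 2 4 * br w 5 2 3)) = 0 := by
        simp only [map_add, map_mul, map_pow, ← hvw]
        exact h1
      have h3 := (map_eq_zero_iff V.subtype hinj).1 h2
      have h4 := congrArg (IsLocalRing.residue V) h3
      simp only [map_add, map_mul, map_pow, map_zero, hwv] at h4
      have h5 : θ (br v0 1 2 5 * br v0 4 2 3 + ω ^ 2 * (br v0 1 2 4 * br v0 5 2 3)) = 0 := by
        simp only [map_add, map_mul, map_pow]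
        have h6 : θ ω = IsLocalRing.residue V (s ω) := by rw [hθ]; rfl
        rw [h6]
        exact h4
      have h6 := (map_eq_zero_iff θ hθinj).1 h5
      have h7 : (ω ^ 2 - ω) * (br v0 1 2 4 * br v0 5 2 3) = 0 := by
        linear_combination h6 - hb2
      rcases mul_eq_zero.1 h7 with h8 | h8
      · have h9 : (3 : k) = 0 := by
          linear_combination (-(2 * ω - 3)) * hω + (4 + (2 * ω - 3)) * h8
        norm_num at h9
      · exact mul_ne_zero h124' hb1 h8

end fincontra

end Pool.Agent.Helper947.Crv.LZ2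

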