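import Mathlib
import Pool.Agent.Helper947.Crv.Conf
import Pool.Agent.Helper947.Crv.F4
import Pool.Agent.Helper947.Crv.Z2

open MvPolynomial Filter

namespace Pool.Agent.Helper947.Crv.LZ3

section line

variable {K : Type*} [CommRing K]

end line

namespace Cfg

variable {K : Type*} [CommRing K] {J M : Type} (c : Cfg K J M)

end Cfg

section defs2

variable {K : Type*} [Field K]

end defs2

section confdefs

end confdefs

section confalg

variable {K : Type*} [Field K]

end confalg

section fincontra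

/-- two conjugates of the first configuration are not specializations of the same curve -/
theorem _root_.Pool.Agent.Helper947.Crv.mac_contra {K : Type*} [Field K] [IsAlgClosed K] {k : Type*} [Field k] [CharZero k]
    {ω ω' : k} (hω : ω ^ 2 + ω + 1 = 0) (hω' : ω' ^ 2 + ω' + 1 = 0) (hne : ω ≠ ω')
    (V V' : ValuationSubring K) (s : k →+* V) (s' : k →+* V')
    (hs : V.subtype.comp s = V'.subtype.comp s') {I : Ideal (Pl K)} (hI : Hom I)
    (h : ∀ᶠ m in atTop, ∀ p ∈ Fm _ m, p ∈ red V I ↔
      p ∈ ((macCfg ω).map ((IsLocalRing.residue V).comp s)).J0)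
    (h' : ∀ᶠ m in atTop, ∀ p ∈ Fm _ m, p ∈ red V' I ↔
      p ∈ ((macCfg ω').map ((IsLocalRing.residue V').comp s')).J0) : False := by
  obtain ⟨L, hL, hLr, hLa, hLv⟩ := mac_point hω V s hI h
  obtain ⟨L', hL', hLr', hLa', hLv'⟩ := mac_point hω' V' s' hI h'
  have hLL : L = L' := mac_rigid L L' hL hL' (hLr.trans hLr'.symm)
    (fun C C' => C ≠ C' ∧ (C - C').det = 0) hLa hLa'
  subst hLL
  obtain ⟨hD, h1⟩ := hLv (fun i => bv (L (Sum.inl 0)) (L (Sum.inr (Fin.castLE (by norm_num) i))))
    (fun i => rfl)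
  obtain ⟨_, h2⟩ := hLv' (fun i => bv (L (Sum.inl 0)) (L (Sum.inr (Fin.castLE (by norm_num) i))))
    (fun i => rfl)
  have h3 := add_left_cancel (h1.trans h2.symm)
  have h4 : ((s ω : V) : K) = ((s' ω' : V') : K) := mul_right_cancel₀ hD h3
  have h5 : ((s ω' : V) : K) = ((s' ω' : V') : K) := by
    have := RingHom.congr_fun hs ω'
    simpa using this
  have h6 : ((s ω : V) : K) = ((s ω' : V) : K) := h4.trans h5.symm
  exact hne (s.injective (Subtype.ext h6))

end fincontra

end Pool.Agent.Helper947.Crv.LZ3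

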