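import Mathlib
import Pool.Agent.Helper947.Crv.Sch
import Pool.Agent.Helper947.Crv.F6
import Pool.Agent.Helper947.Crv.F9
import Pool.Agent.Helper947.Crv.H1
import Pool.Agent.Helper947.Crv.H3

open MvPolynomial Filter CategoryTheory CategoryTheory.Limits AlgebraicGeometry

namespace Pool.Agent.Helper947.Crv.LZ4

section line

variable {K : Type*} [CommRing K]

end line

namespace Cfg

variable {K : Type*} [CommRing K] {J M : Type} (c : Cfg K J M)

end Cfg

section defs2

variable {K : Type*} [Field K]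

end defs2

section confdefs

end confdefs

section schdefs

end schdefs

section confalg

variable {K : Type*} [Field K]

end confalg

section basechange

variable {K K' : Type*} [Field K] [Field K'] (φ : K →+* K')

end basechange

section sch

end sch

section fin

/-- the special fibre of the family over a valuation ring given by a specialization -/
theorem _root_.Pool.Agent.Helper947.Crv.key {d g : ℤ} (𝓗 : HilbertScheme d g) {R k K : Type} [CommRing R] [Field k] [Field K]
    (ρ : R →+* k) (hρ : Function.Surjective ρ) (x : HilbPt d g k)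
    (f : Spec (CommRingCat.of K) ⟶ bc 𝓗 R) (hf : f (ptF K) ⤳ bcMap 𝓗 ρ (ptOf 𝓗 x))
    {J M : Type} [Fintype J] [Fintype M] {c : Cfg k J M} {e : ℕ} {E : Finset (J × M)}
    (hc : c.Good e E) (hx : x.I = c.J0) :
    ∃ (V : ValuationSubring K) (θ : k →+* IsLocalRing.ResidueField V) (s : R →+* V),
      (IsLocalRing.residue V).comp s = θ.comp ρ ∧
      Spec.map (CommRingCat.ofHom (V.subtype.comp s)) = f ≫ pullback.snd _ _ ∧
      ∀ᶠ m in atTop, ∀ p ∈ Fm _ m,
        p ∈ red V (𝓗.Φ K (f ≫ pullback.fst _ _)).I ↔ p ∈ (c.map θ).J0 := by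
  have hxq : (secOf 𝓗 x ≫ bcMap 𝓗 ρ) ≫ pullback.snd _ _ = Spec.map (CommRingCat.ofHom ρ) := by
    unfold secOf bcMap pullback.map
    rw [Category.assoc, pullback.lift_snd, pullback.lift_snd_assoc, Category.id_comp]
  have hxf : (secOf 𝓗 x ≫ bcMap 𝓗 ρ) ≫ pullback.fst _ _ = (𝓗.Φ k).symm x := by
    unfold secOf bcMap pullback.map
    rw [Category.assoc, pullback.lift_fst, pullback.lift_fst_assoc, Category.comp_id]
  have hpt : (secOf 𝓗 x ≫ bcMap 𝓗 ρ) (ptF k) = bcMap 𝓗 ρ (ptOf 𝓗 x) := by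
    unfold ptOf
    rw [Scheme.Hom.comp_apply]
  obtain ⟨V, v, θ, hv1, hv2⟩ := exists_val (pullback.snd _ _) (secOf 𝓗 x ≫ bcMap 𝓗 ρ) ρ hρ hxq f
    (by rw [hpt]; exact hf)
  obtain ⟨s', hs'⟩ := Spec.map_surjective (v ≫ pullback.snd _ _)
  refine ⟨V, θ, s'.hom, ?_, ?_, ?_⟩
  · have h1 : Spec.map (CommRingCat.ofHom ((IsLocalRing.residue V).comp s'.hom)) =
        Spec.map (CommRingCat.ofHom (θ.comp ρ)) := by
      rw [CommRingCat.ofHom_comp, CommRingCat.ofHom_comp, Spec.map_comp, Spec.map_comp]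
      have e1 : CommRingCat.ofHom s'.hom = s' := rfl
      rw [e1, hs', ← Category.assoc, hv2, Category.assoc, hxq]
    have h2 := Spec.map_injective h1
    exact (CommRingCat.hom_ext_iff.mp h2)
  · rw [CommRingCat.ofHom_comp, Spec.map_comp]
    have e1 : CommRingCat.ofHom s'.hom = s' := rfl
    rw [e1, hs', ← Category.assoc, hv1]
  · have hn1 := 𝓗.natural V K V.subtype (v ≫ pullback.fst _ _)
    rw [← Category.assoc, hv1] at hn1
    have hn2 := 𝓗.natural V (IsLocalRing.ResidueField V) (IsLocalRing.residue V) (v ≫ pullback.fst _ _)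
    rw [← Category.assoc, hv2, Category.assoc, hxf] at hn2
    have hn3 := 𝓗.natural k (IsLocalRing.ResidueField V) θ ((𝓗.Φ k).symm x)
    rw [Equiv.apply_symm_apply, hx] at hn3
    have hn4 := J0_map θ hc
    apply red_of_val V (𝓗.Φ V (v ≫ pullback.fst _ _)) (𝓗.Φ K (f ≫ pullback.fst _ _)) hn1
    obtain ⟨m2, h2⟩ := hn2
    obtain ⟨m3, h3⟩ := hn3
    obtain ⟨m4, h4⟩ := eventually_atTop.mp hn4
    refine ⟨max m2 (max m3 m4), fun m hm p hp => ?_⟩
    have a2 := h2 m (le_trans (le_max_left _ _) hm) p hp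
    have a3 := h3 m (le_trans ((le_max_left _ _).trans (le_max_right _ _)) hm) p hp
    have a4 := h4 m (le_trans ((le_max_right _ _).trans (le_max_right _ _)) hm) p hp
    rw [← a4, ← a3, a2]

end fin

end Pool.Agent.Helper947.Crv.LZ4

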