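import Mathlib
import Pool.Agent.Helper947.Crv.Sch
import Pool.Agent.Helper947.Crv.F8
import Pool.Agent.Helper947.Crv.H2
import Pool.Agent.Helper947.Crv.Z1
import Pool.Agent.Helper947.Crv.Z4

open MvPolynomial Filter CategoryTheory CategoryTheory.Limits AlgebraicGeometry

namespace Pool.Agent.Helper947.Crv.LZ5

section line

variable {K : Type*} [CommRing K]

end line

namespace Cfg

variable {K : Type*} [CommRing K] {J M : Type} (c : Cfg K J M)

end Cfg

section defs2

variable {K : Type*} [Field K]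

end defs2

section confdefs

end confdefs

section schdefs

end schdefs

section confalg

variable {K : Type*} [Field K]

end confalg

section sch

end sch

section fincontra

end fincontra

section fin

theorem bcMap_snd {d g : ℤ} (𝓗 : HilbertScheme d g) {R R' : Type} [CommRing R]
    [CommRing R'] (φ : R →+* R') : bcMap 𝓗 φ ≫ pullback.snd _ _ =
      pullback.snd _ _ ≫ Spec.map (CommRingCat.ofHom φ) := by
  unfold bcMap pullback.map
  exact pullback.lift_snd _ _ _

theorem _root_.Pool.Agent.Helper947.Crv.main_fano {α : AlgebraicClosure (ZMod 2)} (hα : α ^ 4 = α + 1)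
    (𝓗 : HilbertScheme 26 (-738)) (x : HilbPt 26 (-738) (AlgebraicClosure (ZMod 2)))
    (hx : x.I = (fanoCfg α).J0) {W K0 : Type} [CommRing W] [Field K0] [CharZero K0]
    (ρ : W →+* AlgebraicClosure (ZMod 2)) (hρ : Function.Surjective ρ) (ι : W →+* K0)
    {Z : Set (bc 𝓗 (AlgebraicClosure (ZMod 2)))} (hxZ : ptOf 𝓗 x ∈ Z)
    {η : bc 𝓗 (AlgebraicClosure (ZMod 2))} (hη : closure {η} = Z) :
    bcMap 𝓗 ρ η ∉ closure (Set.range (bcMap 𝓗 ι)) := by
  intro h
  have h1 : η ⤳ ptOf 𝓗 x := by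
    rw [specializes_iff_mem_closure, hη]; exact hxZ
  have h2 : bcMap 𝓗 ρ η ⤳ bcMap 𝓗 ρ (ptOf 𝓗 x) := h1.map (bcMap 𝓗 ρ).continuous
  have h3 : bcMap 𝓗 ρ (ptOf 𝓗 x) ∈ closure (Set.range (bcMap 𝓗 ι)) :=
    h2.mem_closed isClosed_closure h
  obtain ⟨K, hK1, hK2, hK3, f, hf⟩ := exists_closure 2 (Set.range (bcMap 𝓗 ι)) (by
    rintro _ ⟨y', rfl⟩ K _ f hfy h0
    obtain ⟨a, ha⟩ : ∃ a : CommRingCat.of W ⟶ CommRingCat.of K, Spec.map a = f ≫ pullback.snd _ _ :=
      ⟨Spec.preimage _, Spec.map_preimage _⟩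
    have h4 : Spec.map a (ptF K) = Spec.map (CommRingCat.ofHom ι)
        (pullback.snd (terminal.from 𝓗.H) (terminal.from (Spec (CommRingCat.of K0))) y') := by
      rw [ha, Scheme.Hom.comp_apply, hfy, ← Scheme.Hom.comp_apply, bcMap_snd, Scheme.Hom.comp_apply]
    have h5 : (2 : W) ∈ ((Spec.map a (ptF K)) : PrimeSpectrum W).asIdeal := by
      change a.hom 2 ∈ (⊥ : Ideal K)
      rw [map_ofNat]
      have : (2 : K) = 0 := by exact_mod_cast h0
      rw [this]; exact Ideal.zero_mem _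
    rw [h4] at h5
    have h6 : ι 2 ∈ ((pullback.snd (terminal.from 𝓗.H) (terminal.from (Spec (CommRingCat.of K0))) y' :
        Spec (CommRingCat.of K0)) : PrimeSpectrum K0).asIdeal := h5
    have h7 : ((pullback.snd (terminal.from 𝓗.H) (terminal.from (Spec (CommRingCat.of K0))) y' :
        Spec (CommRingCat.of K0)) : PrimeSpectrum K0).asIdeal = ⊥ := by
      rcases Ideal.eq_bot_or_top ((pullback.snd (terminal.from 𝓗.H)
        (terminal.from (Spec (CommRingCat.of K0))) y' :
        Spec (CommRingCat.of K0)) : PrimeSpectrum K0).asIdeal with h | h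
      · exact h
      · exact absurd h (PrimeSpectrum.isPrime _).ne_top
    rw [h7, map_ofNat, Ideal.mem_bot] at h6
    exact two_ne_zero h6) h3
  have : CharP (AlgebraicClosure (ZMod 2)) 2 := inferInstance
  obtain ⟨V, θ, s, -, -, hev⟩ := key 𝓗 ρ hρ x f hf (fanoCfg_good hα) hx
  exact fano_contra (by exact_mod_cast hK3) V hα θ (𝓗.Φ K (f ≫ pullback.fst _ _)).hom hev

end fin

end Pool.Agent.Helper947.Crv.LZ5

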