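import Mathlib
import Pool.Agent.Helper947.Crv.Sch
import Pool.Agent.Helper947.Crv.F6
import Pool.Agent.Helper947.Crv.F7
import Pool.Agent.Helper947.Crv.F9
import Pool.Agent.Helper947.Crv.H2
import Pool.Agent.Helper947.Crv.H4
import Pool.Agent.Helper947.Crv.H5
import Pool.Agent.Helper947.Crv.Z3
import Pool.Agent.Helper947.Crv.Z4

open MvPolynomial Filter CategoryTheory CategoryTheory.Limits AlgebraicGeometry

namespace Pool.Agent.Helper947.Crv.LZ6

section line

variable {K : Type*} [CommRing K]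

end line

namespace Cfg

variable {K : Type*} [CommRing K] {J M : Type} (c : Cfg K J M)

end Cfg

section defs2

variable {K : Type*} [Field K]

end defs2

section confdefs

end confdefs

section schdefs

end schdefs

section confalg

variable {K : Type*} [Field K]

end confalg

section basechange

variable {K K' : Type*} [Field K] [Field K'] (φ : K →+* K')

end basechange

section sch

end sch

section fincontra

end fincontra

section fin

theorem _root_.Pool.Agent.Helper947.Crv.main_mac {ω : AlgebraicClosure ℚ} (hω : ω ^ 2 + ω + 1 = 0)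
    (𝓗 : HilbertScheme 32 (-1067)) (x : HilbPt 32 (-1067) (AlgebraicClosure ℚ))
    (hx : x.I = (macCfg ω).J0) {Z : Set (bc 𝓗 (AlgebraicClosure ℚ))}
    (hZ : Z ∈ irreducibleComponents (bc 𝓗 (AlgebraicClosure ℚ))) (hxZ : ptOf 𝓗 x ∈ Z)
    (σ : AlgebraicClosure ℚ ≃+* AlgebraicClosure ℚ) (hσ : σ ω ≠ ω) :
    galAct 𝓗 σ '' Z ≠ Z := by
  intro hσZ
  have hirr : IsIrreducible Z := hZ.prop
  have hcl : IsClosed Z := isClosed_of_mem_irreducibleComponents Z hZ
  obtain ⟨η, hη⟩ := QuasiSober.sober hirr hcl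
  have hω' : (σ ω) ^ 2 + σ ω + 1 = 0 := by
    rw [← map_pow, ← map_add, ← map_one σ, ← map_add, hω, map_zero]
  have hc := macCfg_good hω
  have hc' := macCfg_good hω'
  obtain ⟨x', hx'⟩ := exists_pt hc' (d := 32) (g := -1067) (by simp) (by
    rw [macE_card]
    simp)
  have hmap : (macCfg ω).map (σ : AlgebraicClosure ℚ →+* AlgebraicClosure ℚ) = macCfg (σ ω) := by
    unfold macCfg
    rw [mkCfg_map]
    congr 1
    · funext j
      exact eis_map _ _ _
    · funext j
      exact eis_map _ _ _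
  have hgal : galAct 𝓗 σ (ptOf 𝓗 x) = ptOf 𝓗 x' := by
    apply galAct_ptOf
    have h1 := J0_map (σ : AlgebraicClosure ℚ →+* AlgebraicClosure ℚ) hc
    rw [eventually_atTop] at h1
    obtain ⟨m0, hm0⟩ := h1
    refine ⟨m0, fun m hm p hp => ?_⟩
    rw [hx, hx', hm0 m hm p hp, hmap]
  have hx'Z : ptOf 𝓗 x' ∈ Z := by
    rw [← hσZ, ← hgal]
    exact ⟨_, hxZ, rfl⟩
  have hsp : η ⤳ ptOf 𝓗 x := hη.specializes hxZ
  have hsp' : η ⤳ ptOf 𝓗 x' := hη.specializes hx'Z
  obtain ⟨K, _, _, f, hf⟩ := exists_geom η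
  have hid : ∀ p : bc 𝓗 (AlgebraicClosure ℚ), bcMap 𝓗 (RingHom.id (AlgebraicClosure ℚ)) p = p := by
    intro p
    rw [bcMap_id]
    rfl
  obtain ⟨V, θ, s, h1, h2, h3⟩ := key 𝓗 (RingHom.id (AlgebraicClosure ℚ))
    (fun a => ⟨a, rfl⟩) x f (by rw [hf, hid]; exact hsp) hc hx
  obtain ⟨V', θ', s', h1', h2', h3'⟩ := key 𝓗 (RingHom.id (AlgebraicClosure ℚ))
    (fun a => ⟨a, rfl⟩) x' f (by rw [hf, hid]; exact hsp') hc' hx'
  have hs : V.subtype.comp s = V'.subtype.comp s' := by
    have h4 := h2.trans h2'.symm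
    have h5 := Spec.map_injective h4
    exact congrArg CommRingCat.Hom.hom h5
  refine mac_contra hω hω' (fun h => hσ h.symm) V V' s s' hs
    (𝓗.Φ K (f ≫ pullback.fst _ _)).hom ?_ ?_
  · rw [h1]
    exact h3
  · rw [h1']
    exact h3'

end fin

end Pool.Agent.Helper947.Crv.LZ6

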